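import Mathlib
import Pool.Agent.N893.SM.Ord

set_option autoImplicit false
set_option linter.unusedSectionVars false

/-! # The law for all systems of linear forms -/

open MeasureTheory Filter Set
open scoped ENNReal Topology

namespace Pool.Agent.N893.SM

open Pool.Agent.R528.RM

variable {Ω : Type} {m0 : MeasurableSpace Ω} {μ : Measure Ω} [IsProbabilityMeasure μ]
  {ℱ : Filtration ℕ m0} {A : ℕ → Set Ω}

/-- the number of `n < x` such that all values are chosen -/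
noncomputable def TF (A : ℕ → Set Ω) (s : Finset (ℕ × ℕ)) (x : ℕ) (ω : Ω) : ℝ :=
  ∑ n ∈ Finset.range x, ∏ f ∈ s, In A (val f n) ω

/-- the expected number -/
noncomputable def EF (ρ : ℕ → ℝ) (s : Finset (ℕ × ℕ)) (x : ℕ) : ℝ :=
  ∑ n ∈ Finset.range x, ∏ f ∈ s, ρ (val f n)

open Classical in
/-- the mixed sums -/
noncomputable def Tm (A : ℕ → Set Ω) (ρ : ℕ → ℝ) (s : Finset (ℕ × ℕ)) (x j : ℕ) (ω : Ω) : ℝ :=
  ∑ n ∈ Finset.range x, if gd s n then Rj A ρ s j n ω else 0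

lemma Tm_nonneg {ρ : ℕ → ℝ} (hρ : ∀ n, 0 ≤ ρ n ∧ ρ n ≤ 1) (s : Finset (ℕ × ℕ)) (x j : ℕ) (ω : Ω) :
    0 ≤ Tm A ρ s x j ω := by
  classical
  unfold Tm
  refine Finset.sum_nonneg fun n _ => ?_
  split_ifs
  · exact (Rj01 hρ s j n ω).1
  · exact le_rfl

lemma Tm_succ {ρ : ℕ → ℝ} {s : Finset (ℕ × ℕ)} {j : ℕ} (hj : j < s.card) (x : ℕ) (ω : Ω) :
    Tm A ρ s x (j + 1) ω = ∑ n ∈ Finset.range x, Wj A ρ s j n ω * In A (us s j n) ω := by
  classical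
  unfold Tm
  refine Finset.sum_congr rfl fun n _ => ?_
  by_cases h : gd s n
  · rw [if_pos h, (R_step hj h ω).1]
  · rw [if_neg h]
    unfold Wj
    rw [if_neg h, zero_mul]

lemma Tm_self {ρ : ℕ → ℝ} {s : Finset (ℕ × ℕ)} {j : ℕ} (hj : j < s.card) (x : ℕ) (ω : Ω) :
    Tm A ρ s x j ω = ∑ n ∈ Finset.range x, Wj A ρ s j n ω * ρ (us s j n) := by
  classical
  unfold Tm
  refine Finset.sum_congr rfl fun n _ => ?_
  by_cases h : gd s n
  · rw [if_pos h, (R_step hj h ω).2]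
  · rw [if_neg h]
    unfold Wj
    rw [if_neg h, zero_mul]

lemma us_ge {s : Finset (ℕ × ℕ)} (hs : Pos s) {j : ℕ} (hj : j < s.card) (n : ℕ) : n + 1 ≤ us s j n := by
  induction n with
  | zero => exact us_pos hs hj 0
  | succ n ih =>
    have := us_mono hs hj (Nat.lt_succ_self n)
    simp only [Nat.succ_eq_add_one] at this
    omega

/-- one step -/
lemma Tm_step {ρ : ℕ → ℝ} (hρ : ∀ n, 0 ≤ ρ n ∧ ρ n ≤ 1) {ω : Ω} (h01 : ∀ n, 0 ≤ dens μ ℱ A n ω ∧ dens μ ℱ A n ω ≤ 1)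
    {ε θ δ t : ℝ} (hε : 0 ≤ ε) (hε1 : ε ≤ 1) (hθ : 0 < θ) (hθ1 : θ ≤ 1) (hd1 : (1 + θ) * (1 + ε) ≤ 1 + δ)
    (hd2 : 1 - δ ≤ (1 - θ) * (1 - ε)) {N : ℕ}
    (hN : ∀ n, N ≤ n → |dens μ ℱ A n ω - ρ (n + 1)| ≤ ε * ρ (n + 1))
    {s : Finset (ℕ × ℕ)} (hs : Pos s) {j : ℕ} (hj : j < s.card) (x : ℕ)
    (ha : Gx μ ℱ A θ (us s j) (Wj A ρ s j) x ω < t) (hb : Gx μ ℱ A (-θ) (us s j) (Wj A ρ s j) x ω < t) :
    (1 - δ) * Tm A ρ s x j ω - (2 * N + t / θ) ≤ Tm A ρ s x (j + 1) ω ∧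
    Tm A ρ s x (j + 1) ω ≤ (1 + δ) * Tm A ρ s x j ω + (2 * N + t / θ) := by
  classical
  have hW := fun n => Wj01 (A := A) hρ s j n ω
  obtain ⟨g1, g2⟩ := Gx_two hθ hθ1 (fun n => (h01 n).1) (fun n => (hW n).1) ha hb
  rw [← Tm_succ hj] at g1 g2
  have hT0 := Tm_nonneg (A := A) hρ s x j ω
  have hN0 : (0 : ℝ) ≤ N := Nat.cast_nonneg N
  set D := ∑ k ∈ Finset.range x, Wj A ρ s j k ω * dens μ ℱ A (us s j k - 1) ω with hD
  have hdiff : |D - Tm A ρ s x j ω| ≤ N + ε * Tm A ρ s x j ω := by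
    rw [Tm_self hj, hD, ← Finset.sum_sub_distrib]
    have b1 : ∀ k ∈ Finset.range x, |Wj A ρ s j k ω * dens μ ℱ A (us s j k - 1) ω - Wj A ρ s j k ω * ρ (us s j k)| ≤
        (if k < N then 1 else 0) + ε * (Wj A ρ s j k ω * ρ (us s j k)) := by
      intro k _
      have hu1 := us_pos hs hj k
      have hu2 : k + 1 ≤ us s j k := us_ge hs hj k
      rw [← mul_sub, abs_mul, abs_of_nonneg (hW k).1]
      have c3 : 0 ≤ ε * (Wj A ρ s j k ω * ρ (us s j k)) := mul_nonneg hε (mul_nonneg (hW k).1 (hρ _).1)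
      split_ifs with hk
      · have c1 : |dens μ ℱ A (us s j k - 1) ω - ρ (us s j k)| ≤ 1 := by
          rw [abs_le]
          have := h01 (us s j k - 1)
          have := hρ (us s j k)
          constructor <;> linarith
        have c2 : Wj A ρ s j k ω * |dens μ ℱ A (us s j k - 1) ω - ρ (us s j k)| ≤ 1 := mul_le_one₀ (hW k).2 (abs_nonneg _) c1
        linarith
      · have c1 := hN (us s j k - 1) (by omega)
        rw [show us s j k - 1 + 1 = us s j k by omega] at c1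
        rw [zero_add]
        calc Wj A ρ s j k ω * |dens μ ℱ A (us s j k - 1) ω - ρ (us s j k)| ≤ Wj A ρ s j k ω * (ε * ρ (us s j k)) :=
              mul_le_mul_of_nonneg_left c1 (hW k).1
          _ = _ := by ring
    refine (Finset.abs_sum_le_sum_abs _ _).trans ((Finset.sum_le_sum b1).trans ?_)
    rw [Finset.sum_add_distrib, ← Finset.mul_sum]
    refine add_le_add ?_ le_rfl
    rw [Finset.sum_boole]
    have b2 : (Finset.filter (fun k => k < N) (Finset.range x)) ⊆ Finset.range N := by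
      intro k hk
      exact Finset.mem_range.2 (Finset.mem_filter.1 hk).2
    have b3 := Finset.card_le_card b2
    rw [Finset.card_range] at b3
    exact_mod_cast b3
  have hd := abs_le.1 hdiff
  set T := Tm A ρ s x j ω
  constructor
  · have h1 : (1 - θ) * ((1 - ε) * T - N) ≤ (1 - θ) * D := mul_le_mul_of_nonneg_left (by linarith [hd.1]) (by linarith)
    have h2 : (1 - δ) * T ≤ (1 - θ) * (1 - ε) * T := mul_le_mul_of_nonneg_right hd2 hT0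
    nlinarith
  · have h1 : (1 + θ) * D ≤ (1 + θ) * ((1 + ε) * T + N) := mul_le_mul_of_nonneg_left (by linarith [hd.2]) (by linarith)
    have h2 : (1 + θ) * (1 + ε) * T ≤ (1 + δ) * T := mul_le_mul_of_nonneg_right hd1 hT0
    nlinarith

/-- all steps -/
lemma Tm_bounds {ρ : ℕ → ℝ} (hρ : ∀ n, 0 ≤ ρ n ∧ ρ n ≤ 1) {ω : Ω} (h01 : ∀ n, 0 ≤ dens μ ℱ A n ω ∧ dens μ ℱ A n ω ≤ 1)
    {ε θ δ t : ℝ} (hε : 0 ≤ ε) (hε1 : ε ≤ 1) (hθ : 0 < θ) (hθ1 : θ ≤ 1) (hδ0 : 0 ≤ δ) (hδ1 : δ ≤ 1)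
    (hd1 : (1 + θ) * (1 + ε) ≤ 1 + δ) (ht : 0 ≤ t)
    (hd2 : 1 - δ ≤ (1 - θ) * (1 - ε)) {N : ℕ}
    (hN : ∀ n, N ≤ n → |dens μ ℱ A n ω - ρ (n + 1)| ≤ ε * ρ (n + 1))
    {s : Finset (ℕ × ℕ)} (hs : Pos s) (x : ℕ)
    (hab : ∀ j, j < s.card → Gx μ ℱ A θ (us s j) (Wj A ρ s j) x ω < t ∧ Gx μ ℱ A (-θ) (us s j) (Wj A ρ s j) x ω < t)
    (j : ℕ) : j ≤ s.card →
    (1 - δ) ^ j * Tm A ρ s x 0 ω - j * (2 * N + t / θ) ≤ Tm A ρ s x j ω ∧
    Tm A ρ s x j ω ≤ (1 + δ) ^ j * (Tm A ρ s x 0 ω + j * (2 * N + t / θ)) := by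
  have hN0 : (0 : ℝ) ≤ N := Nat.cast_nonneg N
  have hM0 : 0 ≤ 2 * (N : ℝ) + t / θ := by positivity
  set M := 2 * (N : ℝ) + t / θ with hM
  set E := Tm A ρ s x 0 ω with hE
  have hE0 : 0 ≤ E := Tm_nonneg hρ s x 0 ω
  induction j with
  | zero =>
    intro _
    simp [hE]
  | succ j ih =>
    intro hj
    have h1 := ih (by omega)
    obtain ⟨h2, h3⟩ := Tm_step (μ := μ) hρ h01 hε hε1 hθ hθ1 hd1 hd2 hN hs (show j < s.card by omega) x
      (hab j (by omega)).1 (hab j (by omega)).2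
    rw [← hM] at h2 h3
    set T := Tm A ρ s x j ω
    push_cast
    constructor
    · have h7 : (1 - δ) * ((1 - δ) ^ j * E - j * M) ≤ (1 - δ) * T :=
        mul_le_mul_of_nonneg_left h1.1 (by linarith)
      have h8 : 0 ≤ δ * (j * M) := by positivity
      calc (1 - δ) ^ (j + 1) * E - (j + 1) * M ≤ (1 - δ) * ((1 - δ) ^ j * E - j * M) - M := by
            rw [pow_succ]
            nlinarith
        _ ≤ _ := by linarith
    · have h7 : (1 + δ) * T ≤ (1 + δ) * ((1 + δ) ^ j * (E + j * M)) :=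
        mul_le_mul_of_nonneg_left h1.2 (by linarith)
      have h8 : (1 : ℝ) ≤ (1 + δ) ^ (j + 1) := one_le_pow₀ (by linarith)
      have h9 : M ≤ (1 + δ) ^ (j + 1) * M := le_mul_of_one_le_left hM0 h8
      calc Tm A ρ s x (j + 1) ω ≤ (1 + δ) * ((1 + δ) ^ j * (E + j * M)) + (1 + δ) ^ (j + 1) * M := by linarith
        _ = _ := by ring

/-- the good places carry almost everything -/
lemma good_part {F : ℕ → ℝ} (hF : ∀ n, 0 ≤ F n ∧ F n ≤ 1) (s : Finset (ℕ × ℕ)) (x : ℕ) [DecidablePred (gd s)] :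
    ∑ n ∈ Finset.range x, (if gd s n then F n else 0) ≤ ∑ n ∈ Finset.range x, F n ∧
    ∑ n ∈ Finset.range x, F n ≤ ∑ n ∈ Finset.range x, (if gd s n then F n else 0) + (s.card : ℝ) ^ 2 := by
  classical
  constructor
  · refine Finset.sum_le_sum fun n _ => ?_
    split_ifs
    · exact le_rfl
    · exact (hF n).1
  · have h1 : ∀ n ∈ Finset.range x, F n ≤ (if gd s n then F n else 0) + (if ¬ gd s n then 1 else 0) := by
      intro n _
      by_cases h : gd s n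
      · simp [h]
      · simp [h, (hF n).2]
    refine (Finset.sum_le_sum h1).trans ?_
    rw [Finset.sum_add_distrib]
    refine add_le_add le_rfl ?_
    rw [Finset.sum_boole]
    have h2 := few_bad s x
    have h3 : ((Finset.filter (fun n => ¬ gd s n) (Finset.range x)).card : ℝ) ≤ ((s.card ^ 2 : ℕ) : ℝ) := by
      refine Nat.cast_le.2 (le_trans (le_of_eq ?_) h2)
      congr 1
      ext n
      simp
    push_cast at h3
    exact h3

/-- the deviations are small for all systems -/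
theorem errs (hA : ∀ n, MeasurableSet[ℱ n] (A n)) (ρ : ℕ → ℝ) (hρ : ∀ n, 0 ≤ ρ n ∧ ρ n ≤ 1) (θ : ℝ) :
    ∀ᵐ ω ∂μ, ∀ᶠ Y : ℕ in atTop, ∀ x ≤ Y, ∀ s : Finset (ℕ × ℕ), s ⊆ Finset.Icc 1 Y ×ˢ Finset.Icc 1 Y → ∀ j < s.card,
      Gx μ ℱ A θ (us s j) (Wj A ρ s j) x ω < 12 * s.card * Real.log Y := by
  classical
  set Bad : ℕ → Set Ω := fun Y => ⋃ x ∈ Finset.range (Y + 1),
    ⋃ s ∈ (Finset.Icc 1 Y ×ˢ Finset.Icc 1 Y).powerset.filter (·.Nonempty), ⋃ j ∈ Finset.range s.card,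
    {ω | 12 * s.card * Real.log Y ≤ Gx μ ℱ A θ (us s j) (Wj A ρ s j) x ω} with hBad
  have hsum : Summable (fun Y : ℕ => 4 * ((Y : ℝ) ^ 2)⁻¹) :=
    (Real.summable_nat_pow_inv.2 (by norm_num)).mul_left 4
  have hb : ∀ᶠ Y in atTop, μ.real (Bad Y) ≤ 4 * ((Y : ℝ) ^ 2)⁻¹ := by
    filter_upwards [eventually_ge_atTop 2] with Y hY
    have hY' : (2 : ℝ) ≤ Y := by exact_mod_cast hY
    have hY0 : (0 : ℝ) < Y := by linarith
    have hlog : 0 < Real.log (Y : ℝ) := Real.log_pos (by linarith)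
    set y : ℝ := ((Y : ℝ) ^ 5)⁻¹ with hy
    have hy0 : 0 < y := by positivity
    have h1 : ∀ x : ℕ, ∀ s : Finset (ℕ × ℕ), s ⊆ Finset.Icc 1 Y ×ˢ Finset.Icc 1 Y → ∀ j ∈ Finset.range s.card,
        μ.real {ω | 12 * s.card * Real.log Y ≤ Gx μ ℱ A θ (us s j) (Wj A ρ s j) x ω} ≤ ((Y : ℝ) ^ (12 * s.card))⁻¹ := by
      intro x s hs j hj
      have hj' := Finset.mem_range.1 hj
      have hPos : Pos s := by
        intro f hf
        have := Finset.mem_product.1 (hs hf)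
        exact ⟨(Finset.mem_Icc.1 this.1).1, (Finset.mem_Icc.1 this.2).1⟩
      have h2 := Gx_tail (μ := μ) hA θ (us_mono hPos hj') (us_pos hPos hj') (fun k => Wj_meas hA ρ hj' k)
        (fun k ω => Wj01 hρ s j k ω) x (12 * s.card * Real.log Y)
      refine h2.trans (le_of_eq ?_)
      rw [Real.exp_neg]
      congr 1
      rw [← Real.rpow_natCast, Real.rpow_def_of_pos hY0]
      congr 1
      push_cast
      ring
    have h2 : μ.real (Bad Y) ≤ ∑ x ∈ Finset.range (Y + 1), ∑ s ∈ (Finset.Icc 1 Y ×ˢ Finset.Icc 1 Y).powerset.filter (·.Nonempty),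
        ((Y : ℝ) ^ 5)⁻¹ * y ^ s.card := by
      refine (measureReal_biUnion_finset_le _ _).trans (Finset.sum_le_sum fun x _ => ?_)
      refine (measureReal_biUnion_finset_le _ _).trans (Finset.sum_le_sum fun s hs => ?_)
      have hs1 := Finset.mem_powerset.1 (Finset.mem_filter.1 hs).1
      have hs2 : 1 ≤ s.card := Finset.card_pos.2 (Finset.mem_filter.1 hs).2
      refine (measureReal_biUnion_finset_le _ _).trans ((Finset.sum_le_sum fun j hj => h1 x s hs1 j hj).trans ?_)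
      rw [Finset.sum_const, nsmul_eq_mul, Finset.card_range]
      have e1 : (Y : ℝ) ^ (12 * s.card) = (Y : ℝ) ^ (5 * s.card) * ((Y : ℝ) ^ (5 * s.card) * (Y : ℝ) ^ (2 * s.card)) := by
        rw [← pow_add, ← pow_add]; congr 1; ring
      have e2 : (s.card : ℝ) ≤ (Y : ℝ) ^ (2 * s.card) := by
        have g1 : s.card < 2 ^ s.card := Nat.lt_two_pow_self
        have g2 : (2 : ℝ) ^ s.card ≤ (Y : ℝ) ^ s.card := pow_le_pow_left₀ (by norm_num) hY' _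
        have g3 : (Y : ℝ) ^ s.card ≤ (Y : ℝ) ^ (2 * s.card) := pow_le_pow_right₀ (by linarith) (by omega)
        have g4 : (s.card : ℝ) ≤ (2 : ℝ) ^ s.card := by exact_mod_cast g1.le
        linarith
      have e3 : y ^ s.card = ((Y : ℝ) ^ (5 * s.card))⁻¹ := by
        rw [hy, inv_pow, ← pow_mul]
      have e4 : (Y : ℝ) ^ 5 ≤ (Y : ℝ) ^ (5 * s.card) := pow_le_pow_right₀ (by linarith) (by omega)
      have p1 : 0 < (Y : ℝ) ^ (5 * s.card) := by positivity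
      have p2 : 0 < (Y : ℝ) ^ (2 * s.card) := by positivity
      have p3 : 0 < (Y : ℝ) ^ 5 := by positivity
      rw [e1, e3, mul_inv, mul_inv]
      have e5 : (s.card : ℝ) * ((Y : ℝ) ^ (2 * s.card))⁻¹ ≤ 1 := by
        rw [← div_eq_mul_inv, div_le_one p2]; exact e2
      have e6 : ((Y : ℝ) ^ (5 * s.card))⁻¹ ≤ ((Y : ℝ) ^ 5)⁻¹ := inv_anti₀ p3 e4
      calc (s.card : ℝ) * (((Y : ℝ) ^ (5 * s.card))⁻¹ * (((Y : ℝ) ^ (5 * s.card))⁻¹ * ((Y : ℝ) ^ (2 * s.card))⁻¹)) =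
          (((Y : ℝ) ^ (5 * s.card))⁻¹ * ((Y : ℝ) ^ (5 * s.card))⁻¹) * ((s.card : ℝ) * ((Y : ℝ) ^ (2 * s.card))⁻¹) := by ring
        _ ≤ (((Y : ℝ) ^ (5 * s.card))⁻¹ * ((Y : ℝ) ^ (5 * s.card))⁻¹) * 1 := mul_le_mul_of_nonneg_left e5 (by positivity)
        _ = ((Y : ℝ) ^ (5 * s.card))⁻¹ * ((Y : ℝ) ^ (5 * s.card))⁻¹ := mul_one _
        _ ≤ ((Y : ℝ) ^ 5)⁻¹ * ((Y : ℝ) ^ (5 * s.card))⁻¹ := mul_le_mul_of_nonneg_right e6 (by positivity)
    have hNcard : (Finset.Icc 1 Y ×ˢ Finset.Icc 1 Y).card = Y ^ 2 := by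
      rw [Finset.card_product, Nat.card_Icc, Nat.add_sub_cancel, sq]
    have h3 : ∑ s ∈ (Finset.Icc 1 Y ×ˢ Finset.Icc 1 Y).powerset.filter (·.Nonempty), ((Y : ℝ) ^ 5)⁻¹ * y ^ s.card ≤
        ((Y : ℝ) ^ 5)⁻¹ * 2 := by
      rw [← Finset.mul_sum]
      refine mul_le_mul_of_nonneg_left ?_ (by positivity)
      have h4 := Finset.sum_pow_mul_eq_add_pow y 1 (Finset.Icc 1 Y ×ˢ Finset.Icc 1 Y)
      simp only [one_pow, mul_one] at h4
      rw [hNcard] at h4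
      refine (Finset.sum_le_sum_of_subset_of_nonneg (Finset.filter_subset _ _) fun _ _ _ => by positivity).trans ?_
      rw [h4]
      have e1 : (y + 1) ^ (Y ^ 2) ≤ Real.exp (y * (Y : ℝ) ^ 2) := by
        have g1 : y + 1 ≤ Real.exp y := Real.add_one_le_exp y
        calc (y + 1) ^ (Y ^ 2) ≤ (Real.exp y) ^ (Y ^ 2) := pow_le_pow_left₀ (by linarith) g1 _
          _ = _ := by
            rw [← Real.exp_nat_mul]
            congr 1
            push_cast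
            ring
      have e2 : y * (Y : ℝ) ^ 2 ≤ 1 / 2 := by
        rw [hy, inv_mul_le_iff₀ (by positivity)]
        have g1 : (Y : ℝ) ^ 5 = (Y : ℝ) ^ 2 * (Y : ℝ) ^ 3 := by ring
        have g2 : (2 : ℝ) ≤ (Y : ℝ) ^ 3 := by nlinarith [sq_nonneg (Y : ℝ)]
        rw [g1]
        nlinarith [sq_nonneg (Y : ℝ)]
      have e3 : Real.exp (1 / 2) ≤ 2 := by
        have h := Real.abs_exp_sub_one_sub_id_le (x := (1 / 2 : ℝ)) (by rw [abs_of_pos (by norm_num)]; norm_num)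
        have := (abs_le.1 h).2
        norm_num at this ⊢
        linarith
      exact e1.trans ((Real.exp_le_exp.2 e2).trans e3)
    have h4 : μ.real (Bad Y) ≤ ((Y : ℝ) + 1) * (((Y : ℝ) ^ 5)⁻¹ * 2) := by
      refine h2.trans ((Finset.sum_le_sum fun x _ => h3).trans ?_)
      rw [Finset.sum_const, Finset.card_range, nsmul_eq_mul]
      push_cast
      exact le_rfl
    refine h4.trans ?_
    have g1 : ((Y : ℝ) ^ 5)⁻¹ = ((Y : ℝ) ^ 2)⁻¹ * ((Y : ℝ) ^ 3)⁻¹ := by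
      rw [← mul_inv, ← pow_add]
    have g2 : ((Y : ℝ) + 1) * ((Y : ℝ) ^ 3)⁻¹ ≤ 2 := by
      rw [← div_eq_mul_inv, div_le_iff₀ (by positivity)]
      nlinarith [sq_nonneg (Y : ℝ), mul_pos hY0 hY0, mul_pos (mul_pos hY0 hY0) hY0]
    rw [g1]
    have g3 : 0 ≤ ((Y : ℝ) ^ 2)⁻¹ := by positivity
    calc ((Y : ℝ) + 1) * (((Y : ℝ) ^ 2)⁻¹ * ((Y : ℝ) ^ 3)⁻¹ * 2) = (((Y : ℝ) + 1) * ((Y : ℝ) ^ 3)⁻¹) * (((Y : ℝ) ^ 2)⁻¹ * 2) := by ring
      _ ≤ 2 * (((Y : ℝ) ^ 2)⁻¹ * 2) := mul_le_mul_of_nonneg_right g2 (by positivity)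
      _ = _ := by ring
  filter_upwards [bc_real (μ := μ) hsum hb] with ω hω
  filter_upwards [hω] with Y hY x hx s hs j hj
  by_contra hcon
  apply hY
  simp only [hBad, Set.mem_iUnion]
  refine ⟨x, Finset.mem_range.2 (by omega), s, Finset.mem_filter.2 ⟨Finset.mem_powerset.2 hs,
    Finset.card_pos.1 (by omega)⟩, j, Finset.mem_range.2 hj, ?_⟩
  exact not_lt.1 hcon

/-- **the law for all systems of linear forms** -/
theorem law (hA : ∀ n, MeasurableSet[ℱ n] (A n)) (ρ : ℕ → ℝ) (hρ : ∀ n, 0 ≤ ρ n ∧ ρ n ≤ 1)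
    (hd : ∀ᵐ ω ∂μ, ∀ ε : ℝ, 0 < ε → ∀ᶠ n : ℕ in atTop, |dens μ ℱ A n ω - ρ (n + 1)| ≤ ε * ρ (n + 1)) :
    ∀ᵐ ω ∂μ, ∀ δ : ℝ, 0 < δ → δ ≤ 1 → ∃ K : ℝ, 0 < K ∧ ∀ᶠ Y : ℕ in atTop, ∀ x ≤ Y, ∀ s : Finset (ℕ × ℕ),
      s ⊆ Finset.Icc 1 Y ×ˢ Finset.Icc 1 Y →
      (1 - δ) ^ s.card * EF ρ s x - K * (s.card : ℝ) ^ 3 * Real.log Y ≤ TF A s x ω ∧
      TF A s x ω ≤ (1 + δ) ^ s.card * (EF ρ s x + K * (s.card : ℝ) ^ 3 * Real.log Y) := by
  classical
  have h01 : ∀ᵐ ω ∂μ, ∀ n, 0 ≤ dens μ ℱ A n ω ∧ dens μ ℱ A n ω ≤ 1 := ae_all_iff.2 fun n => dens01 hA n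
  have he1 : ∀ᵐ ω ∂μ, ∀ m : ℕ, ∀ᶠ Y : ℕ in atTop, ∀ x ≤ Y, ∀ s : Finset (ℕ × ℕ), s ⊆ Finset.Icc 1 Y ×ˢ Finset.Icc 1 Y →
      ∀ j < s.card, Gx μ ℱ A (1 / ((m : ℝ) + 1)) (us s j) (Wj A ρ s j) x ω < 12 * s.card * Real.log Y :=
    ae_all_iff.2 fun m => errs hA ρ hρ _
  have he2 : ∀ᵐ ω ∂μ, ∀ m : ℕ, ∀ᶠ Y : ℕ in atTop, ∀ x ≤ Y, ∀ s : Finset (ℕ × ℕ), s ⊆ Finset.Icc 1 Y ×ˢ Finset.Icc 1 Y →
      ∀ j < s.card, Gx μ ℱ A (-(1 / ((m : ℝ) + 1))) (us s j) (Wj A ρ s j) x ω < 12 * s.card * Real.log Y :=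
    ae_all_iff.2 fun m => errs hA ρ hρ _
  filter_upwards [h01, he1, he2, hd] with ω h1 h2 h3 h4 δ hδ0 hδ1
  obtain ⟨m, hm⟩ := exists_nat_one_div_lt (show (0 : ℝ) < δ / 3 by positivity)
  have hm0 : (0 : ℝ) ≤ m := Nat.cast_nonneg m
  set θ : ℝ := 1 / ((m : ℝ) + 1) with hθ
  have hθ0 : 0 < θ := by positivity
  have hθ1 : θ ≤ 1 := by linarith
  set K : ℝ := 12 * ((m : ℝ) + 1) + 3 with hK
  refine ⟨K, by positivity, ?_⟩
  obtain ⟨N, hN⟩ := eventually_atTop.1 (h4 (δ / 3) (by positivity))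
  filter_upwards [h2 m, h3 m, tendsto_log.eventually_ge_atTop (N : ℝ), tendsto_log.eventually_ge_atTop (1 : ℝ)]
    with Y hY1 hY2 hY3 hY4 x hx s hs
  rcases Finset.eq_empty_or_nonempty s with hse | hsne
  · subst hse
    simp [TF, EF]
  have hk1 : 1 ≤ s.card := Finset.card_pos.2 hsne
  have hk : (1 : ℝ) ≤ s.card := by exact_mod_cast hk1
  have hPos : Pos s := by
    intro f hf
    have := Finset.mem_product.1 (hs hf)
    exact ⟨(Finset.mem_Icc.1 this.1).1, (Finset.mem_Icc.1 this.2).1⟩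
  have hL0 : 0 < Real.log (Y : ℝ) := by linarith
  set t : ℝ := 12 * s.card * Real.log Y with ht
  have ht0 : 0 ≤ t := by positivity
  have h5 := Tm_bounds (μ := μ) hρ h1 (ε := δ / 3) (θ := θ) (δ := δ) (t := t) (by positivity) (by linarith) hθ0 hθ1
    hδ0.le hδ1 (by nlinarith) ht0 (by nlinarith) hN hPos x (fun j hj => ⟨hY1 x hx s hs j hj, hY2 x hx s hs j hj⟩)
    s.card le_rfl
  -- comparison with the full sums
  have hE : ∀ n, 0 ≤ ∏ f ∈ s, ρ (val f n) ∧ ∏ f ∈ s, ρ (val f n) ≤ 1 := fun n =>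
    ⟨Finset.prod_nonneg fun f _ => (hρ _).1, Finset.prod_le_one (fun f _ => (hρ _).1) fun f _ => (hρ _).2⟩
  have hT : ∀ n, 0 ≤ ∏ f ∈ s, In A (val f n) ω ∧ ∏ f ∈ s, In A (val f n) ω ≤ 1 := fun n =>
    ⟨Finset.prod_nonneg fun f _ => In_nonneg _ _, Finset.prod_le_one (fun f _ => In_nonneg _ _) fun f _ => In_le _ _⟩
  have g1 := good_part hE s x
  have g2 := good_part hT s x
  have e1 : Tm A ρ s x 0 ω = ∑ n ∈ Finset.range x, if gd s n then ∏ f ∈ s, ρ (val f n) else 0 := by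
    unfold Tm
    refine Finset.sum_congr rfl fun n _ => ?_
    rw [R_zero]
  have e2 : Tm A ρ s x s.card ω = ∑ n ∈ Finset.range x, if gd s n then ∏ f ∈ s, In A (val f n) ω else 0 := by
    unfold Tm
    refine Finset.sum_congr rfl fun n _ => ?_
    rw [R_card]
  rw [← e1] at g1
  rw [← e2] at g2
  set Eg := Tm A ρ s x 0 ω
  set Tg := Tm A ρ s x s.card ω
  have e3 : EF ρ s x = ∑ n ∈ Finset.range x, ∏ f ∈ s, ρ (val f n) := rfl
  have e4 : TF A s x ω = ∑ n ∈ Finset.range x, ∏ f ∈ s, In A (val f n) ω := rfl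
  rw [← e3] at g1
  rw [← e4] at g2
  set k : ℝ := (s.card : ℝ) with hkdef
  set L := Real.log (Y : ℝ)
  have hM : k * (2 * N + t / θ) + k ^ 2 ≤ K * k ^ 3 * L := by
    have f1 : t / θ = 12 * k * L * (m + 1) := by
      rw [hθ, ht]
      field_simp
    rw [f1, hK]
    have f2 : k ≤ k ^ 2 := by nlinarith
    have f3 : k ^ 2 ≤ k ^ 3 := by nlinarith [sq_nonneg k]
    have f4 : k * (2 * N) ≤ 2 * k ^ 3 * L := by
      have : k * (2 * N) ≤ k * (2 * L) := mul_le_mul_of_nonneg_left (by linarith) (by linarith)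
      have : k * (2 * L) ≤ k ^ 3 * (2 * L) := mul_le_mul_of_nonneg_right (by linarith) (by linarith)
      linarith
    have f5 : k * (12 * k * L * (m + 1)) ≤ 12 * (m + 1) * k ^ 3 * L := by
      have : k ^ 2 * (12 * L * (m + 1)) ≤ k ^ 3 * (12 * L * (m + 1)) := mul_le_mul_of_nonneg_right f3 (by positivity)
      nlinarith
    have f6 : k ^ 2 ≤ k ^ 3 * L := by
      have : k ^ 3 * 1 ≤ k ^ 3 * L := mul_le_mul_of_nonneg_left hY4 (by positivity)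
      linarith
    nlinarith
  have hpow1 : (1 - δ) ^ s.card ≤ 1 := pow_le_one₀ (by linarith) (by linarith)
  have hpow0 : 0 ≤ (1 - δ) ^ s.card := pow_nonneg (by linarith) _
  have hpow2 : 1 ≤ (1 + δ) ^ s.card := one_le_pow₀ (by linarith)
  have hk2 : 0 ≤ k ^ 2 := sq_nonneg k
  constructor
  · have f1 : (1 - δ) ^ s.card * EF ρ s x ≤ (1 - δ) ^ s.card * (Eg + k ^ 2) := mul_le_mul_of_nonneg_left g1.2 hpow0
    have f2 : (1 - δ) ^ s.card * k ^ 2 ≤ 1 * k ^ 2 := mul_le_mul_of_nonneg_right hpow1 hk2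
    have f3 := h5.1
    nlinarith [g2.1]
  · have f1 : (1 + δ) ^ s.card * (Eg + k * (2 * N + t / θ)) + k ^ 2 ≤
        (1 + δ) ^ s.card * (EF ρ s x + K * k ^ 3 * L) := by
      have f2 : 1 * k ^ 2 ≤ (1 + δ) ^ s.card * k ^ 2 := mul_le_mul_of_nonneg_right hpow2 hk2
      have f3 : (1 + δ) ^ s.card * (Eg + (k * (2 * N + t / θ) + k ^ 2)) ≤ (1 + δ) ^ s.card * (EF ρ s x + K * k ^ 3 * L) :=
        mul_le_mul_of_nonneg_left (by linarith [g1.1]) (by linarith)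
      nlinarith
    have f4 := h5.2
    linarith [g2.2]

end Pool.Agent.N893.SM
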