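import Mathlib
import Pool.Agent.N893.SM.Law
import Pool.Agent.N893.SM.Tup

set_option autoImplicit false
set_option linter.unusedSectionVars false

/-! # Tuples of growing length -/

open MeasureTheory Filter Set
open scoped ENNReal Topology

namespace Pool.Agent.N893.SM

open Pool.Agent.R528.RM

variable {Ω : Type} {m0 : MeasurableSpace Ω} {μ : Measure Ω} [IsProbabilityMeasure μ]
  {ℱ : Filtration ℕ m0} {A : ℕ → Set Ω}

/-- shifts as forms -/
def shf (H : Finset ℕ) : Finset (ℕ × ℕ) := H.image (fun d => (1, d + 1))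

lemma shf_inj : Function.Injective (fun d : ℕ => ((1, d + 1) : ℕ × ℕ)) := by
  intro a b h
  have := congrArg Prod.snd h
  simp only at this
  omega

lemma shf_card (H : Finset ℕ) : (shf H).card = H.card := Finset.card_image_of_injective _ shf_inj

lemma shf_prod (H : Finset ℕ) (F : ℕ → ℝ) (n : ℕ) : ∏ f ∈ shf H, F (val f n) = ∏ h ∈ H, F (n + 1 + h) := by
  unfold shf
  rw [Finset.prod_image (fun a _ b _ h => shf_inj h)]
  refine Finset.prod_congr rfl fun d _ => ?_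
  congr 1
  unfold val
  ring

lemma TF_shf (ρ : ℕ → ℝ) (H : Finset ℕ) (x : ℕ) (ω : Ω) : TF A (shf H) x ω = TN A ρ x H ∅ ω := by
  unfold TF TN
  refine Finset.sum_congr rfl fun n _ => ?_
  rw [shf_prod H (fun m => In A m ω), Finset.prod_empty, mul_one]

lemma EF_shf (ρ : ℕ → ℝ) (H : Finset ℕ) (x : ℕ) (ω : Ω) : EF ρ (shf H) x = TN A ρ x ∅ H ω := by
  unfold EF TN
  refine Finset.sum_congr rfl fun n _ => ?_
  rw [shf_prod H ρ, Finset.prod_empty, one_mul]

lemma shf_sub {H : Finset ℕ} {x C : ℕ} (hx : 2 ≤ x) (hH : H ⊆ Finset.range (x ^ C + 1)) :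
    shf H ⊆ Finset.Icc 1 (x ^ (C + 1)) ×ˢ Finset.Icc 1 (x ^ (C + 1)) := by
  intro f hf
  unfold shf at hf
  obtain ⟨d, hd, rfl⟩ := Finset.mem_image.1 hf
  have h1 := Finset.mem_range.1 (hH hd)
  have h2 : x ^ C * 2 ≤ x ^ C * x := Nat.mul_le_mul_left _ hx
  have h3 : 1 ≤ x ^ C := Nat.one_le_pow _ _ (by omega)
  have h4 : x ^ (C + 1) = x ^ C * x := pow_succ x C
  rw [Finset.mem_product, Finset.mem_Icc, Finset.mem_Icc]
  refine ⟨⟨le_rfl, ?_⟩, ?_, ?_⟩ <;> simp only <;> omega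

/-- a power with growing exponent -/
lemma pow_low {c δ : ℝ} {C : ℕ} (hc : 0 < c) (hδ0 : 0 < δ) (hδ1 : δ < 1) {x : ℝ} (hx : 0 < x)
    (hL : 0 < Real.log x) (hLL : 0 < Real.log (Real.log x)) (hB : Real.log ((C + 2) / c) ≤ δ / 4 * Real.log (Real.log x))
    {k : ℕ} (hk : (k : ℝ) ≤ (1 - δ) * (Real.log x / Real.log (Real.log x))) :
    x ^ (3 * δ / 4) ≤ x * (c / ((C + 2) * Real.log x)) ^ k := by
  have h1 : c / ((C + 2) * Real.log x) = Real.exp (-(Real.log (Real.log x) + Real.log ((C + 2) / c))) := by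
    rw [Real.exp_neg, Real.exp_add, Real.exp_log hL, Real.exp_log (by positivity)]
    field_simp
  rw [h1, ← Real.exp_nat_mul]
  have h2 : x = Real.exp (Real.log x) := (Real.exp_log hx).symm
  have h3 : x ^ (3 * δ / 4) = Real.exp (Real.log x * (3 * δ / 4)) := Real.rpow_def_of_pos hx _
  rw [h3]
  conv_rhs => rw [h2]
  rw [Real.log_exp, ← Real.exp_add]
  apply Real.exp_le_exp.2
  set L := Real.log x
  set M := Real.log L
  have h4 : (k : ℝ) * (M + Real.log ((C + 2) / c)) ≤ (1 - 3 * δ / 4) * L := by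
    have h5 : M + Real.log ((C + 2) / c) ≤ (1 + δ / 4) * M := by linarith
    have h6 : (k : ℝ) * (M + Real.log ((C + 2) / c)) ≤ k * ((1 + δ / 4) * M) :=
      mul_le_mul_of_nonneg_left h5 (Nat.cast_nonneg k)
    have h7 : k * ((1 + δ / 4) * M) ≤ (1 - δ) * (L / M) * ((1 + δ / 4) * M) :=
      mul_le_mul_of_nonneg_right hk (by positivity)
    have h8 : (1 - δ) * (L / M) * ((1 + δ / 4) * M) = (1 - δ) * (1 + δ / 4) * L := by
      field_simp
    have h9 : (1 - δ) * (1 + δ / 4) * L ≤ (1 - 3 * δ / 4) * L := mul_le_mul_of_nonneg_right (by nlinarith) hL.le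
    linarith
  nlinarith

/-- the profile -/
lemma profile (hA : ∀ n, MeasurableSet[ℱ n] (A n)) (Q : Finset ℕ) (hQ : ∀ p ∈ Q, p.Prime)
    (hcop : ∀ n, (∃ p ∈ Q, p ∣ n) → A n = ∅)
    (hd : ∀ᵐ ω ∂μ, Tendsto (fun n : ℕ => dens μ ℱ A n ω * Real.log n)
      (atTop ⊓ 𝓟 {n : ℕ | ∀ p ∈ Q, ¬ p ∣ n + 1}) (𝓝 (∏ p ∈ Q, (1 - 1 / (p : ℝ))⁻¹))) :
    ∀ᵐ ω ∂μ, ∀ ε : ℝ, 0 < ε → ∀ᶠ n : ℕ in atTop,
      |dens μ ℱ A n ω - rhoW (∏ p ∈ Q, p) (n + 1)| ≤ ε * rhoW (∏ p ∈ Q, p) (n + 1) := by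
  have hW : 0 < ∏ p ∈ Q, p := Finset.prod_pos fun q hq => (hQ q hq).pos
  have hc := coprime_prod_iff Q hQ
  exact dens_profile (μ := μ) hA _ hW (fun n hn => hcop n (by
    rw [hc] at hn
    push Not at hn
    exact hn)) (by
    rw [totient_prod Q hQ]
    simp_rw [hc]
    exact hd)

/-- tuples of all lengths up to `(1 - δ) log x / log log x` -/
theorem grow (hA : ∀ n, MeasurableSet[ℱ n] (A n)) (Q : Finset ℕ) (hQ : ∀ p ∈ Q, p.Prime)
    (hcop : ∀ n, (∃ p ∈ Q, p ∣ n) → A n = ∅)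
    (hd : ∀ᵐ ω ∂μ, Tendsto (fun n : ℕ => dens μ ℱ A n ω * Real.log n)
      (atTop ⊓ 𝓟 {n : ℕ | ∀ p ∈ Q, ¬ p ∣ n + 1}) (𝓝 (∏ p ∈ Q, (1 - 1 / (p : ℝ))⁻¹))) :
    ∀ᵐ ω ∂μ, ∀ C : ℕ, ∀ δ ε : ℝ, 0 < δ → δ < 1 → 0 < ε → ε < 1 → ∀ᶠ x : ℕ in atTop, ∀ H : Finset ℕ,
      H ⊆ Finset.range (x ^ C + 1) → singH Q H ≠ 0 →
      (H.card : ℝ) ≤ (1 - δ) * (Real.log x / Real.log (Real.log x)) →
      (1 - ε) ^ H.card * TN A (rhoW (∏ p ∈ Q, p)) x ∅ H ω ≤ TN A (rhoW (∏ p ∈ Q, p)) x H ∅ ω ∧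
      TN A (rhoW (∏ p ∈ Q, p)) x H ∅ ω ≤ (1 + ε) ^ H.card * TN A (rhoW (∏ p ∈ Q, p)) x ∅ H ω ∧
      (x : ℝ) ^ (δ / 2) ≤ TN A (rhoW (∏ p ∈ Q, p)) x H ∅ ω := by
  classical
  have hprof := profile (μ := μ) hA Q hQ hcop hd
  set W := ∏ p ∈ Q, p with hWdef
  have hW : 0 < W := Finset.prod_pos fun q hq => (hQ q hq).pos
  have hW' : (0 : ℝ) < W := by exact_mod_cast hW
  have hρ : ∀ n, 0 ≤ rhoW W n ∧ rhoW W n ≤ 1 := fun n => ⟨rhoW_nonneg W n, rhoW_le W n⟩
  filter_upwards [law (μ := μ) hA (rhoW W) hρ hprof] with ω hω C δ ε hδ0 hδ1 hε0 hε1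
  obtain ⟨K, hK0, hK⟩ := hω (ε / 2) (by positivity) (by linarith)
  have hpow : Tendsto (fun x : ℕ => x ^ (C + 1)) atTop atTop := tendsto_pow_atTop (by omega)
  have hLL : Tendsto (fun x : ℕ => Real.log (Real.log x)) atTop atTop := Real.tendsto_log_atTop.comp tendsto_log
  -- error against a power
  have herr : ∀ᶠ x : ℕ in atTop, K * ((C : ℝ) + 1) * Real.log x ^ 4 ≤ ε / 3 * ((x : ℝ) ^ (3 * δ / 4) / (2 * W)) := by
    have h1 := (isLittleO_log_rpow_rpow_atTop (4 : ℝ) (show 0 < 3 * δ / 4 by positivity)).bound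
      (show 0 < ε / 3 / (2 * W) / (K * ((C : ℝ) + 1)) by positivity)
    filter_upwards [tendsto_natCast_atTop_atTop.eventually h1, eventually_ge_atTop 1] with x h6 hx1
    have hx : (1 : ℝ) ≤ x := by exact_mod_cast hx1
    have hL : 0 ≤ Real.log (x : ℝ) := Real.log_nonneg hx
    rw [Real.norm_eq_abs, Real.norm_eq_abs, abs_of_nonneg (Real.rpow_nonneg hL _),
      abs_of_nonneg (Real.rpow_nonneg (by linarith) _), show (4 : ℝ) = ((4 : ℕ) : ℝ) by norm_num,
      Real.rpow_natCast] at h6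
    have h7 := mul_le_mul_of_nonneg_left h6 (show 0 ≤ K * ((C : ℝ) + 1) by positivity)
    refine h7.trans (le_of_eq ?_)
    push_cast
    field_simp
  have hsm : ∀ᶠ x : ℕ in atTop, (x : ℝ) ^ (δ / 2) ≤ (x : ℝ) ^ (3 * δ / 4) / (2 * W) := by
    have h1 : Tendsto (fun x : ℕ => (x : ℝ) ^ (δ / 4)) atTop atTop :=
      (tendsto_rpow_atTop (by positivity)).comp tendsto_natCast_atTop_atTop
    filter_upwards [h1.eventually_ge_atTop (2 * (W : ℝ)), eventually_ge_atTop 1] with x h2 h3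
    have hx : (0 : ℝ) < x := by exact_mod_cast h3
    rw [le_div_iff₀ (by positivity)]
    have h4 : (x : ℝ) ^ (3 * δ / 4) = (x : ℝ) ^ (δ / 2) * (x : ℝ) ^ (δ / 4) := by
      rw [← Real.rpow_add hx]
      congr 1
      ring
    rw [h4]
    exact mul_le_mul_of_nonneg_left h2 (by positivity)
  filter_upwards [hpow.eventually hK, herr, hsm, eventually_ge_atTop (6 * W), eventually_ge_atTop 3,
    hLL.eventually_ge_atTop (1 : ℝ), hLL.eventually_ge_atTop (Real.log ((C + 2) / (1 - ε)) / (δ / 4))]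
    with x h1 h2 h3 h4 h5 h6 h7 H hH hs hk
  have hx' : (3 : ℝ) ≤ x := by exact_mod_cast h5
  have hL : 0 < Real.log (x : ℝ) := Real.log_pos (by linarith)
  have hLL0 : 0 < Real.log (Real.log (x : ℝ)) := by linarith
  have hxY : x ≤ x ^ (C + 1) := by
    calc x = x ^ 1 := (pow_one x).symm
      _ ≤ x ^ (C + 1) := Nat.pow_le_pow_right (by omega) (by omega)
  obtain ⟨g1, g2⟩ := h1 x hxY (shf H) (shf_sub (by omega) hH)
  rw [shf_card, TF_shf (rhoW W), EF_shf (A := A) (rhoW W) H x ω] at g1 g2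
  have hlogY : Real.log ((x ^ (C + 1) : ℕ) : ℝ) = (C + 1) * Real.log x := by
    push_cast
    rw [Real.log_pow]
    push_cast
    ring
  rw [hlogY] at g1 g2
  have hE := E_low (A := A) Q hQ C h4 h5 hH hs ω
  rw [← hWdef] at hE
  set E := TN A (rhoW W) x ∅ H ω with hEdef
  set T := TN A (rhoW W) x H ∅ ω with hTdef
  set k := H.card with hkdef
  set P : ℝ := (x : ℝ) ^ (3 * δ / 4) / (2 * W) with hP
  have hP0 : 0 < P := by positivity
  have hB : Real.log ((C + 2) / (1 - ε)) ≤ δ / 4 * Real.log (Real.log x) := by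
    rw [div_le_iff₀ (by positivity)] at h7
    linarith
  have h8 := pow_low (C := C) (c := 1 - ε) (by linarith) hδ0 hδ1 (show (0 : ℝ) < x by linarith) hL hLL0 hB hk
  have hPE : P ≤ (1 - ε) ^ k * E := by
    have h9 : (1 - ε) ^ k * ((x : ℝ) / (2 * W) * (1 / ((C + 2) * Real.log x)) ^ k) ≤ (1 - ε) ^ k * E :=
      mul_le_mul_of_nonneg_left hE (pow_nonneg (by linarith) _)
    refine le_trans ?_ h9
    have h10 : (1 - ε) ^ k * ((x : ℝ) / (2 * W) * (1 / ((C + 2) * Real.log x)) ^ k) =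
        x * ((1 - ε) / ((C + 2) * Real.log x)) ^ k / (2 * W) := by
      rw [div_pow, div_pow, one_pow]
      field_simp
    rw [h10, hP]
    exact div_le_div_of_nonneg_right h8 (by positivity)
  have hE0 : 0 ≤ E := TN_nonneg hρ x ∅ H ω
  have hpe1 : (1 - ε) ^ k ≤ 1 := pow_le_one₀ (by linarith) (by linarith)
  have hPE' : P ≤ E := hPE.trans (mul_le_of_le_one_left hE0 hpe1)
  have hkL : (k : ℝ) ≤ Real.log x := by
    refine hk.trans ?_
    have : Real.log (x : ℝ) / Real.log (Real.log x) ≤ Real.log x := div_le_self hL.le h6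
    have h0 : 0 ≤ Real.log (x : ℝ) / Real.log (Real.log x) := by positivity
    nlinarith
  have hErr : K * (k : ℝ) ^ 3 * ((C + 1) * Real.log x) ≤ ε / 3 * P := by
    refine le_trans ?_ h2
    have h11 : (k : ℝ) ^ 3 ≤ Real.log x ^ 3 := pow_le_pow_left₀ (Nat.cast_nonneg k) hkL 3
    calc K * (k : ℝ) ^ 3 * ((C + 1) * Real.log x) = (k : ℝ) ^ 3 * (K * ((C + 1) * Real.log x)) := by ring
      _ ≤ Real.log x ^ 3 * (K * ((C + 1) * Real.log x)) := mul_le_mul_of_nonneg_right h11 (by positivity)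
      _ = _ := by ring
  set Err := K * (k : ℝ) ^ 3 * ((C + 1) * Real.log x) with hErrdef
  have hErr0 : 0 ≤ Err := by positivity
  have main1 : (1 - ε) ^ k * E ≤ T := by
    rcases Nat.eq_zero_or_pos k with hk0 | hk0
    · rw [hk0, pow_zero, one_mul]
      rw [hk0, pow_zero, one_mul] at g1
      have : Err = 0 := by rw [hErrdef, hk0]; norm_num
      linarith
    · have f1 : (1 - ε) ^ k * (1 + ε / 2) ≤ (1 - ε / 2) ^ k := by
        have f2 : (1 - ε) ^ k * (1 + ε / 2) ^ k ≤ (1 - ε / 2) ^ k := by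
          rw [← mul_pow]
          exact pow_le_pow_left₀ (by nlinarith) (by nlinarith) k
        have f3 : 1 + ε / 2 ≤ (1 + ε / 2) ^ k := le_self_pow₀ (by linarith) (by omega)
        have f4 : 0 ≤ (1 - ε) ^ k := pow_nonneg (by linarith) _
        nlinarith
      have f5 := mul_le_mul_of_nonneg_right f1 hE0
      nlinarith
  refine ⟨main1, ?_, h3.trans (hPE.trans main1)⟩
  rcases Nat.eq_zero_or_pos k with hk0 | hk0
  · rw [hk0, pow_zero, one_mul]
    rw [hk0, pow_zero, one_mul] at g2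
    have : Err = 0 := by rw [hErrdef, hk0]; norm_num
    linarith
  · have f1 : (1 + ε / 2) ^ k * (1 + ε / 3) ≤ (1 + ε) ^ k := by
      have f2 : (1 + ε / 2) ^ k * (1 + ε / 3) ^ k ≤ (1 + ε) ^ k := by
        rw [← mul_pow]
        exact pow_le_pow_left₀ (by positivity) (by nlinarith) k
      have f3 : 1 + ε / 3 ≤ (1 + ε / 3) ^ k := le_self_pow₀ (by linarith) (by omega)
      have f4 : 0 ≤ (1 + ε / 2) ^ k := by positivity
      nlinarith
    have f5 := mul_le_mul_of_nonneg_right f1 hE0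
    have f6 : (1 + ε / 2) ^ k * (E + Err) ≤ (1 + ε / 2) ^ k * ((1 + ε / 3) * E) := by
      refine mul_le_mul_of_nonneg_left ?_ (by positivity)
      nlinarith
    linarith

/-! ### sets of shifts which do not work -/

/-- the number of shifts -/
noncomputable def kj (δ : ℝ) (j : ℕ) : ℕ := ⌊(1 + δ) * (j * Real.log 2 / Real.log (j * Real.log 2))⌋₊

/-- the first shift -/
noncomputable def aj (η : ℝ) (j : ℕ) : ℕ := 2 ^ ⌊η * j / 2⌋₊

/-- the shifts -/
noncomputable def Dj (W : ℕ) (δ η : ℝ) (j : ℕ) : Finset ℕ := (Finset.range (kj δ j)).image (fun i => W * (aj η j + i))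

lemma Dj_card {W : ℕ} (hW : 0 < W) (δ η : ℝ) (j : ℕ) : (Dj W δ η j).card = kj δ j := by
  unfold Dj
  rw [Finset.card_image_of_injective, Finset.card_range]
  intro a b h
  have := Nat.eq_of_mul_eq_mul_left hW h
  omega

lemma tendsto_u : Tendsto (fun j : ℕ => (j : ℝ) * Real.log 2) atTop atTop :=
  tendsto_natCast_atTop_atTop.atTop_mul_const (Real.log_pos (by norm_num))

/-- the exponent is large -/
lemma expo (δ B : ℝ) (hδ : 0 < δ) : ∀ᶠ j : ℕ in atTop,
    (1 + δ / 2) * (j * Real.log 2) ≤ kj δ j * (Real.log (j * Real.log 2) - B) := by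
  set κ : ℝ := δ / (2 * (2 + δ)) with hκ
  have hκ0 : 0 < κ := by positivity
  have hκ1 : κ ≤ 1 / 2 := by
    rw [hκ, div_le_div_iff₀ (by positivity) (by norm_num)]
    nlinarith
  have hκ2 : κ * (2 + δ) = δ / 2 := by
    rw [hκ]
    field_simp
  have hlog : Tendsto (fun j : ℕ => Real.log ((j : ℝ) * Real.log 2)) atTop atTop := Real.tendsto_log_atTop.comp tendsto_u
  have hsmall : ∀ᶠ j : ℕ in atTop, Real.log ((j : ℝ) * Real.log 2) ≤ κ * (j * Real.log 2) := by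
    have h1 := (Real.isLittleO_log_id_atTop).bound hκ0
    filter_upwards [tendsto_u.eventually h1, tendsto_u.eventually_ge_atTop 1] with j h2 h3
    simp only [id] at h2
    rw [Real.norm_eq_abs, Real.norm_eq_abs, abs_of_nonneg (Real.log_nonneg h3), abs_of_nonneg (by linarith)] at h2
    exact h2
  filter_upwards [hlog.eventually_ge_atTop (1 : ℝ), hlog.eventually_ge_atTop (B / κ), hlog.eventually_ge_atTop (2 * B), hsmall,
    tendsto_u.eventually_gt_atTop 0] with j h1 h2 h2' h3 h4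
  set u : ℝ := (j : ℝ) * Real.log 2
  set l : ℝ := Real.log u
  have hl : 0 < l := by linarith
  rw [div_le_iff₀ hκ0] at h2
  have h5 : (1 + δ) * (u / l) - 1 ≤ kj δ j := (Nat.sub_one_lt_floor _).le
  have h6 : 0 ≤ l - B := by
    by_cases hB : 0 ≤ B
    · linarith
    · linarith
  have h7 : (1 - κ) * l ≤ l - B := by nlinarith
  have h8 : 0 ≤ (1 + δ) * (u / l) - 1 := by
    rw [sub_nonneg, ← mul_div_assoc, le_div_iff₀ hl]
    nlinarith
  calc (1 + δ / 2) * u ≤ (1 - κ) * ((1 + δ) * u - l) := by nlinarith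
    _ = ((1 + δ) * (u / l) - 1) * ((1 - κ) * l) := by field_simp
    _ ≤ ((1 + δ) * (u / l) - 1) * (l - B) := mul_le_mul_of_nonneg_left h7 h8
    _ ≤ _ := mul_le_mul_of_nonneg_right h5 h6

lemma aj_log {η : ℝ} (hη : 0 < η) : ∀ᶠ j : ℕ in atTop, η / 4 * (j * Real.log 2) ≤ Real.log (aj η j) := by
  have h1 : Tendsto (fun j : ℕ => (j : ℝ)) atTop atTop := tendsto_natCast_atTop_atTop
  filter_upwards [h1.eventually_ge_atTop (4 / η)] with j hj
  unfold aj
  push_cast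
  rw [Real.log_pow]
  have h2 : 0 < Real.log 2 := Real.log_pos (by norm_num)
  rw [div_le_iff₀ hη] at hj
  have h3 := (Nat.sub_one_lt_floor (η * (j : ℝ) / 2)).le
  have h4 : η / 4 * j ≤ (⌊η * (j : ℝ) / 2⌋₊ : ℝ) := by nlinarith
  nlinarith

/-- for every `δ > 0` some sets of `(1 + δ) log x / log log x` small shifts do not work -/
theorem none (hA : ∀ n, MeasurableSet[ℱ n] (A n)) (Q : Finset ℕ) (hQ : ∀ p ∈ Q, p.Prime)
    (hcop : ∀ n, (∃ p ∈ Q, p ∣ n) → A n = ∅)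
    (hd : ∀ᵐ ω ∂μ, Tendsto (fun n : ℕ => dens μ ℱ A n ω * Real.log n)
      (atTop ⊓ 𝓟 {n : ℕ | ∀ p ∈ Q, ¬ p ∣ n + 1}) (𝓝 (∏ p ∈ Q, (1 - 1 / (p : ℝ))⁻¹))) {δ η : ℝ} (hδ : 0 < δ) (hη : 0 < η) :
    ∀ᵐ ω ∂μ, ∀ᶠ j : ℕ in atTop, ∀ n < 2 ^ (j + 1), ∃ d ∈ Dj (∏ p ∈ Q, p) δ η j, ω ∉ A (n + 1 + d) := by
  classical
  have hprof := profile (μ := μ) hA Q hQ hcop hd
  set W := ∏ p ∈ Q, p with hWdef
  have hW : 0 < W := Finset.prod_pos fun q hq => (hQ q hq).pos
  set c : ℝ := (W : ℝ) / Nat.totient W with hc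
  have hc1 : 1 ≤ c := c_one hW
  set B : ℝ := Real.log (8 * c / η) with hB
  -- the probability for one j
  have hlt : Real.exp (-(δ / 2 * Real.log 2)) < 1 := by
    rw [Real.exp_lt_one_iff]
    have : 0 < Real.log 2 := Real.log_pos (by norm_num)
    have : 0 < δ / 2 * Real.log 2 := by positivity
    linarith
  have hsum : Summable (fun j : ℕ => 2 * Real.exp (-(δ / 2 * Real.log 2)) ^ j) :=
    (summable_geometric_of_lt_one (Real.exp_pos _).le hlt).mul_left 2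
  have hprob : ∀ N₀ : ℕ, ∀ᶠ j : ℕ in atTop, μ.real (⋃ n ∈ Finset.range (2 ^ (j + 1)),
      (NW (VR μ ℱ A (rhoW W)) N₀ (2 ^ (j + 1) + ∑ d ∈ Dj W δ η j, d) ∩ {ω | ∀ d ∈ Dj W δ η j, ω ∈ A (n + 1 + d)})) ≤
      2 * Real.exp (-(δ / 2 * Real.log 2)) ^ j := by
    intro N₀
    have hlogu : Tendsto (fun j : ℕ => Real.log ((j : ℝ) * Real.log 2)) atTop atTop := Real.tendsto_log_atTop.comp tendsto_u
    have haj : Tendsto (fun j : ℕ => η / 4 * ((j : ℝ) * Real.log 2)) atTop atTop := tendsto_u.const_mul_atTop (by positivity)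
    filter_upwards [expo δ B hδ, aj_log hη, tendsto_u.eventually_gt_atTop 0, haj.eventually_ge_atTop (Real.log (N₀ + 1)),
      haj.eventually_ge_atTop (Real.log 2)] with j h1 h2 h3 h4 h5
    have hlog2 : 0 < Real.log 2 := Real.log_pos (by norm_num)
    have hajpos : (0 : ℝ) < aj η j := by
      have : 0 < aj η j := by unfold aj; positivity
      exact_mod_cast this
    have hajN : N₀ + 1 ≤ aj η j := by
      have h6 : Real.log ((N₀ : ℝ) + 1) ≤ Real.log (aj η j) := h4.trans h2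
      have h7 := (Real.log_le_log_iff (by positivity) hajpos).1 h6
      exact_mod_cast h7
    have hmem : ∀ d ∈ Dj W δ η j, aj η j ≤ d := by
      intro d hd'
      unfold Dj at hd'
      obtain ⟨i, _, rfl⟩ := Finset.mem_image.1 hd'
      calc aj η j ≤ 1 * (aj η j + i) := by omega
        _ ≤ W * (aj η j + i) := Nat.mul_le_mul_right _ hW
    have hone : ∀ n ∈ Finset.range (2 ^ (j + 1)), μ.real (NW (VR μ ℱ A (rhoW W)) N₀ (2 ^ (j + 1) + ∑ d ∈ Dj W δ η j, d) ∩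
        {ω | ∀ d ∈ Dj W δ η j, ω ∈ A (n + 1 + d)}) ≤ Real.exp (-((1 + δ / 2) * (j * Real.log 2))) := by
      intro n hn
      rw [Finset.mem_range] at hn
      have h6 := YY_exp' (μ := μ) hA (rhoW W) (rhoW_nonneg W) (fun (d : ℕ) (n : ℕ) => n + 1 + d) (Dj W δ η j) n N₀
        (2 ^ (j + 1) + ∑ d ∈ Dj W δ η j, d) (fun a _ b _ h => by omega) (fun d hd' => by
          have := hmem d hd'
          omega) (fun d hd' => by
          have h0 : d ≤ ∑ d ∈ Dj W δ η j, d := Finset.single_le_sum (f := fun d : ℕ => d) (fun _ _ => Nat.zero_le _) hd'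
          show n + 1 + d ≤ _
          omega)
      refine h6.trans ?_
      have h7 : ∏ d ∈ Dj W δ η j, 2 * rhoW W (n + 1 + d) ≤ ∏ d ∈ Dj W δ η j, Real.exp (-(Real.log (j * Real.log 2) - B)) := by
        refine Finset.prod_le_prod (fun d _ => mul_nonneg (by norm_num) (rhoW_nonneg W _)) fun d hd' => ?_
        have h8 := hmem d hd'
        have h9 : Real.log (aj η j) ≤ Real.log ((n + 1 + d : ℕ) : ℝ) := by
          refine Real.log_le_log hajpos ?_
          exact_mod_cast (by omega : aj η j ≤ n + 1 + d)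
        have h10 : η / 4 * (j * Real.log 2) ≤ Real.log ((n + 1 + d : ℕ) : ℝ) := h2.trans h9
        have h11 : rhoW W (n + 1 + d) ≤ c / (η / 4 * (j * Real.log 2)) := by
          unfold rhoW
          split_ifs
          · refine (min_le_right _ _).trans ?_
            exact div_le_div_of_nonneg_left (by linarith) (by positivity) h10
          · positivity
        have h12 : Real.exp (-(Real.log (j * Real.log 2) - B)) = 8 * c / η / (j * Real.log 2) := by
          rw [neg_sub, Real.exp_sub, hB, Real.exp_log (by positivity), Real.exp_log h3]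
        rw [h12]
        calc 2 * rhoW W (n + 1 + d) ≤ 2 * (c / (η / 4 * (j * Real.log 2))) := by linarith
          _ = _ := by field_simp; ring
      refine h7.trans ?_
      rw [Finset.prod_const, Dj_card hW, ← Real.exp_nat_mul]
      apply Real.exp_le_exp.2
      linarith
    refine (measureReal_biUnion_finset_le _ _).trans ((Finset.sum_le_sum hone).trans ?_)
    rw [Finset.sum_const, Finset.card_range, nsmul_eq_mul]
    push_cast
    rw [← Real.exp_nat_mul]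
    have h6 : (2 : ℝ) ^ (j + 1) = 2 * Real.exp (j * Real.log 2) := by
      rw [Real.exp_nat_mul, Real.exp_log (by norm_num)]
      ring
    rw [h6, mul_assoc, ← Real.exp_add]
    refine mul_le_mul_of_nonneg_left (Real.exp_le_exp.2 (le_of_eq ?_)) (by norm_num)
    ring
  have hbc : ∀ᵐ ω ∂μ, ∀ N₀ : ℕ, ∀ᶠ j : ℕ in atTop, ω ∉ (⋃ n ∈ Finset.range (2 ^ (j + 1)),
      (NW (VR μ ℱ A (rhoW W)) N₀ (2 ^ (j + 1) + ∑ d ∈ Dj W δ η j, d) ∩ {ω | ∀ d ∈ Dj W δ η j, ω ∈ A (n + 1 + d)})) :=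
    ae_all_iff.2 fun N₀ => bc_real (μ := μ) hsum (hprob N₀)
  filter_upwards [hbc, hprof] with ω h1 h2
  obtain ⟨N₀, hN₀⟩ := eventually_atTop.1 (h2 1 one_pos)
  filter_upwards [h1 N₀] with j hj n hn
  by_contra hcon
  push Not at hcon
  apply hj
  simp only [Set.mem_iUnion]
  refine ⟨n, Finset.mem_range.2 hn, ?_, hcon⟩
  intro m hm1 _ hm2
  simp only [VR, mem_ofPred_eq] at hm2
  have := (abs_le.1 (hN₀ m hm1)).2
  linarith

end Pool.Agent.N893.SM
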