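import Mathlib
import Pool.Agent.N893.SM.Grow

set_option autoImplicit false
set_option linter.unusedSectionVars false

/-! # All systems of a given number of linear forms -/

open MeasureTheory Filter Set
open scoped ENNReal Topology

namespace Pool.Agent.N893.SM

open Pool.Agent.R528.RM

variable {Ω : Type} {m0 : MeasurableSpace Ω} {μ : Measure Ω} [IsProbabilityMeasure μ]
  {ℱ : Filtration ℕ m0} {A : ℕ → Set Ω}

/-- no prime of `Q` divides all products of the values -/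
def AdmF (Q : Finset ℕ) (s : Finset (ℕ × ℕ)) : Prop := ∀ p ∈ Q, ∃ n : ℕ, ∀ f ∈ s, ¬ p ∣ f.1 * n + f.2

/-- Chinese remainder -/
lemma adm_res {Q : Finset ℕ} (hQ : ∀ p ∈ Q, p.Prime) {s : Finset (ℕ × ℕ)} (h : AdmF Q s) :
    ∃ r : ℕ, ∀ j : ℕ, ∀ f ∈ s, Nat.Coprime (val f (r + (∏ p ∈ Q, p) * j)) (∏ p ∈ Q, p) := by
  classical
  choose! m hm using h
  have hcop : Set.Pairwise (Q : Set ℕ) (Function.onFun Nat.Coprime (fun p : ℕ => p)) := by
    intro p hp q hq hpq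
    exact (Nat.coprime_primes (hQ p hp) (hQ q hq)).2 hpq
  obtain ⟨r, hr⟩ := Nat.chineseRemainderOfFinset m (fun p => p) Q (fun p hp => (hQ p hp).ne_zero) hcop
  refine ⟨r, fun j f hf => ?_⟩
  rw [coprime_prod_iff Q hQ]
  intro p hp hd
  apply hm p hp f hf
  have h1 : r ≡ m p [MOD p] := hr p hp
  have h2 : (∏ p ∈ Q, p) * j ≡ 0 [MOD p] := Nat.modEq_zero_iff_dvd.2 ((Finset.dvd_prod_of_mem _ hp).mul_right j)
  have h3 : f.1 * (r + (∏ p ∈ Q, p) * j) + f.2 ≡ f.1 * (m p + 0) + f.2 [MOD p] :=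
    Nat.ModEq.add_right _ (Nat.ModEq.mul_left _ (Nat.ModEq.add h1 h2))
  rw [add_zero] at h3
  exact (Nat.ModEq.dvd_iff h3 dvd_rfl).1 hd

/-- lower bound of the expected number -/
lemma EF_low (Q : Finset ℕ) (hQ : ∀ p ∈ Q, p.Prime) {Y x : ℕ} (hx : 6 * ∏ p ∈ Q, p ≤ x) (hxY : x ≤ Y)
    {s : Finset (ℕ × ℕ)} (hs : s ⊆ Finset.Icc 1 Y ×ˢ Finset.Icc 1 Y) (ha : AdmF Q s) :
    (x : ℝ) / (2 * (∏ p ∈ Q, p : ℕ)) * (1 / (3 * Real.log Y)) ^ s.card ≤ EF (rhoW (∏ p ∈ Q, p)) s x := by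
  classical
  obtain ⟨r', hgood'⟩ := adm_res hQ ha
  set W := ∏ p ∈ Q, p with hWdef
  have hW : 0 < W := Finset.prod_pos fun q hq => (hQ q hq).pos
  have hY6 : 6 ≤ Y := by nlinarith
  -- reduce the residue
  set r := r' % W with hrdef
  have hr : r < W := Nat.mod_lt _ hW
  have hgood : ∀ j : ℕ, ∀ f ∈ s, Nat.Coprime (val f (r + W * j)) W := by
    intro j f hf
    have h1 := hgood' j f hf
    have h2 : val f (r' + W * j) ≡ val f (r + W * j) [MOD W] := by
      unfold val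
      refine Nat.ModEq.add_right _ (Nat.ModEq.mul_left _ (Nat.ModEq.add_right _ ?_))
      exact (Nat.mod_modEq _ _).symm
    exact (Nat.ModEq.gcd_eq h2).symm.trans h1
  have hY' : (6 : ℝ) ≤ Y := by exact_mod_cast hY6
  have hlog : 1 ≤ Real.log (Y : ℝ) := by
    rw [Real.le_log_iff_exp_le (by linarith)]
    exact (Real.exp_one_lt_d9.le.trans (by norm_num)).trans hY'
  set J := x / W - 2 with hJ
  have hinj : Function.Injective (fun j : ℕ => r + W * (j + 1)) := by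
    intro a b hab
    have hab' : r + W * (a + 1) = r + W * (b + 1) := hab
    have h3 : W * (a + 1) = W * (b + 1) := by omega
    have h4 := Nat.eq_of_mul_eq_mul_left hW h3
    omega
  have hsub : (Finset.range J).map ⟨_, hinj⟩ ⊆ Finset.range x := by
    intro n hn
    rw [Finset.mem_map] at hn
    obtain ⟨j, hj, rfl⟩ := hn
    rw [Finset.mem_range] at hj ⊢
    show r + W * (j + 1) < x
    have h1 : W * (x / W) ≤ x := Nat.mul_div_le x W
    have h2 : j + 2 ≤ x / W := by omega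
    have h3 : W * (j + 2) ≤ W * (x / W) := Nat.mul_le_mul_left W h2
    have h4 : W * (j + 2) = W * (j + 1) + W := by ring
    omega
  have hρ0 : ∀ n, 0 ≤ rhoW W n := fun n => rhoW_nonneg W n
  have h1 : ∑ n ∈ (Finset.range J).map ⟨_, hinj⟩, ∏ f ∈ s, rhoW W (val f n) ≤
      ∑ n ∈ Finset.range x, ∏ f ∈ s, rhoW W (val f n) :=
    Finset.sum_le_sum_of_subset_of_nonneg hsub fun n _ _ => Finset.prod_nonneg fun h _ => hρ0 _
  refine le_trans ?_ h1
  rw [Finset.sum_map]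
  have h3 : ∀ j ∈ Finset.range J, (1 / (3 * Real.log Y)) ^ s.card ≤
      ∏ f ∈ s, rhoW W (val f ((⟨_, hinj⟩ : ℕ ↪ ℕ) j)) := by
    intro j hj
    rw [Finset.mem_range] at hj
    rw [← Finset.prod_const]
    refine Finset.prod_le_prod (fun h _ => by positivity) fun f hf => ?_
    show 1 / (3 * Real.log Y) ≤ rhoW W (val f (r + W * (j + 1)))
    have g2 := hgood (j + 1) f hf
    have hfY := Finset.mem_product.1 (hs hf)
    have hf1 := Finset.mem_Icc.1 hfY.1
    have hf2 := Finset.mem_Icc.1 hfY.2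
    have hn1 : 1 ≤ r + W * (j + 1) := by
      have : 0 < W * (j + 1) := by positivity
      omega
    have hn2 : r + W * (j + 1) < Y := by
      have h1 : W * (x / W) ≤ x := Nat.mul_div_le x W
      have h2 : j + 2 ≤ x / W := by omega
      have h3 : W * (j + 2) ≤ W * (x / W) := Nat.mul_le_mul_left W h2
      have h4 : W * (j + 2) = W * (j + 1) + W := by ring
      omega
    unfold rhoW
    rw [if_pos g2]
    set v := val f (r + W * (j + 1)) with hv
    have g3 : 2 ≤ v := by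
      rw [hv]
      unfold val
      have : 1 * 1 ≤ f.1 * (r + W * (j + 1)) := Nat.mul_le_mul hf1.1 hn1
      omega
    have g4 : v ≤ Y ^ 3 := by
      rw [hv]
      unfold val
      have k1 : f.1 * (r + W * (j + 1)) ≤ Y * Y := Nat.mul_le_mul hf1.2 hn2.le
      have k2 : Y ^ 3 = Y * Y * Y := by ring
      have k3 : Y * Y * 2 ≤ Y * Y * Y := Nat.mul_le_mul_left _ (by omega)
      have k4 : Y ≤ Y * Y := Nat.le_mul_self Y
      omega
    have g5 : (2 : ℝ) ≤ (v : ℝ) := by exact_mod_cast g3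
    have g6 : Real.log (v : ℝ) ≤ 3 * Real.log Y := by
      have k1 : (v : ℝ) ≤ (Y : ℝ) ^ 3 := by exact_mod_cast g4
      have k2 := Real.log_le_log (by linarith) k1
      rw [Real.log_pow] at k2
      push_cast at k2
      exact k2
    have g7 : 0 < Real.log (v : ℝ) := Real.log_pos (by linarith)
    refine le_min ?_ ?_
    · rw [div_le_one (by linarith)]
      linarith
    · exact div_le_div₀ (by linarith [c_one hW]) (c_one hW) g7 g6
  have h4 := Finset.sum_le_sum h3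
  refine le_trans ?_ h4
  rw [Finset.sum_const, Finset.card_range, nsmul_eq_mul]
  refine mul_le_mul_of_nonneg_right ?_ (by positivity)
  have hW' : (0 : ℝ) < W := by exact_mod_cast hW
  have k1 : (x : ℝ) / W < ((x / W : ℕ) : ℝ) + 1 := by
    rw [div_lt_iff₀ hW']
    have := Nat.lt_mul_div_succ x hW
    have k2 : (x : ℝ) < W * ((x / W : ℕ) + 1) := by exact_mod_cast this
    linarith
  have k2 : 6 ≤ x / W := (Nat.le_div_iff_mul_le hW).2 hx
  have k3 : (J : ℝ) = ((x / W : ℕ) : ℝ) - 2 := by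
    rw [hJ, Nat.cast_sub (by omega)]
    norm_num
  rw [k3]
  have k4 : (6 : ℝ) ≤ (x : ℝ) / W := by
    rw [le_div_iff₀ hW']
    exact_mod_cast hx
  have k5 : (x : ℝ) / (2 * W) = (x : ℝ) / W / 2 := by
    field_simp
  rw [k5]
  linarith

/-- uniform asymptotics for all systems of `k` linear forms -/
theorem lin (hA : ∀ n, MeasurableSet[ℱ n] (A n)) (Q : Finset ℕ) (hQ : ∀ p ∈ Q, p.Prime)
    (hcop : ∀ n, (∃ p ∈ Q, p ∣ n) → A n = ∅)
    (hd : ∀ᵐ ω ∂μ, Tendsto (fun n : ℕ => dens μ ℱ A n ω * Real.log n)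
      (atTop ⊓ 𝓟 {n : ℕ | ∀ p ∈ Q, ¬ p ∣ n + 1}) (𝓝 (∏ p ∈ Q, (1 - 1 / (p : ℝ))⁻¹))) :
    ∀ᵐ ω ∂μ, ∀ k : ℕ, ∀ ε : ℝ, 0 < ε → ε ≤ 1 → ∃ K : ℝ, 0 < K ∧ ∀ᶠ Y : ℕ in atTop, ∀ x ≤ Y, K * Real.log Y ^ (k + 1) ≤ x →
      ∀ s : Finset (ℕ × ℕ), s ⊆ Finset.Icc 1 Y ×ˢ Finset.Icc 1 Y → s.card = k → AdmF Q s →
      |TF A s x ω - EF (rhoW (∏ p ∈ Q, p)) s x| ≤ ε * EF (rhoW (∏ p ∈ Q, p)) s x ∧
      0 < EF (rhoW (∏ p ∈ Q, p)) s x := by
  classical
  have hprof := profile (μ := μ) hA Q hQ hcop hd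
  set W := ∏ p ∈ Q, p with hWdef
  have hW : 0 < W := Finset.prod_pos fun q hq => (hQ q hq).pos
  have hW' : (0 : ℝ) < W := by exact_mod_cast hW
  have hρ : ∀ n, 0 ≤ rhoW W n ∧ rhoW W n ≤ 1 := fun n => ⟨rhoW_nonneg W n, rhoW_le W n⟩
  filter_upwards [law (μ := μ) hA (rhoW W) hρ hprof] with ω hω k ε hε0 hε1
  have hk0 : (0 : ℝ) ≤ k := Nat.cast_nonneg k
  set δ : ℝ := ε / (4 * (k + 1)) with hδ
  have hδ0 : 0 < δ := by positivity
  have hδk : k * δ ≤ ε / 4 := by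
    rw [hδ, ← mul_div_assoc, div_le_div_iff₀ (by positivity) (by norm_num)]
    nlinarith
  have hδ1 : δ ≤ 1 := by
    rw [hδ, div_le_one (by positivity)]
    linarith
  obtain ⟨K, hK0, hK⟩ := hω δ hδ0 hδ1
  -- powers
  have hup : (1 + δ) ^ k ≤ 1 + ε / 2 := by
    have e1 : (1 + δ) ^ k ≤ Real.exp (k * δ) := by
      have g1 : 1 + δ ≤ Real.exp δ := by have := Real.add_one_le_exp δ; linarith
      calc (1 + δ) ^ k ≤ (Real.exp δ) ^ k := pow_le_pow_left₀ (by linarith) g1 _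
        _ = _ := by rw [← Real.exp_nat_mul]
    have g1 : 0 ≤ k * δ := by positivity
    have e2 := Real.abs_exp_sub_one_le (x := k * δ) (by rw [abs_of_nonneg g1]; linarith)
    rw [abs_of_nonneg g1] at e2
    have e3 := (le_abs_self _).trans e2
    linarith
  have hlow : 1 - ε / 2 ≤ (1 - δ) ^ k := by
    have e1 := one_add_mul_le_pow (show (-2 : ℝ) ≤ -δ by linarith) k
    have e2 : 1 + (k : ℝ) * -δ = 1 - k * δ := by ring
    rw [e2] at e1
    rw [show (1 : ℝ) - δ = 1 + -δ by ring]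
    linarith
  refine ⟨6 * W + K * (k : ℝ) ^ 3 * (2 * W) * 3 ^ k * (4 / ε), by positivity, ?_⟩
  filter_upwards [hK, tendsto_log.eventually_ge_atTop (1 : ℝ)] with Y h1 h2 x hx hxK s hs hsk hadm
  have hL0 : 0 < Real.log (Y : ℝ) := by linarith
  have hLp : 1 ≤ Real.log (Y : ℝ) ^ (k + 1) := one_le_pow₀ h2
  have hx6 : 6 * W ≤ x := by
    have g1 : (6 * (W : ℝ)) * 1 ≤ (6 * W + K * (k : ℝ) ^ 3 * (2 * W) * 3 ^ k * (4 / ε)) * Real.log (Y : ℝ) ^ (k + 1) := by
      refine mul_le_mul ?_ hLp zero_le_one (by positivity)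
      have : 0 ≤ K * (k : ℝ) ^ 3 * (2 * W) * 3 ^ k * (4 / ε) := by positivity
      linarith
    have g2 : (6 * (W : ℝ)) ≤ x := by linarith
    exact_mod_cast g2
  obtain ⟨g1, g2⟩ := h1 x hx s hs
  have hE := EF_low Q hQ hx6 hx hs hadm
  rw [hsk] at g1 g2 hE
  rw [← hWdef] at hE
  set E := EF (rhoW W) s x with hEdef
  set T := TF A s x ω with hTdef
  set L := Real.log (Y : ℝ) with hLdef
  have hErr : K * (k : ℝ) ^ 3 * L ≤ ε / 4 * E := by
    have f1 : K * (k : ℝ) ^ 3 * (2 * W) * 3 ^ k * (4 / ε) * L ^ (k + 1) ≤ x := by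
      refine le_trans ?_ hxK
      refine mul_le_mul_of_nonneg_right ?_ (by positivity)
      have : 0 ≤ 6 * (W : ℝ) := by positivity
      linarith
    have f2 : K * (k : ℝ) ^ 3 * (2 * W) * 3 ^ k * (4 / ε) * L ^ (k + 1) / (2 * W) * (1 / (3 * L)) ^ k ≤ E :=
      le_trans (mul_le_mul_of_nonneg_right (div_le_div_of_nonneg_right f1 (by positivity)) (by positivity)) hE
    have f3 : K * (k : ℝ) ^ 3 * (2 * W) * 3 ^ k * (4 / ε) * L ^ (k + 1) / (2 * W) * (1 / (3 * L)) ^ k =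
        K * (k : ℝ) ^ 3 * L * (4 / ε) := by
      rw [div_pow, one_pow, mul_pow]
      field_simp
      rw [pow_succ]
      ring
    rw [f3] at f2
    have f4 := mul_le_mul_of_nonneg_left f2 (show 0 ≤ ε / 4 by positivity)
    refine le_trans (le_of_eq ?_) f4
    field_simp
  have hE0 : 0 < E := by
    have hx0 : (0 : ℝ) < x := by
      have : 0 < x := by omega
      exact_mod_cast this
    have : 0 < (x : ℝ) / (2 * W) * (1 / (3 * L)) ^ k := by positivity
    linarith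
  refine ⟨?_, hE0⟩
  set Err := K * (k : ℝ) ^ 3 * L
  rw [abs_le]
  constructor
  · have f1 := mul_le_mul_of_nonneg_right hlow hE0.le
    nlinarith
  · have f1 : (1 + δ) ^ k * (E + Err) ≤ (1 + ε / 2) * (E + ε / 4 * E) :=
      mul_le_mul hup (by linarith) (by positivity) (by positivity)
    nlinarith [mul_nonneg hε0.le hE0.le]

end Pool.Agent.N893.SM
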