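import Mathlib
import Pool.Agent.N893.SM.Lin

set_option autoImplicit false
set_option linter.unusedSectionVars false

/-! # Systems of linear forms of growing length, and chains -/

open MeasureTheory Filter Set
open scoped ENNReal Topology

namespace Pool.Agent.N893.SM

open Pool.Agent.R528.RM

variable {Ω : Type} {m0 : MeasurableSpace Ω} {μ : Measure Ω} [IsProbabilityMeasure μ]
  {ℱ : Filtration ℕ m0} {A : ℕ → Set Ω}

/-- systems of up to `(1 - δ) log x / log log x` linear forms -/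
theorem growF (hA : ∀ n, MeasurableSet[ℱ n] (A n)) (Q : Finset ℕ) (hQ : ∀ p ∈ Q, p.Prime)
    (hcop : ∀ n, (∃ p ∈ Q, p ∣ n) → A n = ∅)
    (hd : ∀ᵐ ω ∂μ, Tendsto (fun n : ℕ => dens μ ℱ A n ω * Real.log n)
      (atTop ⊓ 𝓟 {n : ℕ | ∀ p ∈ Q, ¬ p ∣ n + 1}) (𝓝 (∏ p ∈ Q, (1 - 1 / (p : ℝ))⁻¹))) :
    ∀ᵐ ω ∂μ, ∀ C : ℕ, 1 ≤ C → ∀ δ ε : ℝ, 0 < δ → δ < 1 → 0 < ε → ε < 1 → ∀ᶠ x : ℕ in atTop, ∀ s : Finset (ℕ × ℕ),
      s ⊆ Finset.Icc 1 (x ^ C) ×ˢ Finset.Icc 1 (x ^ C) → AdmF Q s →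
      (s.card : ℝ) ≤ (1 - δ) * (Real.log x / Real.log (Real.log x)) →
      (1 - ε) ^ s.card * EF (rhoW (∏ p ∈ Q, p)) s x ≤ TF A s x ω ∧
      TF A s x ω ≤ (1 + ε) ^ s.card * EF (rhoW (∏ p ∈ Q, p)) s x ∧
      (x : ℝ) ^ (δ / 2) ≤ TF A s x ω := by
  classical
  have hprof := profile (μ := μ) hA Q hQ hcop hd
  set W := ∏ p ∈ Q, p with hWdef
  have hW : 0 < W := Finset.prod_pos fun q hq => (hQ q hq).pos
  have hW' : (0 : ℝ) < W := by exact_mod_cast hW
  have hρ : ∀ n, 0 ≤ rhoW W n ∧ rhoW W n ≤ 1 := fun n => ⟨rhoW_nonneg W n, rhoW_le W n⟩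
  filter_upwards [law (μ := μ) hA (rhoW W) hρ hprof] with ω hω C hC δ ε hδ0 hδ1 hε0 hε1
  obtain ⟨K, hK0, hK⟩ := hω (ε / 2) (by positivity) (by linarith)
  have hpow : Tendsto (fun x : ℕ => x ^ C) atTop atTop := tendsto_pow_atTop (by omega)
  have hLL : Tendsto (fun x : ℕ => Real.log (Real.log x)) atTop atTop := Real.tendsto_log_atTop.comp tendsto_log
  have hC0 : (1 : ℝ) ≤ C := by exact_mod_cast hC
  have herr : ∀ᶠ x : ℕ in atTop, K * (C : ℝ) * Real.log x ^ 4 ≤ ε / 3 * ((x : ℝ) ^ (3 * δ / 4) / (2 * W)) := by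
    have h1 := (isLittleO_log_rpow_rpow_atTop (4 : ℝ) (show 0 < 3 * δ / 4 by positivity)).bound
      (show 0 < ε / 3 / (2 * W) / (K * (C : ℝ)) by positivity)
    filter_upwards [tendsto_natCast_atTop_atTop.eventually h1, eventually_ge_atTop 1] with x h6 hx1
    have hx : (1 : ℝ) ≤ x := by exact_mod_cast hx1
    have hL : 0 ≤ Real.log (x : ℝ) := Real.log_nonneg hx
    rw [Real.norm_eq_abs, Real.norm_eq_abs, abs_of_nonneg (Real.rpow_nonneg hL _),
      abs_of_nonneg (Real.rpow_nonneg (by linarith) _), show (4 : ℝ) = ((4 : ℕ) : ℝ) by norm_num,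
      Real.rpow_natCast] at h6
    have h7 := mul_le_mul_of_nonneg_left h6 (show 0 ≤ K * (C : ℝ) by positivity)
    refine h7.trans (le_of_eq ?_)
    push_cast
    field_simp
  have hsm : ∀ᶠ x : ℕ in atTop, (x : ℝ) ^ (δ / 2) ≤ (x : ℝ) ^ (3 * δ / 4) / (2 * W) := by
    have h1 : Tendsto (fun x : ℕ => (x : ℝ) ^ (δ / 4)) atTop atTop :=
      (tendsto_rpow_atTop (by positivity)).comp tendsto_natCast_atTop_atTop
    filter_upwards [h1.eventually_ge_atTop (2 * (W : ℝ)), eventually_ge_atTop 1] with x h2 h3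
    have hx : (0 : ℝ) < x := by exact_mod_cast h3
    rw [le_div_iff₀ (by positivity)]
    have h4 : (x : ℝ) ^ (3 * δ / 4) = (x : ℝ) ^ (δ / 2) * (x : ℝ) ^ (δ / 4) := by
      rw [← Real.rpow_add hx]
      congr 1
      ring
    rw [h4]
    exact mul_le_mul_of_nonneg_left h2 (by positivity)
  filter_upwards [hpow.eventually hK, herr, hsm, eventually_ge_atTop (6 * W), eventually_ge_atTop 3,
    hLL.eventually_ge_atTop (1 : ℝ), hLL.eventually_ge_atTop (Real.log (((3 * C : ℕ) + 2) / (1 - ε)) / (δ / 4))]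
    with x h1 h2 h3 h4 h5 h6 h7 s hsub hs hk
  have hx' : (3 : ℝ) ≤ x := by exact_mod_cast h5
  have hL : 0 < Real.log (x : ℝ) := Real.log_pos (by linarith)
  have hLL0 : 0 < Real.log (Real.log (x : ℝ)) := by linarith
  have hxY : x ≤ x ^ C := by
    calc x = x ^ 1 := (pow_one x).symm
      _ ≤ x ^ C := Nat.pow_le_pow_right (by omega) hC
  obtain ⟨g1, g2⟩ := h1 x hxY s hsub
  have hlogY : Real.log ((x ^ C : ℕ) : ℝ) = C * Real.log x := by
    push_cast
    rw [Real.log_pow]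
  rw [hlogY] at g1 g2
  have hE := EF_low Q hQ h4 hxY hsub hs
  rw [← hWdef, hlogY] at hE
  set E := EF (rhoW W) s x with hEdef
  set T := TF A s x ω with hTdef
  set k := s.card with hkdef
  set P : ℝ := (x : ℝ) ^ (3 * δ / 4) / (2 * W) with hP
  have hP0 : 0 < P := by positivity
  have hB : Real.log (((3 * C : ℕ) + 2) / (1 - ε)) ≤ δ / 4 * Real.log (Real.log x) := by
    rw [div_le_iff₀ (by positivity)] at h7
    linarith
  have h8 := pow_low (C := 3 * C) (c := 1 - ε) (by linarith) hδ0 hδ1 (show (0 : ℝ) < x by linarith) hL hLL0 hB hk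
  have hPE : P ≤ (1 - ε) ^ k * E := by
    have h9 : (1 - ε) ^ k * ((x : ℝ) / (2 * W) * (1 / (3 * (C * Real.log x))) ^ k) ≤ (1 - ε) ^ k * E :=
      mul_le_mul_of_nonneg_left hE (pow_nonneg (by linarith) _)
    refine le_trans ?_ h9
    have h10 : (1 - ε) ^ k * ((x : ℝ) / (2 * W) * (1 / (3 * (C * Real.log x))) ^ k) =
        x * ((1 - ε) / (3 * (C * Real.log x))) ^ k / (2 * W) := by
      rw [div_pow, div_pow, one_pow]
      field_simp
    rw [h10, hP]
    refine div_le_div_of_nonneg_right (h8.trans ?_) (by positivity)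
    refine mul_le_mul_of_nonneg_left (pow_le_pow_left₀ ?_ ?_ k) (by linarith)
    · refine div_nonneg (by linarith) (by positivity)
    · refine div_le_div_of_nonneg_left (by linarith) (by positivity) ?_
      push_cast
      nlinarith
  have hE0 : 0 ≤ E := Finset.sum_nonneg fun n _ => Finset.prod_nonneg fun f _ => (hρ _).1
  have hpe1 : (1 - ε) ^ k ≤ 1 := pow_le_one₀ (by linarith) (by linarith)
  have hPE' : P ≤ E := hPE.trans (mul_le_of_le_one_left hE0 hpe1)
  have hkL : (k : ℝ) ≤ Real.log x := by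
    refine hk.trans ?_
    have : Real.log (x : ℝ) / Real.log (Real.log x) ≤ Real.log x := div_le_self hL.le h6
    have h0 : 0 ≤ Real.log (x : ℝ) / Real.log (Real.log x) := by positivity
    nlinarith
  have hErr : K * (k : ℝ) ^ 3 * (C * Real.log x) ≤ ε / 3 * P := by
    refine le_trans ?_ h2
    have h11 : (k : ℝ) ^ 3 ≤ Real.log x ^ 3 := pow_le_pow_left₀ (Nat.cast_nonneg k) hkL 3
    calc K * (k : ℝ) ^ 3 * (C * Real.log x) = (k : ℝ) ^ 3 * (K * (C * Real.log x)) := by ring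
      _ ≤ Real.log x ^ 3 * (K * (C * Real.log x)) := mul_le_mul_of_nonneg_right h11 (by positivity)
      _ = _ := by ring
  set Err := K * (k : ℝ) ^ 3 * (C * Real.log x) with hErrdef
  have hErr0 : 0 ≤ Err := by positivity
  have main1 : (1 - ε) ^ k * E ≤ T := by
    rcases Nat.eq_zero_or_pos k with hk0 | hk0
    · rw [hk0, pow_zero, one_mul]
      rw [hk0, pow_zero, one_mul] at g1
      have : Err = 0 := by rw [hErrdef, hk0]; norm_num
      linarith
    · have f1 : (1 - ε) ^ k * (1 + ε / 2) ≤ (1 - ε / 2) ^ k := by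
        have f2 : (1 - ε) ^ k * (1 + ε / 2) ^ k ≤ (1 - ε / 2) ^ k := by
          rw [← mul_pow]
          exact pow_le_pow_left₀ (by nlinarith) (by nlinarith) k
        have f3 : 1 + ε / 2 ≤ (1 + ε / 2) ^ k := le_self_pow₀ (by linarith) (by omega)
        have f4 : 0 ≤ (1 - ε) ^ k := pow_nonneg (by linarith) _
        nlinarith
      have f5 := mul_le_mul_of_nonneg_right f1 hE0
      nlinarith
  refine ⟨main1, ?_, h3.trans (hPE.trans main1)⟩
  rcases Nat.eq_zero_or_pos k with hk0 | hk0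
  · rw [hk0, pow_zero, one_mul]
    rw [hk0, pow_zero, one_mul] at g2
    have : Err = 0 := by rw [hErrdef, hk0]; norm_num
    linarith
  · have f1 : (1 + ε / 2) ^ k * (1 + ε / 3) ≤ (1 + ε) ^ k := by
      have f2 : (1 + ε / 2) ^ k * (1 + ε / 3) ^ k ≤ (1 + ε) ^ k := by
        rw [← mul_pow]
        exact pow_le_pow_left₀ (by positivity) (by nlinarith) k
      have f3 : 1 + ε / 3 ≤ (1 + ε / 3) ^ k := le_self_pow₀ (by linarith) (by omega)
      have f4 : 0 ≤ (1 + ε / 2) ^ k := by positivity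
      nlinarith
    have f5 := mul_le_mul_of_nonneg_right f1 hE0
    have f6 : (1 + ε / 2) ^ k * (E + Err) ≤ (1 + ε / 2) ^ k * ((1 + ε / 3) * E) := by
      refine mul_le_mul_of_nonneg_left ?_ (by positivity)
      nlinarith
    linarith

/-- the exponent for chains -/
lemma expoC (δ B κ : ℝ) (hδ : 0 < δ) (hκ : κ = δ / (2 * (4 + 3 * δ))) : ∀ᶠ j : ℕ in atTop,
    (1 + δ / 2) * (j * Real.log 2) ≤ (1 - κ) * (kj δ j * (Real.log (kj δ j) - B)) ∧
    Real.log (j * Real.log 2) ≤ 2 * Real.log (kj δ j) := by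
  have hκ0 : 0 < κ := by rw [hκ]; positivity
  have hκ2 : κ * (4 + 3 * δ) = δ / 2 := by
    rw [hκ]
    field_simp
  have hκ1 : κ ≤ 1 / 6 := by
    rw [hκ, div_le_div_iff₀ (by positivity) (by norm_num)]
    nlinarith
  have hlog : Tendsto (fun j : ℕ => Real.log ((j : ℝ) * Real.log 2)) atTop atTop := Real.tendsto_log_atTop.comp tendsto_u
  have hsmall : ∀ᶠ j : ℕ in atTop, Real.log ((j : ℝ) * Real.log 2) ≤ κ * (j * Real.log 2) := by
    have h1 := (Real.isLittleO_log_id_atTop).bound hκ0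
    filter_upwards [tendsto_u.eventually h1, tendsto_u.eventually_ge_atTop 1] with j h2 h3
    simp only [id] at h2
    rw [Real.norm_eq_abs, Real.norm_eq_abs, abs_of_nonneg (Real.log_nonneg h3), abs_of_nonneg (by linarith)] at h2
    exact h2
  have hsmall2 : ∀ᶠ j : ℕ in atTop, Real.log ((j : ℝ) * Real.log 2) ≤ ((j : ℝ) * Real.log 2) ^ κ := by
    have h1 := (isLittleO_log_rpow_atTop hκ0).bound one_pos
    filter_upwards [tendsto_u.eventually h1, tendsto_u.eventually_ge_atTop 1] with j h2 h3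
    rw [Real.norm_eq_abs, Real.norm_eq_abs, abs_of_nonneg (Real.log_nonneg h3),
      abs_of_nonneg (Real.rpow_nonneg (by linarith) _), one_mul] at h2
    exact h2
  filter_upwards [hlog.eventually_ge_atTop (1 : ℝ), hlog.eventually_ge_atTop (|B| / κ), hsmall, hsmall2,
    tendsto_u.eventually_gt_atTop 0, tendsto_u.eventually_ge_atTop (1 / (κ * δ))] with j h1 h2 h3 h3' h4 h4'
  set u : ℝ := (j : ℝ) * Real.log 2
  set l : ℝ := Real.log u with hl'
  have hl : 0 < l := by linarith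
  rw [div_le_iff₀ hκ0] at h2
  have h5 : (1 + δ) * (u / l) - 1 ≤ kj δ j := (Nat.sub_one_lt_floor _).le
  -- `k ≥ u / l`
  have h6 : u / l ≤ kj δ j := by
    have g1 : 1 ≤ δ * (u / l) := by
      rw [← mul_div_assoc, le_div_iff₀ hl, one_mul]
      have g2 : 1 ≤ κ * δ * u := by
        rw [div_le_iff₀ (by positivity)] at h4'
        linarith
      -- l ≤ κ u, need l ≤ δ u
      have g3 : κ ≤ δ := by
        rw [hκ, div_le_iff₀ (by positivity)]
        nlinarith
      nlinarith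
    linarith
  have hk0 : (0 : ℝ) < kj δ j := lt_of_lt_of_le (by positivity) h6
  have h7 : (1 - κ) * l ≤ Real.log (kj δ j) := by
    have g1 : u ^ (1 - κ) ≤ u / l := by
      rw [le_div_iff₀ hl]
      calc u ^ (1 - κ) * l ≤ u ^ (1 - κ) * u ^ κ := mul_le_mul_of_nonneg_left h3' (by positivity)
        _ = u := by rw [← Real.rpow_add h4]; norm_num
    have g2 := Real.log_le_log (by positivity) (g1.trans h6)
    rwa [Real.log_rpow h4] at g2
  have hB : B ≤ κ * l := by
    have := le_abs_self B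
    linarith
  have h8 : (1 - 2 * κ) * l ≤ Real.log (kj δ j) - B := by linarith
  have h9 : 0 ≤ (1 - 2 * κ) * l := mul_nonneg (by linarith) hl.le
  constructor
  · have g1 : ((1 + δ) * (u / l) - 1) * ((1 - 2 * κ) * l) ≤ kj δ j * (Real.log (kj δ j) - B) :=
      (mul_le_mul_of_nonneg_right h5 h9).trans (mul_le_mul_of_nonneg_left h8 hk0.le)
    have g2 : ((1 + δ) * (u / l) - 1) * ((1 - 2 * κ) * l) = (1 - 2 * κ) * ((1 + δ) * u - l) := by field_simp
    rw [g2] at g1
    have g3 : (1 + δ - κ) * u ≤ (1 + δ) * u - l := by linarith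
    have g4 : (1 - κ) * ((1 - 2 * κ) * ((1 + δ - κ) * u)) ≤ (1 - κ) * (kj δ j * (Real.log (kj δ j) - B)) := by
      refine mul_le_mul_of_nonneg_left (le_trans ?_ g1) (by linarith)
      exact mul_le_mul_of_nonneg_left g3 (by linarith)
    refine le_trans ?_ g4
    have g5 : 1 + δ / 2 ≤ (1 - κ) * ((1 - 2 * κ) * (1 + δ - κ)) := by
      have e1 : (1 - κ) * (1 - 2 * κ) = 1 - 3 * κ + 2 * κ ^ 2 := by ring
      have e2 : (1 - 3 * κ) * (1 + δ - κ) ≤ (1 - κ) * ((1 - 2 * κ) * (1 + δ - κ)) := by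
        rw [← mul_assoc, e1]
        have : 0 ≤ 2 * κ ^ 2 * (1 + δ - κ) := mul_nonneg (by positivity) (by linarith)
        nlinarith
      have e3 : (1 - 3 * κ) * (1 + δ - κ) = 1 + δ - κ * (4 + 3 * δ) + 3 * κ ^ 2 := by ring
      have e4 : 0 ≤ 3 * κ ^ 2 := by positivity
      linarith
    have := mul_le_mul_of_nonneg_right g5 h4.le
    linarith
  · nlinarith

/-- no chains of length `(1 + δ) log x / log log x` of a map which at least doubles -/
theorem noneC (hA : ∀ n, MeasurableSet[ℱ n] (A n)) (Q : Finset ℕ) (hQ : ∀ p ∈ Q, p.Prime)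
    (hcop : ∀ n, (∃ p ∈ Q, p ∣ n) → A n = ∅)
    (hd : ∀ᵐ ω ∂μ, Tendsto (fun n : ℕ => dens μ ℱ A n ω * Real.log n)
      (atTop ⊓ 𝓟 {n : ℕ | ∀ p ∈ Q, ¬ p ∣ n + 1}) (𝓝 (∏ p ∈ Q, (1 - 1 / (p : ℝ))⁻¹))) {δ : ℝ} (hδ : 0 < δ)
    (F : ℕ → ℕ → ℕ) (hF1 : ∀ n i, 2 ^ i ≤ F i n) (hF2 : ∀ n i i', F i n = F i' n → i = i') :
    ∀ᵐ ω ∂μ, ∀ᶠ j : ℕ in atTop, ∀ n < 2 ^ (j + 1), ∃ i < kj δ j, ω ∉ A (F i n) := by
  classical
  have hprof := profile (μ := μ) hA Q hQ hcop hd
  set W := ∏ p ∈ Q, p with hWdef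
  have hW : 0 < W := Finset.prod_pos fun q hq => (hQ q hq).pos
  set c : ℝ := (W : ℝ) / Nat.totient W with hc
  have hc1 : 1 ≤ c := c_one hW
  obtain ⟨κ, hκ⟩ : ∃ κ : ℝ, κ = δ / (2 * (4 + 3 * δ)) := ⟨_, rfl⟩
  have hκ0 : 0 < κ := by rw [hκ]; positivity
  have hκ1 : κ ≤ 1 / 6 := by
    rw [hκ, div_le_div_iff₀ (by positivity) (by norm_num)]
    nlinarith
  have hlog2 : 0 < Real.log 2 := Real.log_pos (by norm_num)
  set B : ℝ := Real.log (4 * c / (κ * Real.log 2)) with hB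
  have hlt : Real.exp (-(δ / 2 * Real.log 2)) < 1 := by
    rw [Real.exp_lt_one_iff]
    have : 0 < δ / 2 * Real.log 2 := by positivity
    linarith
  have hsum : Summable (fun j : ℕ => 2 * Real.exp (-(δ / 2 * Real.log 2)) ^ j) :=
    (summable_geometric_of_lt_one (Real.exp_pos _).le hlt).mul_left 2
  -- the last part of the chain
  set h : ℕ → ℕ := fun j => ⌊κ * kj δ j⌋₊ with hh
  have hprob : ∀ N₀ : ℕ, ∀ᶠ j : ℕ in atTop, μ.real (⋃ n ∈ Finset.range (2 ^ (j + 1)),
      (NW (VR μ ℱ A (rhoW W)) N₀ (∑ i ∈ Finset.Ico (h j) (kj δ j), F i n) ∩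
        {ω | ∀ i ∈ Finset.Ico (h j) (kj δ j), ω ∈ A (F i n)})) ≤
      2 * Real.exp (-(δ / 2 * Real.log 2)) ^ j := by
    intro N₀
    have hlogu : Tendsto (fun j : ℕ => Real.log ((j : ℝ) * Real.log 2)) atTop atTop := Real.tendsto_log_atTop.comp tendsto_u
    have hkT : Tendsto (fun j : ℕ => Real.log (kj δ j)) atTop atTop := by
      refine tendsto_atTop_mono' _ ?_ (hlogu.atTop_div_const (show (0 : ℝ) < 2 by norm_num))
      filter_upwards [expoC δ B κ hδ hκ] with j hj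
      linarith [hj.2]
    have hkT' : Tendsto (fun j : ℕ => ((kj δ j : ℕ) : ℝ)) atTop atTop := by
      refine tendsto_atTop_mono' _ ?_ hkT
      filter_upwards [hkT.eventually_gt_atTop 0] with j hj
      exact Real.log_le_self (Nat.cast_nonneg _)
    filter_upwards [expoC δ B κ hδ hκ, hkT'.eventually_ge_atTop (2 / κ), hkT'.eventually_ge_atTop (2 * (N₀ + 1) / κ),
      hkT.eventually_ge_atTop B] with j h1 h2 h3 h5
    obtain ⟨h1, _⟩ := h1
    have hk0 : (0 : ℝ) < kj δ j := lt_of_lt_of_le (by positivity) h2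
    rw [div_le_iff₀ hκ0] at h2 h3
    have hh1 : κ / 2 * kj δ j ≤ (h j : ℝ) := by
      have := (Nat.sub_one_lt_floor (κ * (kj δ j : ℝ))).le
      have e : (h j : ℝ) = (⌊κ * (kj δ j : ℝ)⌋₊ : ℝ) := rfl
      rw [e]
      nlinarith
    have hh2 : (h j : ℝ) ≤ κ * kj δ j := Nat.floor_le (by positivity)
    have hhN : N₀ + 1 ≤ h j := by
      have : ((N₀ : ℝ) + 1) ≤ h j := by nlinarith
      exact_mod_cast this
    have hmem : ∀ n, ∀ i ∈ Finset.Ico (h j) (kj δ j), h j < F i n ∧ κ / 2 * kj δ j * Real.log 2 ≤ Real.log (F i n) := by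
      intro n i hi
      rw [Finset.mem_Ico] at hi
      have g1 : 2 ^ h j ≤ F i n := (Nat.pow_le_pow_right (by norm_num) hi.1).trans (hF1 n i)
      have g2 : h j < 2 ^ h j := Nat.lt_two_pow_self
      refine ⟨by omega, ?_⟩
      have g3 : ((2 : ℝ)) ^ h j ≤ F i n := by exact_mod_cast g1
      have g4 := Real.log_le_log (by positivity) g3
      rw [Real.log_pow] at g4
      exact (mul_le_mul_of_nonneg_right hh1 hlog2.le).trans g4
    have hone : ∀ n ∈ Finset.range (2 ^ (j + 1)), μ.real (NW (VR μ ℱ A (rhoW W)) N₀ (∑ i ∈ Finset.Ico (h j) (kj δ j), F i n) ∩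
        {ω | ∀ i ∈ Finset.Ico (h j) (kj δ j), ω ∈ A (F i n)}) ≤ Real.exp (-((1 + δ / 2) * (j * Real.log 2))) := by
      intro n _
      have h6 := YY_exp' (μ := μ) hA (rhoW W) (rhoW_nonneg W) F (Finset.Ico (h j) (kj δ j)) n N₀
        (∑ i ∈ Finset.Ico (h j) (kj δ j), F i n) (fun a _ b _ h => hF2 n a b h) (fun i hi => by
          have := (hmem n i hi).1
          omega) (fun i hi => by
          have h0 : F i n ≤ ∑ i ∈ Finset.Ico (h j) (kj δ j), F i n :=
            Finset.single_le_sum (f := fun i => F i n) (fun _ _ => Nat.zero_le _) hi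
          omega)
      refine h6.trans ?_
      have h7 : ∏ i ∈ Finset.Ico (h j) (kj δ j), 2 * rhoW W (F i n) ≤
          ∏ i ∈ Finset.Ico (h j) (kj δ j), Real.exp (-(Real.log (kj δ j) - B)) := by
        refine Finset.prod_le_prod (fun d _ => mul_nonneg (by norm_num) (rhoW_nonneg W _)) fun i hi => ?_
        have h10 := (hmem n i hi).2
        have h11 : rhoW W (F i n) ≤ c / (κ / 2 * kj δ j * Real.log 2) := by
          unfold rhoW
          split_ifs
          · refine (min_le_right _ _).trans ?_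
            exact div_le_div_of_nonneg_left (by linarith) (by positivity) h10
          · positivity
        have h12 : Real.exp (-(Real.log (kj δ j) - B)) = 4 * c / (κ * Real.log 2) / kj δ j := by
          rw [neg_sub, Real.exp_sub, hB, Real.exp_log (by positivity), Real.exp_log hk0]
        rw [h12]
        calc 2 * rhoW W (F i n) ≤ 2 * (c / (κ / 2 * kj δ j * Real.log 2)) := by linarith
          _ = _ := by field_simp; ring
      refine h7.trans ?_
      rw [Finset.prod_const, Nat.card_Ico, ← Real.exp_nat_mul]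
      apply Real.exp_le_exp.2
      have h13 : (1 - κ) * (kj δ j : ℝ) ≤ ((kj δ j - h j : ℕ) : ℝ) := by
        have g1 : h j ≤ kj δ j := by
          have : (h j : ℝ) ≤ kj δ j := hh2.trans (by nlinarith)
          exact_mod_cast this
        rw [Nat.cast_sub g1]
        linarith
      have h14 : 0 ≤ Real.log (kj δ j) - B := by linarith
      have h15 := mul_le_mul_of_nonneg_right h13 h14
      nlinarith
    refine (measureReal_biUnion_finset_le _ _).trans ((Finset.sum_le_sum hone).trans ?_)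
    rw [Finset.sum_const, Finset.card_range, nsmul_eq_mul]
    push_cast
    rw [← Real.exp_nat_mul]
    have h6 : (2 : ℝ) ^ (j + 1) = 2 * Real.exp (j * Real.log 2) := by
      rw [Real.exp_nat_mul, Real.exp_log (by norm_num)]
      ring
    rw [h6, mul_assoc, ← Real.exp_add]
    refine mul_le_mul_of_nonneg_left (Real.exp_le_exp.2 (le_of_eq ?_)) (by norm_num)
    ring
  have hbc : ∀ᵐ ω ∂μ, ∀ N₀ : ℕ, ∀ᶠ j : ℕ in atTop, ω ∉ (⋃ n ∈ Finset.range (2 ^ (j + 1)),
      (NW (VR μ ℱ A (rhoW W)) N₀ (∑ i ∈ Finset.Ico (h j) (kj δ j), F i n) ∩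
        {ω | ∀ i ∈ Finset.Ico (h j) (kj δ j), ω ∈ A (F i n)})) :=
    ae_all_iff.2 fun N₀ => bc_real (μ := μ) hsum (hprob N₀)
  filter_upwards [hbc, hprof] with ω h1 h2
  obtain ⟨N₀, hN₀⟩ := eventually_atTop.1 (h2 1 one_pos)
  filter_upwards [h1 N₀] with j hj n hn
  by_contra hcon
  push Not at hcon
  apply hj
  simp only [Set.mem_iUnion]
  refine ⟨n, Finset.mem_range.2 hn, ?_, fun i hi => hcon i (Finset.mem_Ico.1 hi).2⟩
  intro m hm1 _ hm2
  simp only [VR, mem_ofPred_eq] at hm2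
  have := (abs_le.1 (hN₀ m hm1)).2
  linarith

end Pool.Agent.N893.SM
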