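import Mathlib
import Pool.Agent.N893.SM.Grow

set_option autoImplicit false
set_option linter.unusedSectionVars false

/-! # Sums of two chosen integers near the middle -/

open MeasureTheory Filter Set Polynomial
open scoped ENNReal Topology

namespace Pool.Agent.N893.SM

open Pool.Agent.R528.RM

/-- counting a periodic set -/
lemma count_per (p : ℕ → Prop) [DecidablePred p] (W : ℕ) (hW : 0 < W) (hp : Function.Periodic p W) (x : ℕ) :
    |(Nat.count p x : ℝ) - x * ((Nat.count p W : ℝ) / W)| ≤ W := by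
  have h2 : ∀ q r : ℕ, Nat.count p (q * W + r) = q * Nat.count p W + Nat.count p r := by
    intro q r
    induction q with
    | zero => simp
    | succ q ih =>
      have h3 : (fun k => p (W + k)) = p := by
        funext k
        rw [add_comm]
        exact hp k
      have : (q + 1) * W + r = W + (q * W + r) := by ring
      rw [this, Nat.count_add]
      simp only [h3, ih]
      ring
  have hWr : (0 : ℝ) < W := by exact_mod_cast hW
  have hcW : (Nat.count p W : ℝ) ≤ W := by exact_mod_cast Nat.count_le p (n := W)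
  have h3 : Nat.count p x = (x / W) * Nat.count p W + Nat.count p (x % W) := by
    conv_lhs => rw [← Nat.div_add_mod' x W]
    exact h2 _ _
  have h4 : (x : ℝ) = (x / W : ℕ) * W + (x % W : ℕ) := by exact_mod_cast (Nat.div_add_mod' x W).symm
  have h5 : (Nat.count p (x % W) : ℝ) ≤ (x % W : ℕ) := by exact_mod_cast Nat.count_le p (n := x % W)
  have h6 : ((x % W : ℕ) : ℝ) ≤ W := by exact_mod_cast (Nat.mod_lt x hW).le
  have e1 : (Nat.count p x : ℝ) - x * ((Nat.count p W : ℝ) / W) =
      (Nat.count p (x % W) : ℝ) - (x % W : ℕ) * ((Nat.count p W : ℝ) / W) := by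
    rw [h3, h4]
    push_cast
    field_simp
    ring
  rw [e1]
  have g0 : (Nat.count p W : ℝ) / W ≤ 1 := (div_le_one hWr).2 hcW
  have g0' : 0 ≤ (Nat.count p W : ℝ) / W := by positivity
  have g1 : (0 : ℝ) ≤ (Nat.count p (x % W) : ℝ) := Nat.cast_nonneg _
  have g2 : (0 : ℝ) ≤ ((x % W : ℕ) : ℝ) := Nat.cast_nonneg _
  have g3 : ((x % W : ℕ) : ℝ) * ((Nat.count p W : ℝ) / W) ≤ W := by nlinarith
  have g4 : 0 ≤ ((x % W : ℕ) : ℝ) * ((Nat.count p W : ℝ) / W) := by positivity
  rw [abs_le]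
  constructor <;> linarith

/-- counting a periodic set in an interval below `h` -/
lemma count_win (p : ℕ → Prop) [DecidablePred p] (W : ℕ) (hW : 0 < W) (hp : Function.Periodic p W) {h H : ℕ} (hH : H ≤ h) :
    |(∑ i ∈ Finset.range H, if p (h - 1 - i) then (1 : ℝ) else 0) - H * ((Nat.count p W : ℝ) / W)| ≤ 2 * W := by
  have h1 : (∑ i ∈ Finset.range H, if p (h - 1 - i) then (1 : ℝ) else 0) = (Nat.count p h : ℝ) - Nat.count p (h - H) := by
    have h2 : (∑ i ∈ Finset.range H, if p (h - 1 - i) then (1 : ℝ) else 0) = ∑ i ∈ Finset.range H, if p (h - H + i) then (1 : ℝ) else 0 := by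
      rw [← Finset.sum_range_reflect]
      refine Finset.sum_congr rfl fun i hi => ?_
      rw [Finset.mem_range] at hi
      rw [show h - 1 - (H - 1 - i) = h - H + i by omega]
    rw [h2, Finset.sum_boole]
    have h3 : Nat.count p h = Nat.count p (h - H) + Nat.count (fun k => p (h - H + k)) H := by
      rw [← Nat.count_add]
      congr 1
      omega
    rw [h3, Nat.count_eq_card_filter_range (fun k => p (h - H + k))]
    push_cast
    ring
  rw [h1]
  have g1 := abs_le.1 (count_per p W hW hp h)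
  have g2 := abs_le.1 (count_per p W hW hp (h - H))
  have g3 : ((h - H : ℕ) : ℝ) = (h : ℝ) - H := by rw [Nat.cast_sub hH]
  rw [g3] at g2
  rw [abs_le]
  constructor <;> nlinarith [g1.1, g1.2, g2.1, g2.2]

/-- the expected number of pairs near `n / 2` -/
noncomputable def EW (ρ : ℕ → ℝ) (n H : ℕ) : ℝ := ∑ i ∈ Finset.range H, ρ (n / 2 - 1 - i) * ρ (n - n / 2 + 1 + i)

lemma EW_asymp (Q : Finset ℕ) (hQ : ∀ p ∈ Q, p.Prime) {ε : ℝ} (hε : 0 < ε) : ∃ K : ℝ, 0 < K ∧ ∀ᶠ n : ℕ in atTop,
    ∀ H : ℕ, K ≤ H → 8 * H ≤ n → |EW (rhoW (∏ p ∈ Q, p)) n H * Real.log n ^ 2 / H - singQ Q n| ≤ ε := by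
  classical
  set W := ∏ p ∈ Q, p with hWdef
  have hW : 0 < W := Finset.prod_pos fun q hq => (hQ q hq).pos
  have hWr : (0 : ℝ) < W := by exact_mod_cast hW
  set c := (W : ℝ) / Nat.totient W with hc
  have hc1 : 1 ≤ c := c_one hW
  -- choice of η
  set η : ℝ := min (ε / (2 * (3 * c ^ 2 + 1))) 1 with hη
  have hη0 : 0 < η := lt_min (by positivity) one_pos
  have hη1 : η ≤ 1 := min_le_right _ _
  have hη2 : 3 * c ^ 2 * η ≤ ε / 2 := by
    have : η ≤ ε / (2 * (3 * c ^ 2 + 1)) := min_le_left _ _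
    rw [le_div_iff₀ (by positivity)] at this
    nlinarith [sq_nonneg c]
  refine ⟨4 * W * c ^ 2 / ε + 1, by positivity, ?_⟩
  have t7 : ∀ᶠ n : ℕ in atTop, Real.log n ≤ (1 + η) * Real.log ((n : ℝ) / 8) := by
    have h1 := tendsto_log.eventually_ge_atTop (2 * Real.log 8 / η)
    filter_upwards [h1, eventually_ge_atTop 1] with n hn hn1
    have hn' : (1 : ℝ) ≤ n := by exact_mod_cast hn1
    rw [Real.log_div (by linarith) (by norm_num)]
    rw [div_le_iff₀ hη0] at hn
    have : 0 < Real.log 8 := Real.log_pos (by norm_num)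
    nlinarith
  have t8 : ∀ᶠ n : ℕ in atTop, c ≤ Real.log ((n : ℝ) / 8) := by
    have : Tendsto (fun n : ℕ => Real.log ((n : ℝ) / 8)) atTop atTop :=
      Real.tendsto_log_atTop.comp (tendsto_natCast_atTop_atTop.atTop_div_const (by norm_num))
    exact this.eventually_ge_atTop c
  filter_upwards [t7, t8, eventually_ge_atTop 100] with n h7 h8 hn H hK hH
  have hn' : (100 : ℝ) ≤ n := by exact_mod_cast hn
  have hH0 : (0 : ℝ) < H := lt_of_lt_of_le (by positivity) hK
  have hlog8 : 0 < Real.log ((n : ℝ) / 8) := by linarith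
  have hlogn : 0 < Real.log (n : ℝ) := Real.log_pos (by linarith)
  have hrange : ∀ v : ℕ, n ≤ 8 * v → v ≤ n → c / Real.log n ≤ bb c v ∧ bb c v ≤ (1 + η) * (c / Real.log n) := by
    intro v hv1 hv2
    have m1 : (n : ℝ) / 8 ≤ v := by
      rw [div_le_iff₀ (by norm_num)]
      have : (n : ℝ) ≤ 8 * v := by exact_mod_cast hv1
      linarith
    have m2 : (v : ℝ) ≤ n := by exact_mod_cast hv2
    have m0 : (0 : ℝ) < v := by linarith
    have l1 := Real.log_le_log (by linarith) m1
    have l2 := Real.log_le_log m0 m2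
    have l0 : 0 < Real.log (v : ℝ) := by linarith
    have e1 : bb c v = c / Real.log (v : ℝ) := by
      unfold bb
      exact min_eq_right ((div_le_one l0).2 (by linarith))
    rw [e1]
    constructor
    · exact div_le_div_of_nonneg_left (by linarith) l0 l2
    · rw [← mul_div_assoc, div_le_div_iff₀ l0 hlogn]
      have k1 : Real.log n ≤ (1 + η) * Real.log (v : ℝ) := h7.trans (mul_le_mul_of_nonneg_left l1 (by linarith))
      calc c * Real.log n ≤ c * ((1 + η) * Real.log (v : ℝ)) := mul_le_mul_of_nonneg_left k1 (by linarith)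
        _ = _ := by ring
  have hgood : ∀ i, i < H → ((n / 2 - 1 - i).Coprime W ∧ (n - n / 2 + 1 + i).Coprime W ↔ good (PP n) W (n / 2 - 1 - i)) := by
    intro i hi
    have hle : n / 2 - 1 - i ≤ n := by omega
    rw [good_PP n W _ hle, show n - (n / 2 - 1 - i) = n - n / 2 + 1 + i by omega]
  have hterm : ∀ i ∈ Finset.range H, c ^ 2 * (if good (PP n) W (n / 2 - 1 - i) then (1 : ℝ) else 0) ≤
      rhoW W (n / 2 - 1 - i) * rhoW W (n - n / 2 + 1 + i) * Real.log n ^ 2 ∧
      rhoW W (n / 2 - 1 - i) * rhoW W (n - n / 2 + 1 + i) * Real.log n ^ 2 ≤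
      (1 + 3 * η) * c ^ 2 * (if good (PP n) W (n / 2 - 1 - i) then (1 : ℝ) else 0) := by
    intro i hi
    rw [Finset.mem_range] at hi
    by_cases hg : good (PP n) W (n / 2 - 1 - i)
    · rw [if_pos hg]
      obtain ⟨g1, g2⟩ := (hgood i hi).2 hg
      have e1 : rhoW W (n / 2 - 1 - i) = bb c (n / 2 - 1 - i) := by unfold rhoW bb; rw [if_pos g1]
      have e2 : rhoW W (n - n / 2 + 1 + i) = bb c (n - n / 2 + 1 + i) := by unfold rhoW bb; rw [if_pos g2]
      rw [e1, e2]
      obtain ⟨a1, a2⟩ := hrange (n / 2 - 1 - i) (by omega) (by omega)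
      obtain ⟨b1, b2⟩ := hrange (n - n / 2 + 1 + i) (by omega) (by omega)
      have hcl : 0 < c / Real.log n := by positivity
      have e3 : c ^ 2 = (c / Real.log n) * (c / Real.log n) * Real.log n ^ 2 := by field_simp
      constructor
      · rw [mul_one, e3]
        exact mul_le_mul_of_nonneg_right (mul_le_mul a1 b1 hcl.le (hcl.le.trans a1)) (by positivity)
      · rw [mul_one]
        have h1 : bb c (n / 2 - 1 - i) * bb c (n - n / 2 + 1 + i) ≤ (1 + η) * (c / Real.log n) * ((1 + η) * (c / Real.log n)) :=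
          mul_le_mul a2 b2 (hcl.le.trans b1) (by positivity)
        have h2 := mul_le_mul_of_nonneg_right h1 (show 0 ≤ Real.log (n : ℝ) ^ 2 by positivity)
        refine h2.trans ?_
        have h3 : (1 + η) * (c / Real.log n) * ((1 + η) * (c / Real.log n)) * Real.log n ^ 2 = (1 + η) ^ 2 * c ^ 2 := by
          field_simp
        rw [h3]
        refine mul_le_mul_of_nonneg_right ?_ (sq_nonneg c)
        nlinarith
    · rw [if_neg hg]
      have hz : rhoW W (n / 2 - 1 - i) * rhoW W (n - n / 2 + 1 + i) = 0 := by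
        by_cases h1 : (n / 2 - 1 - i).Coprime W
        · have h2 : ¬ (n - n / 2 + 1 + i).Coprime W := fun h => hg ((hgood i hi).1 ⟨h1, h⟩)
          have : rhoW W (n - n / 2 + 1 + i) = 0 := by unfold rhoW; rw [if_neg h2]
          rw [this, mul_zero]
        · have : rhoW W (n / 2 - 1 - i) = 0 := by unfold rhoW; rw [if_neg h1]
          rw [this, zero_mul]
      rw [hz]
      simp
  have hS : EW (rhoW W) n H * Real.log n ^ 2 = ∑ i ∈ Finset.range H, rhoW W (n / 2 - 1 - i) * rhoW W (n - n / 2 + 1 + i) * Real.log n ^ 2 := by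
    unfold EW
    rw [Finset.sum_mul]
  have hlow := Finset.sum_le_sum fun i hi => (hterm i hi).1
  have hup := Finset.sum_le_sum fun i hi => (hterm i hi).2
  rw [← hS, ← Finset.mul_sum] at hlow hup
  have hcount := count_win (good (PP n) W) W hW (good_periodic (PP n) W) (show H ≤ n / 2 by omega)
  set G := ∑ i ∈ Finset.range H, (if good (PP n) W (n / 2 - 1 - i) then (1 : ℝ) else 0) with hG
  set g := (Nat.count (good (PP n) W) W : ℝ) / W with hg
  have hsing : singQ Q n = g * c ^ 2 := (singQ_eq Q hQ n).symm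
  have hg0 : 0 ≤ g := by positivity
  have hg1 : g ≤ 1 := by
    rw [hg, div_le_one hWr]
    exact_mod_cast Nat.count_le _ (n := W)
  have hcc := abs_le.1 hcount
  have hGH : G ≤ H := by
    have : G ≤ ∑ i ∈ Finset.range H, (1 : ℝ) := Finset.sum_le_sum fun i _ => by split_ifs <;> norm_num
    simpa using this
  have hG0 : 0 ≤ G := Finset.sum_nonneg fun i _ => by split_ifs <;> norm_num
  rw [hsing, abs_le]
  have hKW : 2 * W * c ^ 2 ≤ ε / 2 * H := by
    have h1 : 4 * W * c ^ 2 / ε ≤ H := by linarith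
    rw [div_le_iff₀ hε] at h1
    linarith
  have hc2 : 0 ≤ c ^ 2 := sq_nonneg c
  constructor
  · rw [le_sub_iff_add_le, le_div_iff₀ hH0]
    have h1 : c ^ 2 * (H * g - 2 * W) ≤ c ^ 2 * G := mul_le_mul_of_nonneg_left (by linarith [hcc.1]) hc2
    nlinarith
  · rw [sub_le_iff_le_add, div_le_iff₀ hH0]
    have h1 : c ^ 2 * G ≤ c ^ 2 * (H * g + 2 * W) := mul_le_mul_of_nonneg_left (by linarith [hcc.2]) hc2
    have h2 : 3 * c ^ 2 * η * G ≤ ε / 2 * H := mul_le_mul hη2 hGH hG0 (by positivity)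
    nlinarith

lemma singQ_cases (Q : Finset ℕ) (hQ : ∀ p ∈ Q, p.Prime) (n : ℕ) (h : singQ Q n ≠ 0) : 1 / ((∏ p ∈ Q, p : ℕ) : ℝ) ≤ singQ Q n := by
  have h1 : ∀ p ∈ Q, 1 / (p : ℝ) ≤ (1 - (if p ∣ n then 1 else 2 : ℝ) / p) / (1 - 1 / (p : ℝ)) ^ 2 := by
    intro p hp
    have hp2 : (2 : ℝ) ≤ p := by exact_mod_cast (hQ p hp).two_le
    have hp0 : (0 : ℝ) < p := by linarith
    have h3 : 1 / (p : ℝ) ≤ 1 / 2 := one_div_le_one_div_of_le (by norm_num) hp2
    have h4 : 0 < 1 / (p : ℝ) := by positivity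
    have e1 : 0 < (1 - 1 / (p : ℝ)) ^ 2 := pow_pos (by linarith) _
    have e2 : (1 - 1 / (p : ℝ)) ^ 2 ≤ 1 := pow_le_one₀ (by linarith) (by linarith)
    have hne : (1 - (if p ∣ n then 1 else 2 : ℝ) / p) / (1 - 1 / (p : ℝ)) ^ 2 ≠ 0 := by
      intro h0
      apply h
      unfold singQ
      exact Finset.prod_eq_zero hp h0
    have h5 : 1 / (p : ℝ) ≤ 1 - (if p ∣ n then 1 else 2 : ℝ) / p := by
      split_ifs with hd
      · linarith
      · have hp3 : p ≠ 2 := by
          rintro rfl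
          apply hne
          rw [if_neg hd]
          norm_num
        have hp3' : (3 : ℝ) ≤ p := by
          have := (hQ p hp).two_le
          exact_mod_cast (by omega : 3 ≤ p)
        rw [le_sub_iff_add_le, ← add_div, div_le_one hp0]
        linarith
    rw [le_div_iff₀ e1]
    calc 1 / (p : ℝ) * (1 - 1 / (p : ℝ)) ^ 2 ≤ 1 / (p : ℝ) * 1 := mul_le_mul_of_nonneg_left e2 h4.le
      _ = 1 / (p : ℝ) := mul_one _
      _ ≤ _ := h5
  unfold singQ
  push_cast
  rw [one_div, ← Finset.prod_inv_distrib]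
  refine Finset.prod_le_prod (fun p _ => by positivity) fun p hp => ?_
  rw [← one_div (p : ℝ)]
  exact h1 p hp

lemma singQ_zero {Q : Finset ℕ} (hQ : ∀ p ∈ Q, p.Prime) {n : ℕ} (h : singQ Q n = 0) : 2 ∈ Q ∧ ¬ 2 ∣ n := by
  unfold singQ at h
  rw [Finset.prod_eq_zero_iff] at h
  obtain ⟨p, hp, h0⟩ := h
  have hp2 : (2 : ℝ) ≤ p := by exact_mod_cast (hQ p hp).two_le
  have hp0 : (0 : ℝ) < p := by linarith
  have h3 : 1 / (p : ℝ) ≤ 1 / 2 := one_div_le_one_div_of_le (by norm_num) hp2
  have e1 : 0 < (1 - 1 / (p : ℝ)) ^ 2 := pow_pos (by linarith) _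
  rw [div_eq_zero_iff] at h0
  rcases h0 with h0 | h0
  · split_ifs at h0 with hd
    · linarith
    · have h4 : (2 : ℝ) / p = 1 := by linarith
      rw [div_eq_one_iff_eq hp0.ne'] at h4
      have : p = 2 := by exact_mod_cast h4.symm
      subst this
      exact ⟨hp, hd⟩
  · exact absurd h0 e1.ne'

end Pool.Agent.N893.SM
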