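import Mathlib
import Pool.Agent.N893.SM.Win
import Pool.Agent.N893.SM.Exp

set_option autoImplicit false
set_option linter.unusedSectionVars false

/-! # Sums of two chosen integers near the middle: the probabilistic part -/

open MeasureTheory Filter Set
open scoped ENNReal Topology

namespace Pool.Agent.N893.SM

open Pool.Agent.R528.RM

variable {Ω : Type} {m0 : MeasurableSpace Ω} {μ : Measure Ω} [IsProbabilityMeasure μ]
  {ℱ : Filtration ℕ m0} {A : ℕ → Set Ω}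

/-- the number of pairs near `n / 2` -/
noncomputable def RW (A : ℕ → Set Ω) (n H : ℕ) (ω : Ω) : ℝ :=
  ∑ i ∈ Finset.range H, In A (n / 2 - 1 - i) ω * In A (n - n / 2 + 1 + i) ω

/-- the mixed sum -/
noncomputable def TW (A : ℕ → Set Ω) (ρ : ℕ → ℝ) (n H : ℕ) (ω : Ω) : ℝ :=
  ∑ i ∈ Finset.range H, In A (n / 2 - 1 - i) ω * ρ (n - n / 2 + 1 + i)

/-- upper places -/
def v2 (n i : ℕ) : ℕ := n - n / 2 + 1 + i

/-- lower places -/
def v1 (n H j : ℕ) : ℕ := n / 2 - H + j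

open Classical in
/-- upper weights -/
noncomputable def w2 (A : ℕ → Set Ω) (n H i : ℕ) (ω : Ω) : ℝ := if i < H then In A (n / 2 - 1 - i) ω else 0

open Classical in
/-- lower weights -/
noncomputable def w1 (ρ : ℕ → ℝ) (r : ℝ) (n H j : ℕ) (_ : Ω) : ℝ := if j < H then ρ (n - v1 n H j) / r else 0

lemma v2_mono (n : ℕ) : StrictMono (v2 n) := by
  intro a b h
  unfold v2
  omega

lemma v1_mono (n H : ℕ) : StrictMono (v1 n H) := by
  intro a b h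
  unfold v1
  omega

lemma w2_01 (n H i : ℕ) (ω : Ω) : 0 ≤ w2 A n H i ω ∧ w2 A n H i ω ≤ 1 := by
  unfold w2
  split_ifs
  · exact ⟨In_nonneg _ _, In_le _ _⟩
  · norm_num

lemma w1_01 {ρ : ℕ → ℝ} (hρ : ∀ n, 0 ≤ ρ n) {r : ℝ} (hr : 0 < r) {n H : ℕ} (hrn : ∀ v, n ≤ 2 * v → ρ v ≤ r) (hH : 8 * H ≤ n)
    (j : ℕ) (ω : Ω) : 0 ≤ w1 ρ r n H j ω ∧ w1 ρ r n H j ω ≤ 1 := by
  unfold w1
  split_ifs with h
  · refine ⟨div_nonneg (hρ _) hr.le, (div_le_one hr).2 (hrn _ ?_)⟩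
    unfold v1
    omega
  · norm_num

lemma w2_meas (hA : ∀ n, MeasurableSet[ℱ n] (A n)) (n H k : ℕ) : StronglyMeasurable[ℱ (v2 n k - 1)] (w2 A n H k) := by
  unfold w2
  split_ifs
  · refine In_meas hA ?_
    unfold v2
    omega
  · exact stronglyMeasurable_const

lemma w1_meas (ρ : ℕ → ℝ) (r : ℝ) (n H k : ℕ) : StronglyMeasurable[ℱ (v1 n H k - 1)] (w1 (Ω := Ω) ρ r n H k) := by
  unfold w1
  exact stronglyMeasurable_const

/-- the errors, four tails -/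
theorem errW (hA : ∀ n, MeasurableSet[ℱ n] (A n)) (ρ : ℕ → ℝ) (hρ : ∀ n, 0 ≤ ρ n) {r : ℕ → ℝ} (hr : ∀ n, 0 < r n)
    (hrn : ∀ n v, n ≤ 2 * v → ρ v ≤ r n) (θ : ℝ) :
    ∀ᵐ ω ∂μ, ∀ᶠ n : ℕ in atTop, ∀ H : ℕ, 8 * H ≤ n →
      Gx μ ℱ A θ (v1 n H) (w1 ρ (r n) n H) H ω < 3 * Real.log n ∧
      Gx μ ℱ A θ (v2 n) (w2 A n H) H ω < 3 * Real.log n := by
  set Bad : ℕ → Set Ω := fun n => ⋃ H ∈ Finset.range (n / 8 + 1),
    ({ω | 3 * Real.log n ≤ Gx μ ℱ A θ (v1 n H) (w1 ρ (r n) n H) H ω} ∪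
     {ω | 3 * Real.log n ≤ Gx μ ℱ A θ (v2 n) (w2 A n H) H ω}) with hBad
  have hsum : Summable (fun n : ℕ => 2 * ((n : ℝ) ^ 2)⁻¹) := (Real.summable_nat_pow_inv.2 (by norm_num)).mul_left 2
  have hb : ∀ᶠ n in atTop, μ.real (Bad n) ≤ 2 * ((n : ℝ) ^ 2)⁻¹ := by
    filter_upwards [eventually_ge_atTop 2] with n hn
    have hn' : (2 : ℝ) ≤ n := by exact_mod_cast hn
    have hn0 : (0 : ℝ) < n := by linarith
    have hexp : Real.exp (-(3 * Real.log n)) = ((n : ℝ) ^ 3)⁻¹ := by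
      rw [Real.exp_neg]
      congr 1
      rw [← Real.rpow_natCast, Real.rpow_def_of_pos hn0]
      congr 1
      push_cast
      ring
    have h1 : ∀ H ∈ Finset.range (n / 8 + 1), μ.real ({ω | 3 * Real.log n ≤ Gx μ ℱ A θ (v1 n H) (w1 ρ (r n) n H) H ω} ∪
     {ω | 3 * Real.log n ≤ Gx μ ℱ A θ (v2 n) (w2 A n H) H ω}) ≤ 2 * ((n : ℝ) ^ 3)⁻¹ := by
      intro H hH
      have hH' := Finset.mem_range.1 hH
      refine (measureReal_union_le _ _).trans ?_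
      have a1 := Gx_tail (μ := μ) hA θ (v1_mono n H) (fun j => by unfold v1; omega) (fun k => w1_meas ρ (r n) n H k)
        (fun k ω => w1_01 hρ (hr n) (hrn n) (by omega) k ω) H (3 * Real.log n)
      have a2 := Gx_tail (μ := μ) hA θ (v2_mono n) (fun j => by unfold v2; omega) (fun k => w2_meas hA n H k)
        (fun k ω => w2_01 n H k ω) H (3 * Real.log n)
      rw [hexp] at a1 a2
      linarith
    refine (measureReal_biUnion_finset_le _ _).trans ((Finset.sum_le_sum h1).trans ?_)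
    rw [Finset.sum_const, Finset.card_range, nsmul_eq_mul]
    have e1 : ((n / 8 + 1 : ℕ) : ℝ) ≤ n := by
      have : n / 8 + 1 ≤ n := by omega
      exact_mod_cast this
    calc ((n / 8 + 1 : ℕ) : ℝ) * (2 * ((n : ℝ) ^ 3)⁻¹) ≤ n * (2 * ((n : ℝ) ^ 3)⁻¹) := mul_le_mul_of_nonneg_right e1 (by positivity)
      _ = 2 * ((n : ℝ) ^ 2)⁻¹ := by field_simp
  filter_upwards [bc_real (μ := μ) hsum hb] with ω hω
  filter_upwards [hω] with n hn H hH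
  constructor
  · by_contra hcon
    apply hn
    simp only [hBad, Set.mem_iUnion]
    exact ⟨H, Finset.mem_range.2 (by omega), Or.inl (not_lt.1 hcon)⟩
  · by_contra hcon
    apply hn
    simp only [hBad, Set.mem_iUnion]
    exact ⟨H, Finset.mem_range.2 (by omega), Or.inr (not_lt.1 hcon)⟩

/-- the error, one tail -/
theorem errZ (hA : ∀ n, MeasurableSet[ℱ n] (A n)) (θ : ℝ) {a : ℝ} (ha : 1 < a) (Hf : ℕ → ℕ) :
    ∀ᵐ ω ∂μ, ∀ᶠ n : ℕ in atTop, Gx μ ℱ A θ (v2 n) (w2 A n (Hf n)) (Hf n) ω < a * Real.log n := by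
  have hsum : Summable (fun n : ℕ => ((n : ℝ) ^ a)⁻¹) := Real.summable_nat_rpow_inv.2 ha
  have hb : ∀ᶠ n : ℕ in atTop, μ.real {ω | a * Real.log n ≤ Gx μ ℱ A θ (v2 n) (w2 A n (Hf n)) (Hf n) ω} ≤ ((n : ℝ) ^ a)⁻¹ := by
    filter_upwards [eventually_ge_atTop 1] with n hn
    have hn0 : (0 : ℝ) < n := by exact_mod_cast hn
    have a2 := Gx_tail (μ := μ) hA θ (v2_mono n) (fun j => by unfold v2; omega) (fun k => w2_meas hA n (Hf n) k)
        (fun k ω => w2_01 n (Hf n) k ω) (Hf n) (a * Real.log n)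
    refine a2.trans (le_of_eq ?_)
    rw [Real.exp_neg, Real.rpow_def_of_pos hn0, mul_comm]
  filter_upwards [bc_real (μ := μ) hsum hb] with ω hω
  filter_upwards [hω] with n hn
  exact not_le.1 hn

lemma D_close {ρ : ℕ → ℝ} {ε : ℝ} {v : ℕ → ℕ} {w : ℕ → Ω → ℝ} {M : ℕ} {ω : Ω} (hw : ∀ k, 0 ≤ w k ω)
    (hN : ∀ k < M, |dens μ ℱ A (v k - 1) ω - ρ (v k)| ≤ ε * ρ (v k)) :
    |(∑ k ∈ Finset.range M, w k ω * dens μ ℱ A (v k - 1) ω) - ∑ k ∈ Finset.range M, w k ω * ρ (v k)| ≤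
      ε * ∑ k ∈ Finset.range M, w k ω * ρ (v k) := by
  rw [← Finset.sum_sub_distrib, Finset.mul_sum]
  refine (Finset.abs_sum_le_sum_abs _ _).trans (Finset.sum_le_sum fun k hk => ?_)
  rw [← mul_sub, abs_mul, abs_of_nonneg (hw k)]
  calc w k ω * |dens μ ℱ A (v k - 1) ω - ρ (v k)| ≤ w k ω * (ε * ρ (v k)) :=
        mul_le_mul_of_nonneg_left (hN k (Finset.mem_range.1 hk)) (hw k)
    _ = _ := by ring

lemma sum_w1_In {ρ : ℕ → ℝ} {r : ℝ} (hr : 0 < r) {n H : ℕ} (hH : 8 * H ≤ n) (F : ℕ → ℝ) (ω : Ω) :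
    ∑ j ∈ Finset.range H, w1 ρ r n H j ω * F (v1 n H j) = (∑ i ∈ Finset.range H, F (n / 2 - 1 - i) * ρ (n - n / 2 + 1 + i)) / r := by
  rw [← Finset.sum_range_reflect, Finset.sum_div]
  refine Finset.sum_congr rfl fun i hi => ?_
  rw [Finset.mem_range] at hi
  unfold w1 v1
  rw [if_pos (by omega), show n / 2 - H + (H - 1 - i) = n / 2 - 1 - i by omega, show n - (n / 2 - 1 - i) = n - n / 2 + 1 + i by omega]
  ring

lemma sum_w2 (n H : ℕ) (F : ℕ → ℝ) (ω : Ω) :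
    ∑ i ∈ Finset.range H, w2 A n H i ω * F (v2 n i) = ∑ i ∈ Finset.range H, In A (n / 2 - 1 - i) ω * F (n - n / 2 + 1 + i) := by
  refine Finset.sum_congr rfl fun i hi => ?_
  rw [Finset.mem_range] at hi
  unfold w2 v2
  rw [if_pos hi]

/-- the two steps for given `n`, `H` -/
lemma two_steps {ρ : ℕ → ℝ} (hρ : ∀ n, 0 ≤ ρ n ∧ ρ n ≤ 1) {ω : Ω} (h01 : ∀ n, 0 ≤ dens μ ℱ A n ω ∧ dens μ ℱ A n ω ≤ 1)
    {ε θ δ t r : ℝ} (hε : 0 ≤ ε) (hε1 : ε ≤ 1) (hθ : 0 < θ) (hθ1 : θ ≤ 1) (hd1 : (1 + θ) * (1 + ε) ≤ 1 + δ)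
    (hd2 : 1 - δ ≤ (1 - θ) * (1 - ε)) (hr : 0 < r) {n H : ℕ} (hn2 : 2 ≤ n) (hrn : ∀ v, n ≤ 2 * v → ρ v ≤ r) (hH : 8 * H ≤ n)
    (hN : ∀ k, n ≤ 4 * (k + 1) → |dens μ ℱ A k ω - ρ (k + 1)| ≤ ε * ρ (k + 1))
    (ha1 : Gx μ ℱ A θ (v1 n H) (w1 ρ r n H) H ω < t) (hb1 : Gx μ ℱ A (-θ) (v1 n H) (w1 ρ r n H) H ω < t)
    (ha2 : Gx μ ℱ A θ (v2 n) (w2 A n H) H ω < t) (hb2 : Gx μ ℱ A (-θ) (v2 n) (w2 A n H) H ω < t) :
    ((1 - δ) * EW ρ n H - r * (t / θ) ≤ TW A ρ n H ω ∧ TW A ρ n H ω ≤ (1 + δ) * EW ρ n H + r * (t / θ)) ∧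
    ((1 - δ) * TW A ρ n H ω - t / θ ≤ RW A n H ω ∧ RW A n H ω ≤ (1 + δ) * TW A ρ n H ω + t / θ) := by
  have hW1 := fun j => w1_01 (Ω := Ω) (fun n => (hρ n).1) hr hrn hH j ω
  have hW2 := fun j => w2_01 (A := A) n H j ω
  obtain ⟨g1, g2⟩ := Gx_two hθ hθ1 (fun n => (h01 n).1) (fun n => (hW1 n).1) ha1 hb1
  obtain ⟨g3, g4⟩ := Gx_two hθ hθ1 (fun n => (h01 n).1) (fun n => (hW2 n).1) ha2 hb2
  have c1 := D_close (μ := μ) (ℱ := ℱ) (A := A) (ρ := ρ) (ε := ε) (v := v1 n H) (w := w1 ρ r n H) (M := H) (ω := ω)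
    (fun k => (hW1 k).1) (fun k hk => by
      have := hN (v1 n H k - 1) (by unfold v1; omega)
      rwa [show v1 n H k - 1 + 1 = v1 n H k by unfold v1; omega] at this)
  have c2 := D_close (μ := μ) (ℱ := ℱ) (A := A) (ρ := ρ) (ε := ε) (v := v2 n) (w := w2 A n H) (M := H) (ω := ω)
    (fun k => (hW2 k).1) (fun k hk => by
      have := hN (v2 n k - 1) (by unfold v2; omega)
      rwa [show v2 n k - 1 + 1 = v2 n k by unfold v2; omega] at this)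
  have e1 : ∑ k ∈ Finset.range H, w1 ρ r n H k ω * In A (v1 n H k) ω = TW A ρ n H ω / r :=
    sum_w1_In hr hH (fun v => In A v ω) ω
  have e2 : ∑ k ∈ Finset.range H, w1 ρ r n H k ω * ρ (v1 n H k) = EW ρ n H / r :=
    sum_w1_In hr hH ρ ω
  have e3 : ∑ k ∈ Finset.range H, w2 A n H k ω * In A (v2 n k) ω = RW A n H ω := sum_w2 n H (fun v => In A v ω) ω
  have e4 : ∑ k ∈ Finset.range H, w2 A n H k ω * ρ (v2 n k) = TW A ρ n H ω := sum_w2 n H ρ ω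
  rw [e1] at g1 g2
  rw [e2] at c1
  rw [e3] at g3 g4
  rw [e4] at c2
  set D1 := ∑ k ∈ Finset.range H, w1 ρ r n H k ω * dens μ ℱ A (v1 n H k - 1) ω
  set D2 := ∑ k ∈ Finset.range H, w2 A n H k ω * dens μ ℱ A (v2 n k - 1) ω
  have hE0 : 0 ≤ EW ρ n H := Finset.sum_nonneg fun i _ => mul_nonneg (hρ _).1 (hρ _).1
  have hT0 : 0 ≤ TW A ρ n H ω := Finset.sum_nonneg fun i _ => mul_nonneg (In_nonneg _ _) (hρ _).1
  have aux : ∀ D S T : ℝ, 0 ≤ S → |D - S| ≤ ε * S → (1 - θ) * D - t / θ ≤ T → T ≤ (1 + θ) * D + t / θ →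
      (1 - δ) * S - t / θ ≤ T ∧ T ≤ (1 + δ) * S + t / θ := by
    intro D S T hS hD h1 h2
    have hd := abs_le.1 hD
    constructor
    · have k1 : (1 - θ) * ((1 - ε) * S) ≤ (1 - θ) * D := mul_le_mul_of_nonneg_left (by linarith [hd.1]) (by linarith)
      have k2 : (1 - δ) * S ≤ (1 - θ) * (1 - ε) * S := mul_le_mul_of_nonneg_right hd2 hS
      nlinarith
    · have k1 : (1 + θ) * D ≤ (1 + θ) * ((1 + ε) * S) := mul_le_mul_of_nonneg_left (by linarith [hd.2]) (by linarith)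
      have k2 : (1 + θ) * (1 + ε) * S ≤ (1 + δ) * S := mul_le_mul_of_nonneg_right hd1 hS
      nlinarith
  refine ⟨?_, aux D2 _ _ hT0 c2 g3 g4⟩
  obtain ⟨k1, k2⟩ := aux D1 _ _ (div_nonneg hE0 hr.le) c1 g1 g2
  constructor
  · have := mul_le_mul_of_nonneg_left k1 hr.le
    have e5 : r * ((1 - δ) * (EW ρ n H / r) - t / θ) = (1 - δ) * EW ρ n H - r * (t / θ) := by
      field_simp
    have e6 : r * (TW A ρ n H ω / r) = TW A ρ n H ω := by field_simp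
    rw [e5, e6] at this
    exact this
  · have := mul_le_mul_of_nonneg_left k2 hr.le
    have e5 : r * ((1 + δ) * (EW ρ n H / r) + t / θ) = (1 + δ) * EW ρ n H + r * (t / θ) := by
      field_simp
    have e6 : r * (TW A ρ n H ω / r) = TW A ρ n H ω := by field_simp
    rw [e5, e6] at this
    exact this

/-- no pair -/
lemma no_pair {ρ : ℕ → ℝ} {ω : Ω} (h01 : ∀ n, 0 ≤ dens μ ℱ A n ω ∧ dens μ ℱ A n ω ≤ 1)
    {ε t : ℝ} {m : ℕ} {n H : ℕ} (hn2 : 2 ≤ n)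
    (hN : ∀ k, n ≤ 4 * (k + 1) → |dens μ ℱ A k ω - ρ (k + 1)| ≤ ε * ρ (k + 1))
    (hz : Gx μ ℱ A (-Real.log (m + 1)) (v2 n) (w2 A n H) H ω < t) (h0 : RW A n H ω = 0) :
    (1 - 1 / ((m : ℝ) + 1)) * ((1 - ε) * TW A ρ n H ω) < t := by
  have hm0 : (0 : ℝ) ≤ m := Nat.cast_nonneg m
  have hW2 := fun j => w2_01 (A := A) n H j ω
  have c2 := D_close (μ := μ) (ℱ := ℱ) (A := A) (ρ := ρ) (ε := ε) (v := v2 n) (w := w2 A n H) (M := H) (ω := ω)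
    (fun k => (hW2 k).1) (fun k hk => by
      have := hN (v2 n k - 1) (by unfold v2; omega)
      rwa [show v2 n k - 1 + 1 = v2 n k by unfold v2; omega] at this)
  have e3 : ∑ k ∈ Finset.range H, w2 A n H k ω * In A (v2 n k) ω = RW A n H ω := sum_w2 n H (fun v => In A v ω) ω
  have e4 : ∑ k ∈ Finset.range H, w2 A n H k ω * ρ (v2 n k) = TW A ρ n H ω := sum_w2 n H ρ ω
  rw [e4] at c2
  have e : Gx μ ℱ A (-Real.log (m + 1)) (v2 n) (w2 A n H) H ω = -Real.log (m + 1) * RW A n H ω -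
      (Real.exp (-Real.log (m + 1)) - 1) * ∑ k ∈ Finset.range H, w2 A n H k ω * dens μ ℱ A (v2 n k - 1) ω := by
    rw [← e3]
    unfold Gx
    rw [Finset.mul_sum, Finset.mul_sum, ← Finset.sum_sub_distrib]
    refine Finset.sum_congr rfl fun k _ => ?_
    ring
  rw [e, h0, mul_zero, zero_sub, Real.exp_neg, Real.exp_log (by positivity)] at hz
  set D2 := ∑ k ∈ Finset.range H, w2 A n H k ω * dens μ ℱ A (v2 n k - 1) ω
  have hd := abs_le.1 c2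
  have h1 : 0 ≤ 1 - 1 / ((m : ℝ) + 1) := by
    rw [sub_nonneg, div_le_one (by positivity)]
    linarith
  have h2 : (1 - 1 / ((m : ℝ) + 1)) * ((1 - ε) * TW A ρ n H ω) ≤ (1 - 1 / ((m : ℝ) + 1)) * D2 :=
    mul_le_mul_of_nonneg_left (by linarith [hd.1]) h1
  have h3 : (1 - 1 / ((m : ℝ) + 1)) * D2 < t := by
    have : -((((m : ℝ) + 1)⁻¹ - 1) * D2) = (1 - 1 / ((m : ℝ) + 1)) * D2 := by
      rw [one_div]; ring
    linarith
  linarith

end Pool.Agent.N893.SM
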