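import Mathlib
import Pool.Agent.N893.SM.Win2

set_option autoImplicit false
set_option linter.unusedSectionVars false

/-! # Sums of two chosen integers near the middle: the theorem -/

open MeasureTheory Filter Set
open scoped ENNReal Topology

namespace Pool.Agent.N893.SM

open Pool.Agent.R528.RM

variable {Ω : Type} {m0 : MeasurableSpace Ω} {μ : Measure Ω} [IsProbabilityMeasure μ]
  {ℱ : Filtration ℕ m0} {A : ℕ → Set Ω}

lemma singQ_bounds (Q : Finset ℕ) (hQ : ∀ p ∈ Q, p.Prime) (n : ℕ) : 0 ≤ singQ Q n ∧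
    singQ Q n ≤ (((∏ p ∈ Q, p : ℕ) : ℝ) / Nat.totient (∏ p ∈ Q, p)) ^ 2 := by
  classical
  have hW : 0 < ∏ p ∈ Q, p := Finset.prod_pos fun q hq => (hQ q hq).pos
  have hWr : (0 : ℝ) < ((∏ p ∈ Q, p : ℕ) : ℝ) := by exact_mod_cast hW
  rw [← singQ_eq Q hQ n]
  constructor
  · positivity
  · refine mul_le_of_le_one_left (by positivity) ?_
    rw [div_le_one hWr]
    exact_mod_cast Nat.count_le _ (n := ∏ p ∈ Q, p)

lemma rhoW_le_bb (W v : ℕ) : rhoW W v ≤ bb ((W : ℝ) / Nat.totient W) v := by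
  unfold rhoW bb
  split_ifs
  · exact le_rfl
  · exact le_min zero_le_one (div_nonneg (by positivity) (Real.log_natCast_nonneg v))

/-- the bound for the weights -/
noncomputable def rr (c : ℝ) (n : ℕ) : ℝ := if n < 4 then 1 else c / Real.log ((n : ℝ) / 2)

lemma rr_spec {W : ℕ} (hW : 0 < W) : (∀ n, 0 < rr ((W : ℝ) / Nat.totient W) n) ∧
    (∀ n v, n ≤ 2 * v → rhoW W v ≤ rr ((W : ℝ) / Nat.totient W) n) := by
  have hc := c_one hW
  constructor
  · intro n
    unfold rr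
    split_ifs with h
    · exact one_pos
    · have : (4 : ℝ) ≤ n := by exact_mod_cast (not_lt.1 h)
      have : 0 < Real.log ((n : ℝ) / 2) := Real.log_pos (by linarith)
      positivity
  · intro n v hv
    refine (rhoW_le_bb W v).trans ?_
    unfold rr bb
    split_ifs with h
    · exact min_le_left _ _
    · have h4 : (4 : ℝ) ≤ n := by exact_mod_cast (not_lt.1 h)
      have h5 : 0 < Real.log ((n : ℝ) / 2) := Real.log_pos (by linarith)
      have h6 : (n : ℝ) / 2 ≤ v := by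
        have : (n : ℝ) ≤ 2 * v := by exact_mod_cast hv
        linarith
      refine (min_le_right _ _).trans (div_le_div_of_nonneg_left (by linarith) h5 ?_)
      exact Real.log_le_log (by linarith) h6

lemma logpow_small (C : ℝ) : ∀ᶠ n : ℕ in atTop, C * Real.log n ^ 3 ≤ n := by
  have h1 : Tendsto (fun x : ℝ => Real.log x ^ 3 / x) atTop (𝓝 0) := by
    have := Real.isLittleO_pow_log_id_atTop (n := 3)
    exact this.tendsto_div_nhds_zero
  have h2 : Tendsto (fun n : ℕ => Real.log n ^ 3 / n) atTop (𝓝 0) := h1.comp tendsto_natCast_atTop_atTop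
  have h3 : Tendsto (fun n : ℕ => C * (Real.log n ^ 3 / n)) atTop (𝓝 0) := by simpa using h2.const_mul C
  filter_upwards [h3.eventually_le_const (show (0 : ℝ) < 1 by norm_num), eventually_ge_atTop 1] with n hn h1
  have hn0 : (0 : ℝ) < n := by exact_mod_cast h1
  rw [← mul_div_assoc, div_le_one hn0] at hn
  exact hn

/-- the radius -/
noncomputable def Hq (Q : Finset ℕ) (κ : ℝ) (n : ℕ) : ℕ := ⌈(1 + κ) * (Real.log n ^ 3 / singQ Q n)⌉₊

theorem nearMid (hA : ∀ n, MeasurableSet[ℱ n] (A n)) (Q : Finset ℕ) (hQ : ∀ p ∈ Q, p.Prime)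
    (hv : ∀ n, (∃ p ∈ Q, p ∣ n) → A n = ∅)
    (hd : ∀ᵐ ω ∂μ, ∀ ε : ℝ, 0 < ε → ∀ᶠ n : ℕ in atTop,
      |dens μ ℱ A n ω - rhoW (∏ p ∈ Q, p) (n + 1)| ≤ ε * rhoW (∏ p ∈ Q, p) (n + 1)) :
    ∀ᵐ ω ∂μ,
      (∀ ε : ℝ, 0 < ε → ∃ K : ℝ, 0 < K ∧ ∀ᶠ n : ℕ in atTop, ∀ H : ℕ, K * Real.log n ^ 3 ≤ H → 8 * H ≤ n →
        |RW A n H ω - singQ Q n * (H / Real.log n ^ 2)| ≤ ε * (singQ Q n * (H / Real.log n ^ 2))) ∧
      (∀ δ : ℝ, 0 < δ → ∀ᶠ n : ℕ in atTop, singQ Q n ≠ 0 → ∃ i : ℕ, 8 * (i + 1) ≤ n ∧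
        (i : ℝ) + 1 ≤ (1 + δ) * (Real.log n ^ 3 / singQ Q n) ∧ ω ∈ A (n / 2 - 1 - i) ∧ ω ∈ A (n - n / 2 + 1 + i)) := by
  classical
  set W := ∏ p ∈ Q, p with hWdef
  have hW : 0 < W := Finset.prod_pos fun q hq => (hQ q hq).pos
  have hWr : (1 : ℝ) ≤ W := by exact_mod_cast hW
  set c := (W : ℝ) / Nat.totient W with hc
  have hc1 : 1 ≤ c := c_one hW
  have hρ : ∀ n, 0 ≤ rhoW W n ∧ rhoW W n ≤ 1 := fun n => ⟨rhoW_nonneg W n, (rhoW_le_bb W n).trans (min_le_left _ _)⟩
  obtain ⟨hr0, hr1⟩ := rr_spec hW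
  have h01 : ∀ᵐ ω ∂μ, ∀ n, 0 ≤ dens μ ℱ A n ω ∧ dens μ ℱ A n ω ≤ 1 := ae_all_iff.2 fun n => dens01 hA n
  have hEa : ∀ᵐ ω ∂μ, ∀ m : ℕ, ∀ᶠ n : ℕ in atTop, ∀ H : ℕ, 8 * H ≤ n →
      Gx μ ℱ A (1 / ((m : ℝ) + 1)) (v1 n H) (w1 (rhoW W) (rr c n) n H) H ω < 3 * Real.log n ∧
      Gx μ ℱ A (1 / ((m : ℝ) + 1)) (v2 n) (w2 A n H) H ω < 3 * Real.log n :=
    ae_all_iff.2 fun m => errW hA (rhoW W) (fun n => (hρ n).1) hr0 hr1 _
  have hEb : ∀ᵐ ω ∂μ, ∀ m : ℕ, ∀ᶠ n : ℕ in atTop, ∀ H : ℕ, 8 * H ≤ n →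
      Gx μ ℱ A (-(1 / ((m : ℝ) + 1))) (v1 n H) (w1 (rhoW W) (rr c n) n H) H ω < 3 * Real.log n ∧
      Gx μ ℱ A (-(1 / ((m : ℝ) + 1))) (v2 n) (w2 A n H) H ω < 3 * Real.log n :=
    ae_all_iff.2 fun m => errW hA (rhoW W) (fun n => (hρ n).1) hr0 hr1 _
  have hEz : ∀ᵐ ω ∂μ, ∀ m q : ℕ, ∀ᶠ n : ℕ in atTop,
      Gx μ ℱ A (-Real.log (m + 1)) (v2 n) (w2 A n (Hq Q (1 / ((q : ℝ) + 1)) n)) (Hq Q (1 / ((q : ℝ) + 1)) n) ω <
        (1 + 1 / ((m : ℝ) + 1)) * Real.log n :=
    ae_all_iff.2 fun m => ae_all_iff.2 fun q => errZ hA _ (by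
      have : 0 < 1 / ((m : ℝ) + 1) := by positivity
      linarith) _
  filter_upwards [h01, hEa, hEb, hEz, hd] with ω h01 hEa hEb hEz hd
  have hIn : ∀ v, ω ∉ A v → In A v ω = 0 := fun v h => indicator_of_notMem h _
  have hlog2 : ∀ᶠ n : ℕ in atTop, Real.log n ≤ 2 * Real.log ((n : ℝ) / 2) := by
    filter_upwards [tendsto_log.eventually_ge_atTop (2 * Real.log 2), eventually_ge_atTop 1] with n hn h1
    have h1' : (1 : ℝ) ≤ n := by exact_mod_cast h1
    rw [Real.log_div (by linarith) (by norm_num)]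
    linarith
  -- the basic estimate
  have basic : ∀ η : ℝ, 0 < η → η ≤ 1 / 8 → ∃ C : ℝ, 0 < C ∧ ∃ K0 : ℝ, 0 < K0 ∧ ∀ᶠ n : ℕ in atTop, ∀ H : ℕ, K0 ≤ H → 8 * H ≤ n →
      singQ Q n ≠ 0 →
      ((1 - η) ^ 2 * (singQ Q n * (H / Real.log n ^ 2)) - C ≤ TW A (rhoW W) n H ω) ∧
      ((1 - η) ^ 3 * (singQ Q n * (H / Real.log n ^ 2)) - C * Real.log n ≤ RW A n H ω ∧
       RW A n H ω ≤ (1 + η) ^ 3 * (singQ Q n * (H / Real.log n ^ 2)) + C * Real.log n) := by
    intro η hη0 hη1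
    obtain ⟨m, hm⟩ := exists_nat_one_div_lt (show (0 : ℝ) < η / 3 by positivity)
    have hm0 : (0 : ℝ) ≤ m := Nat.cast_nonneg m
    set θ : ℝ := 1 / ((m : ℝ) + 1) with hθ
    have hθ0 : 0 < θ := by positivity
    have hθ1 : θ ≤ 1 := by linarith
    obtain ⟨K0, hK0, hK⟩ := EW_asymp Q hQ (show 0 < η / W by positivity)
    obtain ⟨N, hN⟩ := eventually_atTop.1 (hd (η / 3) (by positivity))
    refine ⟨12 * c / θ, by positivity, K0, hK0, ?_⟩
    filter_upwards [hEa m, hEb m, hK, eventually_ge_atTop (4 * N + 8), hlog2, tendsto_log.eventually_ge_atTop (1 : ℝ),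
      tendsto_log.eventually_ge_atTop (2 * c)] with n h1 h2 h3 h4 h5 h6 h7 H hKH hH hs
    have hL : 0 < Real.log (n : ℝ) := by linarith
    have hH0 : (0 : ℝ) < H := lt_of_lt_of_le hK0 hKH
    have hl2 : 0 < Real.log ((n : ℝ) / 2) := by linarith
    have hrr : rr c n = c / Real.log ((n : ℝ) / 2) := by
      unfold rr
      rw [if_neg (by omega)]
    have hrL : rr c n * (3 * Real.log n / θ) ≤ 6 * c / θ := by
      rw [hrr, div_mul_div_comm, div_le_div_iff₀ (by positivity) hθ0]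
      have : c * (3 * Real.log n) ≤ 6 * c * Real.log ((n : ℝ) / 2) := by nlinarith
      nlinarith
    have hsW : 1 / (W : ℝ) ≤ singQ Q n := singQ_cases Q hQ n hs
    obtain ⟨⟨g1, g2⟩, ⟨g3, g4⟩⟩ := two_steps (μ := μ) hρ h01 (ε := η / 3) (θ := θ) (δ := η) (t := 3 * Real.log n)
      (r := rr c n) (by positivity) (by linarith) hθ0 hθ1 (by nlinarith) (by nlinarith) (hr0 n) (by omega) (hr1 n) hH
      (fun k hk => hN k (by omega)) (h1 H hH).1 (h2 H hH).1 (h1 H hH).2 (h2 H hH).2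
    have h8 := abs_le.1 (h3 H hKH hH)
    set X := singQ Q n * (H / Real.log n ^ 2) with hX
    have hE : (1 - η) * X ≤ EW (rhoW W) n H ∧ EW (rhoW W) n H ≤ (1 + η) * X := by
      have e1 : EW (rhoW W) n H = EW (rhoW W) n H * Real.log n ^ 2 / H * (H / Real.log n ^ 2) := by field_simp
      have e2 : η / W ≤ η * singQ Q n := by
        calc η / W = η * (1 / W) := by ring
          _ ≤ _ := mul_le_mul_of_nonneg_left hsW hη0.le
      have e3 : 0 ≤ (H : ℝ) / Real.log n ^ 2 := by positivity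
      rw [e1, hX]
      constructor
      · calc (1 - η) * (singQ Q n * (H / Real.log n ^ 2)) = ((1 - η) * singQ Q n) * (H / Real.log n ^ 2) := by ring
          _ ≤ _ := mul_le_mul_of_nonneg_right (by linarith [h8.1]) e3
      · calc EW (rhoW W) n H * Real.log n ^ 2 / H * (H / Real.log n ^ 2) ≤ ((1 + η) * singQ Q n) * (H / Real.log n ^ 2) :=
            mul_le_mul_of_nonneg_right (by linarith [h8.2]) e3
          _ = _ := by ring
    have hX0 : 0 ≤ X := mul_nonneg (singQ_bounds Q hQ n).1 (by positivity)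
    have hCL : 12 * c / θ ≤ 12 * c / θ * Real.log n := le_mul_of_one_le_right (by positivity) h6
    have ht : 3 * Real.log n / θ ≤ 3 * c / θ * Real.log n := by
      rw [div_mul_eq_mul_div]
      refine div_le_div_of_nonneg_right ?_ hθ0.le
      nlinarith
    have hct : 0 ≤ c / θ := by positivity
    have hctL : 0 ≤ c / θ * Real.log n := by positivity
    have q1 : 6 * c / θ = 6 * (c / θ) := by ring
    have q2 : 12 * c / θ = 12 * (c / θ) := by ring
    have q3 : 3 * c / θ * Real.log n = 3 * (c / θ * Real.log n) := by ring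
    have q4 : 12 * (c / θ) * Real.log n = 12 * (c / θ * Real.log n) := by ring
    rw [q1] at hrL
    rw [q2] at hCL ⊢
    rw [q3] at ht
    rw [q4] at hCL ⊢
    have k1 : (1 - η) ^ 2 * X ≤ (1 - η) * EW (rhoW W) n H := by
      have := mul_le_mul_of_nonneg_left hE.1 (show 0 ≤ 1 - η by linarith)
      nlinarith
    have k2 : (1 + η) * EW (rhoW W) n H ≤ (1 + η) ^ 2 * X := by
      have := mul_le_mul_of_nonneg_left hE.2 (show 0 ≤ 1 + η by linarith)
      nlinarith
    have k3 : (1 - η) ^ 2 * X - 6 * (c / θ) ≤ TW A (rhoW W) n H ω := by linarith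
    have k4 : TW A (rhoW W) n H ω ≤ (1 + η) ^ 2 * X + 6 * (c / θ) := by linarith
    refine ⟨by linarith, ?_, ?_⟩
    · have := mul_le_mul_of_nonneg_left k3 (show 0 ≤ 1 - η by linarith)
      have e1 : (1 - η) * ((1 - η) ^ 2 * X - 6 * (c / θ)) = (1 - η) ^ 3 * X - (1 - η) * (6 * (c / θ)) := by ring
      have e2 : (1 - η) * (6 * (c / θ)) ≤ 1 * (6 * (c / θ)) := mul_le_mul_of_nonneg_right (by linarith) (by linarith)
      have e3 : c / θ ≤ c / θ * Real.log n := le_mul_of_one_le_right hct h6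
      linarith
    · have := mul_le_mul_of_nonneg_left k4 (show 0 ≤ 1 + η by linarith)
      have e1 : (1 + η) * ((1 + η) ^ 2 * X + 6 * (c / θ)) = (1 + η) ^ 3 * X + (1 + η) * (6 * (c / θ)) := by ring
      have e2 : (1 + η) * (6 * (c / θ)) ≤ (9 / 8) * (6 * (c / θ)) := mul_le_mul_of_nonneg_right (by linarith) (by linarith)
      have e3 : c / θ ≤ c / θ * Real.log n := le_mul_of_one_le_right hct h6
      linarith
  refine ⟨?_, ?_⟩
  · -- the asymptotic formula
    intro ε' hε'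
    set ε := min ε' 1 with hεdef
    have hε0 : 0 < ε := lt_min hε' one_pos
    have hε1 : ε ≤ 1 := min_le_right _ _
    obtain ⟨C, hC, K0, hK0, hb⟩ := basic (ε / 8) (by positivity) (by linarith)
    refine ⟨8 * C * W / ε, by positivity, ?_⟩
    have hlarge : ∀ᶠ n : ℕ in atTop, K0 ≤ 8 * C * W / ε * Real.log n ^ 3 := by
      have h1 : (0 : ℝ) < 8 * C * W / ε := by positivity
      filter_upwards [tendsto_log.eventually_ge_atTop (1 : ℝ), tendsto_log.eventually_ge_atTop (K0 / (8 * C * W / ε))] with n h2 h3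
      rw [div_le_iff₀ h1] at h3
      have h4 : Real.log (n : ℝ) ≤ Real.log n ^ 3 := by
        have : 1 ≤ Real.log (n : ℝ) ^ 2 := one_le_pow₀ h2
        calc Real.log (n : ℝ) = Real.log n * 1 := (mul_one _).symm
          _ ≤ Real.log n * Real.log n ^ 2 := mul_le_mul_of_nonneg_left this (by linarith)
          _ = _ := by ring
      calc K0 ≤ Real.log n * (8 * C * W / ε) := h3
        _ ≤ Real.log n ^ 3 * (8 * C * W / ε) := mul_le_mul_of_nonneg_right h4 h1.le
        _ = _ := mul_comm _ _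
    filter_upwards [hb, hlarge, tendsto_log.eventually_ge_atTop (1 : ℝ), eventually_ge_atTop 4] with n h1 h2 h3 h4 H hKH hH
    by_cases hs : singQ Q n = 0
    · obtain ⟨z1, z2⟩ := singQ_zero hQ hs
      have hz : RW A n H ω = 0 := by
        unfold RW
        refine Finset.sum_eq_zero fun i hi => ?_
        rw [Finset.mem_range] at hi
        by_cases he : 2 ∣ n / 2 - 1 - i
        · rw [hIn _ (by rw [hv _ ⟨2, z1, he⟩]; exact notMem_empty ω), zero_mul]
        · have he2 : 2 ∣ n - n / 2 + 1 + i := by omega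
          rw [hIn (n - n / 2 + 1 + i) (by rw [hv _ ⟨2, z1, he2⟩]; exact notMem_empty ω), mul_zero]
      rw [hz, hs]
      simp
    · obtain ⟨_, g1, g2⟩ := h1 H (h2.trans hKH) hH hs
      have hsW : 1 / (W : ℝ) ≤ singQ Q n := singQ_cases Q hQ n hs
      set X := singQ Q n * (H / Real.log n ^ 2) with hX
      have hL : 0 < Real.log (n : ℝ) := by linarith
      have hX0 : 0 ≤ X := mul_nonneg (singQ_bounds Q hQ n).1 (by positivity)
      have hCX : C * Real.log n ≤ ε / 8 * X := by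
        have e1 : 8 * C * W / ε * Real.log n ≤ H / Real.log n ^ 2 := by
          rw [le_div_iff₀ (by positivity)]
          calc 8 * C * W / ε * Real.log n * Real.log n ^ 2 = 8 * C * W / ε * Real.log n ^ 3 := by ring
            _ ≤ _ := hKH
        have e2 : 1 / (W : ℝ) * (8 * C * W / ε * Real.log n) ≤ X :=
          mul_le_mul hsW e1 (by positivity) (singQ_bounds Q hQ n).1
        have e3 : 1 / (W : ℝ) * (8 * C * W / ε * Real.log n) = 8 * C / ε * Real.log n := by field_simp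
        rw [e3] at e2
        calc C * Real.log n = ε / 8 * (8 * C / ε * Real.log n) := by field_simp
          _ ≤ _ := mul_le_mul_of_nonneg_left e2 (by positivity)
      have hεε : ε * X ≤ ε' * X := mul_le_mul_of_nonneg_right (min_le_left _ _) hX0
      refine le_trans ?_ hεε
      rw [abs_le]
      have p1 : 1 - 3 * (ε / 8) ≤ (1 - ε / 8) ^ 3 := by nlinarith [sq_nonneg ε]
      have p2 : (1 + ε / 8) ^ 3 ≤ 1 + 7 * (ε / 8) := by nlinarith [sq_nonneg ε, mul_nonneg hε0.le hε0.le, mul_nonneg (mul_nonneg hε0.le hε0.le) hε0.le]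
      have p3 := mul_le_mul_of_nonneg_right p1 hX0
      have p4 := mul_le_mul_of_nonneg_right p2 hX0
      constructor
      · nlinarith
      · nlinarith
  · -- the nearest pair
    intro δ' hδ'
    set δ := min δ' 1 with hδdef
    have hδ0 : 0 < δ := lt_min hδ' one_pos
    have hδ1 : δ ≤ 1 := min_le_right _ _
    obtain ⟨q, hq⟩ := exists_nat_one_div_lt (show (0 : ℝ) < δ / 2 by positivity)
    have hq0 : (0 : ℝ) ≤ q := Nat.cast_nonneg q
    set κ : ℝ := 1 / ((q : ℝ) + 1) with hκ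
    have hκ0 : 0 < κ := by positivity
    have hκ1 : κ ≤ 1 := by linarith
    obtain ⟨m, hm⟩ := exists_nat_one_div_lt (show (0 : ℝ) < κ / 16 by positivity)
    have hm0 : (0 : ℝ) ≤ m := Nat.cast_nonneg m
    set θ : ℝ := 1 / ((m : ℝ) + 1) with hθ
    have hθ0 : 0 < θ := by positivity
    obtain ⟨C, hC, K0, hK0, hb⟩ := basic (κ / 16) (by positivity) (by linarith)
    obtain ⟨N, hN⟩ := eventually_atTop.1 (hd (κ / 16) (by positivity))
    filter_upwards [hb, hEz m q, eventually_ge_atTop (4 * N + 8), logpow_small (8 * (2 * W + 1)),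
      tendsto_log.eventually_ge_atTop (1 : ℝ), tendsto_log.eventually_ge_atTop (c ^ 2 * K0),
      tendsto_log.eventually_ge_atTop (c ^ 2 * (2 / δ)), tendsto_log.eventually_ge_atTop (8 * C / κ)]
      with n h1 h2 h3 h4 h5 h6 h7 h8 hs
    have hsW : 1 / (W : ℝ) ≤ singQ Q n := singQ_cases Q hQ n hs
    have hsc : singQ Q n ≤ c ^ 2 := (singQ_bounds Q hQ n).2
    have hs0 : 0 < singQ Q n := lt_of_lt_of_le (by positivity) hsW
    have hL : 0 < Real.log (n : ℝ) := by linarith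
    have hL3 : Real.log (n : ℝ) ≤ Real.log n ^ 3 := by
      have : 1 ≤ Real.log (n : ℝ) ^ 2 := one_le_pow₀ h5
      calc Real.log (n : ℝ) = Real.log n * 1 := (mul_one _).symm
        _ ≤ Real.log n * Real.log n ^ 2 := mul_le_mul_of_nonneg_left this (by linarith)
        _ = _ := by ring
    set Y := Real.log n ^ 3 / singQ Q n with hY
    have hY1 : ∀ a : ℝ, c ^ 2 * a ≤ Real.log n → 0 ≤ a → a ≤ Y := by
      intro a ha ha0
      rw [hY, le_div_iff₀ hs0]
      calc a * singQ Q n ≤ a * c ^ 2 := mul_le_mul_of_nonneg_left hsc ha0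
        _ ≤ Real.log n := by linarith
        _ ≤ _ := hL3
    have hY2 : Y ≤ W * Real.log n ^ 3 := by
      rw [hY, div_le_iff₀ hs0]
      have : 1 ≤ W * singQ Q n := by
        rw [div_le_iff₀ (by positivity)] at hsW
        linarith
      calc Real.log n ^ 3 = Real.log n ^ 3 * 1 := (mul_one _).symm
        _ ≤ Real.log n ^ 3 * (W * singQ Q n) := mul_le_mul_of_nonneg_left this (by positivity)
        _ = _ := by ring
    set H := Hq Q κ n with hHdef
    have hH1 : (1 + κ) * Y ≤ H := Nat.le_ceil _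
    have hY0 : 0 ≤ Y := by positivity
    have hH2 : (H : ℝ) < (1 + κ) * Y + 1 := Nat.ceil_lt_add_one (by positivity)
    have hHn : 8 * H ≤ n := by
      have e1 : (H : ℝ) ≤ (2 * W + 1) * Real.log n ^ 3 := by
        have : (1 + κ) * Y ≤ 2 * (W * Real.log n ^ 3) := mul_le_mul (by linarith) hY2 hY0 (by norm_num)
        have : (1 : ℝ) ≤ Real.log n ^ 3 := by linarith
        linarith
      have e2 : (8 * H : ℝ) ≤ n := by linarith
      exact_mod_cast e2
    have hKH : K0 ≤ H := by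
      have := hY1 K0 h6 hK0.le
      nlinarith
    obtain ⟨g1, _⟩ := h1 H hKH hHn hs
    by_contra hcon
    push Not at hcon
    have hR0 : RW A n H ω = 0 := by
      unfold RW
      refine Finset.sum_eq_zero fun i hi => ?_
      rw [Finset.mem_range] at hi
      have hi1 : (i : ℝ) + 1 ≤ H := by exact_mod_cast hi
      have hi2 : (i : ℝ) + 1 ≤ (1 + δ') * Y := by
        have e1 := hY1 (2 / δ) h7 (by positivity)
        rw [div_le_iff₀ hδ0] at e1
        have e2 : δ * Y ≤ δ' * Y := mul_le_mul_of_nonneg_right (min_le_left _ _) hY0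
        have e3 : κ * Y ≤ δ / 2 * Y := mul_le_mul_of_nonneg_right hq.le hY0
        nlinarith
      by_cases ha : ω ∈ A (n / 2 - 1 - i)
      · have := hcon i (by omega) hi2 ha
        rw [hIn (n - n / 2 + 1 + i) this, mul_zero]
      · rw [hIn _ ha, zero_mul]
    have hz := no_pair (μ := μ) (ρ := rhoW W) (ε := κ / 16) (m := m) h01 (show 2 ≤ n by omega) (fun k hk => hN k (by omega)) h2 hR0
    have e0 : Real.log n * (1 + κ) ≤ singQ Q n * (H / Real.log n ^ 2) := by
      have e1 : (1 + κ) * Y / Real.log n ^ 2 ≤ H / Real.log n ^ 2 := div_le_div_of_nonneg_right hH1 (by positivity)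
      have e2 := mul_le_mul_of_nonneg_left e1 hs0.le
      have e3 : singQ Q n * ((1 + κ) * Y / Real.log n ^ 2) = Real.log n * (1 + κ) := by
        rw [hY]
        field_simp
      rw [e3] at e2
      exact e2
    have hη : 0 ≤ 1 - κ / 16 := by linarith
    set T := TW A (rhoW W) n H ω
    set L := Real.log (n : ℝ)
    have e1 : (1 - κ / 16) ^ 2 * (L * (1 + κ)) - C ≤ T := by
      have := mul_le_mul_of_nonneg_left e0 (sq_nonneg (1 - κ / 16))
      linarith
    have e2 : (1 - κ / 16) * ((1 - κ / 16) * ((1 - κ / 16) ^ 2 * (L * (1 + κ)) - C)) < (1 + κ / 16) * L := by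
      by_cases hT : 0 ≤ T
      · have f1 : (1 - κ / 16) * T ≥ (1 - κ / 16) * ((1 - κ / 16) ^ 2 * (L * (1 + κ)) - C) :=
          mul_le_mul_of_nonneg_left e1 hη
        have f2 : (1 - κ / 16) * ((1 - κ / 16) * T) ≤ (1 - θ) * ((1 - κ / 16) * T) :=
          mul_le_mul_of_nonneg_right (by linarith) (mul_nonneg hη hT)
        have f3 := mul_le_mul_of_nonneg_left f1 hη
        have f4 : (1 + θ) * L ≤ (1 + κ / 16) * L := mul_le_mul_of_nonneg_right (by linarith) hL.le
        linarith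
      · have f1 : (1 - κ / 16) ^ 2 * (L * (1 + κ)) - C < 0 := by linarith [not_le.1 hT]
        have f2 : (1 - κ / 16) * ((1 - κ / 16) * ((1 - κ / 16) ^ 2 * (L * (1 + κ)) - C)) ≤ 0 :=
          mul_nonpos_of_nonneg_of_nonpos hη (mul_nonpos_of_nonneg_of_nonpos hη f1.le)
        have f3 : 0 < (1 + κ / 16) * L := by positivity
        linarith
    have e3 : (1 - κ / 16) ^ 4 * (1 + κ) * L - C < (1 + κ / 16) * L := by
      have f1 : (1 - κ / 16) * ((1 - κ / 16) * ((1 - κ / 16) ^ 2 * (L * (1 + κ)) - C)) =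
        (1 - κ / 16) ^ 4 * (1 + κ) * L - (1 - κ / 16) ^ 2 * C := by ring
      have f2 : (1 - κ / 16) ^ 2 * C ≤ 1 * C := mul_le_mul_of_nonneg_right (pow_le_one₀ hη (by linarith)) hC.le
      rw [f1] at e2
      linarith
    have e4 : 1 + κ / 2 ≤ (1 - κ / 16) ^ 4 * (1 + κ) := by
      have f1 : 1 - 4 * (κ / 16) ≤ (1 - κ / 16) ^ 4 := by
        have := one_add_mul_le_pow (show (-2 : ℝ) ≤ -(κ / 16) by linarith) 4
        norm_num at this
        have g : (1 + -(κ / 16)) ^ 4 = (1 - κ / 16) ^ 4 := by ring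
        linarith
      have f2 := mul_le_mul_of_nonneg_right f1 (show 0 ≤ 1 + κ by linarith)
      nlinarith
    have e5 := mul_le_mul_of_nonneg_right e4 hL.le
    have e6 : 8 * C / κ ≤ L := h8
    rw [div_le_iff₀ hκ0] at e6
    nlinarith

end Pool.Agent.N893.SM
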