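import Mathlib
import Pool.Agent.N893.SM.Win3

set_option autoImplicit false
set_option linter.unusedSectionVars false

/-! # Sums of two chosen integers, one of them small: the expected number -/

open MeasureTheory Filter Set Polynomial
open scoped ENNReal Topology

namespace Pool.Agent.N893.SM

open Pool.Agent.R528.RM

/-- the expected number of representations with a summand at most `y` -/
noncomputable def ES (ρ : ℕ → ℝ) (n y : ℕ) : ℝ := ∑ i ∈ Finset.range y, ρ (i + 1) * ρ (n - 1 - i)

lemma count_shift (p : ℕ → Prop) [DecidablePred p] (W : ℕ) (hW : 0 < W) (hp : Function.Periodic p W) (y : ℕ) :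
    |(∑ i ∈ Finset.range y, if p (i + 1) then (1 : ℝ) else 0) - y * ((Nat.count p W : ℝ) / W)| ≤ W + 2 := by
  have h1 : (Nat.count p (1 + y) : ℝ) = Nat.count p 1 + ∑ i ∈ Finset.range y, if p (i + 1) then (1 : ℝ) else 0 := by
    rw [Nat.count_add, Nat.count_eq_card_filter_range (fun k => p (1 + k)), Finset.sum_boole]
    push_cast
    congr 2
    congr 1
    ext k
    rw [Finset.mem_filter, Finset.mem_filter, Nat.add_comm 1 k]
  have hWr : (0 : ℝ) < W := by exact_mod_cast hW
  have g1 := abs_le.1 (count_per p W hW hp (1 + y))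
  have g2 : (Nat.count p 1 : ℝ) ≤ 1 := by exact_mod_cast Nat.count_le p (n := 1)
  have g3 : (0 : ℝ) ≤ (Nat.count p 1 : ℝ) := Nat.cast_nonneg _
  have g4 : (Nat.count p W : ℝ) / W ≤ 1 := by
    rw [div_le_one hWr]
    exact_mod_cast Nat.count_le p (n := W)
  have g5 : 0 ≤ (Nat.count p W : ℝ) / W := by positivity
  push_cast at g1 h1
  rw [abs_le]
  constructor <;> nlinarith [g1.1, g1.2]

/-- sums of the probabilities over a periodic set -/
lemma bb_sum {c : ℝ} (hc1 : 1 ≤ c) {W : ℕ} (hW : 0 < W) {ε : ℝ} (hε : 0 < ε) : ∃ Y0 : ℕ, 3 ≤ Y0 ∧ ∀ y : ℕ, Y0 ≤ y →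
    ∀ (p : ℕ → Prop) [DecidablePred p], Function.Periodic p W →
    |(∑ i ∈ Finset.range y, if p (i + 1) then bb c (i + 1) else 0) * Real.log y / y - c * ((Nat.count p W : ℝ) / W)| ≤ ε := by
  have hWr : (1 : ℝ) ≤ W := by exact_mod_cast hW
  set η : ℝ := min (ε / (4 * c)) 1 with hη
  have hη0 : 0 < η := lt_min (by positivity) one_pos
  have hη1 : η ≤ 1 := min_le_right _ _
  have hη2 : η * c ≤ ε / 4 := by
    have : η ≤ ε / (4 * c) := min_le_left _ _
    rw [le_div_iff₀ (by positivity)] at this
    linarith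
  have t1 : ∀ᶠ y : ℕ in atTop, (y : ℝ) ^ (1 / (1 + η)) * Real.log y ≤ ε / 4 * y := by
    have ha : 0 < 1 - 1 / (1 + η) := by
      rw [sub_pos, div_lt_one (by positivity)]
      linarith
    have h1 := (isLittleO_log_rpow_atTop ha).bound (show 0 < ε / 4 by positivity)
    filter_upwards [tendsto_natCast_atTop_atTop.eventually h1, eventually_ge_atTop 1] with y hy hy1
    have hy0 : (1 : ℝ) ≤ y := by exact_mod_cast hy1
    rw [Real.norm_eq_abs, Real.norm_eq_abs, abs_of_nonneg (Real.log_nonneg hy0), abs_of_nonneg (by positivity)] at hy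
    calc (y : ℝ) ^ (1 / (1 + η)) * Real.log y ≤ (y : ℝ) ^ (1 / (1 + η)) * (ε / 4 * (y : ℝ) ^ (1 - 1 / (1 + η))) :=
          mul_le_mul_of_nonneg_left hy (by positivity)
      _ = ε / 4 * ((y : ℝ) ^ (1 / (1 + η)) * (y : ℝ) ^ (1 - 1 / (1 + η))) := by ring
      _ = ε / 4 * y := by
          rw [← Real.rpow_add (by linarith), add_sub_cancel, Real.rpow_one]
  have t2 : ∀ᶠ y : ℕ in atTop, 2 * c * (W + 3) ≤ ε / 4 * y := by
    filter_upwards [tendsto_natCast_atTop_atTop.eventually_ge_atTop (2 * c * (W + 3) / (ε / 4))] with y hy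
    rw [div_le_iff₀ (by positivity)] at hy
    linarith
  obtain ⟨Y0, hY0⟩ := eventually_atTop.1 (t1.and (t2.and (tendsto_log.eventually_ge_atTop c)))
  refine ⟨max Y0 3, le_max_right _ _, fun y hy p _ hp => ?_⟩
  obtain ⟨h1, h2, h3⟩ := hY0 y (le_trans (le_max_left _ _) hy)
  have hy3 : 3 ≤ y := le_trans (le_max_right _ _) hy
  have hyr : (3 : ℝ) ≤ y := by exact_mod_cast hy3
  have hy0 : (0 : ℝ) < y := by linarith
  have hL : 0 < Real.log (y : ℝ) := by linarith
  have hcnt := abs_le.1 (count_shift p W hW hp y)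
  set G := ∑ i ∈ Finset.range y, (if p (i + 1) then (1 : ℝ) else 0) with hG
  set g := (Nat.count p W : ℝ) / W with hg
  set S := ∑ i ∈ Finset.range y, (if p (i + 1) then bb c (i + 1) else 0) with hS
  have hg0 : 0 ≤ g := by positivity
  have hg1 : g ≤ 1 := by
    rw [hg, div_le_one (by linarith)]
    exact_mod_cast Nat.count_le p (n := W)
  have hclog : c / Real.log y ≤ 1 := (div_le_one hL).2 h3
  -- lower bound
  have hlow : c / Real.log y * (G - 1) ≤ S := by
    have e1 : ∀ i ∈ Finset.range y, c / Real.log y * (if p (i + 1) then (1 : ℝ) else 0) - (if i = 0 then c / Real.log y else 0) ≤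
        (if p (i + 1) then bb c (i + 1) else 0) := by
      intro i hi
      rw [Finset.mem_range] at hi
      by_cases hpi : p (i + 1)
      · rw [if_pos hpi, if_pos hpi, mul_one]
        by_cases hi0 : i = 0
        · rw [if_pos hi0, sub_self]
          exact bb_nonneg (by linarith) _
        · rw [if_neg hi0, sub_zero]
          unfold bb
          refine le_min hclog ?_
          have e2 : (1 : ℝ) < ((i + 1 : ℕ) : ℝ) := by
            have : 1 < i + 1 := by omega
            exact_mod_cast this
          have e3 : ((i + 1 : ℕ) : ℝ) ≤ y := by exact_mod_cast (by omega : i + 1 ≤ y)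
          exact div_le_div_of_nonneg_left (by linarith) (Real.log_pos e2) (Real.log_le_log (by linarith) e3)
      · rw [if_neg hpi, if_neg hpi, mul_zero, zero_sub]
        split_ifs
        · rw [neg_nonpos]
          positivity
        · simp
    have e2 := Finset.sum_le_sum e1
    rw [Finset.sum_sub_distrib, ← Finset.mul_sum, Finset.sum_ite_eq' ] at e2
    rw [if_pos (Finset.mem_range.2 (by omega))] at e2
    rw [mul_sub, mul_one]
    exact e2
  -- upper bound
  have hup : S ≤ (y : ℝ) ^ (1 / (1 + η)) + (1 + η) * (c / Real.log y) * G := by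
    set z := (y : ℝ) ^ (1 / (1 + η)) with hz
    have hz0 : 0 < z := by positivity
    have hlz : Real.log z = Real.log y / (1 + η) := by
      rw [hz, Real.log_rpow hy0]
      ring
    have e1 : ∀ i ∈ Finset.range y, (if p (i + 1) then bb c (i + 1) else 0) ≤
        (if ((i + 1 : ℕ) : ℝ) ≤ z then 1 else 0) + (1 + η) * (c / Real.log y) * (if p (i + 1) then (1 : ℝ) else 0) := by
      intro i hi
      have hnn : 0 ≤ (1 + η) * (c / Real.log y) := by positivity
      by_cases hpi : p (i + 1)
      · rw [if_pos hpi, if_pos hpi, mul_one]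
        by_cases hiz : ((i + 1 : ℕ) : ℝ) ≤ z
        · rw [if_pos hiz]
          have : bb c (i + 1) ≤ 1 := min_le_left _ _
          linarith
        · rw [if_neg hiz, zero_add]
          push Not at hiz
          refine (min_le_right _ _).trans ?_
          have e2 := Real.log_le_log hz0 hiz.le
          rw [hlz] at e2
          have e3 : 0 < Real.log y / (1 + η) := by positivity
          calc c / Real.log ((i + 1 : ℕ) : ℝ) ≤ c / (Real.log y / (1 + η)) :=
                div_le_div_of_nonneg_left (by linarith) e3 e2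
            _ = _ := by field_simp
      · rw [if_neg hpi, if_neg hpi, mul_zero, add_zero]
        split_ifs <;> norm_num
    refine (Finset.sum_le_sum e1).trans ?_
    rw [Finset.sum_add_distrib, ← Finset.mul_sum, Finset.sum_boole]
    refine add_le_add ?_ le_rfl
    have e2 : Finset.filter (fun i : ℕ => ((i + 1 : ℕ) : ℝ) ≤ z) (Finset.range y) ⊆ Finset.range ⌊z⌋₊ := by
      intro i hi
      have := (Finset.mem_filter.1 hi).2
      exact Finset.mem_range.2 (Nat.lt_of_succ_le (Nat.le_floor this))
    have e3 := Finset.card_le_card e2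
    rw [Finset.card_range] at e3
    calc ((Finset.filter (fun i : ℕ => ((i + 1 : ℕ) : ℝ) ≤ z) (Finset.range y)).card : ℝ) ≤ (⌊z⌋₊ : ℝ) := by exact_mod_cast e3
      _ ≤ z := Nat.floor_le hz0.le
  rw [abs_le]
  constructor
  · rw [le_sub_iff_add_le, le_div_iff₀ hy0]
    have e1 := mul_le_mul_of_nonneg_right hlow hL.le
    have e2 : c / Real.log y * (G - 1) * Real.log y = c * (G - 1) := by field_simp
    rw [e2] at e1
    have e3 : c * (y * g - (W + 3)) ≤ c * (G - 1) := mul_le_mul_of_nonneg_left (by linarith [hcnt.1]) (by linarith)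
    nlinarith
  · rw [sub_le_iff_le_add, div_le_iff₀ hy0]
    have e1 := mul_le_mul_of_nonneg_right hup hL.le
    have e2 : ((y : ℝ) ^ (1 / (1 + η)) + (1 + η) * (c / Real.log y) * G) * Real.log y =
      (y : ℝ) ^ (1 / (1 + η)) * Real.log y + (1 + η) * c * G := by field_simp
    rw [e2] at e1
    have e3 : G ≤ y * g + (W + 2) := by linarith [hcnt.2]
    have e4 : (1 + η) * c * G ≤ (1 + η) * c * (y * g + (W + 2)) := mul_le_mul_of_nonneg_left e3 (by positivity)
    have e5 : (1 + η) * c * (y * g + (W + 2)) ≤ c * g * y + ε / 4 * y + 2 * c * (W + 3) := by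
      have f1 : η * c * (y * g) ≤ ε / 4 * y := by
        have : (y : ℝ) * g ≤ y := mul_le_of_le_one_right hy0.le hg1
        exact mul_le_mul hη2 this (by positivity) (by positivity)
      have f2 : (1 + η) * c * (W + 2) ≤ 2 * c * (W + 3) := by
        have : (1 + η) * c ≤ 2 * c := mul_le_mul_of_nonneg_right (by linarith) (by linarith)
        exact mul_le_mul this (by linarith) (by positivity) (by positivity)
      nlinarith
    have e6 : 0 ≤ ε * y := by positivity
    linarith

lemma ES_asymp (Q : Finset ℕ) (hQ : ∀ p ∈ Q, p.Prime) {ε : ℝ} (hε : 0 < ε) : ∃ Y0 : ℕ, 3 ≤ Y0 ∧ ∀ᶠ n : ℕ in atTop,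
    ∀ y : ℕ, Y0 ≤ y → 2 * y + 1 ≤ n →
      |ES (rhoW (∏ p ∈ Q, p)) n y * Real.log n * Real.log y / y - singQ Q n| ≤ ε := by
  classical
  set W := ∏ p ∈ Q, p with hWdef
  have hW : 0 < W := Finset.prod_pos fun q hq => (hQ q hq).pos
  have hWr : (0 : ℝ) < W := by exact_mod_cast hW
  set c := (W : ℝ) / Nat.totient W with hc
  have hc1 : 1 ≤ c := c_one hW
  set η : ℝ := min (ε / (4 * (c * (c + 1)))) 1 with hη
  have hη0 : 0 < η := lt_min (by positivity) one_pos
  have hη1 : η ≤ 1 := min_le_right _ _
  have hη2 : η * (c * (c + 1)) ≤ ε / 4 := by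
    have : η ≤ ε / (4 * (c * (c + 1))) := min_le_left _ _
    rw [le_div_iff₀ (by positivity)] at this
    linarith
  set ε' : ℝ := min (ε / (4 * c)) 1 with hε'
  have hε'0 : 0 < ε' := lt_min (by positivity) one_pos
  have hε'1 : ε' ≤ 1 := min_le_right _ _
  have hε'2 : c * ε' ≤ ε / 4 := by
    have : ε' ≤ ε / (4 * c) := min_le_left _ _
    rw [le_div_iff₀ (by positivity)] at this
    linarith
  obtain ⟨Y0, hY3, hY0⟩ := bb_sum hc1 hW hε'0
  refine ⟨Y0, hY3, ?_⟩
  have t7 : ∀ᶠ n : ℕ in atTop, Real.log n ≤ (1 + η) * Real.log ((n : ℝ) / 2) := by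
    have h1 := tendsto_log.eventually_ge_atTop (2 * Real.log 2 / η)
    filter_upwards [h1, eventually_ge_atTop 1] with n hn hn1
    have hn' : (1 : ℝ) ≤ n := by exact_mod_cast hn1
    rw [Real.log_div (by linarith) (by norm_num)]
    rw [div_le_iff₀ hη0] at hn
    have : 0 < Real.log 2 := Real.log_pos (by norm_num)
    nlinarith
  have t8 : ∀ᶠ n : ℕ in atTop, c ≤ Real.log ((n : ℝ) / 2) := by
    have : Tendsto (fun n : ℕ => Real.log ((n : ℝ) / 2)) atTop atTop :=
      Real.tendsto_log_atTop.comp (tendsto_natCast_atTop_atTop.atTop_div_const (by norm_num))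
    exact this.eventually_ge_atTop c
  filter_upwards [t7, t8, eventually_ge_atTop 100] with n h7 h8 hn y hy hyn
  have hn' : (100 : ℝ) ≤ n := by exact_mod_cast hn
  have hyr : (3 : ℝ) ≤ y := by exact_mod_cast (hY3.trans hy)
  have hy0 : (0 : ℝ) < y := by linarith
  have hLy : 0 < Real.log (y : ℝ) := Real.log_pos (by linarith)
  have hlogn : 0 < Real.log (n : ℝ) := Real.log_pos (by linarith)
  have hrange : ∀ v : ℕ, n ≤ 2 * v → v ≤ n → c / Real.log n ≤ bb c v ∧ bb c v ≤ (1 + η) * (c / Real.log n) := by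
    intro v hv1 hv2
    have m1 : (n : ℝ) / 2 ≤ v := by
      have : (n : ℝ) ≤ 2 * v := by exact_mod_cast hv1
      linarith
    have m2 : (v : ℝ) ≤ n := by exact_mod_cast hv2
    have m0 : (0 : ℝ) < v := by linarith
    have l1 := Real.log_le_log (by linarith) m1
    have l2 := Real.log_le_log m0 m2
    have l0 : 0 < Real.log (v : ℝ) := by linarith
    have e1 : bb c v = c / Real.log (v : ℝ) := by
      unfold bb
      exact min_eq_right ((div_le_one l0).2 (by linarith))
    rw [e1]
    constructor
    · exact div_le_div_of_nonneg_left (by linarith) l0 l2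
    · rw [← mul_div_assoc, div_le_div_iff₀ l0 hlogn]
      have k1 : Real.log n ≤ (1 + η) * Real.log (v : ℝ) := h7.trans (mul_le_mul_of_nonneg_left l1 (by linarith))
      calc c * Real.log n ≤ c * ((1 + η) * Real.log (v : ℝ)) := mul_le_mul_of_nonneg_left k1 (by linarith)
        _ = _ := by ring
  have hterm : ∀ i ∈ Finset.range y, (c / Real.log n) * (if good (PP n) W (i + 1) then bb c (i + 1) else 0) ≤
      rhoW W (i + 1) * rhoW W (n - 1 - i) ∧
      rhoW W (i + 1) * rhoW W (n - 1 - i) ≤ (1 + η) * (c / Real.log n) * (if good (PP n) W (i + 1) then bb c (i + 1) else 0) := by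
    intro i hi
    rw [Finset.mem_range] at hi
    have hgood := good_PP n W (i + 1) (by omega)
    rw [show n - (i + 1) = n - 1 - i by omega] at hgood
    by_cases hg : good (PP n) W (i + 1)
    · rw [if_pos hg]
      obtain ⟨g1, g2⟩ := hgood.1 hg
      have e1 : rhoW W (i + 1) = bb c (i + 1) := by unfold rhoW bb; rw [if_pos g1]
      have e2 : rhoW W (n - 1 - i) = bb c (n - 1 - i) := by unfold rhoW bb; rw [if_pos g2]
      rw [e1, e2]
      obtain ⟨b1, b2⟩ := hrange (n - 1 - i) (by omega) (by omega)
      have hb0 : 0 ≤ bb c (i + 1) := bb_nonneg (by linarith) _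
      constructor
      · rw [mul_comm]
        exact mul_le_mul_of_nonneg_left b1 hb0
      · rw [mul_comm]
        exact mul_le_mul_of_nonneg_right b2 hb0
    · rw [if_neg hg]
      have hz : rhoW W (i + 1) * rhoW W (n - 1 - i) = 0 := by
        by_cases h1 : (i + 1).Coprime W
        · have h2 : ¬ (n - 1 - i).Coprime W := fun h => hg (hgood.2 ⟨h1, h⟩)
          have : rhoW W (n - 1 - i) = 0 := by unfold rhoW; rw [if_neg h2]
          rw [this, mul_zero]
        · have : rhoW W (i + 1) = 0 := by unfold rhoW; rw [if_neg h1]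
          rw [this, zero_mul]
      rw [hz]
      simp
  have hlow := Finset.sum_le_sum fun i hi => (hterm i hi).1
  have hup := Finset.sum_le_sum fun i hi => (hterm i hi).2
  rw [← Finset.mul_sum] at hlow hup
  have hbb := abs_le.1 (hY0 y hy (good (PP n) W) (good_periodic (PP n) W))
  set S := ∑ i ∈ Finset.range y, (if good (PP n) W (i + 1) then bb c (i + 1) else 0) with hS
  set g := (Nat.count (good (PP n) W) W : ℝ) / W with hg
  have hsing : singQ Q n = g * c ^ 2 := (singQ_eq Q hQ n).symm
  have hg0 : 0 ≤ g := by positivity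
  have hg1 : g ≤ 1 := by
    rw [hg, div_le_one hWr]
    exact_mod_cast Nat.count_le _ (n := W)
  rw [hsing]
  have hlow' : c * (S * Real.log y / y) ≤ ES (rhoW W) n y * Real.log n * Real.log y / y := by
    have e0 : 0 ≤ Real.log n * Real.log y / y := by positivity
    have := mul_le_mul_of_nonneg_right hlow e0
    calc c * (S * Real.log y / y) = c / Real.log n * S * (Real.log n * Real.log y / y) := by field_simp
      _ ≤ _ := this
      _ = _ := by unfold ES; ring
  have hup' : ES (rhoW W) n y * Real.log n * Real.log y / y ≤ (1 + η) * c * (S * Real.log y / y) := by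
    have e0 : 0 ≤ Real.log n * Real.log y / y := by positivity
    have := mul_le_mul_of_nonneg_right hup e0
    calc ES (rhoW W) n y * Real.log n * Real.log y / y = (∑ i ∈ Finset.range y, rhoW W (i + 1) * rhoW W (n - 1 - i)) * (Real.log n * Real.log y / y) := by
          unfold ES; ring
      _ ≤ _ := this
      _ = _ := by field_simp
  set S' := S * Real.log y / y
  have hS0 : S' ≤ c * g + ε' := by linarith [hbb.2]
  have hcg : c * g ≤ c := mul_le_of_le_one_right (by linarith) hg1
  rw [abs_le]
  constructor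
  · have e1 : c * (c * g - ε') ≤ c * S' := mul_le_mul_of_nonneg_left (by linarith [hbb.1]) (by linarith)
    nlinarith
  · have e1 : (1 + η) * c * S' ≤ (1 + η) * c * (c * g + ε') := mul_le_mul_of_nonneg_left hS0 (by positivity)
    have e2 : (1 + η) * c * (c * g + ε') = g * c ^ 2 + c * ε' + η * (c * (c * g + ε')) := by ring
    have e3 : η * (c * (c * g + ε')) ≤ η * (c * (c + 1)) :=
      mul_le_mul_of_nonneg_left (mul_le_mul_of_nonneg_left (by linarith) (by linarith)) hη0.le
    linarith

end Pool.Agent.N893.SM
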