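import Mathlib
import Pool.Agent.N893.SM.Small

set_option autoImplicit false
set_option linter.unusedSectionVars false
set_option linter.unusedVariables false

/-! # Sums of two chosen integers, one of them small: the probabilistic part -/

open MeasureTheory Filter Set
open scoped ENNReal Topology

namespace Pool.Agent.N893.SM

open Pool.Agent.R528.RM

variable {Ω : Type} {m0 : MeasurableSpace Ω} {μ : Measure Ω} [IsProbabilityMeasure μ]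
  {ℱ : Filtration ℕ m0} {A : ℕ → Set Ω}

/-- the number of representations of `n` with a summand at most `y` -/
noncomputable def RS (A : ℕ → Set Ω) (n y : ℕ) (ω : Ω) : ℝ :=
  ∑ i ∈ Finset.range y, In A (i + 1) ω * In A (n - 1 - i) ω

/-- the mixed sum -/
noncomputable def TS (A : ℕ → Set Ω) (ρ : ℕ → ℝ) (n y : ℕ) (ω : Ω) : ℝ :=
  ∑ i ∈ Finset.range y, In A (i + 1) ω * ρ (n - 1 - i)

/-- upper places -/
def s2 (n y j : ℕ) : ℕ := n - y + j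

open Classical in
/-- upper weights -/
noncomputable def z2 (A : ℕ → Set Ω) (y j : ℕ) (ω : Ω) : ℝ := if j < y then In A (y - j) ω else 0

open Classical in
/-- lower weights -/
noncomputable def z1 (ρ : ℕ → ℝ) (r : ℝ) (n y i : ℕ) (_ : Ω) : ℝ := if i < y then ρ (n - 1 - i) / r else 0

lemma s2_mono (n y : ℕ) : StrictMono (s2 n y) := by
  intro a b h
  unfold s2
  omega

lemma s1_mono : StrictMono (fun i : ℕ => i + 1) := fun a b h => by simp only; omega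

lemma z2_01 (y j : ℕ) (ω : Ω) : 0 ≤ z2 A y j ω ∧ z2 A y j ω ≤ 1 := by
  unfold z2
  split_ifs
  · exact ⟨In_nonneg _ _, In_le _ _⟩
  · norm_num

lemma z1_01 {ρ : ℕ → ℝ} (hρ : ∀ n, 0 ≤ ρ n) {r : ℝ} (hr : 0 < r) {n y : ℕ} (hrn : ∀ v, n ≤ 2 * v → ρ v ≤ r) (hy : 2 * y + 1 ≤ n)
    (i : ℕ) (ω : Ω) : 0 ≤ z1 ρ r n y i ω ∧ z1 ρ r n y i ω ≤ 1 := by
  unfold z1
  split_ifs with h
  · exact ⟨div_nonneg (hρ _) hr.le, (div_le_one hr).2 (hrn _ (by omega))⟩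
  · norm_num

lemma z2_meas (hA : ∀ n, MeasurableSet[ℱ n] (A n)) {n y : ℕ} (hy : 2 * y + 1 ≤ n) (k : ℕ) :
    StronglyMeasurable[ℱ (s2 n y k - 1)] (z2 A y k) := by
  unfold z2
  split_ifs
  · refine In_meas hA ?_
    unfold s2
    omega
  · exact stronglyMeasurable_const

lemma z1_meas (ρ : ℕ → ℝ) (r : ℝ) (n y k : ℕ) : StronglyMeasurable[ℱ (k + 1 - 1)] (z1 (Ω := Ω) ρ r n y k) := by
  unfold z1
  exact stronglyMeasurable_const

/-- the errors, four tails -/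
theorem errS (hA : ∀ n, MeasurableSet[ℱ n] (A n)) (ρ : ℕ → ℝ) (hρ : ∀ n, 0 ≤ ρ n) {r : ℕ → ℝ} (hr : ∀ n, 0 < r n)
    (hrn : ∀ n v, n ≤ 2 * v → ρ v ≤ r n) (θ : ℝ) :
    ∀ᵐ ω ∂μ, ∀ᶠ n : ℕ in atTop, ∀ y : ℕ, 2 * y + 1 ≤ n →
      Gx μ ℱ A θ (fun i => i + 1) (z1 ρ (r n) n y) y ω < 3 * Real.log n ∧
      Gx μ ℱ A θ (s2 n y) (z2 A y) y ω < 3 * Real.log n := by
  set Bad : ℕ → Set Ω := fun n => ⋃ y ∈ (Finset.range (n / 2 + 1)).filter (fun y => 2 * y + 1 ≤ n),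
    ({ω | 3 * Real.log n ≤ Gx μ ℱ A θ (fun i => i + 1) (z1 ρ (r n) n y) y ω} ∪
     {ω | 3 * Real.log n ≤ Gx μ ℱ A θ (s2 n y) (z2 A y) y ω}) with hBad
  have hsum : Summable (fun n : ℕ => 2 * ((n : ℝ) ^ 2)⁻¹) := (Real.summable_nat_pow_inv.2 (by norm_num)).mul_left 2
  have hb : ∀ᶠ n in atTop, μ.real (Bad n) ≤ 2 * ((n : ℝ) ^ 2)⁻¹ := by
    filter_upwards [eventually_ge_atTop 2] with n hn
    have hn' : (2 : ℝ) ≤ n := by exact_mod_cast hn
    have hn0 : (0 : ℝ) < n := by linarith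
    have hexp : Real.exp (-(3 * Real.log n)) = ((n : ℝ) ^ 3)⁻¹ := by
      rw [Real.exp_neg]
      congr 1
      rw [← Real.rpow_natCast, Real.rpow_def_of_pos hn0]
      congr 1
      push_cast
      ring
    have h1 : ∀ y ∈ (Finset.range (n / 2 + 1)).filter (fun y => 2 * y + 1 ≤ n), μ.real ({ω | 3 * Real.log n ≤ Gx μ ℱ A θ (fun i => i + 1) (z1 ρ (r n) n y) y ω} ∪
     {ω | 3 * Real.log n ≤ Gx μ ℱ A θ (s2 n y) (z2 A y) y ω}) ≤ 2 * ((n : ℝ) ^ 3)⁻¹ := by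
      intro y hy
      have hy' := (Finset.mem_filter.1 hy).2
      refine (measureReal_union_le _ _).trans ?_
      have a1 := Gx_tail (μ := μ) hA θ s1_mono (fun j => by simp) (fun k => z1_meas ρ (r n) n y k)
        (fun k ω => z1_01 hρ (hr n) (hrn n) hy' k ω) y (3 * Real.log n)
      have a2 := Gx_tail (μ := μ) hA θ (s2_mono n y) (fun j => by unfold s2; omega) (fun k => z2_meas hA hy' k)
        (fun k ω => z2_01 y k ω) y (3 * Real.log n)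
      rw [hexp] at a1 a2
      linarith
    refine (measureReal_biUnion_finset_le _ _).trans ((Finset.sum_le_sum h1).trans ?_)
    rw [Finset.sum_const, nsmul_eq_mul]
    have e1 : (((Finset.range (n / 2 + 1)).filter (fun y => 2 * y + 1 ≤ n)).card : ℝ) ≤ n := by
      have h2 := Finset.card_filter_le (Finset.range (n / 2 + 1)) (fun y => 2 * y + 1 ≤ n)
      rw [Finset.card_range] at h2
      have : ((Finset.range (n / 2 + 1)).filter (fun y => 2 * y + 1 ≤ n)).card ≤ n := by omega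
      exact_mod_cast this
    calc (((Finset.range (n / 2 + 1)).filter (fun y => 2 * y + 1 ≤ n)).card : ℝ) * (2 * ((n : ℝ) ^ 3)⁻¹) ≤ n * (2 * ((n : ℝ) ^ 3)⁻¹) := mul_le_mul_of_nonneg_right e1 (by positivity)
      _ = 2 * ((n : ℝ) ^ 2)⁻¹ := by field_simp
  filter_upwards [bc_real (μ := μ) hsum hb] with ω hω
  filter_upwards [hω] with n hn y hy
  constructor
  · by_contra hcon
    apply hn
    simp only [hBad, Set.mem_iUnion]
    exact ⟨y, Finset.mem_filter.2 ⟨Finset.mem_range.2 (by omega), hy⟩, Or.inl (not_lt.1 hcon)⟩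
  · by_contra hcon
    apply hn
    simp only [hBad, Set.mem_iUnion]
    exact ⟨y, Finset.mem_filter.2 ⟨Finset.mem_range.2 (by omega), hy⟩, Or.inr (not_lt.1 hcon)⟩

/-- the error, one tail -/
theorem errZS (hA : ∀ n, MeasurableSet[ℱ n] (A n)) (θ : ℝ) {a : ℝ} (ha : 1 < a) (yf : ℕ → ℕ) :
    ∀ᵐ ω ∂μ, ∀ᶠ n : ℕ in atTop, 2 * yf n + 1 ≤ n → Gx μ ℱ A θ (s2 n (yf n)) (z2 A (yf n)) (yf n) ω < a * Real.log n := by
  have hsum : Summable (fun n : ℕ => ((n : ℝ) ^ a)⁻¹) := Real.summable_nat_rpow_inv.2 ha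
  have hb : ∀ᶠ n : ℕ in atTop, μ.real {ω | 2 * yf n + 1 ≤ n ∧ a * Real.log n ≤ Gx μ ℱ A θ (s2 n (yf n)) (z2 A (yf n)) (yf n) ω} ≤ ((n : ℝ) ^ a)⁻¹ := by
    filter_upwards [eventually_ge_atTop 1] with n hn
    have hn0 : (0 : ℝ) < n := by exact_mod_cast hn
    by_cases hy : 2 * yf n + 1 ≤ n
    · have a2 := Gx_tail (μ := μ) hA θ (s2_mono n (yf n)) (fun j => by unfold s2; omega) (fun k => z2_meas hA hy k)
        (fun k ω => z2_01 (yf n) k ω) (yf n) (a * Real.log n)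
      refine (measureReal_mono (fun ω h => h.2) (measure_ne_top _ _)).trans (a2.trans (le_of_eq ?_))
      rw [Real.exp_neg, Real.rpow_def_of_pos hn0, mul_comm]
    · have : {ω | 2 * yf n + 1 ≤ n ∧ a * Real.log n ≤ Gx μ ℱ A θ (s2 n (yf n)) (z2 A (yf n)) (yf n) ω} = ∅ := by
        ext ω
        simp [hy]
      rw [this, measureReal_empty]
      positivity
  filter_upwards [bc_real (μ := μ) hsum hb] with ω hω
  filter_upwards [hω] with n hn hy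
  by_contra hcon
  exact hn ⟨hy, not_lt.1 hcon⟩

lemma D_closeN {ρ : ℕ → ℝ} (hρ : ∀ n, 0 ≤ ρ n ∧ ρ n ≤ 1) {ε : ℝ} (hε : 0 ≤ ε) {v : ℕ → ℕ} {w : ℕ → Ω → ℝ} {M N : ℕ} {ω : Ω}
    (h01 : ∀ n, 0 ≤ dens μ ℱ A n ω ∧ dens μ ℱ A n ω ≤ 1)
    (hw : ∀ k, 0 ≤ w k ω ∧ w k ω ≤ 1)
    (hN : ∀ k < M, N ≤ k → |dens μ ℱ A (v k - 1) ω - ρ (v k)| ≤ ε * ρ (v k)) :
    |(∑ k ∈ Finset.range M, w k ω * dens μ ℱ A (v k - 1) ω) - ∑ k ∈ Finset.range M, w k ω * ρ (v k)| ≤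
      N + ε * ∑ k ∈ Finset.range M, w k ω * ρ (v k) := by
  rw [← Finset.sum_sub_distrib]
  have b1 : ∀ k ∈ Finset.range M, |w k ω * dens μ ℱ A (v k - 1) ω - w k ω * ρ (v k)| ≤
      (if k < N then 1 else 0) + ε * (w k ω * ρ (v k)) := by
    intro k hk
    rw [Finset.mem_range] at hk
    rw [← mul_sub, abs_mul, abs_of_nonneg (hw k).1]
    have c3 : 0 ≤ ε * (w k ω * ρ (v k)) := mul_nonneg hε (mul_nonneg (hw k).1 (hρ _).1)
    split_ifs with hkN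
    · have c1 : |dens μ ℱ A (v k - 1) ω - ρ (v k)| ≤ 1 := by
        rw [abs_le]
        have := h01 (v k - 1)
        have := hρ (v k)
        constructor <;> linarith
      have c2 : w k ω * |dens μ ℱ A (v k - 1) ω - ρ (v k)| ≤ 1 := mul_le_one₀ (hw k).2 (abs_nonneg _) c1
      linarith
    · have c1 := hN k hk (by omega)
      rw [zero_add]
      calc w k ω * |dens μ ℱ A (v k - 1) ω - ρ (v k)| ≤ w k ω * (ε * ρ (v k)) :=
            mul_le_mul_of_nonneg_left c1 (hw k).1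
        _ = _ := by ring
  refine (Finset.abs_sum_le_sum_abs _ _).trans ((Finset.sum_le_sum b1).trans ?_)
  rw [Finset.sum_add_distrib, ← Finset.mul_sum]
  refine add_le_add ?_ le_rfl
  rw [Finset.sum_boole]
  have b2 : (Finset.filter (fun k => k < N) (Finset.range M)) ⊆ Finset.range N := by
    intro k hk
    exact Finset.mem_range.2 (Finset.mem_filter.1 hk).2
  have b3 := Finset.card_le_card b2
  rw [Finset.card_range] at b3
  exact_mod_cast b3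

lemma sum_z1 {ρ : ℕ → ℝ} {r : ℝ} (hr : 0 < r) (n y : ℕ) (F : ℕ → ℝ) (ω : Ω) :
    ∑ i ∈ Finset.range y, z1 ρ r n y i ω * F (i + 1) = (∑ i ∈ Finset.range y, F (i + 1) * ρ (n - 1 - i)) / r := by
  rw [Finset.sum_div]
  refine Finset.sum_congr rfl fun i hi => ?_
  rw [Finset.mem_range] at hi
  unfold z1
  rw [if_pos hi]
  ring

lemma sum_z2 {n y : ℕ} (hy : 2 * y + 1 ≤ n) (F : ℕ → ℝ) (ω : Ω) :
    ∑ j ∈ Finset.range y, z2 A y j ω * F (s2 n y j) = ∑ i ∈ Finset.range y, In A (i + 1) ω * F (n - 1 - i) := by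
  rw [← Finset.sum_range_reflect]
  refine Finset.sum_congr rfl fun i hi => ?_
  rw [Finset.mem_range] at hi
  unfold z2 s2
  rw [if_pos (by omega), show y - (y - 1 - i) = i + 1 by omega, show n - y + (y - 1 - i) = n - 1 - i by omega]

/-- the two steps for given `n`, `y` -/
lemma two_stepsS {ρ : ℕ → ℝ} (hρ : ∀ n, 0 ≤ ρ n ∧ ρ n ≤ 1) {ω : Ω} (h01 : ∀ n, 0 ≤ dens μ ℱ A n ω ∧ dens μ ℱ A n ω ≤ 1)
    {ε θ δ t r : ℝ} (hε : 0 ≤ ε) (hε1 : ε ≤ 1) (hθ : 0 < θ) (hθ1 : θ ≤ 1) (hd1 : (1 + θ) * (1 + ε) ≤ 1 + δ)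
    (hd2 : 1 - δ ≤ (1 - θ) * (1 - ε)) (hr : 0 < r) {n y N : ℕ} (hrn : ∀ v, n ≤ 2 * v → ρ v ≤ r) (hy : 2 * y + 1 ≤ n)
    (hN : ∀ k, N ≤ k → |dens μ ℱ A k ω - ρ (k + 1)| ≤ ε * ρ (k + 1)) (hNn : 2 * N + 2 ≤ n)
    (ha1 : Gx μ ℱ A θ (fun i => i + 1) (z1 ρ r n y) y ω < t) (hb1 : Gx μ ℱ A (-θ) (fun i => i + 1) (z1 ρ r n y) y ω < t)
    (ha2 : Gx μ ℱ A θ (s2 n y) (z2 A y) y ω < t) (hb2 : Gx μ ℱ A (-θ) (s2 n y) (z2 A y) y ω < t) :
    ((1 - δ) * ES ρ n y - r * (t / θ + 2 * N) ≤ TS A ρ n y ω ∧ TS A ρ n y ω ≤ (1 + δ) * ES ρ n y + r * (t / θ + 2 * N)) ∧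
    ((1 - δ) * TS A ρ n y ω - t / θ ≤ RS A n y ω ∧ RS A n y ω ≤ (1 + δ) * TS A ρ n y ω + t / θ) ∧
    |(∑ j ∈ Finset.range y, z2 A y j ω * dens μ ℱ A (s2 n y j - 1) ω) - TS A ρ n y ω| ≤ ε * TS A ρ n y ω := by
  have hW1 := fun j => z1_01 (Ω := Ω) (fun n => (hρ n).1) hr hrn hy j ω
  have hW2 := fun j => z2_01 (A := A) y j ω
  obtain ⟨g1, g2⟩ := Gx_two hθ hθ1 (fun n => (h01 n).1) (fun n => (hW1 n).1) ha1 hb1
  obtain ⟨g3, g4⟩ := Gx_two hθ hθ1 (fun n => (h01 n).1) (fun n => (hW2 n).1) ha2 hb2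
  have c1 := D_closeN (μ := μ) (ℱ := ℱ) (A := A) (ρ := ρ) hρ (ε := ε) hε (v := fun i => i + 1) (w := z1 ρ r n y) (M := y) (N := N) (ω := ω)
    h01 hW1 (fun k hk hkN => by simpa using hN k hkN)
  have c2 := D_close (μ := μ) (ℱ := ℱ) (A := A) (ρ := ρ) (ε := ε) (v := s2 n y) (w := z2 A y) (M := y) (ω := ω)
    (fun k => (hW2 k).1) (fun k hk => by
      have := hN (s2 n y k - 1) (by unfold s2; omega)
      rwa [show s2 n y k - 1 + 1 = s2 n y k by unfold s2; omega] at this)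
  have e1 : ∑ k ∈ Finset.range y, z1 ρ r n y k ω * In A (k + 1) ω = TS A ρ n y ω / r :=
    sum_z1 hr n y (fun v => In A v ω) ω
  have e2 : ∑ k ∈ Finset.range y, z1 ρ r n y k ω * ρ (k + 1) = ES ρ n y / r :=
    sum_z1 hr n y ρ ω
  have e3 : ∑ k ∈ Finset.range y, z2 A y k ω * In A (s2 n y k) ω = RS A n y ω := sum_z2 hy (fun v => In A v ω) ω
  have e4 : ∑ k ∈ Finset.range y, z2 A y k ω * ρ (s2 n y k) = TS A ρ n y ω := sum_z2 hy ρ ω
  rw [e1] at g1 g2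
  rw [e2] at c1
  rw [e3] at g3 g4
  rw [e4] at c2
  set D1 := ∑ k ∈ Finset.range y, z1 ρ r n y k ω * dens μ ℱ A (k + 1 - 1) ω
  set D2 := ∑ k ∈ Finset.range y, z2 A y k ω * dens μ ℱ A (s2 n y k - 1) ω
  have hE0 : 0 ≤ ES ρ n y := Finset.sum_nonneg fun i _ => mul_nonneg (hρ _).1 (hρ _).1
  have hT0 : 0 ≤ TS A ρ n y ω := Finset.sum_nonneg fun i _ => mul_nonneg (In_nonneg _ _) (hρ _).1
  have aux : ∀ D S T B : ℝ, 0 ≤ S → 0 ≤ B → |D - S| ≤ B + ε * S → (1 - θ) * D - t / θ ≤ T → T ≤ (1 + θ) * D + t / θ →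
      (1 - δ) * S - (t / θ + 2 * B) ≤ T ∧ T ≤ (1 + δ) * S + (t / θ + 2 * B) := by
    intro D S T B hS hB hD h1 h2
    have hd := abs_le.1 hD
    constructor
    · have k1 : (1 - θ) * ((1 - ε) * S - B) ≤ (1 - θ) * D := mul_le_mul_of_nonneg_left (by linarith [hd.1]) (by linarith)
      have k2 : (1 - δ) * S ≤ (1 - θ) * (1 - ε) * S := mul_le_mul_of_nonneg_right hd2 hS
      nlinarith
    · have k1 : (1 + θ) * D ≤ (1 + θ) * ((1 + ε) * S + B) := mul_le_mul_of_nonneg_left (by linarith [hd.2]) (by linarith)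
      have k2 : (1 + θ) * (1 + ε) * S ≤ (1 + δ) * S := mul_le_mul_of_nonneg_right hd1 hS
      nlinarith
  refine ⟨?_, ?_, c2⟩
  · obtain ⟨k1, k2⟩ := aux D1 _ _ N (div_nonneg hE0 hr.le) (Nat.cast_nonneg N) c1 g1 g2
    constructor
    · have := mul_le_mul_of_nonneg_left k1 hr.le
      have e5 : r * ((1 - δ) * (ES ρ n y / r) - (t / θ + 2 * N)) = (1 - δ) * ES ρ n y - r * (t / θ + 2 * N) := by
        field_simp
      have e6 : r * (TS A ρ n y ω / r) = TS A ρ n y ω := by field_simp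
      rw [e5, e6] at this
      exact this
    · have := mul_le_mul_of_nonneg_left k2 hr.le
      have e5 : r * ((1 + δ) * (ES ρ n y / r) + (t / θ + 2 * N)) = (1 + δ) * ES ρ n y + r * (t / θ + 2 * N) := by
        field_simp
      have e6 : r * (TS A ρ n y ω / r) = TS A ρ n y ω := by field_simp
      rw [e5, e6] at this
      exact this
  · obtain ⟨k1, k2⟩ := aux D2 _ _ 0 hT0 le_rfl (by rw [zero_add]; exact c2) g3 g4
    rw [mul_zero, add_zero] at k1 k2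
    exact ⟨k1, k2⟩

/-- no pair -/
lemma no_pairS {ρ : ℕ → ℝ} {ω : Ω} {ε t : ℝ} {m : ℕ} {n y : ℕ} (hy : 2 * y + 1 ≤ n)
    (c2 : |(∑ j ∈ Finset.range y, z2 A y j ω * dens μ ℱ A (s2 n y j - 1) ω) - TS A ρ n y ω| ≤ ε * TS A ρ n y ω)
    (hz : Gx μ ℱ A (-Real.log (m + 1)) (s2 n y) (z2 A y) y ω < t) (h0 : RS A n y ω = 0) :
    (1 - 1 / ((m : ℝ) + 1)) * ((1 - ε) * TS A ρ n y ω) < t := by
  have hm0 : (0 : ℝ) ≤ m := Nat.cast_nonneg m
  have e3 : ∑ k ∈ Finset.range y, z2 A y k ω * In A (s2 n y k) ω = RS A n y ω := sum_z2 hy (fun v => In A v ω) ω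
  have e : Gx μ ℱ A (-Real.log (m + 1)) (s2 n y) (z2 A y) y ω = -Real.log (m + 1) * RS A n y ω -
      (Real.exp (-Real.log (m + 1)) - 1) * ∑ k ∈ Finset.range y, z2 A y k ω * dens μ ℱ A (s2 n y k - 1) ω := by
    rw [← e3]
    unfold Gx
    rw [Finset.mul_sum, Finset.mul_sum, ← Finset.sum_sub_distrib]
    refine Finset.sum_congr rfl fun k _ => ?_
    ring
  rw [e, h0, mul_zero, zero_sub, Real.exp_neg, Real.exp_log (by positivity)] at hz
  set D2 := ∑ k ∈ Finset.range y, z2 A y k ω * dens μ ℱ A (s2 n y k - 1) ω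
  have hd := abs_le.1 c2
  have h1 : 0 ≤ 1 - 1 / ((m : ℝ) + 1) := by
    rw [sub_nonneg, div_le_one (by positivity)]
    linarith
  have h2 : (1 - 1 / ((m : ℝ) + 1)) * ((1 - ε) * TS A ρ n y ω) ≤ (1 - 1 / ((m : ℝ) + 1)) * D2 :=
    mul_le_mul_of_nonneg_left (by linarith [hd.1]) h1
  have h3 : (1 - 1 / ((m : ℝ) + 1)) * D2 < t := by
    have : -((((m : ℝ) + 1)⁻¹ - 1) * D2) = (1 - 1 / ((m : ℝ) + 1)) * D2 := by
      rw [one_div]; ring
    linarith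
  linarith

end Pool.Agent.N893.SM
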