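import Mathlib
import Pool.Agent.N893.SM.Win3

set_option autoImplicit false
set_option linter.unusedSectionVars false
set_option linter.unusedVariables false

/-! # Sums over progressions -/

open MeasureTheory Filter Set Polynomial
open scoped ENNReal Topology

namespace Pool.Agent.N893.SM

open Pool.Agent.R528.RM

/-- no prime of `Q` divides both `a` and `d` -/
def Ad (Q : Finset ℕ) (d a : ℕ) : Prop := ∀ p ∈ Q, ¬ (p ∣ a ∧ p ∣ d)

/-- the number of admissible classes modulo `d` -/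
noncomputable def phiQ (Q : Finset ℕ) (d : ℕ) : ℝ := d * ∏ p ∈ Q.filter (fun p => p ∣ d), (1 - 1 / (p : ℝ))

/-- the linear polynomial -/
noncomputable def linP (d a : ℕ) : Finset ℤ[X] := {C (d : ℤ) * X + C (a : ℤ)}

lemma good_lin (d a W k : ℕ) : good (linP d a) W k ↔ (a + k * d).Coprime W := by
  unfold good linP
  simp only [Finset.mem_singleton, forall_eq, eval_add, eval_mul, eval_C, eval_X]
  have e : (d : ℤ) * k + a = ((a + k * d : ℕ) : ℤ) := by push_cast; ring
  rw [e, Int.gcd_natCast_natCast]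

lemma lin_count_dvd {p d a : ℕ} (hp : p.Prime) (hd : p ∣ d) (ha : ¬ p ∣ a) : Nat.count (good (linP d a) p) p = p := by
  rw [Nat.count_eq_card_filter_range, Finset.filter_true_of_mem, Finset.card_range]
  intro k _
  rw [good_lin, Nat.coprime_comm, Nat.Prime.coprime_iff_not_dvd hp]
  intro h
  exact ha ((Nat.dvd_add_left (hd.mul_left k)).1 h)

lemma lin_count_ndvd {p d : ℕ} (a : ℕ) (hp : p.Prime) (hd : ¬ p ∣ d) : Nat.count (good (linP d a) p) p = p - 1 := by
  haveI := Fact.mk hp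
  have h0 : (d : ZMod p) ≠ 0 := by
    rwa [Ne, ZMod.natCast_eq_zero_iff]
  rw [Nat.count_eq_card_filter_range]
  set r0 : ℕ := ((-(a : ZMod p)) * (d : ZMod p)⁻¹).val with hr0
  have hr0p : r0 < p := ZMod.val_lt _
  have h1 : (Finset.range p).filter (good (linP d a) p) = (Finset.range p).erase r0 := by
    ext k
    rw [Finset.mem_filter, Finset.mem_erase, Finset.mem_range, good_lin, Nat.coprime_comm, Nat.Prime.coprime_iff_not_dvd hp]
    have h2 : p ∣ a + k * d ↔ (k : ZMod p) = -(a : ZMod p) * (d : ZMod p)⁻¹ := by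
      rw [← ZMod.natCast_eq_zero_iff]
      push_cast
      constructor
      · intro h
        have : (k : ZMod p) * d = -a := by linear_combination h
        rw [← this, mul_assoc, mul_inv_cancel₀ h0, mul_one]
      · intro h
        rw [h, mul_assoc, inv_mul_cancel₀ h0]
        ring
    rw [h2]
    constructor
    · rintro ⟨h3, h4⟩
      refine ⟨?_, h3⟩
      rintro rfl
      apply h4
      rw [hr0, ZMod.natCast_zmod_val]
    · rintro ⟨h3, h4⟩
      refine ⟨h4, fun h5 => h3 ?_⟩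
      rw [hr0, ← h5, ZMod.val_natCast, Nat.mod_eq_of_lt h4]
  rw [h1, Finset.card_erase_of_mem (Finset.mem_range.2 hr0p), Finset.card_range]

lemma lin_const (Q : Finset ℕ) (hQ : ∀ p ∈ Q, p.Prime) {d a : ℕ} (ha : Ad Q d a) :
    ((Nat.count (good (linP d a) (∏ p ∈ Q, p)) (∏ p ∈ Q, p) : ℝ) / ((∏ p ∈ Q, p : ℕ) : ℝ)) *
      (((∏ p ∈ Q, p : ℕ) : ℝ) / Nat.totient (∏ p ∈ Q, p)) = (∏ p ∈ Q.filter (fun p => p ∣ d), (1 - 1 / (p : ℝ)))⁻¹ := by
  classical
  have h := const_prod (linP d a) Q hQ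
  have hcard : (linP d a).card = 1 := by unfold linP; exact Finset.card_singleton _
  rw [hcard, pow_one] at h
  rw [h, ← Finset.prod_inv_distrib, Finset.prod_filter]
  refine Finset.prod_congr rfl fun p hp => ?_
  have hpp := hQ p hp
  have h1 : (1 : ℝ) < p := by exact_mod_cast hpp.one_lt
  by_cases hd : p ∣ d
  · rw [if_pos hd, lin_count_dvd hpp hd (fun h => ha p hp ⟨h, hd⟩), div_self (by linarith), one_mul, pow_one]
  · rw [if_neg hd, lin_count_ndvd a hpp hd, Nat.cast_sub hpp.one_le, pow_one]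
    have h2 : (1 : ℝ) - 1 / p ≠ 0 := by
      rw [one_sub_div (by linarith)]
      exact div_ne_zero (by linarith) (by linarith)
    have h3 : (((p : ℕ) : ℝ) - ((1 : ℕ) : ℝ)) / p = 1 - 1 / p := by
      rw [Nat.cast_one, one_sub_div (by linarith)]
    rw [h3, mul_inv_cancel₀ h2]

lemma prod_one_sub (Q : Finset ℕ) (hQ : ∀ p ∈ Q, p.Prime) : 1 / ((∏ p ∈ Q, p : ℕ) : ℝ) ≤ ∏ p ∈ Q, (1 - 1 / (p : ℝ)) ∧
    ∏ p ∈ Q, (1 - 1 / (p : ℝ)) ≤ 1 := by
  have h : ∀ p ∈ Q, 1 / (p : ℝ) ≤ 1 - 1 / p ∧ 1 - 1 / (p : ℝ) ≤ 1 ∧ 0 ≤ 1 / (p : ℝ) := by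
    intro p hp
    have h2 : (2 : ℝ) ≤ p := by exact_mod_cast (hQ p hp).two_le
    have h3 : 1 / (p : ℝ) ≤ 1 / 2 := one_div_le_one_div_of_le (by norm_num) h2
    have h4 : 0 ≤ 1 / (p : ℝ) := by positivity
    exact ⟨by linarith, by linarith, h4⟩
  constructor
  · push_cast
    rw [one_div, ← Finset.prod_inv_distrib]
    refine Finset.prod_le_prod (fun p hp => by positivity) fun p hp => ?_
    rw [← one_div (p : ℝ)]
    exact (h p hp).1
  · exact Finset.prod_le_one (fun p hp => by linarith [(h p hp).1, (h p hp).2.2]) fun p hp => (h p hp).2.1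

lemma phiQ_bounds (Q : Finset ℕ) (hQ : ∀ p ∈ Q, p.Prime) (d : ℕ) : (d : ℝ) / ((∏ p ∈ Q, p : ℕ) : ℝ) ≤ phiQ Q d ∧ phiQ Q d ≤ d := by
  classical
  have hQ' : ∀ p ∈ Q.filter (fun p => p ∣ d), p.Prime := fun p hp => hQ p (Finset.mem_filter.1 hp).1
  obtain ⟨h1, h2⟩ := prod_one_sub _ hQ'
  have h3 : ((∏ p ∈ Q.filter (fun p => p ∣ d), p : ℕ) : ℝ) ≤ ((∏ p ∈ Q, p : ℕ) : ℝ) := by
    have : ∏ p ∈ Q.filter (fun p => p ∣ d), p ∣ ∏ p ∈ Q, p := Finset.prod_dvd_prod_of_subset _ _ _ (Finset.filter_subset _ _)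
    exact_mod_cast Nat.le_of_dvd (Finset.prod_pos fun q hq => (hQ q hq).pos) this
  have h4 : (0 : ℝ) < ((∏ p ∈ Q.filter (fun p => p ∣ d), p : ℕ) : ℝ) := by
    exact_mod_cast Finset.prod_pos fun q hq => (hQ' q hq).pos
  have hd : (0 : ℝ) ≤ d := Nat.cast_nonneg d
  unfold phiQ
  constructor
  · rw [div_eq_mul_one_div]
    refine mul_le_mul_of_nonneg_left (le_trans ?_ h1) hd
    exact one_div_le_one_div_of_le h4 h3
  · exact mul_le_of_le_one_right hd h2

lemma cg_eq (Q : Finset ℕ) (hQ : ∀ p ∈ Q, p.Prime) {d a : ℕ} (hd : 1 ≤ d) (ha : Ad Q d a) :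
    (((∏ p ∈ Q, p : ℕ) : ℝ) / Nat.totient (∏ p ∈ Q, p)) *
    ((Nat.count (good (linP d a) (∏ p ∈ Q, p)) (∏ p ∈ Q, p) : ℝ) / ((∏ p ∈ Q, p : ℕ) : ℝ)) = d / phiQ Q d := by
  rw [mul_comm, lin_const Q hQ ha]
  unfold phiQ
  have hd' : (d : ℝ) ≠ 0 := by
    have : (1 : ℝ) ≤ d := by exact_mod_cast hd
    linarith
  rw [← div_div, div_self hd', one_div]

/-- lower bound for the sum of the probabilities over a progression -/
lemma prog_low (Q : Finset ℕ) (hQ : ∀ p ∈ Q, p.Prime) {d a J : ℕ} {X : ℝ} (hd : 1 ≤ d) (had : Ad Q d a) (ha : 1 ≤ a)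
    (hX : ∀ k < J, ((a + k * d : ℕ) : ℝ) ≤ X)
    (hc : ((∏ p ∈ Q, p : ℕ) : ℝ) / Nat.totient (∏ p ∈ Q, p) ≤ Real.log X) (hX1 : 1 < X) :
    (J * (d / phiQ Q d) - (((∏ p ∈ Q, p : ℕ) : ℝ) / Nat.totient (∏ p ∈ Q, p)) * ((∏ p ∈ Q, p : ℕ) + 1)) / Real.log X ≤
      ∑ k ∈ Finset.range J, rhoW (∏ p ∈ Q, p) (a + k * d) := by
  classical
  rw [← cg_eq Q hQ hd had]
  set W := ∏ p ∈ Q, p with hWdef
  have hW : 0 < W := Finset.prod_pos fun q hq => (hQ q hq).pos
  have hWr : (1 : ℝ) ≤ W := by exact_mod_cast hW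
  set c := (W : ℝ) / Nat.totient W with hcdef
  have hc1 : 1 ≤ c := c_one hW
  have hL : 0 < Real.log X := Real.log_pos hX1
  have hcL : c / Real.log X ≤ 1 := (div_le_one hL).2 hc
  set g := (Nat.count (good (linP d a) W) W : ℝ) / W with hg
  have hcnt := abs_le.1 (count_per (good (linP d a) W) W hW (good_periodic _ W) J)
  rw [← hg] at hcnt
  have h1 : ∀ k ∈ Finset.range J, c / Real.log X * (if good (linP d a) W k then (1 : ℝ) else 0) - (if k = 0 then c / Real.log X else 0) ≤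
      rhoW W (a + k * d) := by
    intro k hk
    rw [Finset.mem_range] at hk
    by_cases hgk : good (linP d a) W k
    · have hcop := (good_lin d a W k).1 hgk
      rw [if_pos hgk, mul_one]
      by_cases hk0 : k = 0
      · rw [if_pos hk0, sub_self]
        exact rhoW_nonneg _ _
      · rw [if_neg hk0, sub_zero]
        unfold rhoW
        rw [if_pos hcop]
        refine le_min hcL ?_
        have e1 : 2 ≤ a + k * d := by
          have : 1 * 1 ≤ k * d := Nat.mul_le_mul (by omega) hd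
          omega
        have e2 : (2 : ℝ) ≤ ((a + k * d : ℕ) : ℝ) := by exact_mod_cast e1
        exact div_le_div_of_nonneg_left (by linarith) (Real.log_pos (by linarith)) (Real.log_le_log (by linarith) (hX k hk))
    · rw [if_neg hgk, mul_zero, zero_sub]
      have : 0 ≤ rhoW W (a + k * d) := rhoW_nonneg _ _
      split_ifs
      · have : 0 ≤ c / Real.log X := by positivity
        linarith
      · linarith
  have h2 := Finset.sum_le_sum h1
  rw [Finset.sum_sub_distrib, ← Finset.mul_sum, Finset.sum_boole] at h2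
  have h3 : (((Finset.range J).filter (good (linP d a) W)).card : ℝ) = Nat.count (good (linP d a) W) J := by
    rw [Nat.count_eq_card_filter_range]
  rw [h3] at h2
  have h4 : ∑ k ∈ Finset.range J, (if k = 0 then c / Real.log X else 0) ≤ c / Real.log X := by
    rw [Finset.sum_ite_eq']
    split_ifs
    · exact le_rfl
    · positivity
  have h5 : c / Real.log X * (J * g - W) ≤ c / Real.log X * (Nat.count (good (linP d a) W) J : ℝ) :=
    mul_le_mul_of_nonneg_left (by linarith [hcnt.1]) (by positivity)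
  have h6 : (J * (c * g) - c * (W + 1)) / Real.log X = c / Real.log X * (J * g - W) - c / Real.log X := by
    field_simp
    ring
  rw [h6]
  linarith

/-- upper bound for the number of members coprime to `W` -/
lemma prog_count (Q : Finset ℕ) (hQ : ∀ p ∈ Q, p.Prime) {d a : ℕ} (hd : 1 ≤ d) (had : Ad Q d a) (J : ℕ) :
    (((∏ p ∈ Q, p : ℕ) : ℝ) / Nat.totient (∏ p ∈ Q, p)) * (∑ k ∈ Finset.range J, if (a + k * d).Coprime (∏ p ∈ Q, p) then (1 : ℝ) else 0) ≤
      J * (d / phiQ Q d) + (((∏ p ∈ Q, p : ℕ) : ℝ) / Nat.totient (∏ p ∈ Q, p)) * (∏ p ∈ Q, p : ℕ) := by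
  classical
  rw [← cg_eq Q hQ hd had]
  set W := ∏ p ∈ Q, p with hWdef
  have hW : 0 < W := Finset.prod_pos fun q hq => (hQ q hq).pos
  set c := (W : ℝ) / Nat.totient W with hcdef
  have hc1 : 1 ≤ c := c_one hW
  have hcnt := abs_le.1 (count_per (good (linP d a) W) W hW (good_periodic _ W) J)
  have e1 : (∑ k ∈ Finset.range J, if (a + k * d).Coprime W then (1 : ℝ) else 0) = Nat.count (good (linP d a) W) J := by
    rw [Finset.sum_boole, Nat.count_eq_card_filter_range]
    congr 2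
    ext k
    rw [Finset.mem_filter, Finset.mem_filter, good_lin]
  rw [e1]
  have := mul_le_mul_of_nonneg_left hcnt.2 (show 0 ≤ c by linarith)
  nlinarith

end Pool.Agent.N893.SM
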