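import Mathlib
import Pool.Agent.N893.SM.W1
import Pool.Agent.N893.SM.Small2

set_option autoImplicit false
set_option linter.unusedSectionVars false
set_option linter.unusedVariables false

/-! # The least chosen integer in progressions: upper bounds -/

open MeasureTheory Filter Set
open scoped ENNReal Topology

namespace Pool.Agent.N893.SM

open Pool.Agent.R528.RM

variable {Ω : Type} {m0 : MeasurableSpace Ω} {μ : Measure Ω} [IsProbabilityMeasure μ]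
  {ℱ : Filtration ℕ m0} {A : ℕ → Set Ω}

lemma pg_mono {a d : ℕ} (hd : 1 ≤ d) : StrictMono (fun k : ℕ => a + k * d) := by
  intro i j h
  have : i * d < j * d := Nat.mul_lt_mul_of_pos_right h hd
  simp only
  omega

/-- one class -/
noncomputable def GA (μ : Measure Ω) (ℱ : Filtration ℕ m0) (A : ℕ → Set Ω) (θ : ℝ) (d J a : ℕ) (ω : Ω) : ℝ :=
  Gx μ ℱ A θ (fun k => a + k * d) (fun _ _ => 1) J ω

lemma GA_tail (hA : ∀ n, MeasurableSet[ℱ n] (A n)) (θ : ℝ) {d a : ℕ} (hd : 1 ≤ d) (ha : 1 ≤ a) (J : ℕ) (t : ℝ) :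
    μ.real {ω | t ≤ GA μ ℱ A θ d J a ω} ≤ Real.exp (-t) :=
  Gx_tail hA θ (pg_mono hd) (fun k => by show 1 ≤ a + k * d; omega) (fun k => stronglyMeasurable_const)
    (fun k ω => ⟨zero_le_one, le_rfl⟩) J t

lemma GA_meas (hA : ∀ n, MeasurableSet[ℱ n] (A n)) (θ : ℝ) {d a : ℕ} (hd : 1 ≤ d) (J : ℕ) (t : ℝ) :
    MeasurableSet {ω | t ≤ GA μ ℱ A θ d J a ω} := by
  have h1 : StronglyMeasurable[ℱ (a + J * d - 1)] (GA μ ℱ A θ d J a) :=
    Gx_meas (μ := μ) hA θ (pg_mono hd) (fun k => stronglyMeasurable_const) J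
  exact measurableSet_le measurable_const ((h1.mono (ℱ.le _)).measurable)

lemma exp_log_rpow {n : ℕ} (hn : 1 ≤ n) (t : ℝ) : Real.exp (-(t * Real.log n)) = ((n : ℝ) ^ t)⁻¹ := by
  have hn0 : (0 : ℝ) < n := by exact_mod_cast hn
  rw [Real.exp_neg, Real.rpow_def_of_pos hn0, mul_comm]

lemma bad_le (hA : ∀ n, MeasurableSet[ℱ n] (A n)) (θ : ℝ) (τ : ℝ) (Jf : ℕ → ℕ) {d : ℕ} (hd : 1 ≤ d) :
    μ.real (⋃ a ∈ Finset.Icc 1 d, {ω | τ * Real.log d ≤ GA μ ℱ A θ d (Jf d) a ω}) ≤ ((d : ℝ) ^ (τ - 1))⁻¹ := by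
  have hd0 : (0 : ℝ) < d := by exact_mod_cast hd
  have h1 : ∀ a ∈ Finset.Icc 1 d, μ.real {ω | τ * Real.log d ≤ GA μ ℱ A θ d (Jf d) a ω} ≤ ((d : ℝ) ^ τ)⁻¹ := by
    intro a ha
    have := GA_tail (μ := μ) hA θ hd (Finset.mem_Icc.1 ha).1 (Jf d) (τ * Real.log d)
    rwa [exp_log_rpow hd] at this
  refine (measureReal_biUnion_finset_le _ _).trans ((Finset.sum_le_sum h1).trans (le_of_eq ?_))
  rw [Finset.sum_const, Nat.card_Icc, Nat.add_sub_cancel, nsmul_eq_mul, Real.rpow_sub hd0, Real.rpow_one]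
  field_simp

/-- all classes, all large moduli -/
theorem errU (hA : ∀ n, MeasurableSet[ℱ n] (A n)) (θ : ℝ) {τ : ℝ} (hτ : 2 < τ) (Jf : ℕ → ℕ) :
    ∀ᵐ ω ∂μ, ∀ᶠ d : ℕ in atTop, ∀ a : ℕ, 1 ≤ a → a ≤ d → GA μ ℱ A θ d (Jf d) a ω < τ * Real.log d := by
  have hsum : Summable (fun n : ℕ => ((n : ℝ) ^ (τ - 1))⁻¹) := Real.summable_nat_rpow_inv.2 (by linarith)
  filter_upwards [bc_real (μ := μ) hsum (s := fun d => ⋃ a ∈ Finset.Icc 1 d, {ω | τ * Real.log d ≤ GA μ ℱ A θ d (Jf d) a ω})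
    (by filter_upwards [eventually_ge_atTop 1] with d hd using bad_le hA θ τ Jf hd)] with ω hω
  filter_upwards [hω] with d hd a ha1 ha2
  by_contra hcon
  apply hd
  simp only [Set.mem_iUnion]
  exact ⟨a, Finset.mem_Icc.2 ⟨ha1, ha2⟩, not_lt.1 hcon⟩

/-- the exceptional event -/
def BadV (μ : Measure Ω) (ℱ : Filtration ℕ m0) (A : ℕ → Set Ω) (θ κ : ℝ) (Jf : ℕ → ℕ) (d : ℕ) : Set Ω :=
  ⋃ a ∈ Finset.Icc 1 d, {ω | (1 + κ) * Real.log d ≤ GA μ ℱ A θ d (Jf d) a ω}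

open Classical in
/-- all classes, almost all moduli -/
theorem errV (hA : ∀ n, MeasurableSet[ℱ n] (A n)) (θ : ℝ) {κ : ℝ} (hκ0 : 0 < κ) (hκ1 : κ ≤ 1) (Jf : ℕ → ℕ) :
    ∀ᵐ ω ∂μ, ∀ᶠ D : ℕ in atTop,
      (((Finset.Icc 1 D).filter (fun d : ℕ => ω ∈ BadV μ ℱ A θ κ Jf d)).card : ℝ) ≤
        (D : ℝ) ^ (1 - κ / 8) := by
  set B : ℕ → Set Ω := fun d => ⋃ a ∈ Finset.Icc 1 d, {ω | (1 + κ) * Real.log d ≤ GA μ ℱ A θ d (Jf d) a ω} with hB
  have hBm : ∀ d, 1 ≤ d → MeasurableSet (B d) := fun d hd =>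
    Finset.measurableSet_biUnion _ fun a _ => GA_meas hA θ hd _ _
  have hBμ : ∀ d : ℕ, 1 ≤ d → μ.real (B d) ≤ ((d : ℝ) ^ κ)⁻¹ := fun d hd => by
    have := bad_le (μ := μ) hA θ (1 + κ) Jf hd
    rwa [add_sub_cancel_left] at this
  set Nn : ℕ → Ω → ℝ := fun D ω => ∑ d ∈ Finset.Icc 1 D, (B d).indicator (fun _ => (1 : ℝ)) ω with hNn
  have hint : ∀ D, Integrable (Nn D) μ := fun D =>
    integrable_finset_sum _ fun d hd => (integrable_const (1 : ℝ)).indicator (hBm d (Finset.mem_Icc.1 hd).1)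
  have hE : ∀ D : ℕ, 1 ≤ D → ∫ ω, Nn D ω ∂μ ≤ 2 * (D : ℝ) ^ (1 - κ / 2) := by
    intro D hD
    have hD0 : (1 : ℝ) ≤ D := by exact_mod_cast hD
    have e1 : ∫ ω, Nn D ω ∂μ = ∑ d ∈ Finset.Icc 1 D, μ.real (B d) := by
      simp only [hNn]
      rw [integral_finset_sum _ fun d hd => (integrable_const (1 : ℝ)).indicator (hBm d (Finset.mem_Icc.1 hd).1)]
      refine Finset.sum_congr rfl fun d hd => ?_
      rw [integral_indicator (hBm d (Finset.mem_Icc.1 hd).1)]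
      simp [Measure.real]
    rw [e1]
    have e2 : ∀ d ∈ Finset.Icc 1 D, μ.real (B d) ≤ (if (d : ℝ) ≤ (D : ℝ) ^ (1 / 2 : ℝ) then 1 else 0) + (D : ℝ) ^ (-(κ / 2)) := by
      intro d hd
      have hd1 := (Finset.mem_Icc.1 hd).1
      have hd0 : (1 : ℝ) ≤ d := by exact_mod_cast hd1
      have hp : 0 ≤ (D : ℝ) ^ (-(κ / 2)) := by positivity
      split_ifs with hc
      · have : μ.real (B d) ≤ 1 := measureReal_le_one
        linarith
      · push Not at hc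
        rw [zero_add]
        refine (hBμ d hd1).trans ?_
        rw [← Real.rpow_neg (by linarith)]
        have : (d : ℝ) ^ (-κ) ≤ ((D : ℝ) ^ (1 / 2 : ℝ)) ^ (-κ) :=
          Real.rpow_le_rpow_of_nonpos (by positivity) hc.le (by linarith)
        refine this.trans (le_of_eq ?_)
        rw [← Real.rpow_mul (by linarith)]
        congr 1
        ring
    refine (Finset.sum_le_sum e2).trans ?_
    rw [Finset.sum_add_distrib, Finset.sum_const, Nat.card_Icc, Nat.add_sub_cancel, nsmul_eq_mul, Finset.sum_boole]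
    have e3 : (((Finset.Icc 1 D).filter (fun d : ℕ => (d : ℝ) ≤ (D : ℝ) ^ (1 / 2 : ℝ))).card : ℝ) ≤ (D : ℝ) ^ (1 - κ / 2) := by
      have f1 : (Finset.Icc 1 D).filter (fun d : ℕ => (d : ℝ) ≤ (D : ℝ) ^ (1 / 2 : ℝ)) ⊆ Finset.Icc 1 ⌊(D : ℝ) ^ (1 / 2 : ℝ)⌋₊ := by
        intro d hd
        have h1 := Finset.mem_filter.1 hd
        exact Finset.mem_Icc.2 ⟨(Finset.mem_Icc.1 h1.1).1, Nat.le_floor h1.2⟩
      have f2 := Finset.card_le_card f1
      rw [Nat.card_Icc, Nat.add_sub_cancel] at f2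
      calc (((Finset.Icc 1 D).filter (fun d : ℕ => (d : ℝ) ≤ (D : ℝ) ^ (1 / 2 : ℝ))).card : ℝ) ≤ (⌊(D : ℝ) ^ (1 / 2 : ℝ)⌋₊ : ℝ) := by exact_mod_cast f2
        _ ≤ (D : ℝ) ^ (1 / 2 : ℝ) := Nat.floor_le (by positivity)
        _ ≤ (D : ℝ) ^ (1 - κ / 2) := Real.rpow_le_rpow_of_exponent_le hD0 (by linarith)
    have e4 : (D : ℝ) * (D : ℝ) ^ (-(κ / 2)) = (D : ℝ) ^ (1 - κ / 2) := by
      rw [sub_eq_add_neg, Real.rpow_add (by linarith), Real.rpow_one]
    rw [e4]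
    linarith
  -- dyadic points
  have hsum : Summable (fun j : ℕ => 2 * ((2 : ℝ) ^ (-(κ / 4))) ^ j) := by
    refine (summable_geometric_of_lt_one (by positivity) ?_).mul_left 2
    exact Real.rpow_lt_one_of_one_lt_of_neg (by norm_num) (by linarith)
  have hb : ∀ᶠ j : ℕ in atTop, μ.real {ω | ((2 : ℝ) ^ (1 - κ / 4)) ^ j ≤ Nn (2 ^ j) ω} ≤ 2 * ((2 : ℝ) ^ (-(κ / 4))) ^ j := by
    filter_upwards with j
    have h1 := mul_meas_ge_le_integral_of_nonneg (μ := μ) (f := Nn (2 ^ j))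
      (Eventually.of_forall fun ω => Finset.sum_nonneg fun d _ => indicator_nonneg (fun _ _ => zero_le_one) _) (hint _)
      (((2 : ℝ) ^ (1 - κ / 4)) ^ j)
    have h2 := h1.trans (hE (2 ^ j) Nat.one_le_two_pow)
    have h3 : ((2 ^ j : ℕ) : ℝ) ^ (1 - κ / 2) = ((2 : ℝ) ^ (1 - κ / 4)) ^ j * ((2 : ℝ) ^ (-(κ / 4))) ^ j := by
      rw [← mul_pow, ← Real.rpow_add (by norm_num)]
      push_cast
      rw [← Real.rpow_natCast 2 j, ← Real.rpow_mul (by norm_num), ← Real.rpow_natCast, ← Real.rpow_mul (by norm_num)]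
      congr 1
      ring
    rw [h3] at h2
    have h4 : 0 < ((2 : ℝ) ^ (1 - κ / 4)) ^ j := by positivity
    have h5 : ((2 : ℝ) ^ (1 - κ / 4)) ^ j * μ.real {ω | ((2 : ℝ) ^ (1 - κ / 4)) ^ j ≤ Nn (2 ^ j) ω} ≤
        ((2 : ℝ) ^ (1 - κ / 4)) ^ j * (2 * ((2 : ℝ) ^ (-(κ / 4))) ^ j) := by
      refine h2.trans (le_of_eq ?_)
      ring
    exact le_of_mul_le_mul_left h5 h4
  filter_upwards [bc_real (μ := μ) hsum hb] with ω hω
  obtain ⟨j0, hj0⟩ := eventually_atTop.1 hω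
  have hlarge : ∀ᶠ D : ℕ in atTop, 2 * (D : ℝ) ^ (1 - κ / 4) ≤ (D : ℝ) ^ (1 - κ / 8) := by
    have h1 : Tendsto (fun D : ℕ => (D : ℝ) ^ (κ / 8)) atTop atTop :=
      (tendsto_rpow_atTop (by positivity)).comp tendsto_natCast_atTop_atTop
    filter_upwards [h1.eventually_ge_atTop 2, eventually_ge_atTop 1] with D h2 h3
    have hD0 : (0 : ℝ) < D := by exact_mod_cast h3
    calc 2 * (D : ℝ) ^ (1 - κ / 4) ≤ (D : ℝ) ^ (κ / 8) * (D : ℝ) ^ (1 - κ / 4) := mul_le_mul_of_nonneg_right h2 (by positivity)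
      _ = (D : ℝ) ^ (1 - κ / 8) := by
        rw [← Real.rpow_add hD0]
        congr 1
        ring
  filter_upwards [hlarge, eventually_ge_atTop (2 ^ j0), eventually_ge_atTop 1] with D h1 h2 h3
  refine le_trans ?_ h1
  set j := Nat.log 2 D + 1 with hj
  have hD1 : D < 2 ^ j := Nat.lt_pow_succ_log_self (by norm_num) D
  have hD2 : 2 ^ (j - 1) ≤ D := Nat.pow_log_le_self 2 (by omega)
  have hjj : j0 ≤ j := by
    by_contra hcon
    have : 2 ^ j ≤ 2 ^ j0 := Nat.pow_le_pow_right (by norm_num) (by omega)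
    omega
  have h4 := hj0 j hjj
  simp only [Set.mem_setOf_eq, not_le] at h4
  have h5 : (((Finset.Icc 1 D).filter (fun d : ℕ => ω ∈ BadV μ ℱ A θ κ Jf d)).card : ℝ) ≤ Nn (2 ^ j) ω := by
    simp only [hNn]
    have f1 : ((Finset.Icc 1 D).filter (fun d : ℕ => ω ∈ BadV μ ℱ A θ κ Jf d)) ⊆
        (Finset.Icc 1 (2 ^ j)).filter (fun d => ω ∈ B d) := by
      intro d hd
      rw [Finset.mem_filter, Finset.mem_Icc] at hd ⊢
      obtain ⟨⟨g1, g2⟩, g3⟩ := hd
      exact ⟨⟨g1, by omega⟩, g3⟩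
    have f2 : ∑ d ∈ Finset.Icc 1 (2 ^ j), (B d).indicator (fun _ => (1 : ℝ)) ω = ((Finset.Icc 1 (2 ^ j)).filter (fun d => ω ∈ B d)).card := by
      rw [Finset.card_filter]
      push_cast
      refine Finset.sum_congr rfl fun d _ => ?_
      by_cases h : ω ∈ B d
      · rw [indicator_of_mem h, if_pos h]
      · rw [indicator_of_notMem h, if_neg h]
    rw [f2]
    exact_mod_cast Finset.card_le_card f1
  refine h5.trans (h4.le.trans ?_)
  have hp : 0 ≤ 1 - κ / 4 := by linarith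
  calc ((2 : ℝ) ^ (1 - κ / 4)) ^ j = 2 ^ (1 - κ / 4) * ((2 : ℝ) ^ (1 - κ / 4)) ^ (j - 1) := by
        rw [← pow_succ', Nat.sub_add_cancel (by omega)]
    _ ≤ 2 * (D : ℝ) ^ (1 - κ / 4) := by
        refine mul_le_mul ?_ ?_ (by positivity) (by norm_num)
        · calc (2 : ℝ) ^ (1 - κ / 4) ≤ (2 : ℝ) ^ (1 : ℝ) := Real.rpow_le_rpow_of_exponent_le (by norm_num) (by linarith)
            _ = 2 := Real.rpow_one 2
        · calc ((2 : ℝ) ^ (1 - κ / 4)) ^ (j - 1) = (((2 ^ (j - 1) : ℕ) : ℝ)) ^ (1 - κ / 4) := by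
                push_cast
                rw [← Real.rpow_natCast, ← Real.rpow_mul (by norm_num), ← Real.rpow_natCast, ← Real.rpow_mul (by norm_num), mul_comm]
            _ ≤ (D : ℝ) ^ (1 - κ / 4) := Real.rpow_le_rpow (by positivity) (by exact_mod_cast hD2) hp

/-- the number of members -/
noncomputable def JJ (Q : Finset ℕ) (lam : ℝ) (d : ℕ) : ℕ := ⌊lam * phiQ Q d * Real.log d ^ 2 / d⌋₊

/-- a class is hit -/
lemma hit (Q : Finset ℕ) (hQ : ∀ p ∈ Q, p.Prime) {ω : Ω} (h01 : ∀ n, 0 ≤ dens μ ℱ A n ω ∧ dens μ ℱ A n ω ≤ 1)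
    (hd : ∀ ε : ℝ, 0 < ε → ∀ᶠ n : ℕ in atTop,
      |dens μ ℱ A n ω - rhoW (∏ p ∈ Q, p) (n + 1)| ≤ ε * rhoW (∏ p ∈ Q, p) (n + 1)) {τ lam : ℝ} (hτ : 0 < τ) (hlam : τ < lam) :
    ∃ m : ℕ, ∀ᶠ d : ℕ in atTop, ∀ a : ℕ, 1 ≤ a → a ≤ d → Ad Q d a →
      GA μ ℱ A (-Real.log (m + 1)) d (JJ Q lam d) a ω < τ * Real.log d → ∃ k < JJ Q lam d, ω ∈ A (a + k * d) := by
  classical
  set W := ∏ p ∈ Q, p with hWdef
  have hW : 0 < W := Finset.prod_pos fun q hq => (hQ q hq).pos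
  have hWr : (1 : ℝ) ≤ W := by exact_mod_cast hW
  set c := (W : ℝ) / Nat.totient W with hc
  have hc1 : 1 ≤ c := c_one hW
  have hρ : ∀ n, 0 ≤ rhoW W n ∧ rhoW W n ≤ 1 := fun n => ⟨rhoW_nonneg W n, (rhoW_le_bb W n).trans (min_le_left _ _)⟩
  have hlam0 : 0 < lam := hτ.trans hlam
  -- η
  obtain ⟨η, hη0, hη1, hη2⟩ : ∃ η : ℝ, 0 < η ∧ η ≤ 1 / 2 ∧ (τ + η) * (1 + η) ≤ (1 - η) ^ 2 * lam := by
    have h1 : Tendsto (fun η : ℝ => (1 - η) ^ 2 * lam - (τ + η) * (1 + η)) (𝓝[>] 0) (𝓝 ((1 - 0) ^ 2 * lam - (τ + 0) * (1 + 0))) :=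
      ((((continuous_const.sub continuous_id).pow 2).mul continuous_const).sub
        ((continuous_const.add continuous_id).mul (continuous_const.add continuous_id))).continuousWithinAt
    have h2 : ∀ᶠ η : ℝ in 𝓝[>] 0, 0 < (1 - η) ^ 2 * lam - (τ + η) * (1 + η) :=
      h1.eventually_const_lt (by norm_num; exact hlam)
    have h3 : ∀ᶠ η : ℝ in 𝓝[>] 0, η ≤ 1 / 2 := by
      have : ∀ᶠ η : ℝ in 𝓝 0, η ≤ 1 / 2 := eventually_le_nhds (by norm_num)
      exact this.filter_mono nhdsWithin_le_nhds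
    obtain ⟨η, h4, h5, h6⟩ := (h2.and (h3.and self_mem_nhdsWithin)).exists
    exact ⟨η, h6, h5, by linarith⟩
  obtain ⟨m, hm⟩ := exists_nat_one_div_lt hη0
  have hm0 : (0 : ℝ) ≤ m := Nat.cast_nonneg m
  obtain ⟨N, hN⟩ := eventually_atTop.1 (hd η hη0)
  refine ⟨m, ?_⟩
  have hLL : Tendsto (fun x : ℕ => Real.log (Real.log x)) atTop atTop := Real.tendsto_log_atTop.comp tendsto_log
  have hlogs : ∀ᶠ d : ℕ in atTop, Real.log lam + 2 * Real.log (Real.log d) ≤ η * Real.log d := by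
    have e1 := (Real.isLittleO_log_id_atTop).bound (show 0 < η / 4 by positivity)
    filter_upwards [tendsto_log.eventually e1, tendsto_log.eventually_ge_atTop (1 : ℝ),
      tendsto_log.eventually_ge_atTop (Real.log lam / (η / 2))] with n h1 h2 h3
    rw [Real.norm_eq_abs, Real.norm_eq_abs, abs_of_nonneg (Real.log_nonneg h2)] at h1
    simp only [id] at h1
    rw [abs_of_nonneg (by linarith)] at h1
    rw [div_le_iff₀ (by positivity)] at h3
    linarith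
  have hX1 : ∀ᶠ d : ℕ in atTop, 1 ≤ lam * Real.log d ^ 2 := by
    filter_upwards [tendsto_log.eventually_ge_atTop (1 : ℝ), tendsto_log.eventually_ge_atTop (1 / lam)] with d h1 h2
    rw [div_le_iff₀ hlam0] at h2
    nlinarith
  filter_upwards [hlogs, hX1, tendsto_log.eventually_ge_atTop (c + 1), tendsto_log.eventually_ge_atTop ((2 * W + c * (W + 1) + 2 * N + 1) * 4 / η),
    eventually_ge_atTop 3] with d h1 h2 h3 h4 hd3 a ha1 had hAd hG
  by_contra hcon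
  push Not at hcon
  have hd0 : (3 : ℝ) ≤ d := by exact_mod_cast hd3
  have hdp : (0 : ℝ) < d := by linarith
  set L := Real.log (d : ℝ) with hLdef
  have hL : 0 < L := by linarith
  obtain ⟨p1, p2⟩ := phiQ_bounds Q hQ d
  have hphi : 0 < phiQ Q d := lt_of_lt_of_le (by positivity) p1
  set J := JJ Q lam d with hJ
  have hJ1 : (J : ℝ) ≤ lam * phiQ Q d * L ^ 2 / d := Nat.floor_le (by positivity)
  have hJ2 : lam * phiQ Q d * L ^ 2 / d < J + 1 := Nat.lt_floor_add_one _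
  set X : ℝ := lam * d * L ^ 2 with hX
  have hXd : (d : ℝ) ≤ X := by
    have : (d : ℝ) * 1 ≤ d * (lam * L ^ 2) := mul_le_mul_of_nonneg_left h2 hdp.le
    rw [hX]
    linarith
  have hXle : ∀ k < J, ((a + k * d : ℕ) : ℝ) ≤ X := by
    intro k hk
    have e1 : a + k * d ≤ J * d := by
      have : (k + 1) * d ≤ J * d := Nat.mul_le_mul_right d hk
      have : (k + 1) * d = k * d + d := by ring
      omega
    have e2 : ((a + k * d : ℕ) : ℝ) ≤ J * d := by exact_mod_cast e1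
    have e3 : (J : ℝ) * d ≤ lam * phiQ Q d * L ^ 2 := by
      have := mul_le_mul_of_nonneg_right hJ1 hdp.le
      rwa [div_mul_cancel₀ _ hdp.ne'] at this
    have e4 : lam * phiQ Q d * L ^ 2 ≤ X := by
      rw [hX]
      exact mul_le_mul_of_nonneg_right (mul_le_mul_of_nonneg_left p2 hlam0.le) (by positivity)
    linarith
  have hlogX : Real.log X = Real.log lam + L + 2 * Real.log L := by
    rw [hX, Real.log_mul (by positivity) (by positivity), Real.log_mul hlam0.ne' hdp.ne', Real.log_pow]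
    push_cast
    ring
  have hlogX1 : Real.log X ≤ (1 + η) * L := by
    rw [hlogX]
    linarith
  have hlogX2 : L ≤ Real.log X := Real.log_le_log hdp hXd
  have hlow := prog_low Q hQ (J := J) (X := X) (by omega) hAd ha1 hXle (by linarith) (by linarith)
  set S := ∑ k ∈ Finset.range J, rhoW W (a + k * d) with hS
  have hS0 : 0 ≤ S := Finset.sum_nonneg fun k _ => (hρ _).1
  -- S is large
  have hnum : lam * L ^ 2 - W - c * (W + 1) ≤ J * (d / phiQ Q d) - c * (W + 1) := by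
    have e1 : (lam * phiQ Q d * L ^ 2 / d - 1) * (d / phiQ Q d) ≤ J * (d / phiQ Q d) :=
      mul_le_mul_of_nonneg_right (by linarith) (by positivity)
    have e2 : (lam * phiQ Q d * L ^ 2 / d - 1) * (d / phiQ Q d) = lam * L ^ 2 - d / phiQ Q d := by
      field_simp
    have e3 : d / phiQ Q d ≤ W := by
      rw [div_le_iff₀ hphi]
      rw [div_le_iff₀ (by positivity)] at p1
      linarith
    rw [e2] at e1
    linarith
  have hSlow : lam * L ^ 2 - W - c * (W + 1) ≤ S * Real.log X := by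
    rw [div_le_iff₀ (by linarith)] at hlow
    linarith
  have hSlow2 : lam * L ^ 2 - W - c * (W + 1) ≤ S * ((1 + η) * L) :=
    hSlow.trans (mul_le_mul_of_nonneg_left hlogX1 hS0)
  -- the exponent
  have hDc := D_closeN (μ := μ) (ℱ := ℱ) (A := A) (ρ := rhoW W) hρ (ε := η) hη0.le (v := fun k => a + k * d)
    (w := fun _ _ => (1 : ℝ)) (M := J) (N := N) (ω := ω) h01 (fun k => ⟨zero_le_one, le_rfl⟩) (fun k hk hkN => by
      have e1 : k * 1 ≤ k * d := Nat.mul_le_mul_left k (by omega)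
      have := hN (a + k * d - 1) (by omega)
      rwa [show a + k * d - 1 + 1 = a + k * d by omega] at this)
  simp only [one_mul] at hDc
  rw [← hS] at hDc
  set D := ∑ k ∈ Finset.range J, dens μ ℱ A (a + k * d - 1) ω with hD
  have hGA : GA μ ℱ A (-Real.log (m + 1)) d J a ω = (1 - 1 / ((m : ℝ) + 1)) * D := by
    unfold GA Gx
    rw [hD, Finset.mul_sum]
    refine Finset.sum_congr rfl fun k hk => ?_
    have : In A (a + k * d) ω = 0 := indicator_of_notMem (hcon k (Finset.mem_range.1 hk)) _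
    rw [this, Real.exp_neg, Real.exp_log (by positivity)]
    rw [one_div]
    ring
  rw [hGA] at hG
  have hDlow : (1 - η) * S - N ≤ D := by
    have := (abs_le.1 hDc).1
    linarith
  have hD0 : 0 ≤ D := Finset.sum_nonneg fun k _ => (h01 _).1
  have hm1 : 1 - η ≤ 1 - 1 / ((m : ℝ) + 1) := by linarith
  have h5 : (1 - η) * D < τ * L := lt_of_le_of_lt (mul_le_mul_of_nonneg_right hm1 hD0) hG
  have h6 : (1 - η) * ((1 - η) * S - N) < τ * L :=
    lt_of_le_of_lt (mul_le_mul_of_nonneg_left hDlow (by linarith)) h5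
  have h7 : (1 - η) ^ 2 * S < τ * L + N := by
    have : (1 - η) * N ≤ N := mul_le_of_le_one_left (Nat.cast_nonneg N) (by linarith)
    nlinarith
  have h8 : (1 - η) ^ 2 * (lam * L ^ 2 - W - c * (W + 1)) < (τ * L + N) * ((1 + η) * L) := by
    have e1 := mul_le_mul_of_nonneg_left hSlow2 (sq_nonneg (1 - η))
    have e2 : (1 - η) ^ 2 * (S * ((1 + η) * L)) = ((1 - η) ^ 2 * S) * ((1 + η) * L) := by ring
    rw [e2] at e1
    have e3 := mul_lt_mul_of_pos_right h7 (show 0 < (1 + η) * L by positivity)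
    linarith
  have h9 : (1 - η) ^ 2 * (W + c * (W + 1)) ≤ W + c * (W + 1) :=
    mul_le_of_le_one_left (by positivity) (pow_le_one₀ (by linarith) (by linarith))
  have h10 : (τ + η) * (1 + η) * L ^ 2 ≤ (1 - η) ^ 2 * lam * L ^ 2 := mul_le_mul_of_nonneg_right hη2 (by positivity)
  have h11 : (2 * W + c * (W + 1) + 2 * N + 1) * 4 ≤ η * L := by
    have := h4
    rw [div_le_iff₀ hη0] at this
    linarith
  have h12 : η * L ≤ η * L * L := le_mul_of_one_le_right (by positivity) (by linarith)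
  have h13 : (N : ℝ) * ((1 + η) * L) ≤ 2 * N * L := by
    have : (1 + η) * L ≤ 2 * L := mul_le_mul_of_nonneg_right (by linarith) hL.le
    have := mul_le_mul_of_nonneg_left this (Nat.cast_nonneg (α := ℝ) N)
    linarith
  have h14 : (2 * (N : ℝ)) * L ≤ η * L / 4 * L := mul_le_mul_of_nonneg_right (by
    have : 0 ≤ c * ((W : ℝ) + 1) := by positivity
    linarith) hL.le
  have hcW : 0 ≤ c * ((W : ℝ) + 1) := by positivity
  have hN0 : (0 : ℝ) ≤ N := Nat.cast_nonneg N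
  have hηη : 0 ≤ η * η * L ^ 2 := by positivity
  nlinarith

end Pool.Agent.N893.SM
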