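import Mathlib
import Pool.Agent.N893.SM.Grow
import Pool.Agent.N893.SM.W2

set_option autoImplicit false
set_option linter.unusedSectionVars false
set_option linter.unusedVariables false

/-! # Patterns of consecutive decisions -/

open MeasureTheory Filter Set
open scoped ENNReal Topology

namespace Pool.Agent.N893.SM

open Pool.Agent.R528.RM

variable {Ω : Type} {m0 : MeasurableSpace Ω} {μ : Measure Ω} [IsProbabilityMeasure μ]
  {ℱ : Filtration ℕ m0} {A : ℕ → Set Ω}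

open Classical in
/-- the decisions at `n, …, n + j - 1` are as prescribed by `H` -/
noncomputable def pw (A : ℕ → Set Ω) (H : Finset ℕ) (n j : ℕ) (ω : Ω) : ℝ :=
  ∏ i ∈ Finset.range j, if i ∈ H then In A (n + i) ω else 1 - In A (n + i) ω

lemma pw01 (H : Finset ℕ) (n j : ℕ) (ω : Ω) : 0 ≤ pw A H n j ω ∧ pw A H n j ω ≤ 1 := by
  classical
  unfold pw
  have h : ∀ i ∈ Finset.range j, 0 ≤ (if i ∈ H then In A (n + i) ω else 1 - In A (n + i) ω) ∧
      (if i ∈ H then In A (n + i) ω else 1 - In A (n + i) ω) ≤ 1 := by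
    intro i _
    have h1 := In_nonneg (A := A) (n + i) ω
    have h2 := In_le (A := A) (n + i) ω
    split_ifs <;> constructor <;> linarith
  exact ⟨Finset.prod_nonneg fun k hk => (h k hk).1, Finset.prod_le_one (fun k hk => (h k hk).1) fun k hk => (h k hk).2⟩

open Classical in
lemma pw_succ (H : Finset ℕ) (n j : ℕ) (ω : Ω) :
    pw A H n (j + 1) ω = pw A H n j ω * (if j ∈ H then In A (n + j) ω else 1 - In A (n + j) ω) := by
  unfold pw
  rw [Finset.prod_range_succ]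

lemma pw_meas (hA : ∀ n, MeasurableSet[ℱ n] (A n)) (H : Finset ℕ) {n : ℕ} (j : ℕ) {m : ℕ} (hm : n + j ≤ m + 1) :
    StronglyMeasurable[ℱ m] (pw A H n j) := by
  classical
  induction j with
  | zero =>
    have : pw A H n 0 = fun _ => 1 := by
      funext ω
      unfold pw
      simp
    rw [this]
    exact stronglyMeasurable_const
  | succ j ih =>
    have h1 : pw A H n (j + 1) = fun ω => pw A H n j ω * (if j ∈ H then In A (n + j) ω else 1 - In A (n + j) ω) :=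
      funext fun ω => pw_succ H n j ω
    rw [h1]
    have h2 : StronglyMeasurable[ℱ m] (In A (n + j)) := In_meas hA (by omega)
    have h3 : StronglyMeasurable[ℱ m] (fun ω => if j ∈ H then In A (n + j) ω else 1 - In A (n + j) ω) := by
      split_ifs
      · exact h2
      · exact @StronglyMeasurable.sub _ _ _ _ (ℱ m) _ _ _ stronglyMeasurable_const h2
    exact @StronglyMeasurable.mul _ _ _ _ (ℱ m) _ _ _ (ih (by omega)) h3

open Classical in
lemma pw_eq (H : Finset ℕ) (n j : ℕ) (ω : Ω) :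
    pw A H n j ω = if ∀ i < j, (ω ∈ A (n + i) ↔ i ∈ H) then 1 else 0 := by
  induction j with
  | zero =>
    unfold pw
    simp
  | succ j ih =>
    rw [pw_succ, ih]
    have hI : In A (n + j) ω = if ω ∈ A (n + j) then 1 else 0 := by
      unfold In
      split_ifs with h
      · rw [indicator_of_mem h]
      · rw [indicator_of_notMem h]
    rw [hI]
    by_cases h1 : ∀ i < j, (ω ∈ A (n + i) ↔ i ∈ H)
    · by_cases h2 : (ω ∈ A (n + j) ↔ j ∈ H)
      · have h4 : ∀ i < j + 1, (ω ∈ A (n + i) ↔ i ∈ H) := fun i hi => by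
          rcases Nat.lt_succ_iff_lt_or_eq.1 hi with h | h
          · exact h1 i h
          · rw [h]; exact h2
        rw [if_pos h1, if_pos h4]
        by_cases h3 : j ∈ H
        · rw [if_pos h3, if_pos (h2.2 h3), one_mul]
        · rw [if_neg h3, if_neg (fun h => h3 (h2.1 h)), one_mul, sub_zero]
      · have h4 : ¬ ∀ i < j + 1, (ω ∈ A (n + i) ↔ i ∈ H) := fun h => h2 (h j (Nat.lt_succ_self j))
        rw [if_pos h1, if_neg h4]
        by_cases h3 : j ∈ H
        · have h5 : ω ∉ A (n + j) := fun h => h2 ⟨fun _ => h3, fun _ => h⟩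
          rw [if_pos h3, if_neg h5, mul_zero]
        · have h5 : ω ∈ A (n + j) := by
            by_contra h
            exact h2 ⟨fun h' => absurd h' h, fun h' => absurd h' h3⟩
          rw [if_neg h3, if_pos h5, sub_self, mul_zero]
    · have h4 : ¬ ∀ i < j + 1, (ω ∈ A (n + i) ↔ i ∈ H) := fun h => h1 fun i hi => h i (by omega)
      rw [if_neg h1, zero_mul, if_neg h4]

/-- the sums along a progression -/
noncomputable def GP (μ : Measure Ω) (ℱ : Filtration ℕ m0) (A : ℕ → Set Ω) (θ : ℝ) (W : ℕ) (H : Finset ℕ) (b j M : ℕ) (ω : Ω) : ℝ :=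
  Gx μ ℱ A θ (fun k => b + j + k * W) (fun k => pw A H (b + k * W) j) M ω

lemma GP_tail (hA : ∀ n, MeasurableSet[ℱ n] (A n)) (θ : ℝ) {W b : ℕ} (hW : 1 ≤ W) (hb : 1 ≤ b) (H : Finset ℕ) (j M : ℕ) (t : ℝ) :
    μ.real {ω | t ≤ GP μ ℱ A θ W H b j M ω} ≤ Real.exp (-t) :=
  Gx_tail hA θ (pg_mono hW) (fun k => by show 1 ≤ b + j + k * W; omega)
    (fun k => pw_meas hA H j (by show b + k * W + j ≤ b + j + k * W - 1 + 1; omega))
    (fun k ω => pw01 H _ _ ω) M t

/-- the length of the patterns -/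
noncomputable def Sx (x : ℕ) : ℕ := ⌊Real.log x ^ 2⌋₊

open Classical in
/-- the events -/
theorem errP (hA : ∀ n, MeasurableSet[ℱ n] (A n)) {W : ℕ} (hW : 1 ≤ W) (Mf : ℕ → ℕ) :
    ∀ᵐ ω ∂μ, ∀ᶠ x : ℕ in atTop, ∀ b : ℕ, 1 ≤ b → b ≤ x → ∀ H ⊆ Finset.range (Sx x + 1), ∀ j ≤ Sx x,
      GP μ ℱ A (1 / 2) W H b j (Mf x) ω < 3 * Real.log x ^ 2 ∧ GP μ ℱ A (-(1 / 2)) W H b j (Mf x) ω < 3 * Real.log x ^ 2 := by
  set Bad : ℕ → Set Ω := fun x => ⋃ b ∈ Finset.Icc 1 x, ⋃ H ∈ (Finset.range (Sx x + 1)).powerset, ⋃ j ∈ Finset.range (Sx x + 1),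
    ({ω | 3 * Real.log x ^ 2 ≤ GP μ ℱ A (1 / 2) W H b j (Mf x) ω} ∪ {ω | 3 * Real.log x ^ 2 ≤ GP μ ℱ A (-(1 / 2)) W H b j (Mf x) ω}) with hBad
  have hsum : Summable (fun n : ℕ => 8 * ((n : ℝ) ^ 2)⁻¹) := (Real.summable_nat_pow_inv.2 (by norm_num)).mul_left 8
  have hb : ∀ᶠ n in atTop, μ.real (Bad n) ≤ 8 * ((n : ℝ) ^ 2)⁻¹ := by
    filter_upwards [eventually_ge_atTop 1, tendsto_log.eventually_ge_atTop (2 : ℝ),
      (((isLittleO_log_rpow_rpow_atTop (s := (1 : ℝ)) 2 one_pos).bound (show (0 : ℝ) < 1 by norm_num)).natCast_atTop)] with x hx hlog hlit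
    have hx0 : (1 : ℝ) ≤ x := by exact_mod_cast hx
    have hxp : (0 : ℝ) < x := by linarith
    set L := Real.log (x : ℝ) with hL
    have hL2 : L ^ 2 ≤ x := by
      rw [Real.norm_eq_abs, Real.norm_eq_abs, Real.rpow_one, one_mul, abs_of_pos hxp, abs_of_nonneg (by positivity)] at hlit
      exact_mod_cast hlit
    have hS : (Sx x : ℝ) ≤ L ^ 2 := Nat.floor_le (by positivity)
    have h1 : ∀ b ∈ Finset.Icc 1 x, ∀ H ∈ (Finset.range (Sx x + 1)).powerset, ∀ j ∈ Finset.range (Sx x + 1),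
        μ.real ({ω | 3 * L ^ 2 ≤ GP μ ℱ A (1 / 2) W H b j (Mf x) ω} ∪
        {ω | 3 * L ^ 2 ≤ GP μ ℱ A (-(1 / 2)) W H b j (Mf x) ω}) ≤ 2 * Real.exp (-(3 * L ^ 2)) := by
      intro b hb H _ j _
      refine (measureReal_union_le _ _).trans ?_
      have a1 := GP_tail (μ := μ) hA (1 / 2) hW (Finset.mem_Icc.1 hb).1 H j (Mf x) (3 * L ^ 2)
      have a2 := GP_tail (μ := μ) hA (-(1 / 2)) hW (Finset.mem_Icc.1 hb).1 H j (Mf x) (3 * L ^ 2)
      linarith
    have h2 : μ.real (Bad x) ≤ ∑ b ∈ Finset.Icc 1 x, ∑ H ∈ (Finset.range (Sx x + 1)).powerset, ∑ j ∈ Finset.range (Sx x + 1),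
        2 * Real.exp (-(3 * L ^ 2)) :=
      (measureReal_biUnion_finset_le _ _).trans (Finset.sum_le_sum fun b hb =>
        (measureReal_biUnion_finset_le _ _).trans (Finset.sum_le_sum fun H hH =>
        (measureReal_biUnion_finset_le _ _).trans (Finset.sum_le_sum fun j hj => h1 b hb H hH j hj)))
    refine h2.trans ?_
    rw [Finset.sum_const, Finset.sum_const, Finset.sum_const, Nat.card_Icc, Nat.add_sub_cancel, Finset.card_powerset, Finset.card_range,
      nsmul_eq_mul, nsmul_eq_mul, nsmul_eq_mul]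
    push_cast
    have e1 : (2 : ℝ) ^ (Sx x + 1) ≤ 2 * Real.exp (L ^ 2) := by
      rw [pow_succ, mul_comm]
      refine mul_le_mul_of_nonneg_left ?_ (by norm_num)
      have : (2 : ℝ) ≤ Real.exp 1 := by
        have := Real.add_one_le_exp (1 : ℝ)
        linarith
      calc (2 : ℝ) ^ (Sx x) ≤ Real.exp 1 ^ (Sx x) := pow_le_pow_left₀ (by norm_num) this _
        _ = Real.exp (Sx x) := by rw [← Real.exp_nat_mul, mul_one]
        _ ≤ Real.exp (L ^ 2) := Real.exp_le_exp.2 hS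
    have e2 : (Sx x : ℝ) + 1 ≤ 2 * x := by linarith
    have e3 : Real.exp (L ^ 2) * Real.exp (-(3 * L ^ 2)) ≤ ((x : ℝ) ^ 4)⁻¹ := by
      rw [← Real.exp_add, ← Real.exp_log hxp, ← Real.exp_nat_mul, ← Real.exp_neg]
      apply Real.exp_le_exp.2
      rw [← hL]
      push_cast
      nlinarith
    have hE : 0 < Real.exp (-(3 * L ^ 2)) := Real.exp_pos _
    calc (x : ℝ) * (2 ^ (Sx x + 1) * (((Sx x : ℝ) + 1) * (2 * Real.exp (-(3 * L ^ 2))))) ≤
        x * (2 * Real.exp (L ^ 2) * (2 * x * (2 * Real.exp (-(3 * L ^ 2))))) := by gcongr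
      _ = 8 * (x * x) * (Real.exp (L ^ 2) * Real.exp (-(3 * L ^ 2))) := by ring
      _ ≤ 8 * (x * x) * ((x : ℝ) ^ 4)⁻¹ := mul_le_mul_of_nonneg_left e3 (by positivity)
      _ = 8 * ((x : ℝ) ^ 2)⁻¹ := by field_simp
  filter_upwards [bc_real (μ := μ) hsum hb] with ω hω
  filter_upwards [hω] with x hx b hb1 hbx H hH j hj
  constructor
  · by_contra hcon
    apply hx
    simp only [hBad, Set.mem_iUnion]
    exact ⟨b, Finset.mem_Icc.2 ⟨hb1, hbx⟩, H, Finset.mem_powerset.2 hH, j, Finset.mem_range.2 (by omega), Or.inl (not_lt.1 hcon)⟩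
  · by_contra hcon
    apply hx
    simp only [hBad, Set.mem_iUnion]
    exact ⟨b, Finset.mem_Icc.2 ⟨hb1, hbx⟩, H, Finset.mem_powerset.2 hH, j, Finset.mem_range.2 (by omega), Or.inr (not_lt.1 hcon)⟩

end Pool.Agent.N893.SM
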