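import Mathlib
import Pool.Agent.N893.SM.K1

set_option autoImplicit false
set_option linter.unusedSectionVars false
set_option linter.unusedVariables false

/-! # Patterns of consecutive decisions: the lower bound -/

open MeasureTheory Filter Set
open scoped ENNReal Topology

namespace Pool.Agent.N893.SM

open Pool.Agent.R528.RM

variable {Ω : Type} {m0 : MeasurableSpace Ω} {μ : Measure Ω} [IsProbabilityMeasure μ]
  {ℱ : Filtration ℕ m0} {A : ℕ → Set Ω}

/-- the number of patterns -/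
noncomputable def Tp (A : ℕ → Set Ω) (W : ℕ) (H : Finset ℕ) (b M j : ℕ) (ω : Ω) : ℝ :=
  ∑ k ∈ Finset.range M, pw A H (b + k * W) j ω

lemma Tp_step {ω : Ω} {W b M j : ℕ} (H : Finset ℕ) {c C t : ℝ}
    (h01 : ∀ n, 0 ≤ dens μ ℱ A n ω ∧ dens μ ℱ A n ω ≤ 1)
    (hlow : j ∈ H → ∀ k < M, c ≤ dens μ ℱ A (b + j + k * W - 1) ω)
    (hup : ∀ k < M, dens μ ℱ A (b + j + k * W - 1) ω ≤ C)
    (g1 : GP μ ℱ A (1 / 2) W H b j M ω < t) (g2 : GP μ ℱ A (-(1 / 2)) W H b j M ω < t) :
    (j ∈ H → c / 2 * Tp A W H b M j ω - 2 * t ≤ Tp A W H b M (j + 1) ω) ∧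
    (j ∉ H → (1 - 3 / 2 * C) * Tp A W H b M j ω - 2 * t ≤ Tp A W H b M (j + 1) ω) := by
  classical
  unfold GP at g1 g2
  obtain ⟨k1, k2⟩ := Gx_two (by norm_num : (0 : ℝ) < 1 / 2) (by norm_num) (fun n => (h01 n).1) (fun k => (pw01 H _ _ ω).1) g1 g2
  set SD := ∑ k ∈ Finset.range M, pw A H (b + k * W) j ω * dens μ ℱ A (b + j + k * W - 1) ω with hSD
  set SI := ∑ k ∈ Finset.range M, pw A H (b + k * W) j ω * In A (b + j + k * W) ω with hSI
  have hpos : ∀ k, b + k * W + j = b + j + k * W := fun k => by ring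
  constructor
  · intro hj
    have e1 : Tp A W H b M (j + 1) ω = SI := by
      unfold Tp
      refine Finset.sum_congr rfl fun k _ => ?_
      rw [pw_succ, if_pos hj, hpos]
    have e2 : c * Tp A W H b M j ω ≤ SD := by
      unfold Tp
      rw [Finset.mul_sum]
      refine Finset.sum_le_sum fun k hk => ?_
      rw [mul_comm]
      exact mul_le_mul_of_nonneg_left (hlow hj k (Finset.mem_range.1 hk)) (pw01 H _ _ ω).1
    rw [e1]
    linarith
  · intro hj
    have e1 : Tp A W H b M (j + 1) ω = Tp A W H b M j ω - SI := by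
      unfold Tp
      rw [hSI, ← Finset.sum_sub_distrib]
      refine Finset.sum_congr rfl fun k _ => ?_
      rw [pw_succ, if_neg hj, hpos]
      ring
    have e2 : SD ≤ C * Tp A W H b M j ω := by
      unfold Tp
      rw [Finset.mul_sum]
      refine Finset.sum_le_sum fun k hk => ?_
      rw [mul_comm C]
      exact mul_le_mul_of_nonneg_left (hup k (Finset.mem_range.1 hk)) (pw01 H _ _ ω).1
    rw [e1]
    linarith

lemma Tp_low {ω : Ω} {W b M s : ℕ} (H : Finset ℕ) {c C t : ℝ} (hc0 : 0 ≤ c) (hc1 : c ≤ 1) (hC : 0 ≤ C) (hC1 : 3 / 2 * C ≤ 1) (ht : 0 ≤ t)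
    (h01 : ∀ n, 0 ≤ dens μ ℱ A n ω ∧ dens μ ℱ A n ω ≤ 1)
    (hlow : ∀ j ∈ H, j ≤ s → ∀ k < M, c ≤ dens μ ℱ A (b + j + k * W - 1) ω)
    (hup : ∀ j ≤ s, ∀ k < M, dens μ ℱ A (b + j + k * W - 1) ω ≤ C)
    (g : ∀ j ≤ s, GP μ ℱ A (1 / 2) W H b j M ω < t ∧ GP μ ℱ A (-(1 / 2)) W H b j M ω < t) :
    ∀ j ≤ s + 1, M * (c / 2) ^ (H.filter (fun h => h < j)).card * (1 - 3 / 2 * C) ^ j - 2 * t * j ≤ Tp A W H b M j ω := by
  classical
  intro j
  induction j with
  | zero =>
    intro _
    have e : Tp A W H b M 0 ω = M := by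
      unfold Tp pw
      simp
    rw [e]
    have : H.filter (fun h => h < 0) = ∅ := by
      ext h
      simp
    rw [this]
    simp
  | succ j ih =>
    intro hj
    have hjs : j ≤ s := by omega
    have hi := ih (by omega)
    obtain ⟨s1, s2⟩ := Tp_step (μ := μ) (ℱ := ℱ) (A := A) H h01 (fun hjH => hlow j hjH hjs) (hup j hjs) (g j hjs).1 (g j hjs).2
    set X := (M : ℝ) * (c / 2) ^ (H.filter (fun h => h < j)).card * (1 - 3 / 2 * C) ^ j with hX
    have hq0 : 0 ≤ 1 - 3 / 2 * C := by linarith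
    have hq1 : 1 - 3 / 2 * C ≤ 1 := by linarith
    have hX0 : 0 ≤ X := by positivity
    have hj0 : (0 : ℝ) ≤ j := Nat.cast_nonneg j
    have htj : 0 ≤ 2 * t * j := by positivity
    push_cast
    by_cases hjH : j ∈ H
    · have e1 : H.filter (fun h => h < j + 1) = insert j (H.filter (fun h => h < j)) := by
        ext h
        simp only [Finset.mem_filter, Finset.mem_insert]
        constructor
        · rintro ⟨h1, h2⟩
          by_cases h3 : h = j
          · exact Or.inl h3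
          · exact Or.inr ⟨h1, by omega⟩
        · rintro (h1 | ⟨h1, h2⟩)
          · exact ⟨h1 ▸ hjH, by omega⟩
          · exact ⟨h1, by omega⟩
      rw [e1, Finset.card_insert_of_notMem (by simp), pow_succ, pow_succ]
      have e2 := s1 hjH
      have e3 : c / 2 * (X - 2 * t * j) ≤ c / 2 * Tp A W H b M j ω := mul_le_mul_of_nonneg_left hi (by linarith)
      have e4 : (M : ℝ) * ((c / 2) ^ (H.filter (fun h => h < j)).card * (c / 2)) * ((1 - 3 / 2 * C) ^ j * (1 - 3 / 2 * C)) =
        (c / 2 * X) * (1 - 3 / 2 * C) := by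
        rw [hX]
        ring
      rw [e4]
      have e5 : (c / 2 * X) * (1 - 3 / 2 * C) ≤ c / 2 * X := mul_le_of_le_one_right (by positivity) hq1
      have e6 : c / 2 * (2 * t * j) ≤ 1 * (2 * t * j) := mul_le_mul_of_nonneg_right (by linarith) htj
      linarith
    · have e1 : H.filter (fun h => h < j + 1) = H.filter (fun h => h < j) := by
        ext h
        simp only [Finset.mem_filter]
        constructor
        · rintro ⟨h1, h2⟩
          refine ⟨h1, ?_⟩
          by_contra hcon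
          exact hjH ((show h = j by omega) ▸ h1)
        · rintro ⟨h1, h2⟩
          exact ⟨h1, by omega⟩
      rw [e1, pow_succ]
      have e2 := s2 hjH
      have e3 : (1 - 3 / 2 * C) * (X - 2 * t * j) ≤ (1 - 3 / 2 * C) * Tp A W H b M j ω := mul_le_mul_of_nonneg_left hi hq0
      have e4 : (M : ℝ) * (c / 2) ^ (H.filter (fun h => h < j)).card * ((1 - 3 / 2 * C) ^ j * (1 - 3 / 2 * C)) =
        (1 - 3 / 2 * C) * X := by
        rw [hX]
        ring
      rw [e4]
      have e6 : (1 - 3 / 2 * C) * (2 * t * j) ≤ 1 * (2 * t * j) := mul_le_mul_of_nonneg_right (by linarith) htj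
      linarith

open Classical in
/-- the number of patterns as a cardinality -/
lemma Tp_card {ω : Ω} {W b M s x : ℕ} (H : Finset ℕ) (hW : 1 ≤ W) (hb : 1 ≤ b) (hx : b + M * W + s ≤ x) :
    Tp A W H b M (s + 1) ω ≤ ((Finset.Icc 1 x).filter (fun n => n + s ≤ x ∧ ∀ j ≤ s, (ω ∈ A (n + j) ↔ j ∈ H))).card := by
  unfold Tp
  have h1 : ∑ k ∈ Finset.range M, pw A H (b + k * W) (s + 1) ω =
      (((Finset.range M).filter (fun k => ∀ j < s + 1, (ω ∈ A (b + k * W + j) ↔ j ∈ H))).card : ℝ) := by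
    rw [Finset.card_filter]
    push_cast
    refine Finset.sum_congr rfl fun k _ => ?_
    rw [pw_eq]
  rw [h1]
  have h2 : ((Finset.range M).filter (fun k => ∀ j < s + 1, (ω ∈ A (b + k * W + j) ↔ j ∈ H))).card ≤
      ((Finset.Icc 1 x).filter (fun n => n + s ≤ x ∧ ∀ j ≤ s, (ω ∈ A (n + j) ↔ j ∈ H))).card := by
    refine Finset.card_le_card_of_injOn (fun k => b + k * W) (fun k hk => ?_) (fun i _ j _ h => (pg_mono hW).injective h)
    simp only [Finset.coe_filter, Set.mem_setOf_eq, Finset.mem_range, Finset.mem_Icc] at hk ⊢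
    obtain ⟨h1, h2⟩ := hk
    have h3 : k * W ≤ M * W := Nat.mul_le_mul_right _ h1.le
    exact ⟨⟨by omega, by omega⟩, by omega, fun j hj => h2 j (by omega)⟩
  exact_mod_cast h2

end Pool.Agent.N893.SM
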