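import Mathlib
import Pool.Agent.N893.SM.W2

set_option autoImplicit false
set_option linter.unusedSectionVars false
set_option linter.unusedVariables false

/-! # The least chosen integer in progressions: lower bound -/

open MeasureTheory Filter Set
open scoped ENNReal Topology

namespace Pool.Agent.N893.SM

open Pool.Agent.R528.RM

variable {Ω : Type} {m0 : MeasurableSpace Ω} {μ : Measure Ω} [IsProbabilityMeasure μ]
  {ℱ : Filtration ℕ m0} {A : ℕ → Set Ω}

/-- class `a` is empty up to `n` -/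
noncomputable def Em (A : ℕ → Set Ω) (d n a : ℕ) (ω : Ω) : ℝ :=
  ∏ k ∈ Finset.range n, if (k + 1) % d = a then 1 - In A (k + 1) ω else 1

/-- the model probability that class `a` stays empty -/
noncomputable def Fm (r : ℕ → ℝ) (d X n a : ℕ) : ℝ :=
  ∏ k ∈ Finset.Ico n X, if (k + 1) % d = a then 1 - r (k + 1) else 1

open Classical in
/-- the potential -/
noncomputable def Ph (A : ℕ → Set Ω) (Q : Finset ℕ) (r : ℕ → ℝ) (d X n : ℕ) (ω : Ω) : ℝ :=
  ∑ a ∈ (Finset.range d).filter (Ad Q d), Em A d n a ω * Fm r d X n a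

open Classical in
/-- the weight -/
noncomputable def ww (A : ℕ → Set Ω) (Q : Finset ℕ) (r : ℕ → ℝ) (d X n : ℕ) (ω : Ω) : ℝ :=
  if Ad Q d ((n + 1) % d) then Em A d n ((n + 1) % d) ω * Fm r d X (n + 1) ((n + 1) % d) else 0

lemma Em01 (d n a : ℕ) (ω : Ω) : 0 ≤ Em A d n a ω ∧ Em A d n a ω ≤ 1 := by
  unfold Em
  have h : ∀ k ∈ Finset.range n, 0 ≤ (if (k + 1) % d = a then 1 - In A (k + 1) ω else 1) ∧
      (if (k + 1) % d = a then 1 - In A (k + 1) ω else 1) ≤ 1 := by
    intro k _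
    have h1 := In_nonneg (A := A) (k + 1) ω
    have h2 := In_le (A := A) (k + 1) ω
    split_ifs
    · constructor <;> linarith
    · norm_num
  exact ⟨Finset.prod_nonneg fun k hk => (h k hk).1, Finset.prod_le_one (fun k hk => (h k hk).1) fun k hk => (h k hk).2⟩

lemma Fm01 {r : ℕ → ℝ} (hr : ∀ n, 0 ≤ r n ∧ r n ≤ 1) (d X n a : ℕ) : 0 ≤ Fm r d X n a ∧ Fm r d X n a ≤ 1 := by
  unfold Fm
  have h : ∀ k ∈ Finset.Ico n X, 0 ≤ (if (k + 1) % d = a then 1 - r (k + 1) else 1) ∧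
      (if (k + 1) % d = a then 1 - r (k + 1) else 1) ≤ 1 := by
    intro k _
    have h1 := hr (k + 1)
    split_ifs
    · constructor <;> linarith
    · norm_num
  exact ⟨Finset.prod_nonneg fun k hk => (h k hk).1, Finset.prod_le_one (fun k hk => (h k hk).1) fun k hk => (h k hk).2⟩

lemma ww01 (Q : Finset ℕ) {r : ℕ → ℝ} (hr : ∀ n, 0 ≤ r n ∧ r n ≤ 1) (d X n : ℕ) (ω : Ω) :
    0 ≤ ww A Q r d X n ω ∧ ww A Q r d X n ω ≤ 1 := by
  unfold ww
  split_ifs
  · have h1 := Em01 (A := A) d n ((n + 1) % d) ω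
    have h2 := Fm01 hr d X (n + 1) ((n + 1) % d)
    exact ⟨mul_nonneg h1.1 h2.1, mul_le_one₀ h1.2 h2.1 h2.2⟩
  · norm_num

lemma Em_meas (hA : ∀ n, MeasurableSet[ℱ n] (A n)) (d a n : ℕ) : StronglyMeasurable[ℱ n] (Em A d n a) := by
  induction n with
  | zero =>
    unfold Em
    simp only [Finset.range_zero, Finset.prod_empty]
    exact stronglyMeasurable_const
  | succ n ih =>
    have h1 : Em A d (n + 1) a = fun ω => Em A d n a ω * (if (n + 1) % d = a then 1 - In A (n + 1) ω else 1) := by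
      funext ω
      unfold Em
      rw [Finset.prod_range_succ]
    rw [h1]
    have h2 : StronglyMeasurable[ℱ (n + 1)] (Em A d n a) := ih.mono (ℱ.mono (by omega))
    have h3 : StronglyMeasurable[ℱ (n + 1)] (fun ω => if (n + 1) % d = a then 1 - In A (n + 1) ω else 1) := by
      split_ifs
      · exact @StronglyMeasurable.sub _ _ _ _ (ℱ (n + 1)) _ _ _ stronglyMeasurable_const (In_meas hA le_rfl)
      · exact stronglyMeasurable_const
    exact @StronglyMeasurable.mul _ _ _ _ (ℱ (n + 1)) _ _ _ h2 h3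

lemma ww_meas (hA : ∀ n, MeasurableSet[ℱ n] (A n)) (Q : Finset ℕ) (r : ℕ → ℝ) (d X n : ℕ) :
    StronglyMeasurable[ℱ (n + 1 - 1)] (ww A Q r d X n) := by
  rw [Nat.add_sub_cancel]
  unfold ww
  split_ifs
  · exact (Em_meas hA d _ n).mul_const _
  · exact stronglyMeasurable_const

lemma Ph_step (Q : Finset ℕ) (r : ℕ → ℝ) {d X n : ℕ} (hd : 1 ≤ d) (hn : n < X) (ω : Ω) :
    Ph A Q r d X (n + 1) ω = Ph A Q r d X n ω + ww A Q r d X n ω * (r (n + 1) - In A (n + 1) ω) := by
  classical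
  unfold Ph ww
  rw [← sub_eq_iff_eq_add', ← Finset.sum_sub_distrib]
  have h1 : ∀ a, Em A d (n + 1) a ω * Fm r d X (n + 1) a - Em A d n a ω * Fm r d X n a =
      if (n + 1) % d = a then Em A d n a ω * Fm r d X (n + 1) a * (r (n + 1) - In A (n + 1) ω) else 0 := by
    intro a
    have e1 : Em A d (n + 1) a ω = Em A d n a ω * (if (n + 1) % d = a then 1 - In A (n + 1) ω else 1) := by
      unfold Em
      rw [Finset.prod_range_succ]
    have e2 : Fm r d X n a = (if (n + 1) % d = a then 1 - r (n + 1) else 1) * Fm r d X (n + 1) a := by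
      unfold Fm
      rw [Finset.prod_eq_prod_Ico_succ_bot hn]
    rw [e1, e2]
    split_ifs
    · ring
    · ring
  rw [Finset.sum_congr rfl fun a _ => h1 a]
  rw [Finset.sum_ite_eq]
  have hmem : (n + 1) % d ∈ Finset.range d := Finset.mem_range.2 (Nat.mod_lt _ (by omega))
  by_cases hA : Ad Q d ((n + 1) % d)
  · rw [if_pos (Finset.mem_filter.2 ⟨hmem, hA⟩), if_pos hA]
  · rw [if_neg (fun h => hA (Finset.mem_filter.1 h).2), if_neg hA, zero_mul]

lemma Ph_sum (Q : Finset ℕ) (r : ℕ → ℝ) {d X : ℕ} (hd : 1 ≤ d) (ω : Ω) (n : ℕ) (hn : n ≤ X) :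
    Ph A Q r d X n ω = Ph A Q r d X 0 ω + ∑ k ∈ Finset.range n, ww A Q r d X k ω * (r (k + 1) - In A (k + 1) ω) := by
  induction n with
  | zero => simp
  | succ n ih =>
    rw [Ph_step Q r hd (by omega), ih (by omega), Finset.sum_range_succ]
    ring

/-- one sided bound -/
lemma Gx_up {θ : ℝ} (h0 : 0 < θ) (h1 : θ ≤ 1) {v : ℕ → ℕ} {w : ℕ → Ω → ℝ} {M : ℕ} {t : ℝ} {ω : Ω}
    (hD : ∀ n, 0 ≤ dens μ ℱ A n ω) (hw : ∀ k, 0 ≤ w k ω) (ha : Gx μ ℱ A θ v w M ω < t) :
    ∑ k ∈ Finset.range M, w k ω * In A (v k) ω ≤ (1 + θ) * (∑ k ∈ Finset.range M, w k ω * dens μ ℱ A (v k - 1) ω) + t / θ := by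
  have e : Gx μ ℱ A θ v w M ω = θ * (∑ k ∈ Finset.range M, w k ω * In A (v k) ω) -
      (Real.exp θ - 1) * ∑ k ∈ Finset.range M, w k ω * dens μ ℱ A (v k - 1) ω := by
    unfold Gx
    rw [Finset.mul_sum, Finset.mul_sum, ← Finset.sum_sub_distrib]
    refine Finset.sum_congr rfl fun k _ => ?_
    ring
  rw [e] at ha
  set S := ∑ k ∈ Finset.range M, w k ω * In A (v k) ω
  set D := ∑ k ∈ Finset.range M, w k ω * dens μ ℱ A (v k - 1) ω with hDdef
  have hD0 : 0 ≤ D := Finset.sum_nonneg fun k _ => mul_nonneg (hw k) (hD _)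
  have h2 : Real.exp θ - 1 ≤ θ * (1 + θ) := by
    have h := Real.abs_exp_sub_one_sub_id_le (x := θ) (by rw [abs_of_pos h0]; exact h1)
    have := (abs_le.1 h).2
    nlinarith
  rw [← sub_le_iff_le_add', le_div_iff₀ h0]
  have h4 := mul_le_mul_of_nonneg_right h2 hD0
  nlinarith

/-- the rate -/
noncomputable def rd (W : ℕ) (δ : ℝ) (n : ℕ) : ℝ := min 1 ((1 + δ) * rhoW W n)

lemma rd01 (W : ℕ) {δ : ℝ} (hδ : 0 ≤ δ) (n : ℕ) : 0 ≤ rd W δ n ∧ rd W δ n ≤ 1 :=
  ⟨le_min zero_le_one (mul_nonneg (by linarith) (rhoW_nonneg W n)), min_le_left _ _⟩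

/-- the potential does not decrease much -/
lemma Ph_end (Q : Finset ℕ) {ω : Ω} (h01 : ∀ n, 0 ≤ dens μ ℱ A n ω ∧ dens μ ℱ A n ω ≤ 1)
    {W : ℕ} {δ θ ε t : ℝ} (hθ : 0 < θ) (hθ1 : θ ≤ 1) (hδ : 0 ≤ δ) (hd1 : (1 + θ) * (1 + ε) ≤ 1 + δ) {N : ℕ}
    (hN : ∀ n, N ≤ n → |dens μ ℱ A n ω - rhoW W (n + 1)| ≤ ε * rhoW W (n + 1))
    (hN2 : ∀ n, N ≤ n → (1 + δ) * rhoW W (n + 1) ≤ 1) {d X : ℕ} (hd : 1 ≤ d)
    (hG : Gx μ ℱ A θ (fun n => n + 1) (ww A Q (rd W δ) d X) X ω < t) :
    Ph A Q (rd W δ) d X 0 ω - 2 * N - t / θ ≤ Ph A Q (rd W δ) d X X ω := by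
  have hw := fun n => ww01 (A := A) Q (rd01 W hδ) d X n ω
  have h1 := Gx_up hθ hθ1 (fun n => (h01 n).1) (fun n => (hw n).1) hG
  have h2 := Ph_sum (A := A) Q (rd W δ) hd ω X le_rfl
  rw [h2]
  set w := fun n => ww A Q (rd W δ) d X n ω with hwdef
  have h3 : ∑ k ∈ Finset.range X, w k * (rd W δ (k + 1) - In A (k + 1) ω) =
      ∑ k ∈ Finset.range X, w k * rd W δ (k + 1) - ∑ k ∈ Finset.range X, w k * In A (k + 1) ω := by
    rw [← Finset.sum_sub_distrib]
    refine Finset.sum_congr rfl fun k _ => ?_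
    ring
  have h4 : -(2 * (N : ℝ)) ≤ ∑ k ∈ Finset.range X, w k * rd W δ (k + 1) - (1 + θ) * ∑ k ∈ Finset.range X, w k * dens μ ℱ A (k + 1 - 1) ω := by
    rw [Finset.mul_sum, ← Finset.sum_sub_distrib]
    have e1 : ∀ k ∈ Finset.range X, -(if k < N then (2 : ℝ) else 0) ≤ w k * rd W δ (k + 1) - (1 + θ) * (w k * dens μ ℱ A (k + 1 - 1) ω) := by
      intro k _
      rw [Nat.add_sub_cancel]
      have g1 := hw k
      have g2 := h01 k
      have g3 := rd01 W hδ (k + 1)
      have e2 : w k * rd W δ (k + 1) - (1 + θ) * (w k * dens μ ℱ A k ω) = w k * (rd W δ (k + 1) - (1 + θ) * dens μ ℱ A k ω) := by ring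
      rw [e2]
      split_ifs with hk
      · have e3 : -2 ≤ rd W δ (k + 1) - (1 + θ) * dens μ ℱ A k ω := by nlinarith
        have e4 : w k * (-2) ≤ w k * (rd W δ (k + 1) - (1 + θ) * dens μ ℱ A k ω) := mul_le_mul_of_nonneg_left e3 g1.1
        have e5 : w k ≤ 1 := g1.2
        linarith
      · rw [neg_zero]
        refine mul_nonneg g1.1 ?_
        have e3 := (abs_le.1 (hN k (by omega))).2
        have e4 : rd W δ (k + 1) = (1 + δ) * rhoW W (k + 1) := min_eq_right (hN2 k (by omega))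
        rw [e4]
        have e5 : (1 + θ) * dens μ ℱ A k ω ≤ (1 + θ) * ((1 + ε) * rhoW W (k + 1)) :=
          mul_le_mul_of_nonneg_left (by linarith) (by linarith)
        have e6 : (1 + θ) * (1 + ε) * rhoW W (k + 1) ≤ (1 + δ) * rhoW W (k + 1) :=
          mul_le_mul_of_nonneg_right hd1 (rhoW_nonneg _ _)
        linarith
    refine le_trans ?_ (Finset.sum_le_sum e1)
    rw [Finset.sum_neg_distrib, neg_le_neg_iff]
    have e2 : ∑ k ∈ Finset.range X, (if k < N then (2 : ℝ) else 0) = 2 * ((Finset.range X).filter (fun k => k < N)).card := by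
      rw [← Finset.sum_filter, Finset.sum_const, nsmul_eq_mul, mul_comm]
    rw [e2]
    have e3 : ((Finset.range X).filter (fun k => k < N)) ⊆ Finset.range N := fun k hk =>
      Finset.mem_range.2 (Finset.mem_filter.1 hk).2
    have e4 := Finset.card_le_card e3
    rw [Finset.card_range] at e4
    have e5 : (((Finset.range X).filter (fun k => k < N)).card : ℝ) ≤ N := by exact_mod_cast e4
    linarith
  linarith

/-- the events -/
theorem errE (hA : ∀ n, MeasurableSet[ℱ n] (A n)) (Q : Finset ℕ) {r : ℕ → ℝ} (hr : ∀ n, 0 ≤ r n ∧ r n ≤ 1) (θ : ℝ) (Xf : ℕ → ℕ) :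
    ∀ᵐ ω ∂μ, ∀ᶠ d : ℕ in atTop, Gx μ ℱ A θ (fun n => n + 1) (ww A Q r d (Xf d)) (Xf d) ω < 2 * Real.log d := by
  have hsum : Summable (fun n : ℕ => ((n : ℝ) ^ (2 : ℝ))⁻¹) := Real.summable_nat_rpow_inv.2 (by norm_num)
  filter_upwards [bc_real (μ := μ) hsum (s := fun d => {ω | 2 * Real.log d ≤ Gx μ ℱ A θ (fun n => n + 1) (ww A Q r d (Xf d)) (Xf d) ω})
    (by
      filter_upwards [eventually_ge_atTop 1] with d hd
      rw [← exp_log_rpow hd]
      exact Gx_tail (μ := μ) hA θ (fun a b h => by show a + 1 < b + 1; omega) (fun k => by show 1 ≤ k + 1; omega)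
        (fun k => ww_meas hA Q r d (Xf d) k) (fun k ω => ww01 Q hr d (Xf d) k ω) (Xf d) (2 * Real.log d))] with ω hω
  filter_upwards [hω] with d hd
  exact not_le.1 hd

lemma one_sub_ge_exp {x δ : ℝ} (hx : 0 ≤ x) (hδ : 0 ≤ δ) (h : (1 + δ) * x ≤ δ) : Real.exp (-((1 + δ) * x)) ≤ 1 - x := by
  have h1 : x < 1 := by nlinarith
  have h2 : 0 < 1 - x := by linarith
  rw [← Real.le_log_iff_exp_le h2]
  have h3 := Real.one_sub_inv_le_log_of_pos h2
  have h4 : -((1 + δ) * x) ≤ 1 - (1 - x)⁻¹ := by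
    have e1 : 1 - (1 - x)⁻¹ = -(x / (1 - x)) := by
      field_simp
      ring
    rw [e1, neg_le_neg_iff, div_le_iff₀ h2]
    nlinarith
  linarith

/-- lower bound for one class -/
lemma Fm_low (Q : Finset ℕ) (hQ : ∀ p ∈ Q, p.Prime) {δ : ℝ} (hδ : 0 ≤ δ) {d a X : ℕ} (hd3 : 3 ≤ d) (ha : a < d) (ha0 : 1 < a) (hAd : Ad Q d a)
    {ℓ : ℝ} (hℓ : 0 < ℓ) (hℓa : ℓ ≤ Real.log a) (hsmall : (1 + δ) * ((1 + δ) * ((((∏ p ∈ Q, p : ℕ) : ℝ) / Nat.totient (∏ p ∈ Q, p)) / ℓ)) ≤ δ) :
    Real.exp (-((1 + δ) * ((1 + δ) * ((((∏ p ∈ Q, p : ℕ) : ℝ) / Nat.totient (∏ p ∈ Q, p)) / ℓ +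
      ((X / d + 1) * (d / phiQ Q d) + (((∏ p ∈ Q, p : ℕ) : ℝ) / Nat.totient (∏ p ∈ Q, p)) * (∏ p ∈ Q, p : ℕ)) / Real.log d)))) ≤
      Fm (rd (∏ p ∈ Q, p) δ) d X 0 a := by
  classical
  set W := ∏ p ∈ Q, p with hWdef
  have hW : 0 < W := Finset.prod_pos fun q hq => (hQ q hq).pos
  have hWr : (1 : ℝ) ≤ W := by exact_mod_cast hW
  set c := (W : ℝ) / Nat.totient W with hc
  have hc1 : 1 ≤ c := c_one hW
  have hdr : (3 : ℝ) ≤ d := by exact_mod_cast hd3
  have hL : 0 < Real.log (d : ℝ) := Real.log_pos (by linarith)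
  have har : (1 : ℝ) < a := by exact_mod_cast ha0
  obtain ⟨p1, p2⟩ := phiQ_bounds Q hQ d
  have hphi : 0 < phiQ Q d := lt_of_lt_of_le (by positivity) p1
  -- members are large
  have hmem : ∀ k : ℕ, (k + 1) % d = a → a ≤ k + 1 := fun k hk => hk ▸ Nat.mod_le _ _
  have hrsmall : ∀ v : ℕ, a ≤ v → rd W δ v ≤ (1 + δ) * (c / ℓ) := by
    intro v hv
    refine (min_le_right _ _).trans (mul_le_mul_of_nonneg_left ?_ (by linarith))
    refine (rhoW_le_bb W v).trans ((min_le_right _ _).trans ?_)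
    refine div_le_div_of_nonneg_left (by linarith) hℓ (hℓa.trans (Real.log_le_log (by linarith) (by exact_mod_cast hv)))
  -- the sum of the rates
  set S := ∑ k ∈ Finset.range X, (if (k + 1) % d = a then rd W δ (k + 1) else 0) with hS
  have h1 : Real.exp (-((1 + δ) * S)) ≤ Fm (rd W δ) d X 0 a := by
    unfold Fm
    rw [hS, Finset.mul_sum, ← Finset.sum_neg_distrib, Real.exp_sum, Nat.Ico_zero_eq_range]
    refine Finset.prod_le_prod (fun k _ => (Real.exp_pos _).le) fun k _ => ?_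
    split_ifs with hk
    · refine one_sub_ge_exp (rd01 W hδ _).1 hδ (le_trans ?_ hsmall)
      exact mul_le_mul_of_nonneg_left (hrsmall _ (hmem k hk)) (by linarith)
    · simp
  refine le_trans (Real.exp_le_exp.2 (neg_le_neg (mul_le_mul_of_nonneg_left ?_ (by linarith)))) h1
  -- bound for S
  have h2 : S ≤ ∑ j ∈ Finset.range (X / d + 1), rd W δ (a + j * d) := by
    rw [hS, ← Finset.sum_filter]
    have hinj : Set.InjOn (fun k : ℕ => (k + 1) / d) ((Finset.range X).filter (fun k => (k + 1) % d = a)) := by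
      intro x hx y hy hxy
      rw [Finset.mem_coe, Finset.mem_filter] at hx hy
      simp only at hxy
      have e1 := Nat.div_add_mod (x + 1) d
      have e2 := Nat.div_add_mod (y + 1) d
      rw [hx.2] at e1
      rw [hy.2, ← hxy] at e2
      omega
    have e1 : ∑ k ∈ (Finset.range X).filter (fun k => (k + 1) % d = a), rd W δ (k + 1) =
        ∑ j ∈ ((Finset.range X).filter (fun k => (k + 1) % d = a)).image (fun k => (k + 1) / d), rd W δ (a + j * d) := by
      rw [Finset.sum_image hinj]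
      refine Finset.sum_congr rfl fun k hk => ?_
      have hk2 := (Finset.mem_filter.1 hk).2
      congr 1
      have := Nat.div_add_mod (k + 1) d
      rw [hk2] at this
      rw [mul_comm]
      omega
    rw [e1]
    refine Finset.sum_le_sum_of_subset_of_nonneg ?_ fun j _ _ => (rd01 W hδ _).1
    intro j hj
    obtain ⟨k, hk, rfl⟩ := Finset.mem_image.1 hj
    rw [Finset.mem_filter, Finset.mem_range] at hk
    rw [Finset.mem_range]
    have : (k + 1) / d ≤ X / d := Nat.div_le_div_right (by omega)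
    omega
  refine h2.trans ?_
  have h3 : ∀ j ∈ Finset.range (X / d + 1), rd W δ (a + j * d) ≤ (1 + δ) * ((if j = 0 then c / ℓ else 0) +
      c / Real.log d * (if (a + j * d).Coprime W then (1 : ℝ) else 0)) := by
    intro j _
    refine (min_le_right _ _).trans (mul_le_mul_of_nonneg_left ?_ (by linarith))
    have hcL : 0 ≤ c / Real.log d := by positivity
    by_cases hcop : (a + j * d).Coprime W
    · rw [if_pos hcop, mul_one]
      by_cases hj : j = 0
      · rw [if_pos hj]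
        have e1 : rhoW W (a + j * d) ≤ c / ℓ := by
          refine (rhoW_le_bb W _).trans ((min_le_right _ _).trans ?_)
          refine div_le_div_of_nonneg_left (by linarith) hℓ (hℓa.trans (Real.log_le_log (by linarith) ?_))
          exact_mod_cast Nat.le_add_right _ _
        linarith
      · rw [if_neg hj, zero_add]
        refine (rhoW_le_bb W _).trans ((min_le_right _ _).trans ?_)
        refine div_le_div_of_nonneg_left (by linarith) hL (Real.log_le_log (by linarith) ?_)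
        have : 1 * d ≤ j * d := Nat.mul_le_mul_right d (by omega)
        exact_mod_cast (by omega : d ≤ a + j * d)
    · rw [if_neg hcop, mul_zero, add_zero]
      have : rhoW W (a + j * d) = 0 := by unfold rhoW; rw [if_neg hcop]
      rw [this]
      split_ifs
      · positivity
      · exact le_rfl
  refine (Finset.sum_le_sum h3).trans ?_
  rw [← Finset.mul_sum, Finset.sum_add_distrib, ← Finset.mul_sum]
  refine mul_le_mul_of_nonneg_left ?_ (by linarith)
  refine add_le_add ?_ ?_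
  · rw [Finset.sum_ite_eq', if_pos (Finset.mem_range.2 (Nat.succ_pos _))]
  · have e1 := prog_count Q hQ (show 1 ≤ d by omega) hAd (X / d + 1)
    rw [div_mul_eq_mul_div]
    refine div_le_div_of_nonneg_right (e1.trans ?_) hL.le
    refine add_le_add ?_ le_rfl
    refine mul_le_mul_of_nonneg_right ?_ (by positivity)
    push_cast
    have := Nat.cast_div_le (α := ℝ) (m := X) (n := d)
    linarith

end Pool.Agent.N893.SM
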