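import Mathlib
import Pool.Agent.N893.SM.K2
import Pool.Agent.N893.SM.W3
import Pool.Agent.N893.SM.Lin

set_option autoImplicit false
set_option linter.unusedSectionVars false
set_option linter.unusedVariables false

/-! # Patterns of consecutive decisions: the theorem -/

open MeasureTheory Filter Set
open scoped ENNReal Topology

namespace Pool.Agent.N893.SM

open Pool.Agent.R528.RM

variable {Ω : Type} {m0 : MeasurableSpace Ω} {μ : Measure Ω} [IsProbabilityMeasure μ]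
  {ℱ : Filtration ℕ m0} {A : ℕ → Set Ω}

/-- Chinese remainder for shifts -/
lemma shift_res {Q : Finset ℕ} (hQ : ∀ p ∈ Q, p.Prime) {H : Finset ℕ} (h : ∀ p ∈ Q, ∃ r : ℕ, ∀ a ∈ H, ¬ p ∣ r + a) :
    ∃ r : ℕ, r < ∏ p ∈ Q, p ∧ ∀ a ∈ H, ∀ j : ℕ, Nat.Coprime (j * (∏ p ∈ Q, p) + (r + a)) (∏ p ∈ Q, p) := by
  classical
  set W := ∏ p ∈ Q, p with hWdef
  have hW : 0 < W := Finset.prod_pos fun q hq => (hQ q hq).pos
  have hadm : AdmF Q (H.image (fun a => ((1, a) : ℕ × ℕ))) := by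
    intro p hp
    obtain ⟨r, hr⟩ := h p hp
    refine ⟨r, fun f hf => ?_⟩
    obtain ⟨a, ha, rfl⟩ := Finset.mem_image.1 hf
    simp only [one_mul]
    exact hr a ha
  obtain ⟨r, hr⟩ := adm_res hQ hadm
  refine ⟨r % W, Nat.mod_lt _ hW, fun a ha j => ?_⟩
  have h1 := hr 0 (1, a) (Finset.mem_image.2 ⟨a, ha, rfl⟩)
  have h2 : j * W + (r % W + a) ≡ val (1, a) (r + W * 0) [MOD W] := by
    have e1 : val (1, a) (r + W * 0) = 0 + (r + a) := by
      unfold val
      ring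
    rw [e1]
    exact Nat.ModEq.add (Nat.modEq_zero_iff_dvd.2 (Nat.dvd_mul_left _ _)) (Nat.ModEq.add_right _ (Nat.mod_modEq r W))
  unfold Nat.Coprime at h1 ⊢
  rw [← h1]
  exact Nat.ModEq.gcd_eq h2

open Classical in
/-- **all patterns** -/
theorem pattern_low {ω : Ω} (h01 : ∀ n, 0 ≤ dens μ ℱ A n ω ∧ dens μ ℱ A n ω ≤ 1) (Q : Finset ℕ) (hQ : ∀ p ∈ Q, p.Prime)
    {c C : ℝ} (hc : 0 < c) (hC : 0 ≤ C)
    (hlow : ∀ᶠ n : ℕ in atTop, (n + 1).Coprime (∏ p ∈ Q, p) → c ≤ dens μ ℱ A n ω * Real.log n)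
    (hup : ∀ᶠ n : ℕ in atTop, dens μ ℱ A n ω * Real.log n ≤ C)
    (he : ∀ᶠ x : ℕ in atTop, ∀ b : ℕ, 1 ≤ b → b ≤ x → ∀ H ⊆ Finset.range (Sx x + 1), ∀ j ≤ Sx x,
      GP μ ℱ A (1 / 2) (∏ p ∈ Q, p) H b j (x / (4 * ∏ p ∈ Q, p)) ω < 3 * Real.log x ^ 2 ∧
      GP μ ℱ A (-(1 / 2)) (∏ p ∈ Q, p) H b j (x / (4 * ∏ p ∈ Q, p)) ω < 3 * Real.log x ^ 2)
    {δ : ℝ} (hδ0 : 0 < δ) (hδ1 : δ < 1) :
    ∃ η : ℝ, 0 < η ∧ ∀ᶠ x : ℕ in atTop, ∀ (s : ℕ) (H : Finset ℕ), (s : ℝ) ≤ η * Real.log x ^ 2 → H ⊆ Finset.range (s + 1) →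
      (H.card : ℝ) ≤ (1 - δ) * (Real.log x / Real.log (Real.log x)) → (∀ p ∈ Q, ∃ r : ℕ, ∀ a ∈ H, ¬ p ∣ r + a) →
      (x : ℝ) ^ (δ / 2) ≤ ((Finset.Icc 1 x).filter (fun n => n + s ≤ x ∧ ∀ j ≤ s, (ω ∈ A (n + j) ↔ j ∈ H))).card := by
  set W := ∏ p ∈ Q, p with hWdef
  have hW : 0 < W := Finset.prod_pos fun q hq => (hQ q hq).pos
  have hWr : (1 : ℝ) ≤ W := by exact_mod_cast hW
  set c1 := min c 1 with hc1
  have hc10 : 0 < c1 := lt_min hc one_pos
  have hc11 : c1 ≤ 1 := min_le_right _ _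
  refine ⟨min 1 (δ / (192 * (C + 1))), lt_min one_pos (by positivity), ?_⟩
  obtain ⟨N1, hN1⟩ := eventually_atTop.1 (hlow.and hup)
  have ll : Tendsto (fun x : ℕ => Real.log (Real.log (x : ℝ))) atTop atTop := Real.tendsto_log_atTop.comp tendsto_log
  have t1 : ∀ᶠ x : ℕ in atTop, Real.log ((((0 : ℕ) : ℝ) + 2) / c1) ≤ δ / 4 * Real.log (Real.log (x : ℝ)) :=
    (ll.const_mul_atTop (show (0 : ℝ) < δ / 4 by positivity)).eventually_ge_atTop _
  have t2 : ∀ᶠ x : ℕ in atTop, 16 * (W : ℝ) ≤ (x : ℝ) ^ (3 * δ / 16) :=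
    ((tendsto_rpow_atTop (show (0 : ℝ) < 3 * δ / 16 by positivity)).comp tendsto_natCast_atTop_atTop).eventually_ge_atTop _
  have t3 : ∀ᶠ x : ℕ in atTop, 12 * Real.log (x : ℝ) ^ 4 ≤ (x : ℝ) ^ (δ / 2) := by
    have h := (((isLittleO_log_rpow_rpow_atTop (s := δ / 2) 4 (by positivity)).bound (show (0 : ℝ) < 1 / 12 by norm_num)).natCast_atTop)
    filter_upwards [h, tendsto_log.eventually_ge_atTop 1] with x hx hlog
    rw [Real.norm_eq_abs, Real.norm_eq_abs, abs_of_nonneg (by positivity), abs_of_nonneg (by positivity)] at hx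
    have : Real.log (x : ℝ) ^ 4 = Real.log (x : ℝ) ^ (4 : ℝ) := by exact_mod_cast (Real.rpow_natCast (Real.log (x : ℝ)) 4).symm
    rw [this]
    linarith
  have t4 : ∀ᶠ x : ℕ in atTop, 12 * (W : ℝ) + 4 * Real.log (x : ℝ) ^ 2 ≤ x := by
    have h := (((isLittleO_log_rpow_rpow_atTop (s := (1 : ℝ)) 2 one_pos).bound (show (0 : ℝ) < 1 / 8 by norm_num)).natCast_atTop)
    filter_upwards [h, eventually_ge_atTop (24 * W)] with x hx hx2
    rw [Real.norm_eq_abs, Real.norm_eq_abs, Real.rpow_one, abs_of_nonneg (by positivity), abs_of_nonneg (by positivity)] at hx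
    have e1 : Real.log (x : ℝ) ^ (2 : ℝ) = Real.log (x : ℝ) ^ 2 := by exact_mod_cast Real.rpow_natCast (Real.log (x : ℝ)) 2
    rw [e1] at hx
    have e2 : 24 * (W : ℝ) ≤ x := by exact_mod_cast hx2
    linarith
  filter_upwards [he, t1, t2, t3, t4, ll.eventually_gt_atTop 0, tendsto_log.eventually_ge_atTop 1,
    tendsto_log.eventually_ge_atTop (6 * C), tendsto_log.eventually_ge_atTop (192 * C / δ), eventually_ge_atTop (2 * N1 + 8)]
    with x he t1 t2 t3 t4 hLL hL1 hL6 hLδ hxN s H hs hH hcard hadm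
  set L := Real.log (x : ℝ) with hL
  have hxr : (8 : ℝ) ≤ x := by
    have : 8 ≤ x := by omega
    exact_mod_cast this
  have hxp : (0 : ℝ) < x := by linarith
  have hs1 : (s : ℝ) ≤ L ^ 2 := by
    have : min 1 (δ / (192 * (C + 1))) * L ^ 2 ≤ 1 * L ^ 2 := mul_le_mul_of_nonneg_right (min_le_left _ _) (by positivity)
    linarith
  have hs2 : (s : ℝ) ≤ δ / (192 * (C + 1)) * L ^ 2 := by
    have : min 1 (δ / (192 * (C + 1))) * L ^ 2 ≤ δ / (192 * (C + 1)) * L ^ 2 := mul_le_mul_of_nonneg_right (min_le_right _ _) (by positivity)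
    linarith
  have hsS : s ≤ Sx x := Nat.le_floor hs1
  have hHS : H ⊆ Finset.range (Sx x + 1) := hH.trans (Finset.range_subset_range.2 (by omega))
  obtain ⟨r, hr, hcop⟩ := shift_res hQ hadm
  rw [← hWdef] at hr hcop
  set u := x / (2 * W) with hu
  set M := x / (4 * W) with hM
  have hu1 : 2 * W * u ≤ x := Nat.mul_div_le x (2 * W)
  have hu2 : x < 2 * W * (u + 1) := Nat.lt_mul_div_succ x (by omega)
  have hM1 : 4 * W * M ≤ x := Nat.mul_div_le x (4 * W)
  have hM2 : x < 4 * W * (M + 1) := Nat.lt_mul_div_succ x (by omega)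
  set b := W * u + W + r with hb
  have hx4 : 12 * W + 4 * s ≤ x := by
    have : 12 * (W : ℝ) + 4 * s ≤ x := by linarith
    exact_mod_cast this
  have hsum : b + M * W + s ≤ x := by
    have e1 : 2 * W * u = 2 * (W * u) := by ring
    have e2 : 4 * W * M = 4 * (M * W) := by ring
    omega
  have hb2 : x < 2 * b := by
    have e1 : 2 * W * (u + 1) = 2 * (W * u) + 2 * W := by ring
    omega
  have hpos : ∀ j ≤ s, ∀ k < M, 2 * (b + j + k * W - 1) + 2 > x ∧ b + j + k * W ≤ x := by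
    intro j hj k hk
    have : k * W ≤ M * W := Nat.mul_le_mul_right _ hk.le
    constructor <;> omega
  have hden : ∀ j ≤ s, ∀ k < M, N1 ≤ b + j + k * W - 1 ∧ L / 2 ≤ Real.log ((b + j + k * W - 1 : ℕ) : ℝ) ∧
      Real.log ((b + j + k * W - 1 : ℕ) : ℝ) ≤ L := by
    intro j hj k hk
    obtain ⟨p1, p2⟩ := hpos j hj k hk
    set v := b + j + k * W - 1 with hv
    have hv1 : (x : ℝ) ≤ 2 * v + 1 := by
      have : x ≤ 2 * v + 1 := by omega
      exact_mod_cast this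
    have hv2 : (v : ℝ) ≤ x := by
      have : v ≤ x := by omega
      exact_mod_cast this
    have hv0 : (0 : ℝ) < v := by linarith
    refine ⟨by omega, ?_, Real.log_le_log hv0 hv2⟩
    have h1 : (x : ℝ) ≤ (v : ℝ) ^ 2 := by nlinarith
    have h2 := Real.log_le_log hxp h1
    rw [Real.log_pow] at h2
    push_cast at h2
    linarith
  have hL0 : 0 < L := by linarith
  -- the recursion
  have key := Tp_low (μ := μ) (ℱ := ℱ) (A := A) (ω := ω) (W := W) (b := b) (M := M) (s := s) H (c := c1 / L) (C := 2 * C / L) (t := 3 * L ^ 2)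
    (by positivity) (by rw [div_le_one hL0]; linarith) (by positivity) (by
      rw [show 3 / 2 * (2 * C / L) = 3 * C / L by ring, div_le_one hL0]
      linarith) (by positivity) h01 (fun j hjH hj k hk => by
      obtain ⟨q1, q2, q3⟩ := hden j hj k hk
      have hc' : (b + j + k * W - 1 + 1).Coprime W := by
        have e1 : b + j + k * W - 1 + 1 = (u + 1 + k) * W + (r + j) := by
          have : (u + 1 + k) * W = W * u + W + k * W := by ring
          omega
        rw [e1]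
        exact hcop j hjH _
      have q4 := (hN1 _ q1).1 hc'
      rw [div_le_iff₀ hL0]
      have q5 := (h01 (b + j + k * W - 1)).1
      have q6 : dens μ ℱ A (b + j + k * W - 1) ω * Real.log ((b + j + k * W - 1 : ℕ) : ℝ) ≤ dens μ ℱ A (b + j + k * W - 1) ω * L :=
        mul_le_mul_of_nonneg_left q3 q5
      have q7 : c1 ≤ c := min_le_left _ _
      linarith) (fun j hj k hk => by
      obtain ⟨q1, q2, q3⟩ := hden j hj k hk
      have q4 := (hN1 _ q1).2
      rw [le_div_iff₀ hL0]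
      have q5 := (h01 (b + j + k * W - 1)).1
      have q6 : dens μ ℱ A (b + j + k * W - 1) ω * (L / 2) ≤ dens μ ℱ A (b + j + k * W - 1) ω * Real.log ((b + j + k * W - 1 : ℕ) : ℝ) :=
        mul_le_mul_of_nonneg_left q2 q5
      linarith) (fun j hj => he b (by omega) (by omega) H hHS j (by omega)) (s + 1) le_rfl
  have hfil : H.filter (fun h => h < s + 1) = H := by
    rw [Finset.filter_true_of_mem]
    intro h hh
    exact Finset.mem_range.1 (hH hh)
  rw [hfil] at key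
  have hcount := Tp_card (A := A) (ω := ω) (M := M) (s := s) (x := x) H hW (by omega : 1 ≤ b) hsum
  refine le_trans ?_ (key.trans hcount)
  -- the estimate
  have hpl := pow_low (c := c1) (δ := δ) (C := 0) hc10 hδ0 hδ1 hxp hL0 hLL t1 hcard
  rw [← hL] at hpl
  have hc2 : c1 / L / 2 = c1 / ((((0 : ℕ) : ℝ) + 2) * L) := by
    push_cast
    field_simp
    ring
  rw [hc2]
  set P := (c1 / ((((0 : ℕ) : ℝ) + 2) * L)) ^ H.card with hP
  have hP0 : 0 ≤ P := by positivity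
  set q := 1 - 3 / 2 * (2 * C / L) with hq
  have hqe : Real.exp (-(δ / 16 * L)) ≤ q ^ (s + 1) := by
    have y0 : 0 ≤ 3 * C / L := by positivity
    have y1 : (1 + 1) * (3 * C / L) ≤ 1 := by
      rw [show (1 + 1) * (3 * C / L) = 6 * C / L by ring, div_le_one hL0]
      exact hL6
    have h1 := one_sub_ge_exp y0 zero_le_one y1
    have e1 : q = 1 - 3 * C / L := by rw [hq]; ring
    rw [e1]
    refine le_trans ?_ (pow_le_pow_left₀ (Real.exp_pos _).le h1 (s + 1))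
    rw [← Real.exp_nat_mul]
    apply Real.exp_le_exp.2
    push_cast
    have h2 : ((s : ℝ) + 1) * (6 * C / L) ≤ δ / 16 * L := by
      have h3 : (s : ℝ) * (6 * C / L) ≤ δ / 32 * L := by
        calc (s : ℝ) * (6 * C / L) ≤ (δ / (192 * (C + 1)) * L ^ 2) * (6 * C / L) := mul_le_mul_of_nonneg_right hs2 (by positivity)
          _ = δ / 32 * L * (C / (C + 1)) := by field_simp; ring
          _ ≤ δ / 32 * L * 1 := mul_le_mul_of_nonneg_left (by rw [div_le_one (by linarith)]; linarith) (by positivity)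
          _ = _ := mul_one _
      have h4 : 6 * C / L ≤ δ / 32 * L := by
        rw [div_le_iff₀ hL0]
        rw [div_le_iff₀ hδ0] at hLδ
        nlinarith
      linarith
    have e3 : ((s : ℝ) + 1) * (-((1 + 1) * (3 * C / L))) = -(((s : ℝ) + 1) * (6 * C / L)) := by ring
    rw [e3]
    linarith
  have hMr : (x : ℝ) / (8 * W) ≤ M := by
    rw [div_le_iff₀ (by positivity)]
    have h1 : (x : ℝ) < 4 * W * (M + 1) := by exact_mod_cast hM2
    have h2 : 8 * (W : ℝ) ≤ x := by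
      have : (0 : ℝ) ≤ L ^ 2 := by positivity
      linarith
    linarith
  have hmain : 2 * (x : ℝ) ^ (δ / 2) ≤ (M : ℝ) * P * q ^ (s + 1) := by
    have h1 : (x : ℝ) / (8 * W) * P * Real.exp (-(δ / 16 * L)) ≤ (M : ℝ) * P * q ^ (s + 1) := by gcongr
    refine le_trans ?_ h1
    have h2 : Real.exp (-(δ / 16 * L)) = (x : ℝ) ^ (-(δ / 16)) := by
      rw [Real.rpow_def_of_pos hxp, ← hL]
      congr 1
      ring
    rw [h2]
    have h3 : (x : ℝ) / (8 * W) * P * (x : ℝ) ^ (-(δ / 16)) = (x * P) * (x : ℝ) ^ (-(δ / 16)) / (8 * W) := by ring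
    rw [h3, le_div_iff₀ (by positivity)]
    calc 2 * (x : ℝ) ^ (δ / 2) * (8 * W) = (x : ℝ) ^ (δ / 2) * (16 * W) := by ring
      _ ≤ (x : ℝ) ^ (δ / 2) * (x : ℝ) ^ (3 * δ / 16) := mul_le_mul_of_nonneg_left t2 (by positivity)
      _ = (x : ℝ) ^ (3 * δ / 4) * (x : ℝ) ^ (-(δ / 16)) := by
        rw [← Real.rpow_add hxp, ← Real.rpow_add hxp]
        congr 1
        ring
      _ ≤ (x * P) * (x : ℝ) ^ (-(δ / 16)) := mul_le_mul_of_nonneg_right hpl (by positivity)
  have herr : 2 * (3 * L ^ 2) * ((s + 1 : ℕ) : ℝ) ≤ (x : ℝ) ^ (δ / 2) := by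
    refine le_trans ?_ t3
    push_cast
    have h1 : (s : ℝ) + 1 ≤ 2 * L ^ 2 := by
      have : (1 : ℝ) ≤ L ^ 2 := one_le_pow₀ hL1
      linarith
    calc 2 * (3 * L ^ 2) * ((s : ℝ) + 1) ≤ 2 * (3 * L ^ 2) * (2 * L ^ 2) := mul_le_mul_of_nonneg_left h1 (by positivity)
      _ = _ := by ring
  linarith

end Pool.Agent.N893.SM
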