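import Mathlib
import Pool.Agent.N893.SM.K3

set_option autoImplicit false
set_option linter.unusedSectionVars false
set_option linter.unusedVariables false

/-! # Runs of consecutive chosen integers in arithmetic progression: the upper bound -/

open MeasureTheory Filter Set
open scoped ENNReal Topology

namespace Pool.Agent.N893.SM

open Pool.Agent.R528.RM

variable {Ω : Type} {m0 : MeasurableSpace Ω} {μ : Measure Ω} [IsProbabilityMeasure μ]
  {ℱ : Filtration ℕ m0} {A : ℕ → Set Ω}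

/-- the number of terms -/
noncomputable def Kl (δ : ℝ) (l : ℕ) : ℕ := ⌈(1 + δ) * (Real.log l / Real.log (Real.log l))⌉₊

theorem errR (hA : ∀ n, MeasurableSet[ℱ n] (A n)) {δ : ℝ} (hδ : 0 < δ) :
    ∀ᵐ ω ∂μ, ∀ᶠ l : ℕ in atTop, ∀ d : ℕ, 1 ≤ d → (d : ℝ) ≤ (l : ℝ) ^ (δ / 4) → (Kl δ l - 1) * d < l →
      GA μ ℱ A (Real.log (Real.log l)) d (Kl δ l) (l - (Kl δ l - 1) * d) ω < (1 + δ / 2) * Real.log l := by
  set Bad : ℕ → Set Ω := fun l => ⋃ d ∈ (Finset.Icc 1 ⌊(l : ℝ) ^ (δ / 4)⌋₊).filter (fun d => (Kl δ l - 1) * d < l),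
    {ω | (1 + δ / 2) * Real.log l ≤ GA μ ℱ A (Real.log (Real.log l)) d (Kl δ l) (l - (Kl δ l - 1) * d) ω} with hBad
  have hsum : Summable (fun n : ℕ => ((n : ℝ) ^ (1 + δ / 4))⁻¹) := Real.summable_nat_rpow_inv.2 (by linarith)
  have hb : ∀ᶠ n in atTop, μ.real (Bad n) ≤ ((n : ℝ) ^ (1 + δ / 4))⁻¹ := by
    filter_upwards [eventually_ge_atTop 1] with l hl
    have hl0 : (0 : ℝ) < l := by exact_mod_cast hl
    have h1 : ∀ d ∈ (Finset.Icc 1 ⌊(l : ℝ) ^ (δ / 4)⌋₊).filter (fun d => (Kl δ l - 1) * d < l),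
        μ.real {ω | (1 + δ / 2) * Real.log l ≤ GA μ ℱ A (Real.log (Real.log l)) d (Kl δ l) (l - (Kl δ l - 1) * d) ω} ≤
          ((l : ℝ) ^ (1 + δ / 2))⁻¹ := by
      intro d hd
      obtain ⟨h1, h2⟩ := Finset.mem_filter.1 hd
      have := GA_tail (μ := μ) hA (Real.log (Real.log l)) (Finset.mem_Icc.1 h1).1 (show 1 ≤ l - (Kl δ l - 1) * d by omega) (Kl δ l)
        ((1 + δ / 2) * Real.log l)
      rwa [exp_log_rpow hl] at this
    refine (measureReal_biUnion_finset_le _ _).trans ((Finset.sum_le_sum h1).trans ?_)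
    rw [Finset.sum_const, nsmul_eq_mul]
    have h2 : (((Finset.Icc 1 ⌊(l : ℝ) ^ (δ / 4)⌋₊).filter (fun d => (Kl δ l - 1) * d < l)).card : ℝ) ≤ (l : ℝ) ^ (δ / 4) := by
      have f2 := Finset.card_filter_le (Finset.Icc 1 ⌊(l : ℝ) ^ (δ / 4)⌋₊) (fun d => (Kl δ l - 1) * d < l)
      rw [Nat.card_Icc, Nat.add_sub_cancel] at f2
      calc _ ≤ (⌊(l : ℝ) ^ (δ / 4)⌋₊ : ℝ) := by exact_mod_cast f2
        _ ≤ _ := Nat.floor_le (by positivity)
    calc _ ≤ (l : ℝ) ^ (δ / 4) * ((l : ℝ) ^ (1 + δ / 2))⁻¹ := mul_le_mul_of_nonneg_right h2 (by positivity)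
      _ = ((l : ℝ) ^ (1 + δ / 4))⁻¹ := by
        rw [← Real.rpow_neg hl0.le, ← Real.rpow_neg hl0.le, ← Real.rpow_add hl0]
        congr 1
        ring
  filter_upwards [bc_real (μ := μ) hsum hb] with ω hω
  filter_upwards [hω] with l hl d hd1 hd2 hd3
  by_contra hcon
  apply hl
  simp only [hBad, Set.mem_iUnion]
  exact ⟨d, Finset.mem_filter.2 ⟨Finset.mem_Icc.2 ⟨hd1, Nat.le_floor hd2⟩, hd3⟩, not_lt.1 hcon⟩

/-- no long runs with small difference -/
lemma no_run {ω : Ω} (h01 : ∀ n, 0 ≤ dens μ ℱ A n ω ∧ dens μ ℱ A n ω ≤ 1) {C : ℝ} (hC : 0 ≤ C)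
    (hup : ∀ᶠ n : ℕ in atTop, dens μ ℱ A n ω * Real.log n ≤ C) {δ : ℝ} (hδ0 : 0 < δ) (hδ1 : δ < 1)
    (he : ∀ᶠ l : ℕ in atTop, ∀ d : ℕ, 1 ≤ d → (d : ℝ) ≤ (l : ℝ) ^ (δ / 4) → (Kl δ l - 1) * d < l →
      GA μ ℱ A (Real.log (Real.log l)) d (Kl δ l) (l - (Kl δ l - 1) * d) ω < (1 + δ / 2) * Real.log l) :
    ∀ᶠ l : ℕ in atTop, ∀ d : ℕ, 1 ≤ d → (d : ℝ) ≤ (l : ℝ) ^ (δ / 4) → (Kl δ l - 1) * d < l →
      ∃ i < Kl δ l, ω ∉ A (l - i * d) := by
  obtain ⟨N1, hN1⟩ := eventually_atTop.1 hup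
  have ll : Tendsto (fun x : ℕ => Real.log (Real.log (x : ℝ))) atTop atTop := Real.tendsto_log_atTop.comp tendsto_log
  have t1 : ∀ᶠ l : ℕ in atTop, 12 * Real.log (l : ℝ) ≤ (l : ℝ) ^ (1 / 2 : ℝ) := by
    have h := (((isLittleO_log_rpow_atTop (show (0 : ℝ) < 1 / 2 by norm_num)).bound (show (0 : ℝ) < 1 / 12 by norm_num)).natCast_atTop)
    filter_upwards [h, tendsto_log.eventually_ge_atTop 1] with x hx hlog
    rw [Real.norm_eq_abs, Real.norm_eq_abs, abs_of_nonneg (by positivity), abs_of_nonneg (by positivity)] at hx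
    linarith
  filter_upwards [he, t1, ll.eventually_ge_atTop 1, ll.eventually_ge_atTop (4 * C * (1 + δ) / δ), tendsto_log.eventually_ge_atTop 1,
    eventually_ge_atTop (2 * N1 + 16)] with l he t1 hLL hLLC hL1 hl d hd1 hd2 hd3
  have g := he d hd1 hd2 hd3
  by_contra hcon
  push Not at hcon
  set L := Real.log (l : ℝ) with hL
  set θ := Real.log L with hθ
  set K := Kl δ l with hK
  have hL0 : 0 < L := by linarith
  have hθ0 : 0 < θ := by linarith
  have hlr : (16 : ℝ) ≤ l := by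
    have : 16 ≤ l := by omega
    exact_mod_cast this
  have hlp : (0 : ℝ) < l := by linarith
  have hK1 : (1 + δ) * (L / θ) ≤ K := Nat.le_ceil _
  have hK2 : (K : ℝ) < (1 + δ) * (L / θ) + 1 := Nat.ceil_lt_add_one (by positivity)
  have hK3 : (K : ℝ) ≤ 3 * L := by
    have h1 : L / θ ≤ L := div_le_self hL0.le hLL
    have h2 : (1 + δ) * (L / θ) ≤ 2 * L := by
      have h3 : (1 + δ) * (L / θ) ≤ (1 + δ) * L := mul_le_mul_of_nonneg_left h1 (by linarith)
      nlinarith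
    linarith
  have hKd : (K : ℝ) * d ≤ l / 4 := by
    have h1 : (l : ℝ) ^ (δ / 4) ≤ (l : ℝ) ^ (1 / 2 : ℝ) := Real.rpow_le_rpow_of_exponent_le (by linarith) (by linarith)
    have h2 : (l : ℝ) ^ (1 / 2 : ℝ) * (l : ℝ) ^ (1 / 2 : ℝ) = l := by
      rw [← Real.rpow_add hlp]
      norm_num
    calc (K : ℝ) * d ≤ (3 * L) * (l : ℝ) ^ (1 / 2 : ℝ) := mul_le_mul hK3 (hd2.trans h1) (by positivity) (by positivity)
      _ ≤ ((l : ℝ) ^ (1 / 2 : ℝ) / 4) * (l : ℝ) ^ (1 / 2 : ℝ) := mul_le_mul_of_nonneg_right (by linarith) (by positivity)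
      _ = l / 4 := by rw [div_mul_eq_mul_div, h2]
  set a := l - (K - 1) * d with ha
  have hKpos : 1 ≤ K := by
    have : (0 : ℝ) < K := lt_of_lt_of_le (by positivity) hK1
    exact_mod_cast this
  have hpos : ∀ k < K, a + k * d = l - (K - 1 - k) * d ∧ l ≤ 2 * (a + k * d - 1) + 1 ∧ a + k * d ≤ l := by
    intro k hk
    have h1 : (K - 1) * d = (K - 1 - k) * d + k * d := by
      rw [← add_mul]
      congr 1
      omega
    have h2 : 4 * ((K - 1) * d) ≤ l := by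
      have h3 : (K - 1) * d ≤ K * d := Nat.mul_le_mul_right _ (by omega)
      have h4 : 4 * (K * d) ≤ l := by
        have : 4 * ((K : ℝ) * d) ≤ l := by linarith
        exact_mod_cast this
      omega
    refine ⟨by omega, by omega, by omega⟩
  have hall : ∀ k < K, ω ∈ A (a + k * d) := by
    intro k hk
    rw [(hpos k hk).1]
    exact hcon _ (by omega)
  have hD : ∀ k < K, dens μ ℱ A (a + k * d - 1) ω ≤ 2 * C / L := by
    intro k hk
    obtain ⟨_, p1, p2⟩ := hpos k hk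
    set v := a + k * d - 1 with hv
    have hv1 : (l : ℝ) ≤ 2 * v + 1 := by exact_mod_cast p1
    have hv0 : (0 : ℝ) < v := by linarith
    have h1 : (l : ℝ) ≤ (v : ℝ) ^ 2 := by nlinarith
    have h2 := Real.log_le_log hlp h1
    rw [Real.log_pow] at h2
    push_cast at h2
    have h3 := hN1 v (by omega)
    rw [le_div_iff₀ hL0]
    have q5 := (h01 v).1
    have q6 : dens μ ℱ A v ω * (L / 2) ≤ dens μ ℱ A v ω * Real.log (v : ℝ) := mul_le_mul_of_nonneg_left (by linarith) q5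
    linarith
  have hG : K * (θ - 2 * C) ≤ GA μ ℱ A θ d K a ω := by
    unfold GA Gx
    have h1 : ∀ k ∈ Finset.range K, θ - 2 * C ≤ (1 : ℝ) * (θ * In A (a + k * d) ω - (Real.exp θ - 1) * dens μ ℱ A (a + k * d - 1) ω) := by
      intro k hk
      rw [Finset.mem_range] at hk
      have h2 : In A (a + k * d) ω = 1 := by
        unfold In
        rw [indicator_of_mem (hall k hk)]
      rw [h2, hθ, Real.exp_log hL0, ← hθ]
      have h3 : (L - 1) * dens μ ℱ A (a + k * d - 1) ω ≤ (L - 1) * (2 * C / L) := mul_le_mul_of_nonneg_left (hD k hk) (by linarith)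
      have h4 : (L - 1) * (2 * C / L) ≤ L * (2 * C / L) := mul_le_mul_of_nonneg_right (by linarith) (by positivity)
      have h5 : L * (2 * C / L) = 2 * C := by field_simp
      linarith
    have h2 := Finset.card_nsmul_le_sum _ _ _ h1
    rw [Finset.card_range, nsmul_eq_mul] at h2
    exact h2
  have h5 : K * (θ - 2 * C) < (1 + δ / 2) * L := lt_of_le_of_lt hG g
  have h6 : 4 * C * (1 + δ) ≤ δ * θ := by
    rw [div_le_iff₀ hδ0] at hLLC
    linarith
  have h7 : 0 ≤ θ - 2 * C := by nlinarith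
  have h8 : (1 + δ) * (L / θ) * (θ - 2 * C) ≤ K * (θ - 2 * C) := mul_le_mul_of_nonneg_right hK1 h7
  have h9 : (1 + δ) * (L / θ) * (θ - 2 * C) = (1 + δ) * L - (1 + δ) * (2 * C) * (L / θ) := by field_simp
  have h10 : (1 + δ) * (2 * C) * (L / θ) ≤ δ / 2 * L := by
    have : (1 + δ) * (2 * C) ≤ δ / 2 * θ := by linarith
    calc (1 + δ) * (2 * C) * (L / θ) ≤ δ / 2 * θ * (L / θ) := mul_le_mul_of_nonneg_right this (by positivity)
      _ = _ := by field_simp
  linarith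

/-- the start -/
noncomputable def ag (κ : ℝ) (W l : ℕ) : ℕ := W * ((l - ⌊(l : ℝ) ^ κ⌋₊) / W) + W + 1

theorem errG (hA : ∀ n, MeasurableSet[ℱ n] (A n)) (κ : ℝ) {W : ℕ} (hW : 1 ≤ W) :
    ∀ᵐ ω ∂μ, ∀ᶠ l : ℕ in atTop, GA μ ℱ A (-1) W (⌊(l : ℝ) ^ κ⌋₊ / (2 * W)) (ag κ W l) ω < 2 * Real.log l := by
  have hsum : Summable (fun n : ℕ => ((n : ℝ) ^ (2 : ℝ))⁻¹) := Real.summable_nat_rpow_inv.2 (by norm_num)
  have hb : ∀ᶠ n : ℕ in atTop, μ.real {ω | 2 * Real.log n ≤ GA μ ℱ A (-1) W (⌊(n : ℝ) ^ κ⌋₊ / (2 * W)) (ag κ W n) ω} ≤ ((n : ℝ) ^ (2 : ℝ))⁻¹ := by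
    filter_upwards [eventually_ge_atTop 1] with l hl
    have := GA_tail (μ := μ) hA (-1) hW (show 1 ≤ ag κ W l by unfold ag; omega) (⌊(l : ℝ) ^ κ⌋₊ / (2 * W)) (2 * Real.log l)
    rwa [exp_log_rpow hl] at this
  filter_upwards [bc_real (μ := μ) hsum hb] with ω hω
  filter_upwards [hω] with l hl
  by_contra hcon
  exact hl (not_lt.1 hcon)

/-- no long gaps -/
lemma no_gap {ω : Ω} (h01 : ∀ n, 0 ≤ dens μ ℱ A n ω ∧ dens μ ℱ A n ω ≤ 1) {W : ℕ} (hW : 1 ≤ W) {c : ℝ} (hc : 0 < c)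
    (hlow : ∀ᶠ n : ℕ in atTop, (n + 1).Coprime W → c ≤ dens μ ℱ A n ω * Real.log n) {κ : ℝ} (hκ0 : 0 < κ) (hκ1 : κ < 1)
    (he : ∀ᶠ l : ℕ in atTop, GA μ ℱ A (-1) W (⌊(l : ℝ) ^ κ⌋₊ / (2 * W)) (ag κ W l) ω < 2 * Real.log l) :
    ∀ᶠ l : ℕ in atTop, ∃ v : ℕ, l - ⌊(l : ℝ) ^ κ⌋₊ < v ∧ v < l ∧ ω ∈ A v := by
  obtain ⟨N1, hN1⟩ := eventually_atTop.1 hlow
  have hWr : (1 : ℝ) ≤ W := by exact_mod_cast hW
  have t0 : Tendsto (fun l : ℕ => (l : ℝ) ^ κ) atTop atTop := (tendsto_rpow_atTop hκ0).comp tendsto_natCast_atTop_atTop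
  have t1 : ∀ᶠ l : ℕ in atTop, 16 * W / c * Real.log (l : ℝ) ^ 2 + 4 * W ≤ (l : ℝ) ^ κ := by
    have h := (((isLittleO_log_rpow_rpow_atTop (s := κ) 2 hκ0).bound (show (0 : ℝ) < 1 / (32 * W / c) by positivity)).natCast_atTop)
    filter_upwards [h, tendsto_log.eventually_ge_atTop 1, t0.eventually_ge_atTop (8 * W)] with x hx hlog hx2
    rw [Real.norm_eq_abs, Real.norm_eq_abs, abs_of_nonneg (by positivity), abs_of_nonneg (by positivity)] at hx
    have e1 : Real.log (x : ℝ) ^ (2 : ℝ) = Real.log (x : ℝ) ^ 2 := by exact_mod_cast Real.rpow_natCast (Real.log (x : ℝ)) 2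
    rw [e1, div_mul_eq_mul_div, one_mul, le_div_iff₀ (by positivity)] at hx
    have e2 : 16 * W / c * Real.log (x : ℝ) ^ 2 = Real.log (x : ℝ) ^ 2 * (32 * W / c) / 2 := by ring
    rw [e2]
    linarith
  have t2 : ∀ᶠ l : ℕ in atTop, (l : ℝ) ^ κ ≤ 1 / 2 * l := by
    have h : Tendsto (fun l : ℕ => (l : ℝ) ^ (1 - κ)) atTop atTop := (tendsto_rpow_atTop (by linarith)).comp tendsto_natCast_atTop_atTop
    filter_upwards [h.eventually_ge_atTop 2, eventually_gt_atTop 0] with x hx hx0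
    have hxr : (0 : ℝ) < x := by exact_mod_cast hx0
    have e : (x : ℝ) ^ κ * (x : ℝ) ^ (1 - κ) = x := by
      rw [← Real.rpow_add hxr]
      simp
    have h3 : (x : ℝ) ^ κ * 2 ≤ (x : ℝ) ^ κ * (x : ℝ) ^ (1 - κ) := mul_le_mul_of_nonneg_left hx (by positivity)
    linarith
  filter_upwards [he, t1, t2, tendsto_log.eventually_ge_atTop 1, eventually_ge_atTop (2 * N1 + 16)] with l he t1 t2 hL1 hl
  by_contra hcon
  push Not at hcon
  set G := ⌊(l : ℝ) ^ κ⌋₊ with hG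
  set L := Real.log (l : ℝ) with hL
  have hL0 : 0 < L := by linarith
  have hG1 : (G : ℝ) ≤ (l : ℝ) ^ κ := Nat.floor_le (by positivity)
  have hG2 : (l : ℝ) ^ κ < G + 1 := Nat.lt_floor_add_one _
  have hGl : 2 * G ≤ l := by
    have : 2 * (G : ℝ) ≤ l := by linarith
    exact_mod_cast this
  have hG4 : 4 ≤ G := by
    have h1 : (0 : ℝ) ≤ 16 * W / c * L ^ 2 := by positivity
    have h2 : (3 : ℝ) < G := by linarith
    exact_mod_cast h2
  set J := G / (2 * W) with hJ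
  have hJ1 : 2 * W * J ≤ G := Nat.mul_div_le G (2 * W)
  have hJ2 : G < 2 * W * (J + 1) := Nat.lt_mul_div_succ G (by omega)
  set u := (l - G) / W with hu
  have hu1 : W * u ≤ l - G := Nat.mul_div_le (l - G) W
  have hu2 : l - G < W * (u + 1) := Nat.lt_mul_div_succ (l - G) (by omega)
  have hag : ag κ W l = W * u + W + 1 := rfl
  have hpos : ∀ k < J, l - G < ag κ W l + k * W ∧ ag κ W l + k * W < l := by
    intro k hk
    rw [hag]
    have e1 : W * (u + 1) = W * u + W := by ring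
    have e2 : (k + 1) * W ≤ J * W := Nat.mul_le_mul_right _ hk
    have e3 : (k + 1) * W = k * W + W := by ring
    have e4 : 2 * W * J = 2 * (J * W) := by ring
    constructor <;> omega
  have hD : ∀ k < J, c / L ≤ dens μ ℱ A (ag κ W l + k * W - 1) ω := by
    intro k hk
    obtain ⟨p1, p2⟩ := hpos k hk
    set v := ag κ W l + k * W - 1 with hv
    have hcop : (v + 1).Coprime W := by
      have e1 : v + 1 = 1 + W * (u + 1 + k) := by
        have : W * (u + 1 + k) = W * u + W + k * W := by ring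
        rw [hv, hag]
        omega
      rw [e1]
      simp
    have h1 := hN1 v (by omega) hcop
    have hv1 : (v : ℝ) ≤ l := by
      have : v ≤ l := by omega
      exact_mod_cast this
    have hv0 : (0 : ℝ) < v := by
      have : 0 < v := by omega
      exact_mod_cast this
    rw [div_le_iff₀ hL0]
    exact h1.trans (mul_le_mul_of_nonneg_left (Real.log_le_log hv0 hv1) (h01 v).1)
  have hexp : Real.exp (-1) ≤ 1 / 2 := by
    rw [Real.exp_neg, ← one_div]
    refine one_div_le_one_div_of_le (by norm_num) ?_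
    have := Real.add_one_le_exp (1 : ℝ)
    linarith
  have hGA : J * (c / L / 2) ≤ GA μ ℱ A (-1) W J (ag κ W l) ω := by
    unfold GA Gx
    have h1 : ∀ k ∈ Finset.range J, c / L / 2 ≤ (1 : ℝ) * (-1 * In A (ag κ W l + k * W) ω - (Real.exp (-1) - 1) * dens μ ℱ A (ag κ W l + k * W - 1) ω) := by
      intro k hk
      rw [Finset.mem_range] at hk
      obtain ⟨p1, p2⟩ := hpos k hk
      have h2 : In A (ag κ W l + k * W) ω = 0 := by
        unfold In
        rw [indicator_of_notMem (hcon _ p1 p2)]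
      rw [h2]
      have h3 := hD k hk
      have h4 := (h01 (ag κ W l + k * W - 1)).1
      nlinarith
    have h2 := Finset.card_nsmul_le_sum _ _ _ h1
    rw [Finset.card_range, nsmul_eq_mul] at h2
    exact h2
  have h1 : J * (c / L / 2) < 2 * L := lt_of_le_of_lt hGA he
  have h2 : (J : ℝ) * c < 4 * L ^ 2 := by
    have e : (J : ℝ) * (c / L / 2) = J * c / (2 * L) := by field_simp
    rw [e, div_lt_iff₀ (by positivity)] at h1
    nlinarith
  have h3 : (G : ℝ) < 2 * W * (J + 1) := by exact_mod_cast hJ2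
  have h4 : 16 * W / c * L ^ 2 < 2 * W * J := by
    have : (0 : ℝ) < W := by linarith
    nlinarith
  have h5 : 2 * W * J * c < 8 * W * L ^ 2 := by
    have : (0 : ℝ) < W := by linarith
    nlinarith
  have h6 : 16 * W / c * L ^ 2 * c < 2 * W * J * c := mul_lt_mul_of_pos_right h4 hc
  have h7 : 16 * W / c * L ^ 2 * c = 16 * W * L ^ 2 := by field_simp
  have h8 : 0 ≤ (W : ℝ) * L ^ 2 := by positivity
  linarith

/-- **the upper bound for runs** -/
theorem run_up {ω : Ω} {δ : ℝ} (hδ0 : 0 < δ) (hδ1 : δ < 1)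
    (h1 : ∀ᶠ l : ℕ in atTop, ∀ d : ℕ, 1 ≤ d → (d : ℝ) ≤ (l : ℝ) ^ (δ / 4) → (Kl δ l - 1) * d < l →
      ∃ i < Kl δ l, ω ∉ A (l - i * d))
    (h2 : ∀ᶠ l : ℕ in atTop, ∃ v : ℕ, l - ⌊(l : ℝ) ^ (δ / 4)⌋₊ < v ∧ v < l ∧ ω ∈ A v) :
    ∀ᶠ x : ℕ in atTop, ∀ n d k : ℕ, 1 ≤ n → 1 ≤ d → n + (k - 1) * d ≤ x →
      (∀ j ≤ (k - 1) * d, (ω ∈ A (n + j) ↔ d ∣ j)) → (k : ℝ) ≤ (1 + δ) * (Real.log x / Real.log (Real.log x)) := by
  obtain ⟨l0, hl0⟩ := eventually_atTop.1 ((h1.and h2).and (tendsto_log.eventually_ge_atTop (Real.exp 1)))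
  have ll : Tendsto (fun x : ℕ => Real.log (Real.log (x : ℝ))) atTop atTop := Real.tendsto_log_atTop.comp tendsto_log
  have lr : Tendsto (fun x : ℕ => Real.log (x : ℝ) / Real.log (Real.log (x : ℝ))) atTop atTop := by
    have h3 : Tendsto (fun y : ℝ => y / Real.log y) atTop atTop := by
      have h4 : Tendsto (fun y : ℝ => Real.log y / y) atTop (𝓝[>] 0) := by
        refine tendsto_nhdsWithin_iff.2 ⟨?_, ?_⟩
        · exact Real.isLittleO_log_id_atTop.tendsto_div_nhds_zero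
        · filter_upwards [eventually_gt_atTop 1] with y hy
          exact div_pos (Real.log_pos hy) (by linarith)
      refine (h4.inv_tendsto_nhdsGT_zero).congr fun y => ?_
      rw [Pi.inv_apply, inv_div]
    exact h3.comp tendsto_log
  filter_upwards [lr.eventually_ge_atTop (l0 + 2), eventually_ge_atTop 3] with x hx hx3 n d k hn hd hnx hrun
  by_contra hcon
  push Not at hcon
  set R := Real.log (x : ℝ) / Real.log (Real.log (x : ℝ)) with hR
  have hl00 : (0 : ℝ) ≤ l0 := Nat.cast_nonneg l0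
  have hR0 : 0 ≤ R := by linarith
  have hk1 : (l0 : ℝ) + 2 < k := by nlinarith
  have hk2 : l0 + 2 < k := by exact_mod_cast hk1
  set l := n + (k - 1) * d with hl
  have hkl : k - 1 ≤ (k - 1) * d := Nat.le_mul_of_pos_right _ (by omega)
  have hll : l0 ≤ l := by omega
  obtain ⟨⟨g1, g2⟩, g3⟩ := hl0 l hll
  have hlx : (l : ℝ) ≤ x := by exact_mod_cast hnx
  have hlpos : (0 : ℝ) < l := by
    have : 0 < l := by omega
    exact_mod_cast this
  have hloglx : Real.log (l : ℝ) ≤ Real.log x := Real.log_le_log hlpos hlx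
  have he1 : (1 : ℝ) < Real.exp 1 := by
    have := Real.add_one_le_exp (1 : ℝ)
    linarith
  have hmono : Real.log (l : ℝ) / Real.log (Real.log (l : ℝ)) ≤ R := by
    have h3 := Real.log_div_self_antitoneOn (a := Real.log (l : ℝ)) g3 (b := Real.log (x : ℝ)) (g3.trans hloglx) hloglx
    simp only at h3
    have p1 : 0 < Real.log (Real.log (l : ℝ)) := Real.log_pos (by linarith)
    have p2 : 0 < Real.log (Real.log (x : ℝ)) := Real.log_pos (by linarith)
    rw [div_le_div_iff₀ (by linarith) (by linarith)] at h3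
    rw [hR, div_le_div_iff₀ p1 p2]
    linarith
  have hKk : Kl δ l ≤ k := by
    unfold Kl
    refine Nat.ceil_le.2 ?_
    have : (1 + δ) * (Real.log (l : ℝ) / Real.log (Real.log (l : ℝ))) ≤ (1 + δ) * R := mul_le_mul_of_nonneg_left hmono (by linarith)
    linarith
  by_cases hdl : (d : ℝ) ≤ (l : ℝ) ^ (δ / 4)
  · have hlt : (Kl δ l - 1) * d < l := by
      have : (Kl δ l - 1) * d ≤ (k - 1) * d := Nat.mul_le_mul_right _ (by omega)
      omega
    obtain ⟨i, hi, hi2⟩ := g1 d hd hdl hlt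
    apply hi2
    have e1 : (k - 1) * d = (k - 1 - i) * d + i * d := by
      rw [← add_mul]
      congr 1
      omega
    have e2 : l - i * d = n + (k - 1 - i) * d := by omega
    rw [e2]
    exact (hrun _ (by omega)).2 (Nat.dvd_mul_left d _)
  · push Not at hdl
    obtain ⟨v, hv1, hv2, hv3⟩ := g2
    have hGd : ⌊(l : ℝ) ^ (δ / 4)⌋₊ ≤ d := by
      have h3 : (⌊(l : ℝ) ^ (δ / 4)⌋₊ : ℝ) ≤ (l : ℝ) ^ (δ / 4) := Nat.floor_le (by positivity)
      have h4 : (⌊(l : ℝ) ^ (δ / 4)⌋₊ : ℝ) ≤ d := h3.trans hdl.le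
      exact_mod_cast h4
    have e1 : (k - 1) * d = (k - 2) * d + d := by
      have : k - 1 = (k - 2) + 1 := by omega
      rw [this]
      ring
    obtain ⟨j, rfl⟩ : ∃ j, v = n + j := ⟨v - n, by omega⟩
    have hj1 : (k - 2) * d < j := by omega
    have hj2 : j < (k - 2) * d + d := by omega
    obtain ⟨q, rfl⟩ := (hrun j (by omega)).1 hv3
    rw [mul_comm d q] at hj1 hj2
    have e2 : (k - 2) * d + d = (k - 2 + 1) * d := by ring
    rw [e2] at hj2
    have f1 := lt_of_mul_lt_mul_right hj1 (Nat.zero_le d)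
    have f2 := lt_of_mul_lt_mul_right hj2 (Nat.zero_le d)
    omega

end Pool.Agent.N893.SM
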