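import Mathlib
import Pool.Agent.N893.SM.K1

set_option autoImplicit false
set_option linter.unusedSectionVars false
set_option linter.unusedVariables false

/-! # Patterns of consecutive decisions: two-sided comparison -/

open MeasureTheory Filter Set
open scoped ENNReal Topology

namespace Pool.Agent.N893.SM

open Pool.Agent.R528.RM

variable {Ω : Type} {m0 : MeasurableSpace Ω} {μ : Measure Ω} [IsProbabilityMeasure μ]
  {ℱ : Filtration ℕ m0} {A : ℕ → Set Ω}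

/-- the model factors -/
noncomputable def mw (ρ : ℕ → ℝ) (H : Finset ℕ) (s n j : ℕ) : ℝ :=
  ∏ i ∈ Finset.Ico j (s + 1), if i ∈ H then ρ (n + i) else 1 - ρ (n + i)

lemma mw01 {ρ : ℕ → ℝ} (hρ : ∀ n, 0 ≤ ρ n ∧ ρ n ≤ 1) (H : Finset ℕ) (s n j : ℕ) : 0 ≤ mw ρ H s n j ∧ mw ρ H s n j ≤ 1 := by
  unfold mw
  have h : ∀ i ∈ Finset.Ico j (s + 1), 0 ≤ (if i ∈ H then ρ (n + i) else 1 - ρ (n + i)) ∧
      (if i ∈ H then ρ (n + i) else 1 - ρ (n + i)) ≤ 1 := by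
    intro i _
    have h1 := hρ (n + i)
    split_ifs <;> constructor <;> linarith
  exact ⟨Finset.prod_nonneg fun k hk => (h k hk).1, Finset.prod_le_one (fun k hk => (h k hk).1) fun k hk => (h k hk).2⟩

lemma mw_bot (ρ : ℕ → ℝ) (H : Finset ℕ) {s n j : ℕ} (hj : j ≤ s) :
    mw ρ H s n j = (if j ∈ H then ρ (n + j) else 1 - ρ (n + j)) * mw ρ H s n (j + 1) := by
  unfold mw
  rw [Finset.prod_eq_prod_Ico_succ_bot (by omega)]

lemma mw_top (ρ : ℕ → ℝ) (H : Finset ℕ) (s n : ℕ) : mw ρ H s n (s + 1) = 1 := by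
  unfold mw
  simp

/-- the mixed sums -/
noncomputable def Us (A : ℕ → Set Ω) (ρ : ℕ → ℝ) (H : Finset ℕ) (s b M j : ℕ) (ω : Ω) : ℝ :=
  ∑ k ∈ Finset.range M, pw A H (b + k) j ω * mw ρ H s (b + k) j

/-- the exponents -/
noncomputable def GU (μ : Measure Ω) (ℱ : Filtration ℕ m0) (A : ℕ → Set Ω) (ρ : ℕ → ℝ) (θ : ℝ) (H : Finset ℕ) (s b j M : ℕ) (ω : Ω) : ℝ :=
  Gx μ ℱ A θ (fun k => b + j + k * 1) (fun k ω => pw A H (b + k) j ω * mw ρ H s (b + k) (j + 1)) M ω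

lemma GU_tail (hA : ∀ n, MeasurableSet[ℱ n] (A n)) {ρ : ℕ → ℝ} (hρ : ∀ n, 0 ≤ ρ n ∧ ρ n ≤ 1) (θ : ℝ) {b : ℕ} (hb : 1 ≤ b)
    (H : Finset ℕ) (s j M : ℕ) (t : ℝ) :
    μ.real {ω | t ≤ GU μ ℱ A ρ θ H s b j M ω} ≤ Real.exp (-t) :=
  Gx_tail hA θ (pg_mono le_rfl) (fun k => by show 1 ≤ b + j + k * 1; omega)
    (fun k => @StronglyMeasurable.mul _ _ _ _ (ℱ (b + j + k * 1 - 1)) _ _ _
      (pw_meas hA H j (by show b + k + j ≤ b + j + k * 1 - 1 + 1; omega)) stronglyMeasurable_const)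
    (fun k ω => ⟨mul_nonneg (pw01 H _ _ ω).1 (mw01 hρ H s _ _).1,
      mul_le_one₀ (pw01 H _ _ ω).2 (mw01 hρ H s _ _).1 (mw01 hρ H s _ _).2⟩) M t

/-- the events -/
theorem errL (hA : ∀ n, MeasurableSet[ℱ n] (A n)) {ρ : ℕ → ℝ} (hρ : ∀ n, 0 ≤ ρ n ∧ ρ n ≤ 1) (θ : ℝ) (bf Mf : ℕ → ℕ)
    (hbf : ∀ x, 1 ≤ bf x) :
    ∀ᵐ ω ∂μ, ∀ᶠ x : ℕ in atTop, ∀ s ≤ Sx x, ∀ H ⊆ Finset.range (Sx x + 1), ∀ j ≤ Sx x,
      GU μ ℱ A ρ θ H s (bf x) j (Mf x) ω < 3 * Real.log x ^ 2 ∧ GU μ ℱ A ρ (-θ) H s (bf x) j (Mf x) ω < 3 * Real.log x ^ 2 := by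
  classical
  set Bad : ℕ → Set Ω := fun x => ⋃ s ∈ Finset.range (Sx x + 1), ⋃ H ∈ (Finset.range (Sx x + 1)).powerset, ⋃ j ∈ Finset.range (Sx x + 1),
    ({ω | 3 * Real.log x ^ 2 ≤ GU μ ℱ A ρ θ H s (bf x) j (Mf x) ω} ∪ {ω | 3 * Real.log x ^ 2 ≤ GU μ ℱ A ρ (-θ) H s (bf x) j (Mf x) ω}) with hBad
  have hsum : Summable (fun n : ℕ => 16 * ((n : ℝ) ^ 2)⁻¹) := (Real.summable_nat_pow_inv.2 (by norm_num)).mul_left 16
  have hb : ∀ᶠ n in atTop, μ.real (Bad n) ≤ 16 * ((n : ℝ) ^ 2)⁻¹ := by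
    filter_upwards [eventually_ge_atTop 1, tendsto_log.eventually_ge_atTop (2 : ℝ),
      (((isLittleO_log_rpow_rpow_atTop (s := (1 : ℝ)) 2 one_pos).bound (show (0 : ℝ) < 1 by norm_num)).natCast_atTop)] with x hx hlog hlit
    have hx0 : (1 : ℝ) ≤ x := by exact_mod_cast hx
    have hxp : (0 : ℝ) < x := by linarith
    set L := Real.log (x : ℝ) with hL
    have hL2 : L ^ 2 ≤ x := by
      rw [Real.norm_eq_abs, Real.norm_eq_abs, Real.rpow_one, one_mul, abs_of_pos hxp, abs_of_nonneg (by positivity)] at hlit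
      exact_mod_cast hlit
    have hS : (Sx x : ℝ) ≤ L ^ 2 := Nat.floor_le (by positivity)
    have h1 : ∀ s ∈ Finset.range (Sx x + 1), ∀ H ∈ (Finset.range (Sx x + 1)).powerset, ∀ j ∈ Finset.range (Sx x + 1),
        μ.real ({ω | 3 * L ^ 2 ≤ GU μ ℱ A ρ θ H s (bf x) j (Mf x) ω} ∪
        {ω | 3 * L ^ 2 ≤ GU μ ℱ A ρ (-θ) H s (bf x) j (Mf x) ω}) ≤ 2 * Real.exp (-(3 * L ^ 2)) := by
      intro s _ H _ j _
      refine (measureReal_union_le _ _).trans ?_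
      have a1 := GU_tail (μ := μ) hA hρ θ (hbf x) H s j (Mf x) (3 * L ^ 2)
      have a2 := GU_tail (μ := μ) hA hρ (-θ) (hbf x) H s j (Mf x) (3 * L ^ 2)
      linarith
    have h2 : μ.real (Bad x) ≤ ∑ s ∈ Finset.range (Sx x + 1), ∑ H ∈ (Finset.range (Sx x + 1)).powerset, ∑ j ∈ Finset.range (Sx x + 1),
        2 * Real.exp (-(3 * L ^ 2)) :=
      (measureReal_biUnion_finset_le _ _).trans (Finset.sum_le_sum fun b hb =>
        (measureReal_biUnion_finset_le _ _).trans (Finset.sum_le_sum fun H hH =>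
        (measureReal_biUnion_finset_le _ _).trans (Finset.sum_le_sum fun j hj => h1 b hb H hH j hj)))
    refine h2.trans ?_
    rw [Finset.sum_const, Finset.sum_const, Finset.sum_const, Finset.card_powerset, Finset.card_range,
      nsmul_eq_mul, nsmul_eq_mul, nsmul_eq_mul]
    push_cast
    have e1 : (2 : ℝ) ^ (Sx x + 1) ≤ 2 * Real.exp (L ^ 2) := by
      rw [pow_succ, mul_comm]
      refine mul_le_mul_of_nonneg_left ?_ (by norm_num)
      have : (2 : ℝ) ≤ Real.exp 1 := by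
        have := Real.add_one_le_exp (1 : ℝ)
        linarith
      calc (2 : ℝ) ^ (Sx x) ≤ Real.exp 1 ^ (Sx x) := pow_le_pow_left₀ (by norm_num) this _
        _ = Real.exp (Sx x) := by rw [← Real.exp_nat_mul, mul_one]
        _ ≤ Real.exp (L ^ 2) := Real.exp_le_exp.2 hS
    have e2 : (Sx x : ℝ) + 1 ≤ 2 * x := by linarith
    have e3 : Real.exp (L ^ 2) * Real.exp (-(3 * L ^ 2)) ≤ ((x : ℝ) ^ 4)⁻¹ := by
      rw [← Real.exp_add, ← Real.exp_log hxp, ← Real.exp_nat_mul, ← Real.exp_neg]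
      apply Real.exp_le_exp.2
      rw [← hL]
      push_cast
      nlinarith
    have hE : 0 < Real.exp (-(3 * L ^ 2)) := Real.exp_pos _
    calc ((Sx x : ℝ) + 1) * (2 ^ (Sx x + 1) * (((Sx x : ℝ) + 1) * (2 * Real.exp (-(3 * L ^ 2))))) ≤
        (2 * x) * (2 * Real.exp (L ^ 2) * (2 * x * (2 * Real.exp (-(3 * L ^ 2))))) := by gcongr
      _ = 16 * (x * x) * (Real.exp (L ^ 2) * Real.exp (-(3 * L ^ 2))) := by ring
      _ ≤ 16 * (x * x) * ((x : ℝ) ^ 4)⁻¹ := mul_le_mul_of_nonneg_left e3 (by positivity)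
      _ = 16 * ((x : ℝ) ^ 2)⁻¹ := by field_simp
  filter_upwards [bc_real (μ := μ) hsum hb] with ω hω
  filter_upwards [hω] with x hx s hs H hH j hj
  constructor
  · by_contra hcon
    apply hx
    simp only [hBad, Set.mem_iUnion]
    exact ⟨s, Finset.mem_range.2 (by omega), H, Finset.mem_powerset.2 hH, j, Finset.mem_range.2 (by omega), Or.inl (not_lt.1 hcon)⟩
  · by_contra hcon
    apply hx
    simp only [hBad, Set.mem_iUnion]
    exact ⟨s, Finset.mem_range.2 (by omega), H, Finset.mem_powerset.2 hH, j, Finset.mem_range.2 (by omega), Or.inr (not_lt.1 hcon)⟩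

/-- the relative error of a step -/
noncomputable def ka (κ r : ℝ) (H : Finset ℕ) (i : ℕ) : ℝ := κ * (if i ∈ H then 1 else 2 * r)

lemma Us_nonneg {ρ : ℕ → ℝ} (hρ : ∀ n, 0 ≤ ρ n ∧ ρ n ≤ 1) (H : Finset ℕ) (s b M j : ℕ) (ω : Ω) : 0 ≤ Us A ρ H s b M j ω :=
  Finset.sum_nonneg fun k _ => mul_nonneg (pw01 H _ _ ω).1 (mw01 hρ H s _ _).1

lemma Us_step {ρ : ℕ → ℝ} (hρ : ∀ n, 0 ≤ ρ n ∧ ρ n ≤ 1) {ω : Ω} (H : Finset ℕ) {s b M j : ℕ} (hj : j ≤ s) {θ ε r t : ℝ}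
    (hθ0 : 0 < θ) (hθ1 : θ ≤ 1) (hε : 0 ≤ ε) (hr0 : 0 ≤ r) (hr : r ≤ 1 / 2)
    (h01 : ∀ n, 0 ≤ dens μ ℱ A n ω ∧ dens μ ℱ A n ω ≤ 1)
    (hd : ∀ k < M, |dens μ ℱ A (b + j + k - 1) ω - ρ (b + j + k)| ≤ ε * ρ (b + j + k))
    (hρr : ∀ k < M, ρ (b + j + k) ≤ r)
    (g1 : GU μ ℱ A ρ θ H s b j M ω < t) (g2 : GU μ ℱ A ρ (-θ) H s b j M ω < t) :
    |Us A ρ H s b M (j + 1) ω - Us A ρ H s b M j ω| ≤ ka (θ * (1 + ε) + ε) r H j * Us A ρ H s b M j ω + t / θ := by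
  classical
  unfold GU at g1 g2
  have hw0 : ∀ k, 0 ≤ pw A H (b + k) j ω * mw ρ H s (b + k) (j + 1) := fun k => mul_nonneg (pw01 H _ _ ω).1 (mw01 hρ H s _ _).1
  obtain ⟨k1, k2⟩ := Gx_two hθ0 hθ1 (fun n => (h01 n).1) hw0 g1 g2
  simp only [mul_one] at k1 k2
  set w : ℕ → ℝ := fun k => pw A H (b + k) j ω * mw ρ H s (b + k) (j + 1) with hw
  set SD := ∑ k ∈ Finset.range M, w k * dens μ ℱ A (b + j + k - 1) ω with hSD
  set SI := ∑ k ∈ Finset.range M, w k * In A (b + j + k) ω with hSI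
  set SR := ∑ k ∈ Finset.range M, w k * ρ (b + j + k) with hSR
  have hSR0 : 0 ≤ SR := Finset.sum_nonneg fun k _ => mul_nonneg (hw0 k) (hρ _).1
  have hDR : |SD - SR| ≤ ε * SR := by
    rw [hSD, hSR, ← Finset.sum_sub_distrib, Finset.mul_sum]
    refine (Finset.abs_sum_le_sum_abs _ _).trans (Finset.sum_le_sum fun k hk => ?_)
    rw [← mul_sub, abs_mul, abs_of_nonneg (hw0 k)]
    have := mul_le_mul_of_nonneg_left (hd k (Finset.mem_range.1 hk)) (hw0 k)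
    calc w k * |dens μ ℱ A (b + j + k - 1) ω - ρ (b + j + k)| ≤ w k * (ε * ρ (b + j + k)) := this
      _ = _ := by ring
  have hD1 := abs_le.1 hDR
  have hIR : |SI - SR| ≤ (θ * (1 + ε) + ε) * SR + t / θ := by
    rw [abs_le]
    constructor <;> nlinarith
  have hpos : ∀ k, b + k + j = b + j + k := fun k => by ring
  have hκ0 : 0 ≤ θ * (1 + ε) + ε := by positivity
  by_cases hjH : j ∈ H
  · have e1 : Us A ρ H s b M (j + 1) ω = SI := by
      unfold Us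
      refine Finset.sum_congr rfl fun k _ => ?_
      rw [pw_succ, if_pos hjH, hpos]
      simp only [hw]
      ring
    have e2 : Us A ρ H s b M j ω = SR := by
      unfold Us
      refine Finset.sum_congr rfl fun k _ => ?_
      rw [mw_bot ρ H hj, if_pos hjH, hpos]
      simp only [hw]
      ring
    rw [e1, e2]
    unfold ka
    rw [if_pos hjH, mul_one]
    exact hIR
  · have e1 : Us A ρ H s b M (j + 1) ω = ∑ k ∈ Finset.range M, w k - SI := by
      unfold Us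
      rw [hSI, ← Finset.sum_sub_distrib]
      refine Finset.sum_congr rfl fun k _ => ?_
      rw [pw_succ, if_neg hjH, hpos]
      simp only [hw]
      ring
    have e2 : Us A ρ H s b M j ω = ∑ k ∈ Finset.range M, w k - SR := by
      unfold Us
      rw [hSR, ← Finset.sum_sub_distrib]
      refine Finset.sum_congr rfl fun k _ => ?_
      rw [mw_bot ρ H hj, if_neg hjH, hpos]
      simp only [hw]
      ring
    have e3 : SR ≤ 2 * r * Us A ρ H s b M j ω := by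
      rw [e2, hSR, ← Finset.sum_sub_distrib, Finset.mul_sum]
      refine Finset.sum_le_sum fun k hk => ?_
      have h1 := hρr k (Finset.mem_range.1 hk)
      have h2 := (hρ (b + j + k)).1
      have h3 := hw0 k
      have h4 : ρ (b + j + k) ≤ 2 * r * (1 - ρ (b + j + k)) := by nlinarith
      calc w k * ρ (b + j + k) ≤ w k * (2 * r * (1 - ρ (b + j + k))) := mul_le_mul_of_nonneg_left h4 h3
        _ = _ := by ring
    unfold ka
    rw [if_neg hjH]
    have e4 : |Us A ρ H s b M (j + 1) ω - Us A ρ H s b M j ω| = |SI - SR| := by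
      rw [e1, e2, ← abs_neg]
      congr 1
      ring
    rw [e4]
    have e5 : (θ * (1 + ε) + ε) * SR ≤ (θ * (1 + ε) + ε) * (2 * r * Us A ρ H s b M j ω) := mul_le_mul_of_nonneg_left e3 hκ0
    linarith

/-- summing up the steps -/
lemma Us_bounds {U : ℕ → ℝ} {k : ℕ → ℝ} {τ : ℝ} {N : ℕ} (hU : ∀ j, 0 ≤ U j) (hk : ∀ j, 0 ≤ k j ∧ k j ≤ 1) (hτ : 0 ≤ τ)
    (h : ∀ j < N, |U (j + 1) - U j| ≤ k j * U j + τ) :
    ∀ j ≤ N, (1 - ∑ i ∈ Finset.range j, k i) * U 0 - j * τ ≤ U j ∧ U j ≤ Real.exp (∑ i ∈ Finset.range j, k i) * (U 0 + j * τ) := by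
  intro j
  induction j with
  | zero =>
    intro _
    simp
  | succ j ih =>
    intro hj
    obtain ⟨i1, i2⟩ := ih (by omega)
    have h1 := abs_le.1 (h j (by omega))
    set K := ∑ i ∈ Finset.range j, k i with hK
    have hK0 : 0 ≤ K := Finset.sum_nonneg fun i _ => (hk i).1
    rw [Finset.sum_range_succ, ← hK]
    have hkj := hk j
    have hj0 : (0 : ℝ) ≤ j := Nat.cast_nonneg j
    have hjt : 0 ≤ (j : ℝ) * τ := by positivity
    have hU0 := hU 0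
    push_cast
    constructor
    · have h2 : (1 - k j) * ((1 - K) * U 0 - j * τ) ≤ (1 - k j) * U j := mul_le_mul_of_nonneg_left i1 (by linarith)
      have h3 : 0 ≤ k j * K * U 0 := by
        have := mul_nonneg hkj.1 hK0
        positivity
      have h4 : 0 ≤ k j * (j * τ) := mul_nonneg hkj.1 hjt
      nlinarith
    · have h2 : U (j + 1) ≤ (1 + k j) * U j + τ := by linarith
      have h3 : 1 + k j ≤ Real.exp (k j) := by
        have := Real.add_one_le_exp (k j)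
        linarith
      have h4 : (1 + k j) * U j ≤ Real.exp (k j) * (Real.exp K * (U 0 + j * τ)) :=
        mul_le_mul h3 i2 (hU j) (Real.exp_pos _).le
      have h5 : (1 : ℝ) ≤ Real.exp (K + k j) := Real.one_le_exp (by linarith)
      have h6 : Real.exp (k j) * (Real.exp K * (U 0 + j * τ)) = Real.exp (K + k j) * (U 0 + j * τ) := by
        rw [Real.exp_add]
        ring
      have h7 : τ ≤ Real.exp (K + k j) * τ := le_mul_of_one_le_left hτ h5
      calc U (j + 1) ≤ (1 + k j) * U j + τ := h2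
        _ ≤ Real.exp (K + k j) * (U 0 + j * τ) + Real.exp (K + k j) * τ := by rw [← h6]; linarith
        _ = _ := by ring

end Pool.Agent.N893.SM
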