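import Mathlib
import Pool.Agent.N893.SM.K5
import Pool.Agent.N893.SM.W3
import Pool.Agent.N893.SM.Win

set_option autoImplicit false
set_option linter.unusedSectionVars false
set_option linter.unusedVariables false

/-! # Patterns of consecutive decisions: the expected number -/

open MeasureTheory Filter Set
open scoped ENNReal Topology

namespace Pool.Agent.N893.SM

open Pool.Agent.R528.RM

/-- coprime integers in an interval -/
lemma cop_win {W : ℕ} (hW : 0 < W) (n s : ℕ) :
    |(((Finset.range s).filter (fun i => (n + i).Coprime W)).card : ℝ) - s * ((Nat.totient W : ℝ) / W)| ≤ W := by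
  have hp : Function.Periodic (fun i : ℕ => (n + i).Coprime W) W := by
    intro i
    have : n + (i + W) = (n + i) + W := by ring
    simp only [this]
    rw [eq_iff_iff]
    constructor
    · intro h
      have := (Nat.coprime_add_self_left).1 h
      exact this
    · intro h
      exact (Nat.coprime_add_self_left).2 h
  have h1 := count_per (fun i : ℕ => (n + i).Coprime W) W hW hp s
  have h2 : Nat.count (fun i : ℕ => (n + i).Coprime W) W = Nat.totient W := by
    rw [Nat.count_eq_card_filter_range]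
    rw [← Nat.filter_coprime_Ico_eq_totient W n]
    refine Finset.card_bij (fun i _ => n + i) ?_ ?_ ?_
    · intro i hi
      rw [Finset.mem_filter, Finset.mem_range] at hi
      rw [Finset.mem_filter, Finset.mem_Ico]
      exact ⟨⟨by omega, by omega⟩, (Nat.coprime_comm).1 hi.2⟩
    · intro i _ j _ h
      omega
    · intro m hm
      rw [Finset.mem_filter, Finset.mem_Ico] at hm
      refine ⟨m - n, ?_, by omega⟩
      rw [Finset.mem_filter, Finset.mem_range, show n + (m - n) = m by omega]
      exact ⟨by omega, (Nat.coprime_comm).1 hm.2⟩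
  rw [h2, Nat.count_eq_card_filter_range] at h1
  exact h1

lemma mw_zero (ρ : ℕ → ℝ) {H : Finset ℕ} {s : ℕ} (hH : H ⊆ Finset.range (s + 1)) (n : ℕ) :
    mw ρ H s n 0 = (∏ h ∈ H, ρ (n + h)) * ∏ i ∈ (Finset.range (s + 1)).filter (fun i => i ∉ H), (1 - ρ (n + i)) := by
  classical
  unfold mw
  rw [← Finset.range_eq_Ico, Finset.prod_ite]
  congr 1
  have : (Finset.range (s + 1)).filter (fun i => i ∈ H) = H := by
    ext i
    rw [Finset.mem_filter]
    exact ⟨fun h => h.2, fun h => ⟨hH h, h⟩⟩
  rw [this]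

/-- one position -/
lemma mw_close {W : ℕ} (hW : 0 < W) {ρ : ℕ → ℝ} (hρ : ∀ n, 0 ≤ ρ n ∧ ρ n ≤ 1) {H : Finset ℕ} {s n k : ℕ}
    (hH : H ⊆ Finset.range (s + 1)) (hk : H.card = k) {L lo hi c ε1 δ η u : ℝ} (hL : 0 < L) (hlo : 0 ≤ lo) (hc : 0 < c)
    (hcW : c = (W : ℝ) / Nat.totient W)
    (h1 : ∀ i ≤ s, (n + i).Coprime W → lo / L ≤ ρ (n + i) ∧ ρ (n + i) ≤ hi / L)
    (h2 : ∀ i ≤ s, ¬ (n + i).Coprime W → ρ (n + i) = 0)
    (hhi : 0 ≤ hi) (hlok : c ^ k - ε1 ≤ lo ^ k) (hhik : hi ^ k ≤ c ^ k + ε1) (hδ : 0 ≤ δ) (hδ1 : (1 + δ) * (hi / L) ≤ δ)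
    (hη0 : 0 ≤ η) (hη1 : η ≤ 1) (hu0 : 0 ≤ u) (hε1 : 0 ≤ ε1)
    (hup : (1 + δ) * (hi / L * ((s + 1) / c + W)) ≤ u + η) (hdown : u - η ≤ lo / L * ((s + 1) / c - W - k)) :
    |mw ρ H s n 0 * L ^ k - (if ∀ h ∈ H, (n + h).Coprime W then 1 else 0) * (c ^ k * Real.exp (-u))| ≤ ε1 + 2 * η * c ^ k := by
  classical
  rw [mw_zero ρ hH n]
  set P := ∏ h ∈ H, ρ (n + h) with hP
  set R := (Finset.range (s + 1)).filter (fun i => i ∉ H) with hR
  set Y := ∏ i ∈ R, (1 - ρ (n + i)) with hY
  have hY0 : 0 ≤ Y := Finset.prod_nonneg fun i _ => by linarith [(hρ (n + i)).2]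
  have hY1 : Y ≤ 1 := Finset.prod_le_one (fun i _ => by linarith [(hρ (n + i)).2]) fun i _ => by linarith [(hρ (n + i)).1]
  have hck : 0 ≤ c ^ k := by positivity
  by_cases hg : ∀ h ∈ H, (n + h).Coprime W
  · rw [if_pos hg, one_mul]
    have hHs : ∀ h ∈ H, h ≤ s := fun h hh => by
      have := Finset.mem_range.1 (hH hh)
      omega
    -- the chosen factors
    have hX1 : P * L ^ k ≤ c ^ k + ε1 := by
      have e1 : P ≤ (hi / L) ^ k := by
        rw [hP, ← hk, ← Finset.prod_const]
        exact Finset.prod_le_prod (fun h _ => (hρ _).1) fun h hh => (h1 h (hHs h hh) (hg h hh)).2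
      calc P * L ^ k ≤ (hi / L) ^ k * L ^ k := mul_le_mul_of_nonneg_right e1 (by positivity)
        _ = hi ^ k := by rw [← mul_pow, div_mul_cancel₀ _ hL.ne']
        _ ≤ _ := hhik
    have hX2 : c ^ k - ε1 ≤ P * L ^ k := by
      have e1 : (lo / L) ^ k ≤ P := by
        rw [hP, ← hk, ← Finset.prod_const]
        exact Finset.prod_le_prod (fun h _ => by positivity) fun h hh => (h1 h (hHs h hh) (hg h hh)).1
      calc c ^ k - ε1 ≤ lo ^ k := hlok
        _ = (lo / L) ^ k * L ^ k := by rw [← mul_pow, div_mul_cancel₀ _ hL.ne']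
        _ ≤ P * L ^ k := mul_le_mul_of_nonneg_right e1 (by positivity)
    -- the others
    set G := ((Finset.range (s + 1)).filter (fun i => (n + i).Coprime W)).card with hG
    have hGw := abs_le.1 (cop_win hW n (s + 1))
    have hcinv : (Nat.totient W : ℝ) / W = 1 / c := by rw [hcW, one_div_div]
    rw [hcinv, ← hG] at hGw
    push_cast at hGw
    have hGup : (G : ℝ) ≤ (s + 1) / c + W := by
      have : ((s : ℝ) + 1) * (1 / c) = (s + 1) / c := by ring
      linarith [hGw.2]
    have hGlo : (s + 1) / c - W ≤ (G : ℝ) := by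
      have : ((s : ℝ) + 1) * (1 / c) = (s + 1) / c := by ring
      linarith [hGw.1]
    have hsumall : ∑ i ∈ Finset.range (s + 1), ρ (n + i) ≤ G * (hi / L) := by
      have e1 : ∀ i ∈ Finset.range (s + 1), ρ (n + i) ≤ if (n + i).Coprime W then hi / L else 0 := by
        intro i hi'
        have hi'' : i ≤ s := by
          have := Finset.mem_range.1 hi'
          omega
        split_ifs with h
        · exact (h1 i hi'' h).2
        · exact (h2 i hi'' h).le
      refine (Finset.sum_le_sum e1).trans (le_of_eq ?_)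
      rw [← Finset.sum_filter, Finset.sum_const, nsmul_eq_mul]
    have hsumR : (G - k : ℝ) * (lo / L) ≤ ∑ i ∈ R, ρ (n + i) := by
      have e1 : ∀ i ∈ R, (if (n + i).Coprime W then lo / L else 0) ≤ ρ (n + i) := by
        intro i hi'
        have hi'' : i ≤ s := by
          have := Finset.mem_range.1 (Finset.mem_filter.1 hi').1
          omega
        split_ifs with h
        · exact (h1 i hi'' h).1
        · exact (h2 i hi'' h).ge
      refine le_trans ?_ (Finset.sum_le_sum e1)
      rw [← Finset.sum_filter, Finset.sum_const, nsmul_eq_mul]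
      refine mul_le_mul_of_nonneg_right ?_ (by positivity)
      have e2 : (Finset.range (s + 1)).filter (fun i => (n + i).Coprime W) ⊆ R.filter (fun i => (n + i).Coprime W) ∪ H := by
        intro i hi'
        rw [Finset.mem_filter] at hi'
        rw [Finset.mem_union, Finset.mem_filter, hR, Finset.mem_filter]
        by_cases hiH : i ∈ H
        · exact Or.inr hiH
        · exact Or.inl ⟨⟨hi'.1, hiH⟩, hi'.2⟩
      have e3 := (Finset.card_le_card e2).trans (Finset.card_union_le _ _)
      rw [hk] at e3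
      have e4 : (G : ℝ) ≤ (R.filter (fun i => (n + i).Coprime W)).card + k := by exact_mod_cast e3
      linarith
    have hYup : Y ≤ Real.exp (-u) + 2 * η := by
      have e1 : Y ≤ Real.exp (-∑ i ∈ R, ρ (n + i)) := by
        rw [hY, ← Finset.sum_neg_distrib, Real.exp_sum]
        refine Finset.prod_le_prod (fun i _ => by linarith [(hρ (n + i)).2]) fun i _ => ?_
        have := Real.add_one_le_exp (-ρ (n + i))
        linarith
      have e2 : u - η ≤ ∑ i ∈ R, ρ (n + i) := by
        refine le_trans ?_ hsumR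
        refine hdown.trans ?_
        rw [mul_comm]
        exact mul_le_mul_of_nonneg_right (by linarith) (by positivity)
      have e3 : Y ≤ Real.exp (-u + η) := e1.trans (Real.exp_le_exp.2 (by linarith))
      rw [Real.exp_add] at e3
      have e4 : Real.exp η ≤ 1 + 2 * η := by
        have h := Real.abs_exp_sub_one_sub_id_le (x := η) (by rw [abs_of_nonneg hη0]; exact hη1)
        have := (abs_le.1 h).2
        nlinarith
      have e5 : Real.exp (-u) ≤ 1 := Real.exp_le_one_iff.2 (by linarith)
      have e6 : Real.exp (-u) * Real.exp η ≤ Real.exp (-u) * (1 + 2 * η) := mul_le_mul_of_nonneg_left e4 (Real.exp_pos _).le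
      nlinarith
    have hYlo : Real.exp (-u) - η ≤ Y := by
      have e1 : Real.exp (-((1 + δ) * ∑ i ∈ R, ρ (n + i))) ≤ Y := by
        rw [hY, Finset.mul_sum, ← Finset.sum_neg_distrib, Real.exp_sum]
        refine Finset.prod_le_prod (fun i _ => (Real.exp_pos _).le) fun i hi' => ?_
        have hi'' : i ≤ s := by
          have := Finset.mem_range.1 (Finset.mem_filter.1 hi').1
          omega
        refine one_sub_ge_exp (hρ (n + i)).1 hδ ?_
        refine le_trans ?_ hδ1
        refine mul_le_mul_of_nonneg_left ?_ (by linarith)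
        by_cases h : (n + i).Coprime W
        · exact (h1 i hi'' h).2
        · rw [h2 i hi'' h]
          positivity
      have e2 : ∑ i ∈ R, ρ (n + i) ≤ ∑ i ∈ Finset.range (s + 1), ρ (n + i) :=
        Finset.sum_le_sum_of_subset_of_nonneg (Finset.filter_subset _ _) fun i _ _ => (hρ _).1
      have e3 : (1 + δ) * ∑ i ∈ R, ρ (n + i) ≤ u + η := by
        refine le_trans (mul_le_mul_of_nonneg_left (e2.trans hsumall) (by linarith)) (le_trans ?_ hup)
        refine mul_le_mul_of_nonneg_left ?_ (by linarith)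
        rw [mul_comm]
        exact mul_le_mul_of_nonneg_left hGup (by positivity)
      have e4 : Real.exp (-u + -η) ≤ Y := (Real.exp_le_exp.2 (by linarith)).trans e1
      rw [Real.exp_add] at e4
      have e5 : 1 - η ≤ Real.exp (-η) := by
        have := Real.add_one_le_exp (-η)
        linarith
      have e6 : Real.exp (-u) ≤ 1 := Real.exp_le_one_iff.2 (by linarith)
      have e7 : Real.exp (-u) * (1 - η) ≤ Real.exp (-u) * Real.exp (-η) := mul_le_mul_of_nonneg_left e5 (Real.exp_pos _).le
      nlinarith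
    have hXe : |P * L ^ k - c ^ k| ≤ ε1 := abs_le.2 ⟨by linarith, by linarith⟩
    have hYe : |Y - Real.exp (-u)| ≤ 2 * η := abs_le.2 ⟨by linarith, by linarith⟩
    have e : P * Y * L ^ k - c ^ k * Real.exp (-u) = (P * L ^ k - c ^ k) * Y + c ^ k * (Y - Real.exp (-u)) := by ring
    rw [e]
    refine (abs_add_le _ _).trans ?_
    rw [abs_mul, abs_mul, abs_of_nonneg hY0, abs_of_nonneg hck]
    have f1 : |P * L ^ k - c ^ k| * Y ≤ ε1 * 1 := mul_le_mul hXe hY1 hY0 hε1
    have f2 : c ^ k * |Y - Real.exp (-u)| ≤ c ^ k * (2 * η) := mul_le_mul_of_nonneg_left hYe hck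
    linarith
  · rw [if_neg hg, zero_mul, sub_zero]
    push Not at hg
    obtain ⟨h, hh, hn⟩ := hg
    have hP0 : P = 0 := by
      have hhs := Finset.mem_range.1 (hH hh)
      exact Finset.prod_eq_zero hh (h2 h (by omega) hn)
    rw [hP0, zero_mul, zero_mul, abs_zero]
    positivity

end Pool.Agent.N893.SM
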