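import Mathlib
import Pool.Agent.N893.SM.K6

set_option autoImplicit false
set_option linter.unusedSectionVars false
set_option linter.unusedVariables false

/-! # Patterns of consecutive decisions: the expected number, asymptotically -/

open MeasureTheory Filter Set
open scoped ENNReal Topology

namespace Pool.Agent.N893.SM

open Pool.Agent.R528.RM

variable {Ω : Type} {m0 : MeasurableSpace Ω} {μ : Measure Ω} [IsProbabilityMeasure μ]
  {ℱ : Filtration ℕ m0} {A : ℕ → Set Ω}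

/-- the starting point -/
noncomputable def yk (k x : ℕ) : ℕ := ⌊(x : ℝ) / Real.log x ^ (k + 1)⌋₊

/-- the local density -/
noncomputable def dH (H : Finset ℕ) (W : ℕ) : ℝ := (Nat.count (fun n => ∀ h ∈ H, (n + h).Coprime W) W : ℝ) / W

lemma dH_per (H : Finset ℕ) {W : ℕ} (hW : 0 < W) : Function.Periodic (fun n => ∀ h ∈ H, (n + h).Coprime W) W := by
  intro i
  simp only
  rw [eq_iff_iff]
  refine forall₂_congr fun h _ => ?_
  rw [show i + W + h = (i + h) + W by ring]
  constructor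
  · intro h
    exact (Nat.coprime_add_self_left).1 h
  · intro h
    exact (Nat.coprime_add_self_left).2 h

lemma dH_win (H : Finset ℕ) {W : ℕ} (hW : 0 < W) (b M : ℕ) :
    |∑ i ∈ Finset.range M, (if ∀ h ∈ H, (b + i + h).Coprime W then (1 : ℝ) else 0) - M * dH H W| ≤ 2 * W := by
  have e1 : ∑ i ∈ Finset.range M, (if ∀ h ∈ H, (b + i + h).Coprime W then (1 : ℝ) else 0) =
      (Nat.count (fun n => ∀ h ∈ H, (n + h).Coprime W) (b + M) : ℝ) - Nat.count (fun n => ∀ h ∈ H, (n + h).Coprime W) b := by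
    rw [Nat.count_add, Finset.sum_boole, Nat.count_eq_card_filter_range (fun i => ∀ h ∈ H, (b + i + h).Coprime W)]
    push_cast
    ring
  have h1 := abs_le.1 (count_per _ W hW (dH_per H hW) (b + M))
  have h2 := abs_le.1 (count_per _ W hW (dH_per H hW) b)
  rw [e1]
  unfold dH
  push_cast at h1
  rw [abs_le]
  constructor <;> linarith [h1.1, h1.2, h2.1, h2.2]

lemma dH01 (H : Finset ℕ) {W : ℕ} (hW : 0 < W) : 0 ≤ dH H W ∧ dH H W ≤ 1 := by
  unfold dH
  have hWr : (0 : ℝ) < W := by exact_mod_cast hW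
  refine ⟨by positivity, ?_⟩
  rw [div_le_one hWr]
  exact_mod_cast Nat.count_le _ (n := W)

lemma dH_sing (Q : Finset ℕ) (hQ : ∀ p ∈ Q, p.Prime) (H : Finset ℕ) :
    dH H (∏ p ∈ Q, p) * (((∏ p ∈ Q, p : ℕ) : ℝ) / Nat.totient (∏ p ∈ Q, p)) ^ H.card = singH Q H := by
  classical
  rw [← singH_eq Q hQ H]
  congr 2
  unfold dH
  congr 1
  norm_cast
  rw [Nat.count_eq_card_filter_range, Nat.count_eq_card_filter_range]
  congr 1
  exact Finset.filter_congr fun n _ => (good_PH H _ n).symm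

/-- **the expected number** -/
theorem E_asymp {W : ℕ} (hW : 0 < W) (k : ℕ) {lam ε : ℝ} (hlam : 0 ≤ lam) (hε : 0 < ε) :
    ∀ᶠ x : ℕ in atTop, ∀ (s : ℕ) (H : Finset ℕ), (s : ℝ) ≤ lam * Real.log x → H ⊆ Finset.range (s + 1) → H.card = k → ∀ ω : Ω,
      |Us A (rhoW W) H s (yk k x + 1) (x - yk k x) 0 ω * Real.log x ^ k / x -
        dH H W * ((W : ℝ) / Nat.totient W) ^ k * Real.exp (-(s / Real.log x))| ≤ ε := by
  classical
  set c : ℝ := (W : ℝ) / Nat.totient W with hc
  have hc1 : 1 ≤ c := c_one hW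
  have hc0 : 0 < c := by linarith
  have hck : 0 < c ^ k := by positivity
  have hWr : (1 : ℝ) ≤ W := by exact_mod_cast hW
  set η : ℝ := min 1 (ε / (8 * c ^ k)) with hη
  have hη0 : 0 < η := lt_min one_pos (by positivity)
  have hη1 : η ≤ 1 := min_le_left _ _
  have hη2 : 2 * η * c ^ k ≤ ε / 4 := by
    have : η ≤ ε / (8 * c ^ k) := min_le_right _ _
    rw [le_div_iff₀ (by positivity)] at this
    linarith
  set δ : ℝ := η / (8 * (lam + 1)) with hδ
  have hδ0 : 0 < δ := by positivity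
  have hδ1 : δ ≤ 1 / 8 := by
    rw [hδ, div_le_div_iff₀ (by positivity) (by norm_num)]
    nlinarith
  have hδlam : δ * (8 * (lam + 1)) = η := by
    rw [hδ]
    field_simp
  -- the constant
  obtain ⟨κ, hκ0, hκ1, hκ2, hκ3, hκ4⟩ : ∃ κ : ℝ, 0 < κ ∧ κ ≤ 1 / 4 ∧ 2 * κ ≤ δ ∧ (c * (1 + 2 * κ)) ^ k ≤ c ^ k + ε / 4 ∧
      c ^ k - ε / 4 ≤ (c * (1 - κ)) ^ k := by
    have t1 : Tendsto (fun u : ℝ => (c * (1 + 2 * u)) ^ k) (𝓝 0) (𝓝 ((c * (1 + 2 * 0)) ^ k)) := by
      apply Continuous.tendsto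
      fun_prop
    have t2 : Tendsto (fun u : ℝ => (c * (1 - u)) ^ k) (𝓝 0) (𝓝 ((c * (1 - 0)) ^ k)) := by
      apply Continuous.tendsto
      fun_prop
    rw [mul_zero, add_zero, mul_one] at t1
    rw [sub_zero, mul_one] at t2
    have h := (((t1.eventually (gt_mem_nhds (show c ^ k < c ^ k + ε / 4 by linarith))).and
      (t2.eventually (lt_mem_nhds (show c ^ k - ε / 4 < c ^ k by linarith)))).filter_mono (nhdsWithin_le_nhds (s := Ioi 0))).and
      (Ioo_mem_nhdsGT (show (0 : ℝ) < min (1 / 4) (δ / 2) by positivity))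
    obtain ⟨κ, ⟨h1, h2⟩, h3⟩ := h.exists
    refine ⟨κ, h3.1, h3.2.le.trans (min_le_left _ _), ?_, h1.le, h2.le⟩
    have := h3.2.le.trans (min_le_right _ _)
    linarith
  have ll : Tendsto (fun x : ℕ => Real.log (Real.log (x : ℝ))) atTop atTop := Real.tendsto_log_atTop.comp tendsto_log
  have hlL : ∀ κ' : ℝ, 0 < κ' → ∀ᶠ x : ℕ in atTop, Real.log (Real.log (x : ℝ)) ≤ κ' * Real.log (x : ℝ) := by
    intro κ' hκ'
    have h := (Real.isLittleO_log_id_atTop.bound hκ')
    filter_upwards [tendsto_log.eventually h, tendsto_log.eventually_ge_atTop 1] with x hx hx1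
    rw [Real.norm_eq_abs, Real.norm_eq_abs, id, abs_of_nonneg (by linarith : (0 : ℝ) ≤ Real.log (x : ℝ))] at hx
    exact (le_abs_self _).trans hx
  have hinv : ∀ C : ℝ, ∀ κ' : ℝ, 0 < κ' → ∀ᶠ x : ℕ in atTop, C / Real.log (x : ℝ) ≤ κ' := by
    intro C κ' hκ'
    filter_upwards [tendsto_log.eventually_ge_atTop (C / κ'), tendsto_log.eventually_ge_atTop 1] with x hx hx1
    rw [div_le_iff₀ hκ'] at hx
    rw [div_le_iff₀ (by linarith)]
    linarith
  have hxinv : ∀ C : ℝ, ∀ κ' : ℝ, 0 < κ' → ∀ᶠ x : ℕ in atTop, C / (x : ℝ) ≤ κ' := by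
    intro C κ' hκ'
    filter_upwards [tendsto_natCast_atTop_atTop.eventually_ge_atTop (C / κ'), eventually_ge_atTop 1] with x hx hx1
    have : (1 : ℝ) ≤ x := by exact_mod_cast hx1
    rw [div_le_iff₀ hκ'] at hx
    rw [div_le_iff₀ (by linarith)]
    linarith
  filter_upwards [tendsto_log.eventually_ge_atTop 1, tendsto_log.eventually_ge_atTop (2 * c + 1), hlL (κ / (k + 1)) (by positivity),
    hinv (Real.log 2 + 0) κ hκ0, hinv ((1 + δ) * (c * (1 + 2 * κ)) * (1 / c + W)) (η / 2) (by positivity),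
    hinv (c * (W + k)) (η / 2) (by positivity), hinv ((1 + δ) * (c * (1 + 2 * κ))) δ hδ0,
    hinv (c ^ k) (ε / 8) (by positivity), hxinv (c ^ k * (2 * W)) (ε / 8) (by positivity), eventually_ge_atTop 3,
    (((isLittleO_log_rpow_atTop (show (0 : ℝ) < 1 by norm_num)).bound (show (0 : ℝ) < 1 / (lam + 1) by positivity)).natCast_atTop)]
    with x hL1 hL2 hll hlog2 ha1 ha2 ha3 ha4 ha5 hx3 hlx s H hs hH hHk ω
  set L := Real.log (x : ℝ) with hL
  have hL0 : 0 < L := by linarith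
  have hxr : (3 : ℝ) ≤ x := by exact_mod_cast hx3
  have hxp : (0 : ℝ) < x := by linarith
  have hLk : 1 ≤ L ^ (k + 1) := one_le_pow₀ hL1
  set y := yk k x with hy
  have hy1 : (y : ℝ) ≤ x / L ^ (k + 1) := Nat.floor_le (by positivity)
  have hy2 : (x : ℝ) / L ^ (k + 1) < y + 1 := Nat.lt_floor_add_one _
  have hyx : (y : ℝ) ≤ x := hy1.trans (div_le_self hxp.le hLk)
  have hyx' : y ≤ x := by exact_mod_cast hyx
  have hsx : (s : ℝ) ≤ x := by
    rw [Real.norm_eq_abs, Real.norm_eq_abs, Real.rpow_one, abs_of_nonneg hL0.le, abs_of_nonneg hxp.le] at hlx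
    have h1 : lam * L ≤ (lam + 1) * L := mul_le_mul_of_nonneg_right (by linarith) hL0.le
    have h2 : (lam + 1) * L ≤ (lam + 1) * (1 / (lam + 1) * x) := mul_le_mul_of_nonneg_left hlx (by linarith)
    have h3 : (lam + 1) * (1 / (lam + 1) * x) = x := by field_simp
    linarith
  -- logarithms
  have hlogm : ∀ m : ℕ, y + 1 ≤ m → (m : ℝ) ≤ 2 * x → (1 - κ) * L ≤ Real.log m ∧ Real.log m ≤ (1 + κ) * L := by
    intro m hm1 hm2
    have hm1' : (y : ℝ) + 1 ≤ m := by exact_mod_cast hm1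
    have hy0 : (0 : ℝ) ≤ y := Nat.cast_nonneg y
    have hm0 : (0 : ℝ) < m := by linarith
    constructor
    · have h1 : (x : ℝ) / L ^ (k + 1) ≤ m := by linarith
      have h2 := Real.log_le_log (by positivity) h1
      rw [Real.log_div hxp.ne' (by positivity), Real.log_pow, ← hL] at h2
      push_cast at h2
      have h3 : ((k : ℝ) + 1) * Real.log L ≤ κ * L := by
        have := mul_le_mul_of_nonneg_left hll (show (0 : ℝ) ≤ (k : ℝ) + 1 by positivity)
        calc ((k : ℝ) + 1) * Real.log L ≤ ((k : ℝ) + 1) * (κ / (k + 1) * L) := this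
          _ = _ := by field_simp
      linarith
    · have h1 := Real.log_le_log hm0 hm2
      rw [Real.log_mul (by norm_num) hxp.ne', ← hL] at h1
      rw [add_zero, div_le_iff₀ hL0] at hlog2
      linarith
  have hρ : ∀ m : ℕ, y + 1 ≤ m → (m : ℝ) ≤ 2 * x → m.Coprime W →
      c * (1 - κ) / L ≤ rhoW W m ∧ rhoW W m ≤ c * (1 + 2 * κ) / L := by
    intro m hm1 hm2 hm3
    obtain ⟨g1, g2⟩ := hlogm m hm1 hm2
    have hlm : 0 < Real.log (m : ℝ) := lt_of_lt_of_le (mul_pos (by linarith) hL0) g1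
    have hmin : min 1 (c / Real.log m) = c / Real.log m := by
      refine min_eq_right ?_
      rw [div_le_one hlm]
      nlinarith
    unfold rhoW
    rw [if_pos hm3, ← hc, hmin]
    constructor
    · rw [div_le_div_iff₀ hL0 hlm]
      have h1 : (1 - κ) * Real.log m ≤ (1 - κ) * ((1 + κ) * L) := mul_le_mul_of_nonneg_left g2 (by linarith)
      have h2 : (1 - κ) * ((1 + κ) * L) ≤ L := by nlinarith
      nlinarith
    · rw [div_le_div_iff₀ hlm hL0]
      have h1 : (1 + 2 * κ) * ((1 - κ) * L) ≤ (1 + 2 * κ) * Real.log m := mul_le_mul_of_nonneg_left g1 (by linarith)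
      have h2 : L ≤ (1 + 2 * κ) * ((1 - κ) * L) := by nlinarith
      nlinarith
  set u := (s : ℝ) / L with hu
  have hs0 : (0 : ℝ) ≤ s := Nat.cast_nonneg s
  have hu0 : 0 ≤ u := by positivity
  have hul : u ≤ lam := by
    rw [hu, div_le_iff₀ hL0]
    exact hs
  have hup : (1 + δ) * (c * (1 + 2 * κ) / L * ((s + 1) / c + W)) ≤ u + η := by
    have e1 : (1 + δ) * (c * (1 + 2 * κ) / L * ((s + 1) / c + W)) = (1 + δ) * (1 + 2 * κ) * u +
        (1 + δ) * (c * (1 + 2 * κ)) * (1 / c + W) / L := by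
      rw [hu]
      field_simp
      ring
    rw [e1]
    have e2 : (1 + δ) * (1 + 2 * κ) ≤ 1 + 4 * δ := by nlinarith
    have e3 : (1 + δ) * (1 + 2 * κ) * u ≤ (1 + 4 * δ) * u := mul_le_mul_of_nonneg_right e2 hu0
    have e4 : 4 * δ * u ≤ η / 2 := by
      have : 4 * δ * u ≤ 4 * δ * (lam + 1) := mul_le_mul_of_nonneg_left (by linarith) (by positivity)
      linarith
    linarith
  have hdown : u - η ≤ c * (1 - κ) / L * ((s + 1) / c - W - k) := by
    have e1 : c * (1 - κ) / L * ((s + 1) / c - W - k) = (1 - κ) * u + (1 - κ) / L - (1 - κ) * (c * (W + k) / L) := by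
      rw [hu]
      field_simp
      ring
    rw [e1]
    have e2 : 0 ≤ (1 - κ) / L := div_nonneg (by linarith) hL0.le
    have e3 : κ * u ≤ η / 2 := by
      have h1 : κ * u ≤ κ * (lam + 1) := mul_le_mul_of_nonneg_left (by linarith) hκ0.le
      have h2 : κ * (lam + 1) ≤ δ * (lam + 1) := mul_le_mul_of_nonneg_right (by linarith) (by linarith)
      linarith
    have e4 : 0 ≤ c * (W + k) / L := by positivity
    have e5 : (1 - κ) * (c * (W + k) / L) ≤ 1 * (c * (W + k) / L) := mul_le_mul_of_nonneg_right (by linarith) e4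
    linarith
  set M := x - y with hM
  have hMx : (M : ℝ) = x - y := by rw [hM, Nat.cast_sub hyx']
  -- the sum
  have hterm : ∀ i ∈ Finset.range M, |mw (rhoW W) H s (y + 1 + i) 0 * L ^ k -
      (if ∀ h ∈ H, (y + 1 + i + h).Coprime W then 1 else 0) * (c ^ k * Real.exp (-u))| ≤ ε / 4 + 2 * η * c ^ k := by
    intro i hi
    have hi' := Finset.mem_range.1 hi
    have hpos : ∀ j ≤ s, y + 1 ≤ y + 1 + i + j ∧ ((y + 1 + i + j : ℕ) : ℝ) ≤ 2 * x := by
      intro j hj
      have h1 : y + 1 + i ≤ x := by omega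
      have h2 : ((y + 1 + i : ℕ) : ℝ) ≤ x := by exact_mod_cast h1
      have h3 : (j : ℝ) ≤ s := by exact_mod_cast hj
      refine ⟨by omega, ?_⟩
      push_cast at h2 ⊢
      linarith
    exact mw_close hW (fun n => ⟨rhoW_nonneg W n, rhoW_le W n⟩) hH hHk hL0 (by nlinarith) hc0 hc
      (fun j hj hcop => hρ _ (hpos j hj).1 (hpos j hj).2 hcop)
      (fun j hj hcop => by unfold rhoW; rw [if_neg hcop]) (by positivity) hκ4 hκ3 hδ0.le
      (by rw [← mul_div_assoc]; exact ha3) hη0.le hη1 hu0 (by positivity) hup hdown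
  have hUs : Us A (rhoW W) H s (y + 1) M 0 ω = ∑ i ∈ Finset.range M, mw (rhoW W) H s (y + 1 + i) 0 := by
    unfold Us
    refine Finset.sum_congr rfl fun i _ => ?_
    have : pw A H (y + 1 + i) 0 ω = 1 := by
      unfold pw
      simp
    rw [this, one_mul]
  rw [hUs]
  set a : ℕ → ℝ := fun i => if ∀ h ∈ H, (y + 1 + i + h).Coprime W then 1 else 0 with ha
  have hexp : Real.exp (-u) ≤ 1 := Real.exp_le_one_iff.2 (by linarith)
  have hexp0 : 0 < Real.exp (-u) := Real.exp_pos _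
  set C0 := c ^ k * Real.exp (-u) with hC0
  have hC00 : 0 ≤ C0 := by positivity
  have hC01 : C0 ≤ c ^ k := mul_le_of_le_one_right hck.le hexp
  have e1 : (∑ i ∈ Finset.range M, mw (rhoW W) H s (y + 1 + i) 0) * L ^ k / x - dH H W * c ^ k * Real.exp (-u) =
      (∑ i ∈ Finset.range M, (mw (rhoW W) H s (y + 1 + i) 0 * L ^ k - a i * C0)) / x +
      C0 * ((∑ i ∈ Finset.range M, a i - x * dH H W) / x) := by
    rw [Finset.sum_sub_distrib, ← Finset.sum_mul, ← Finset.sum_mul, hC0]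
    field_simp
    ring
  rw [e1]
  have hf1 : |(∑ i ∈ Finset.range M, (mw (rhoW W) H s (y + 1 + i) 0 * L ^ k - a i * C0)) / x| ≤ ε / 4 + 2 * η * c ^ k := by
    rw [abs_div, abs_of_pos hxp, div_le_iff₀ hxp]
    refine ((Finset.abs_sum_le_sum_abs _ _).trans (Finset.sum_le_sum hterm)).trans ?_
    rw [Finset.sum_const, Finset.card_range, nsmul_eq_mul, mul_comm]
    refine mul_le_mul_of_nonneg_left ?_ (by positivity)
    rw [hMx]
    linarith [Nat.cast_nonneg (α := ℝ) y]
  have hf2 : |C0 * ((∑ i ∈ Finset.range M, a i - x * dH H W) / x)| ≤ ε / 4 := by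
    have h1 := abs_le.1 (dH_win H hW (y + 1) M)
    obtain ⟨d0, d1⟩ := dH01 H hW
    have hy0 : (0 : ℝ) ≤ y := Nat.cast_nonneg y
    have h2 : |∑ i ∈ Finset.range M, a i - x * dH H W| ≤ 2 * W + y := by
      rw [hMx] at h1
      have h3 : (y : ℝ) * dH H W ≤ y := mul_le_of_le_one_right hy0 d1
      have h4 : 0 ≤ (y : ℝ) * dH H W := by positivity
      simp only [ha]
      rw [abs_le]
      constructor <;> linarith [h1.1, h1.2]
    rw [abs_mul, abs_div, abs_of_pos hxp, abs_of_nonneg hC00]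
    have h3 : |∑ i ∈ Finset.range M, a i - x * dH H W| / x ≤ 2 * W / x + 1 / L := by
      have h4 : (y : ℝ) / x ≤ 1 / L := by
        rw [div_le_div_iff₀ hxp hL0, one_mul]
        have h5 : (x : ℝ) / L ^ (k + 1) ≤ x / L := by
          refine div_le_div_of_nonneg_left hxp.le hL0 ?_
          calc L = L ^ 1 := (pow_one L).symm
            _ ≤ L ^ (k + 1) := pow_le_pow_right₀ hL1 (by omega)
        have h6 : (y : ℝ) ≤ x / L := hy1.trans h5
        rwa [le_div_iff₀ hL0] at h6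
      calc |∑ i ∈ Finset.range M, a i - x * dH H W| / x ≤ (2 * W + y) / x := div_le_div_of_nonneg_right h2 hxp.le
        _ = 2 * W / x + y / x := by ring
        _ ≤ _ := by linarith
    calc C0 * (|∑ i ∈ Finset.range M, a i - x * dH H W| / x) ≤ c ^ k * (2 * W / x + 1 / L) := by
          refine mul_le_mul hC01 h3 (by positivity) hck.le
      _ = c ^ k * (2 * W) / x + c ^ k / L := by ring
      _ ≤ ε / 4 := by linarith
  refine (abs_add_le _ _).trans ?_
  linarith

end Pool.Agent.N893.SM
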