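import Mathlib
import Pool.Agent.N893.SM.K7
import Pool.Agent.N893.SM.Grow

set_option autoImplicit false
set_option linter.unusedSectionVars false
set_option linter.unusedVariables false

/-! # Patterns of consecutive decisions: the law -/

open MeasureTheory Filter Set
open scoped ENNReal Topology

namespace Pool.Agent.N893.SM

open Pool.Agent.R528.RM

variable {Ω : Type} {m0 : MeasurableSpace Ω} {μ : Measure Ω} [IsProbabilityMeasure μ]
  {ℱ : Filtration ℕ m0} {A : ℕ → Set Ω}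

lemma sum_Icc_range (f : ℕ → ℝ) (x : ℕ) : ∑ n ∈ Finset.Icc 1 x, f n = ∑ n ∈ Finset.range x, f (n + 1) := by
  induction x with
  | zero => simp
  | succ x ih => rw [Finset.sum_Icc_succ_top (by omega), ih, Finset.sum_range_succ]

open Classical in
/-- the number of occurrences, up to the start -/
lemma count_split {ω : Ω} (H : Finset ℕ) {s x y : ℕ} (hy : y ≤ x) (ρ : ℕ → ℝ) :
    Us A ρ H s (y + 1) (x - y) (s + 1) ω ≤ ((Finset.Icc 1 x).filter (fun n => ∀ j ≤ s, (ω ∈ A (n + j) ↔ j ∈ H))).card ∧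
    (((Finset.Icc 1 x).filter (fun n => ∀ j ≤ s, (ω ∈ A (n + j) ↔ j ∈ H))).card : ℝ) ≤ Us A ρ H s (y + 1) (x - y) (s + 1) ω + y := by
  set f : ℕ → ℝ := fun n => if ∀ j ≤ s, (ω ∈ A (n + j) ↔ j ∈ H) then 1 else 0 with hf
  have h1 : (((Finset.Icc 1 x).filter (fun n => ∀ j ≤ s, (ω ∈ A (n + j) ↔ j ∈ H))).card : ℝ) = ∑ n ∈ Finset.range x, f (n + 1) := by
    rw [← sum_Icc_range, Finset.card_filter]
    push_cast
    rfl
  have h2 : Us A ρ H s (y + 1) (x - y) (s + 1) ω = ∑ i ∈ Finset.range (x - y), f (y + i + 1) := by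
    unfold Us
    refine Finset.sum_congr rfl fun i _ => ?_
    rw [mw_top, mul_one, pw_eq, show y + 1 + i = y + i + 1 by ring]
    simp only [hf]
    have : (∀ j < s + 1, (ω ∈ A (y + i + 1 + j) ↔ j ∈ H)) ↔ ∀ j ≤ s, (ω ∈ A (y + i + 1 + j) ↔ j ∈ H) :=
      forall_congr' fun j => imp_congr_left Nat.lt_succ_iff
    by_cases h : ∀ j ≤ s, (ω ∈ A (y + i + 1 + j) ↔ j ∈ H)
    · rw [if_pos h, if_pos (this.2 h)]
    · rw [if_neg h, if_neg (fun h' => h (this.1 h'))]
  have h3 : ∑ n ∈ Finset.range x, f (n + 1) = ∑ n ∈ Finset.range y, f (n + 1) + ∑ i ∈ Finset.range (x - y), f (y + i + 1) := by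
    conv_lhs => rw [show x = y + (x - y) by omega, Finset.sum_range_add]
  have hf01 : ∀ n, 0 ≤ f n ∧ f n ≤ 1 := by
    intro n
    simp only [hf]
    split_ifs <;> norm_num
  have h4 : 0 ≤ ∑ n ∈ Finset.range y, f (n + 1) := Finset.sum_nonneg fun n _ => (hf01 _).1
  have h5 : ∑ n ∈ Finset.range y, f (n + 1) ≤ y := by
    refine (Finset.sum_le_sum fun n _ => (hf01 (n + 1)).2).trans ?_
    rw [Finset.sum_const, Finset.card_range, nsmul_eq_mul, mul_one]
  rw [h1, h2, h3]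
  constructor <;> linarith

open Classical in
/-- **the law of consecutive patterns** -/
theorem cons_law (hA : ∀ n, MeasurableSet[ℱ n] (A n)) (Q : Finset ℕ) (hQ : ∀ p ∈ Q, p.Prime)
    (hcop : ∀ n, (∃ p ∈ Q, p ∣ n) → A n = ∅)
    (hd : ∀ᵐ ω ∂μ, Tendsto (fun n : ℕ => dens μ ℱ A n ω * Real.log n)
      (atTop ⊓ 𝓟 {n : ℕ | ∀ p ∈ Q, ¬ p ∣ n + 1}) (𝓝 (∏ p ∈ Q, (1 - 1 / (p : ℝ))⁻¹))) :
    ∀ᵐ ω ∂μ, ∀ (k : ℕ) (lam ε : ℝ), 0 ≤ lam → 0 < ε → ∀ᶠ x : ℕ in atTop, ∀ (s : ℕ) (H : Finset ℕ),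
      (s : ℝ) ≤ lam * Real.log x → H ⊆ Finset.range (s + 1) → H.card = k →
      |(((Finset.Icc 1 x).filter (fun n => ∀ j ≤ s, (ω ∈ A (n + j) ↔ j ∈ H))).card : ℝ) * Real.log x ^ k / x -
        singH Q H * Real.exp (-(s / Real.log x))| ≤ ε := by
  set W := ∏ p ∈ Q, p with hWdef
  have hW : 0 < W := Finset.prod_pos fun q hq => (hQ q hq).pos
  have hWr : (1 : ℝ) ≤ W := by exact_mod_cast hW
  have hρ : ∀ n, 0 ≤ rhoW W n ∧ rhoW W n ≤ 1 := fun n => ⟨rhoW_nonneg W n, rhoW_le W n⟩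
  have hprof := profile (μ := μ) hA Q hQ hcop hd
  rw [← hWdef] at hprof
  have h01 : ∀ᵐ ω ∂μ, ∀ n, 0 ≤ dens μ ℱ A n ω ∧ dens μ ℱ A n ω ≤ 1 := ae_all_iff.2 fun n => dens01 hA n
  have hev : ∀ᵐ ω ∂μ, ∀ m k : ℕ, ∀ᶠ x : ℕ in atTop, ∀ s ≤ Sx x, ∀ H ⊆ Finset.range (Sx x + 1), ∀ j ≤ Sx x,
      GU μ ℱ A (rhoW W) (1 / ((m : ℝ) + 1)) H s (yk k x + 1) j (x - yk k x) ω < 3 * Real.log x ^ 2 ∧
      GU μ ℱ A (rhoW W) (-(1 / ((m : ℝ) + 1))) H s (yk k x + 1) j (x - yk k x) ω < 3 * Real.log x ^ 2 :=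
    ae_all_iff.2 fun m => ae_all_iff.2 fun k => errL (μ := μ) hA hρ (1 / ((m : ℝ) + 1)) (fun x => yk k x + 1) (fun x => x - yk k x)
      (fun x => by omega)
  filter_upwards [hprof, h01, hev] with ω hprof h01 hev k lam ε hlam hε
  set c : ℝ := (W : ℝ) / Nat.totient W with hc
  have hc1 : 1 ≤ c := c_one hW
  have hc0 : 0 < c := by linarith
  have hck : 0 < c ^ k := by positivity
  set B : ℝ := k + 4 * c * (lam + 1) + 1 with hB
  have hB1 : 1 ≤ B := by
    have : (0 : ℝ) ≤ k := Nat.cast_nonneg k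
    have : 0 ≤ 4 * c * (lam + 1) := by positivity
    linarith
  set E0 : ℝ := c ^ k + 1 with hE0
  have hE00 : 1 ≤ E0 := by linarith
  set κ : ℝ := min (1 / B) (ε / (16 * B * E0)) with hκ
  have hκ0 : 0 < κ := lt_min (by positivity) (by positivity)
  have hκB : κ * B ≤ 1 := by
    have : κ ≤ 1 / B := min_le_left _ _
    rwa [le_div_iff₀ (by linarith)] at this
  have hκ1 : κ ≤ 1 := by nlinarith
  have hκE : κ * B * E0 ≤ ε / 16 := by
    have : κ ≤ ε / (16 * B * E0) := min_le_right _ _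
    rw [le_div_iff₀ (by positivity)] at this
    linarith
  obtain ⟨m, hm⟩ := exists_nat_gt (4 / κ)
  set θ : ℝ := 1 / ((m : ℝ) + 1) with hθ
  have hm0 : (0 : ℝ) ≤ m := Nat.cast_nonneg m
  have hθ0 : 0 < θ := by positivity
  have hθ1 : θ ≤ 1 := by
    rw [hθ, div_le_one (by positivity)]
    linarith
  have hθκ : θ ≤ κ / 4 := by
    rw [div_lt_iff₀ hκ0] at hm
    rw [hθ, div_le_div_iff₀ (by positivity) (by norm_num)]
    nlinarith
  obtain ⟨N1, hN1⟩ := eventually_atTop.1 (hprof (κ / 4) (by positivity))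
  have ll : Tendsto (fun x : ℕ => Real.log (Real.log (x : ℝ))) atTop atTop := Real.tendsto_log_atTop.comp tendsto_log
  have hlL : ∀ᶠ x : ℕ in atTop, Real.log (Real.log (x : ℝ)) ≤ 1 / (2 * (k + 1)) * Real.log (x : ℝ) := by
    have h := (Real.isLittleO_log_id_atTop.bound (show (0 : ℝ) < 1 / (2 * (k + 1)) by positivity))
    filter_upwards [tendsto_log.eventually h, tendsto_log.eventually_ge_atTop 1] with x hx hx1
    rw [Real.norm_eq_abs, Real.norm_eq_abs, id, abs_of_nonneg (by linarith : (0 : ℝ) ≤ Real.log (x : ℝ))] at hx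
    exact (le_abs_self _).trans hx
  have herr : ∀ᶠ x : ℕ in atTop, 9 * (lam + 1) / θ * (Real.log (x : ℝ) ^ (k + 3)) ≤ ε / 16 * x := by
    have h := (((isLittleO_log_rpow_rpow_atTop (s := (1 : ℝ)) ((k : ℝ) + 3) one_pos).bound
      (show (0 : ℝ) < ε / 16 / (9 * (lam + 1) / θ) by positivity)).natCast_atTop)
    filter_upwards [h, tendsto_log.eventually_ge_atTop 1] with x hx hlog
    rw [Real.norm_eq_abs, Real.norm_eq_abs, Real.rpow_one, abs_of_nonneg (by positivity), abs_of_nonneg (by positivity)] at hx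
    have e1 : Real.log (x : ℝ) ^ ((k : ℝ) + 3) = Real.log (x : ℝ) ^ (k + 3) := by exact_mod_cast Real.rpow_natCast (Real.log (x : ℝ)) (k + 3)
    rw [e1] at hx
    have h2 := mul_le_mul_of_nonneg_left hx (show 0 ≤ 9 * (lam + 1) / θ by positivity)
    refine h2.trans (le_of_eq ?_)
    field_simp
  have hyt : ∀ᶠ x : ℕ in atTop, (N1 : ℝ) + 2 ≤ (x : ℝ) / Real.log x ^ (k + 1) := by
    have h := (((isLittleO_log_rpow_rpow_atTop (s := (1 : ℝ)) ((k : ℝ) + 1) one_pos).bound
      (show (0 : ℝ) < 1 / ((N1 : ℝ) + 2) by positivity)).natCast_atTop)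
    filter_upwards [h, tendsto_log.eventually_ge_atTop 1] with x hx hlog
    rw [Real.norm_eq_abs, Real.norm_eq_abs, Real.rpow_one, abs_of_nonneg (by positivity), abs_of_nonneg (by positivity)] at hx
    have e1 : Real.log (x : ℝ) ^ ((k : ℝ) + 1) = Real.log (x : ℝ) ^ (k + 1) := by exact_mod_cast Real.rpow_natCast (Real.log (x : ℝ)) (k + 1)
    rw [e1, div_mul_eq_mul_div, one_mul, le_div_iff₀ (by positivity)] at hx
    rw [le_div_iff₀ (by positivity)]
    linarith
  filter_upwards [hev m k, E_asymp (A := A) hW k hlam (show 0 < min 1 (ε / 4) by positivity), hlL, herr, hyt,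
    tendsto_log.eventually_ge_atTop 1, tendsto_log.eventually_ge_atTop (4 * c), tendsto_log.eventually_ge_atTop (lam + 1),
    tendsto_log.eventually_ge_atTop (8 / ε), eventually_ge_atTop 3]
    with x hev hEa hlL herr hyt hL1 hLc hLlam hLε hx3 s H hs hH hHk
  set L := Real.log (x : ℝ) with hL
  have hL0 : 0 < L := by linarith
  have hxr : (3 : ℝ) ≤ x := by exact_mod_cast hx3
  have hxp : (0 : ℝ) < x := by linarith
  have hLk : 1 ≤ L ^ (k + 1) := one_le_pow₀ hL1
  set y := yk k x with hy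
  have hy1 : (y : ℝ) ≤ x / L ^ (k + 1) := Nat.floor_le (by positivity)
  have hy2 : (x : ℝ) / L ^ (k + 1) < y + 1 := Nat.lt_floor_add_one _
  have hyx : (y : ℝ) ≤ x := hy1.trans (div_le_self hxp.le hLk)
  have hyx' : y ≤ x := by exact_mod_cast hyx
  have hyN : N1 ≤ y := by
    have : (N1 : ℝ) ≤ y := by linarith
    exact_mod_cast this
  have hs0 : (0 : ℝ) ≤ s := Nat.cast_nonneg s
  have hsL2 : (s : ℝ) ≤ L ^ 2 := by nlinarith
  have hsS : s ≤ Sx x := Nat.le_floor hsL2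
  have hHS : H ⊆ Finset.range (Sx x + 1) := hH.trans (Finset.range_subset_range.2 (by omega))
  set M := x - y with hM
  set U : ℕ → ℝ := fun j => Us A (rhoW W) H s (y + 1) M j ω with hU
  set r : ℝ := 2 * c / L with hr
  have hr0 : 0 ≤ r := by positivity
  have hr1 : r ≤ 1 / 2 := by
    rw [hr, div_le_iff₀ hL0]
    linarith
  -- the densities
  have hρr : ∀ v : ℕ, y + 1 ≤ v → rhoW W v ≤ r := by
    intro v hv
    have hv' : (y : ℝ) + 1 ≤ v := by exact_mod_cast hv
    have hy0 : (0 : ℝ) ≤ y := Nat.cast_nonneg y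
    have hv0 : (0 : ℝ) < v := by linarith
    have h1 : (x : ℝ) / L ^ (k + 1) ≤ v := by linarith
    have h2 := Real.log_le_log (by positivity) h1
    rw [Real.log_div hxp.ne' (by positivity), Real.log_pow, ← hL] at h2
    push_cast at h2
    have h3 : ((k : ℝ) + 1) * Real.log L ≤ L / 2 := by
      have := mul_le_mul_of_nonneg_left hlL (show (0 : ℝ) ≤ (k : ℝ) + 1 by positivity)
      calc ((k : ℝ) + 1) * Real.log L ≤ ((k : ℝ) + 1) * (1 / (2 * (k + 1)) * L) := this
        _ = _ := by field_simp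
    have hlv : L / 2 ≤ Real.log v := by linarith
    unfold rhoW
    split_ifs
    · refine (min_le_right _ _).trans ?_
      rw [← hc, hr, div_le_div_iff₀ (by linarith) hL0]
      nlinarith
    · exact hr0
  have hstep : ∀ j < s + 1, |U (j + 1) - U j| ≤ ka (θ * (1 + κ / 4) + κ / 4) r H j * U j + 3 * L ^ 2 / θ := by
    intro j hj
    obtain ⟨g1, g2⟩ := hev s hsS H hHS j (by omega)
    exact Us_step (μ := μ) hρ H (by omega : j ≤ s) hθ0 hθ1 (by positivity) hr0 hr1 h01 (fun i hi => by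
      have h1 := hN1 (y + 1 + j + i - 1) (by omega)
      rwa [show y + 1 + j + i - 1 + 1 = y + 1 + j + i by omega] at h1) (fun i hi => hρr _ (by omega)) g1 g2
  have hκ' : θ * (1 + κ / 4) + κ / 4 ≤ κ := by nlinarith
  have hκ'0 : 0 ≤ θ * (1 + κ / 4) + κ / 4 := by positivity
  have hka : ∀ j, 0 ≤ ka (θ * (1 + κ / 4) + κ / 4) r H j ∧ ka (θ * (1 + κ / 4) + κ / 4) r H j ≤ 1 := by
    intro j
    unfold ka
    split_ifs
    · constructor <;> linarith
    · constructor
      · positivity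
      · nlinarith
  obtain ⟨b1, b2⟩ := Us_bounds (U := U) (k := ka (θ * (1 + κ / 4) + κ / 4) r H) (τ := 3 * L ^ 2 / θ) (N := s + 1)
    (fun j => Us_nonneg hρ H s _ _ j ω) hka (by positivity) hstep (s + 1) le_rfl
  set K := ∑ i ∈ Finset.range (s + 1), ka (θ * (1 + κ / 4) + κ / 4) r H i with hK
  have hK0 : 0 ≤ K := Finset.sum_nonneg fun i _ => (hka i).1
  have hKB : K ≤ κ * B := by
    have e1 : K ≤ κ * (k + (s + 1) * (2 * r)) := by
      have h1 : ∀ i ∈ Finset.range (s + 1), ka (θ * (1 + κ / 4) + κ / 4) r H i ≤ κ * ((if i ∈ H then 1 else 0) + 2 * r) := by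
        intro i _
        unfold ka
        split_ifs
        · have : 0 ≤ κ * (2 * r) := by positivity
          linarith
        · rw [zero_add]
          exact mul_le_mul_of_nonneg_right hκ' (by positivity)
      refine (Finset.sum_le_sum h1).trans (le_of_eq ?_)
      rw [← Finset.mul_sum, Finset.sum_add_distrib, Finset.sum_boole, Finset.sum_const, Finset.card_range, nsmul_eq_mul]
      have : (Finset.range (s + 1)).filter (fun i => i ∈ H) = H := by
        ext i
        rw [Finset.mem_filter]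
        exact ⟨fun h => h.2, fun h => ⟨hH h, h⟩⟩
      rw [this, hHk]
      push_cast
      ring
    refine e1.trans (mul_le_mul_of_nonneg_left ?_ hκ0.le)
    have e2 : ((s : ℝ) + 1) * (2 * r) ≤ 4 * c * (lam + 1) := by
      have h1 : ((s : ℝ) + 1) ≤ (lam + 1) * L := by nlinarith
      calc ((s : ℝ) + 1) * (2 * r) ≤ ((lam + 1) * L) * (2 * r) := mul_le_mul_of_nonneg_right h1 (by positivity)
        _ = 4 * c * (lam + 1) := by rw [hr]; field_simp; ring
    rw [hB]
    linarith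
  have hK1 : K ≤ 1 := hKB.trans hκB
  -- the expected number
  have hEa' := hEa s H hs hH hHk ω
  rw [← hc] at hEa'
  have hsing : dH H W * c ^ k = singH Q H := by
    rw [← hHk]
    exact dH_sing Q hQ H
  rw [hsing] at hEa'
  have hexp : Real.exp (-(s / L)) ≤ 1 := Real.exp_le_one_iff.2 (by
    have : 0 ≤ (s : ℝ) / L := by positivity
    linarith)
  have hsing0 : 0 ≤ singH Q H ∧ singH Q H ≤ c ^ k := by
    rw [← hsing]
    obtain ⟨d0, d1⟩ := dH01 H hW
    exact ⟨by positivity, mul_le_of_le_one_left hck.le d1⟩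
  set E := U 0 with hE
  have hEdef : Us A (rhoW W) H s (y + 1) M 0 ω = E := rfl
  rw [hEdef] at hEa'
  have hE0' : 0 ≤ E := Us_nonneg hρ H s _ _ 0 ω
  have ha := abs_le.1 (hEa'.trans (min_le_right _ _))
  have hb := abs_le.1 (hEa'.trans (min_le_left _ _))
  set e := E * L ^ k / x with he
  have he0 : 0 ≤ e := by positivity
  have heE : e ≤ E0 := by
    have h1 : singH Q H * Real.exp (-(s / L)) ≤ c ^ k * 1 := mul_le_mul hsing0.2 hexp (Real.exp_pos _).le hck.le
    rw [hE0]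
    linarith [hb.2]
  -- the count
  obtain ⟨n1, n2⟩ := count_split (A := A) (ω := ω) H (s := s) hyx' (rhoW W)
  set N := (((Finset.Icc 1 x).filter (fun n => ∀ j ≤ s, (ω ∈ A (n + j) ↔ j ∈ H))).card : ℝ) with hN
  have hUs : Us A (rhoW W) H s (y + 1) (x - y) (s + 1) ω = U (s + 1) := rfl
  rw [hUs] at n1 n2
  set τ' := ((s + 1 : ℕ) : ℝ) * (3 * L ^ 2 / θ) with hτ'
  have hτx : 3 * τ' * L ^ k / x ≤ ε / 16 := by
    rw [div_le_iff₀ hxp]
    refine le_trans ?_ herr
    have h1 : ((s + 1 : ℕ) : ℝ) ≤ (lam + 1) * L := by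
      push_cast
      nlinarith
    calc 3 * τ' * L ^ k ≤ 3 * ((lam + 1) * L * (3 * L ^ 2 / θ)) * L ^ k := by
          rw [hτ']
          gcongr
      _ = 9 * (lam + 1) / θ * L ^ (k + 3) := by ring
  have hyL : (y : ℝ) * L ^ k / x ≤ ε / 8 := by
    rw [div_le_iff₀ hxp]
    have h1 : (y : ℝ) * L ^ (k + 1) ≤ x := by rwa [le_div_iff₀ (by positivity)] at hy1
    have h2 : (y : ℝ) * L ^ (k + 1) = (y * L ^ k) * L := by ring
    rw [h2] at h1
    have h3 : 8 ≤ L * ε := by rwa [div_le_iff₀ hε] at hLε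
    have h4 : 0 ≤ (y : ℝ) * L ^ k := by positivity
    nlinarith
  have hLx : 0 < L ^ k / x := by positivity
  have hτ0 : 0 ≤ τ' := by positivity
  have hexpK : Real.exp K ≤ 1 + 2 * K := by
    have h := Real.abs_exp_sub_one_sub_id_le (x := K) (by rw [abs_of_nonneg hK0]; exact hK1)
    have := (abs_le.1 h).2
    nlinarith
  have hup : N * L ^ k / x ≤ e + ε / 2 := by
    have h1 : N ≤ (1 + 2 * K) * (E + τ') + y := by
      refine n2.trans ?_
      have := mul_le_mul_of_nonneg_right hexpK (show 0 ≤ E + τ' by positivity)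
      linarith
    have h2 : N * L ^ k / x ≤ ((1 + 2 * K) * (E + τ') + y) * (L ^ k / x) := by
      rw [mul_div_assoc]
      exact mul_le_mul_of_nonneg_right h1 hLx.le
    have h3 : ((1 + 2 * K) * (E + τ') + y) * (L ^ k / x) = e + 2 * (K * e) + (1 + 2 * K) * (τ' * L ^ k / x) + y * L ^ k / x := by
      rw [he]
      ring
    have h4 : K * e ≤ ε / 16 := (mul_le_mul hKB heE he0 (by positivity)).trans hκE
    have h5 : (1 + 2 * K) * (τ' * L ^ k / x) ≤ 3 * (τ' * L ^ k / x) := mul_le_mul_of_nonneg_right (by linarith) (by positivity)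
    have h6 : 3 * (τ' * L ^ k / x) = 3 * τ' * L ^ k / x := by ring
    linarith
  have hlo : e - ε / 2 ≤ N * L ^ k / x := by
    have h1 : (1 - K) * E - τ' ≤ N := b1.trans n1
    have h2 : ((1 - K) * E - τ') * (L ^ k / x) ≤ N * L ^ k / x := by
      rw [mul_div_assoc N]
      exact mul_le_mul_of_nonneg_right h1 hLx.le
    have h3 : ((1 - K) * E - τ') * (L ^ k / x) = e - K * e - τ' * L ^ k / x := by
      rw [he]
      ring
    have h4 : K * e ≤ ε / 16 := (mul_le_mul hKB heE he0 (by positivity)).trans hκE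
    have h5 : τ' * L ^ k / x ≤ 3 * τ' * L ^ k / x := by
      have : 0 ≤ τ' * L ^ k / x := by positivity
      have h6 : 3 * τ' * L ^ k / x = 3 * (τ' * L ^ k / x) := by ring
      linarith
    linarith
  rw [abs_le]
  constructor <;> linarith [ha.1, ha.2]

end Pool.Agent.N893.SM
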