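import Mathlib
import Pool.Agent.N893.SM.W2

set_option autoImplicit false
set_option linter.unusedSectionVars false
set_option linter.unusedVariables false

/-! # Montgomery's bound in progressions: deterministic part -/

open MeasureTheory Filter Set
open scoped ENNReal Topology

namespace Pool.Agent.N893.SM

open Pool.Agent.R528.RM

/-- the sum over the members of a progression up to `x` -/
noncomputable def SA (f : ℕ → ℝ) (x q a : ℕ) : ℝ := ∑ n ∈ (Finset.Icc 1 x).filter (fun n => n ≡ a [MOD q]), f n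

/-- the number of members -/
def Jn (x q a : ℕ) : ℕ := (x + q - a) / q

lemma SA_eq (f : ℕ → ℝ) {x q a : ℕ} (hq : 1 ≤ q) (ha : 1 ≤ a) (haq : a ≤ q) :
    SA f x q a = ∑ k ∈ Finset.range (Jn x q a), f (a + k * q) := by
  classical
  unfold SA
  have hinj : Set.InjOn (fun k : ℕ => a + k * q) (Finset.range (Jn x q a)) := fun i _ j _ h => (pg_mono hq).injective h
  have h1 : (Finset.Icc 1 x).filter (fun n => n ≡ a [MOD q]) = (Finset.range (Jn x q a)).image (fun k => a + k * q) := by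
    ext n
    rw [Finset.mem_filter, Finset.mem_Icc, Finset.mem_image]
    constructor
    · rintro ⟨⟨h1, h2⟩, h3⟩
      have han : a ≤ n := by
        by_contra hcon
        have h4 : n < q := by omega
        have h5 : n % q = a % q := h3
        rw [Nat.mod_eq_of_lt h4] at h5
        by_cases h6 : a = q
        · rw [h6, Nat.mod_self] at h5
          omega
        · rw [Nat.mod_eq_of_lt (by omega)] at h5
          omega
      obtain ⟨k, hk⟩ := (Nat.modEq_iff_dvd' han).1 h3.symm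
      refine ⟨k, Finset.mem_range.2 ?_, by rw [mul_comm k q, ← hk]; omega⟩
      unfold Jn
      rw [Nat.lt_iff_add_one_le, Nat.le_div_iff_mul_le hq]
      have : (k + 1) * q = q * k + q := by ring
      omega
    · rintro ⟨k, hk, rfl⟩
      rw [Finset.mem_range] at hk
      unfold Jn at hk
      rw [Nat.lt_iff_add_one_le, Nat.le_div_iff_mul_le hq] at hk
      have : (k + 1) * q = k * q + q := by ring
      refine ⟨⟨by omega, by omega⟩, ?_⟩
      unfold Nat.ModEq
      rw [Nat.add_mul_mod_self_right]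
  rw [h1, Finset.sum_image hinj]

lemma Jn_bounds {x q a : ℕ} (hq : 1 ≤ q) (haq : a ≤ q) : (x : ℝ) / q - 1 ≤ Jn x q a ∧ (Jn x q a : ℝ) ≤ x / q + 1 := by
  have hqr : (0 : ℝ) < q := by exact_mod_cast hq
  unfold Jn
  have h1 : (x + q - a) / q * q ≤ x + q - a := Nat.div_mul_le_self _ _
  have h2 : x + q - a < ((x + q - a) / q + 1) * q := Nat.lt_mul_of_div_lt (Nat.lt_succ_self _) hq
  set j := (x + q - a) / q
  have h3 : (j : ℝ) * q ≤ x + q := by
    have : j * q ≤ x + q := by omega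
    exact_mod_cast this
  have h4 : (x : ℝ) ≤ (j + 1) * q := by
    have : x ≤ (j + 1) * q := by omega
    exact_mod_cast this
  constructor
  · rw [sub_le_iff_le_add, div_le_iff₀ hqr]
    exact h4
  · rw [← sub_le_iff_le_add, le_div_iff₀ hqr]
    linarith

lemma Jn_mem {x q a k : ℕ} (hq : 1 ≤ q) (hk : k < Jn x q a) (haq : a ≤ q) : a + k * q ≤ x := by
  unfold Jn at hk
  rw [Nat.lt_iff_add_one_le, Nat.le_div_iff_mul_le hq] at hk
  have : (k + 1) * q = k * q + q := by ring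
  omega

/-- Abel's inequality -/
lemma abel_anti {l h : ℕ → ℝ} {C : ℝ} (hl : ∀ n, l (n + 1) ≤ l n) (hl0 : ∀ n, 0 ≤ l n) (hC : 0 ≤ C) (N : ℕ)
    (hh : ∀ n ≤ N, |∑ k ∈ Finset.range n, h k| ≤ C) : |∑ k ∈ Finset.range N, l k * h k| ≤ C * l 0 := by
  have e : ∀ n, ∑ k ∈ Finset.range n, l k * h k = l n * (∑ k ∈ Finset.range n, h k) +
      ∑ k ∈ Finset.range n, (l k - l (k + 1)) * ∑ i ∈ Finset.range (k + 1), h i := by
    intro n
    induction n with
    | zero => simp
    | succ n ih =>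
      rw [Finset.sum_range_succ, ih, Finset.sum_range_succ (fun k => (l k - l (k + 1)) * _), Finset.sum_range_succ h]
      ring
  rw [e N]
  have h1 : |l N * ∑ k ∈ Finset.range N, h k| ≤ l N * C := by
    rw [abs_mul, abs_of_nonneg (hl0 N)]
    exact mul_le_mul_of_nonneg_left (hh N le_rfl) (hl0 N)
  have h2 : |∑ k ∈ Finset.range N, (l k - l (k + 1)) * ∑ i ∈ Finset.range (k + 1), h i| ≤ ∑ k ∈ Finset.range N, (l k - l (k + 1)) * C := by
    refine (Finset.abs_sum_le_sum_abs _ _).trans (Finset.sum_le_sum fun k hk => ?_)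
    rw [Finset.mem_range] at hk
    rw [abs_mul, abs_of_nonneg (by linarith [hl k])]
    exact mul_le_mul_of_nonneg_left (hh _ (by omega)) (by linarith [hl k])
  rw [← Finset.sum_mul, Finset.sum_range_sub'] at h2
  calc _ ≤ _ := abs_add_le _ _
    _ ≤ l N * C + (l 0 - l N) * C := add_le_add h1 h2
    _ = C * l 0 := by ring

/-- Abel's inequality with logarithms -/
lemma abel_log {e : ℕ → ℝ} {M : ℝ} (hM : 0 ≤ M) {x : ℕ} (hx : 1 ≤ x)
    (he : ∀ n, 1 ≤ n → n ≤ x → |∑ k ∈ Finset.Icc 1 n, e k| ≤ M) :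
    |∑ k ∈ Finset.Icc 1 x, Real.log k * e k| ≤ 2 * M * Real.log x := by
  have key : ∀ n : ℕ, ∑ k ∈ Finset.Icc 1 (n + 1), Real.log k * e k = Real.log ((n + 1 : ℕ) : ℝ) * (∑ k ∈ Finset.Icc 1 (n + 1), e k) -
      ∑ k ∈ Finset.range n, (Real.log ((k + 2 : ℕ) : ℝ) - Real.log ((k + 1 : ℕ) : ℝ)) * ∑ i ∈ Finset.Icc 1 (k + 1), e i := by
    intro n
    induction n with
    | zero => simp
    | succ n ih =>
      rw [Finset.sum_Icc_succ_top (by omega), ih, Finset.sum_range_succ, Finset.sum_Icc_succ_top (b := n + 1) (by omega) e]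
      ring
  obtain ⟨n, rfl⟩ : ∃ n, x = n + 1 := ⟨x - 1, by omega⟩
  rw [key n]
  have hlog : ∀ k : ℕ, 0 ≤ Real.log ((k + 2 : ℕ) : ℝ) - Real.log ((k + 1 : ℕ) : ℝ) := by
    intro k
    rw [sub_nonneg]
    refine Real.log_le_log (by positivity) ?_
    exact_mod_cast (by omega : k + 1 ≤ k + 2)
  have h1 : |Real.log ((n + 1 : ℕ) : ℝ) * (∑ k ∈ Finset.Icc 1 (n + 1), e k)| ≤ Real.log ((n + 1 : ℕ) : ℝ) * M := by
    rw [abs_mul, abs_of_nonneg (Real.log_natCast_nonneg _)]
    exact mul_le_mul_of_nonneg_left (he _ (by omega) le_rfl) (Real.log_natCast_nonneg _)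
  have h2 : |∑ k ∈ Finset.range n, (Real.log ((k + 2 : ℕ) : ℝ) - Real.log ((k + 1 : ℕ) : ℝ)) * ∑ i ∈ Finset.Icc 1 (k + 1), e i| ≤
      ∑ k ∈ Finset.range n, (Real.log ((k + 2 : ℕ) : ℝ) - Real.log ((k + 1 : ℕ) : ℝ)) * M := by
    refine (Finset.abs_sum_le_sum_abs _ _).trans (Finset.sum_le_sum fun k hk => ?_)
    rw [Finset.mem_range] at hk
    rw [abs_mul, abs_of_nonneg (hlog k)]
    exact mul_le_mul_of_nonneg_left (he _ (by omega) (by omega)) (hlog k)
  have h3 : ∑ k ∈ Finset.range n, (Real.log ((k + 2 : ℕ) : ℝ) - Real.log ((k + 1 : ℕ) : ℝ)) * M = Real.log ((n + 1 : ℕ) : ℝ) * M := by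
    rw [← Finset.sum_mul]
    congr 1
    have := Finset.sum_range_sub (fun k : ℕ => Real.log ((k + 1 : ℕ) : ℝ)) n
    rw [show (fun k : ℕ => Real.log ((k + 2 : ℕ) : ℝ) - Real.log ((k + 1 : ℕ) : ℝ)) =
      fun k : ℕ => Real.log ((k + 1 + 1 : ℕ) : ℝ) - Real.log ((k + 1 : ℕ) : ℝ) from rfl, this]
    simp
  rw [h3] at h2
  calc _ ≤ _ := abs_sub _ _
    _ ≤ Real.log ((n + 1 : ℕ) : ℝ) * M + Real.log ((n + 1 : ℕ) : ℝ) * M := add_le_add h1 h2
    _ = _ := by ring

/-- equidistribution of the integers prime to `W` in an admissible class -/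
lemma cop_equi (Q : Finset ℕ) (hQ : ∀ p ∈ Q, p.Prime) {q a : ℕ} (hq : 1 ≤ q) (ha : 1 ≤ a) (haq : a ≤ q) (had : Ad Q q a) (n : ℕ) :
    |SA (fun m => if m.Coprime (∏ p ∈ Q, p) then 1 else 0) n q a - (SA (fun m => if m.Coprime (∏ p ∈ Q, p) then 1 else 0) n 1 1) / phiQ Q q| ≤
      2 * (∏ p ∈ Q, p : ℕ) ^ 2 + 2 := by
  classical
  set W := ∏ p ∈ Q, p with hWdef
  have hW : 0 < W := Finset.prod_pos fun q hq => (hQ q hq).pos
  have hWr : (1 : ℝ) ≤ W := by exact_mod_cast hW
  set c := (W : ℝ) / Nat.totient W with hc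
  have hc1 : 1 ≤ c := c_one hW
  have hqr : (1 : ℝ) ≤ q := by exact_mod_cast hq
  obtain ⟨p1, p2⟩ := phiQ_bounds Q hQ q
  have hphi : 0 < phiQ Q q := lt_of_lt_of_le (by positivity) p1
  have had1 : Ad Q 1 1 := by
    intro p hp h
    exact (hQ p hp).one_lt.ne' (Nat.dvd_one.1 h.1)
  rw [SA_eq _ hq ha haq, SA_eq _ le_rfl le_rfl le_rfl]
  have e0 : ∀ (d b J : ℕ), (∑ k ∈ Finset.range J, (fun m : ℕ => if m.Coprime W then (1 : ℝ) else 0) (b + k * d)) = Nat.count (good (linP d b) W) J := by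
    intro d b J
    simp only
    rw [Finset.sum_boole, Nat.count_eq_card_filter_range]
    congr 2
    ext k
    rw [Finset.mem_filter, Finset.mem_filter, good_lin]
  rw [e0, e0]
  have c1 := abs_le.1 (count_per (good (linP q a) W) W hW (good_periodic _ W) (Jn n q a))
  have c2 := abs_le.1 (count_per (good (linP 1 1) W) W hW (good_periodic _ W) (Jn n 1 1))
  have g1 := cg_eq Q hQ hq had
  have g2 := cg_eq Q hQ le_rfl had1
  rw [← hWdef, ← hc] at g1 g2
  have hphi1 : phiQ Q 1 = 1 := by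
    unfold phiQ
    rw [Finset.filter_false_of_mem]
    · simp
    · intro p hp h
      exact (hQ p hp).one_lt.ne' (Nat.dvd_one.1 h)
  rw [hphi1, Nat.cast_one, div_one] at g2
  set ga := (Nat.count (good (linP q a) W) W : ℝ) / W with hga
  set gb := (Nat.count (good (linP 1 1) W) W : ℝ) / W with hgb
  have hga0 : 0 ≤ ga := by positivity
  have hga1 : ga ≤ 1 := by
    rw [hga, div_le_one (by linarith)]
    exact_mod_cast Nat.count_le _ (n := W)
  have hrel : ga = gb * (q / phiQ Q q) := by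
    have hc0 : c ≠ 0 := by linarith
    have e1 : c * ga = c * (gb * (q / phiQ Q q)) := by
      rw [g1, ← mul_assoc, g2, one_mul]
    exact mul_left_cancel₀ hc0 e1
  obtain ⟨j1, j2⟩ := Jn_bounds (x := n) hq haq
  have hJ1 : Jn n 1 1 = n := by
    unfold Jn
    simp
  rw [hJ1] at c2
  have hWphi : (W : ℝ) / phiQ Q q ≤ W ^ 2 := by
    rw [div_le_iff₀ hphi]
    have : (q : ℝ) ≤ W * phiQ Q q := by
      rw [div_le_iff₀ (by positivity)] at p1
      linarith
    nlinarith
  have hmain : |(Jn n q a : ℝ) * ga - n * gb / phiQ Q q| ≤ 1 := by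
    have hqp : 0 < (q : ℝ) := by linarith
    have e1 : (n : ℝ) * gb / phiQ Q q = n / q * ga := by
      rw [hrel]
      field_simp
    rw [e1, ← sub_mul, abs_mul, abs_of_nonneg hga0]
    have e2 : |(Jn n q a : ℝ) - n / q| ≤ 1 := by
      rw [abs_le]
      constructor <;> linarith
    calc |(Jn n q a : ℝ) - n / q| * ga ≤ 1 * 1 := mul_le_mul e2 hga1 hga0 zero_le_one
      _ = 1 := one_mul 1
  have hm := abs_le.1 hmain
  have hc2' : |((Nat.count (good (linP 1 1) W) n : ℝ) - n * gb) / phiQ Q q| ≤ W ^ 2 := by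
    rw [abs_div, abs_of_pos hphi]
    refine le_trans (div_le_div_of_nonneg_right (abs_le.2 ⟨c2.1, c2.2⟩) hphi.le) hWphi
  rw [hJ1]
  have hc3 := abs_le.1 hc2'
  have e3 : (Nat.count (good (linP q a) W) (Jn n q a) : ℝ) - (Nat.count (good (linP 1 1) W) n : ℝ) / phiQ Q q =
      ((Nat.count (good (linP q a) W) (Jn n q a) : ℝ) - Jn n q a * ga) + ((Jn n q a : ℝ) * ga - n * gb / phiQ Q q) -
      ((Nat.count (good (linP 1 1) W) n : ℝ) - n * gb) / phiQ Q q := by
    rw [sub_div]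
    ring
  rw [e3]
  have hWW : (W : ℝ) ≤ W ^ 2 := by nlinarith
  rw [abs_le]
  constructor
  · linarith [c1.1, hm.1, hc3.2]
  · linarith [c1.2, hm.2, hc3.1]

end Pool.Agent.N893.SM
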