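import Mathlib
import Pool.Agent.N893.SM.M1

set_option autoImplicit false
set_option linter.unusedSectionVars false
set_option linter.unusedVariables false

/-! # Montgomery's bound in progressions: probabilistic part -/

open MeasureTheory Filter Set
open scoped ENNReal Topology

namespace Pool.Agent.N893.SM

open Pool.Agent.R528.RM

variable {Ω : Type} {m0 : MeasurableSpace Ω} {μ : Measure Ω} [IsProbabilityMeasure μ]
  {ℱ : Filtration ℕ m0} {A : ℕ → Set Ω}

/-- the parameter -/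
noncomputable def tq (x q : ℕ) : ℝ := min 1 (Real.log x * √((q : ℝ) / x))

/-- the events -/
theorem errM (hA : ∀ n, MeasurableSet[ℱ n] (A n)) :
    ∀ᵐ ω ∂μ, ∀ᶠ x : ℕ in atTop, ∀ q a : ℕ, 1 ≤ q → q ≤ x → 1 ≤ a → a ≤ q →
      GA μ ℱ A (tq x q) q (Jn x q a) a ω < 5 * Real.log x ∧ GA μ ℱ A (-tq x q) q (Jn x q a) a ω < 5 * Real.log x := by
  set Bad : ℕ → Set Ω := fun x => ⋃ q ∈ Finset.Icc 1 x, ⋃ a ∈ Finset.Icc 1 x,
    ({ω | 5 * Real.log x ≤ GA μ ℱ A (tq x q) q (Jn x q a) a ω} ∪ {ω | 5 * Real.log x ≤ GA μ ℱ A (-tq x q) q (Jn x q a) a ω}) with hBad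
  have hsum : Summable (fun n : ℕ => 2 * ((n : ℝ) ^ 2)⁻¹) := (Real.summable_nat_pow_inv.2 (by norm_num)).mul_left 2
  have hb : ∀ᶠ n in atTop, μ.real (Bad n) ≤ 2 * ((n : ℝ) ^ 2)⁻¹ := by
    filter_upwards [eventually_ge_atTop 1] with x hx
    have hx0 : (1 : ℝ) ≤ x := by exact_mod_cast hx
    have hxp : (0 : ℝ) < x := by linarith
    have hexp : Real.exp (-(5 * Real.log x)) = ((x : ℝ) ^ 5)⁻¹ := by
      rw [exp_log_rpow hx]
      congr 1
      exact_mod_cast Real.rpow_natCast (x : ℝ) 5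
    have h1 : ∀ q ∈ Finset.Icc 1 x, ∀ a ∈ Finset.Icc 1 x, μ.real ({ω | 5 * Real.log x ≤ GA μ ℱ A (tq x q) q (Jn x q a) a ω} ∪
        {ω | 5 * Real.log x ≤ GA μ ℱ A (-tq x q) q (Jn x q a) a ω}) ≤ 2 * ((x : ℝ) ^ 5)⁻¹ := by
      intro q hq a ha
      refine (measureReal_union_le _ _).trans ?_
      have a1 := GA_tail (μ := μ) hA (tq x q) (Finset.mem_Icc.1 hq).1 (Finset.mem_Icc.1 ha).1 (Jn x q a) (5 * Real.log x)
      have a2 := GA_tail (μ := μ) hA (-tq x q) (Finset.mem_Icc.1 hq).1 (Finset.mem_Icc.1 ha).1 (Jn x q a) (5 * Real.log x)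
      rw [hexp] at a1 a2
      linarith
    have h2 : μ.real (Bad x) ≤ ∑ q ∈ Finset.Icc 1 x, ∑ a ∈ Finset.Icc 1 x, 2 * ((x : ℝ) ^ 5)⁻¹ :=
      (measureReal_biUnion_finset_le _ _).trans (Finset.sum_le_sum fun q hq =>
        (measureReal_biUnion_finset_le _ _).trans (Finset.sum_le_sum fun a ha => h1 q hq a ha))
    refine h2.trans ?_
    rw [Finset.sum_const, Finset.sum_const, Nat.card_Icc, Nat.add_sub_cancel, nsmul_eq_mul, nsmul_eq_mul]
    have e1 : (x : ℝ) * (x * (2 * ((x : ℝ) ^ 5)⁻¹)) = 2 * ((x : ℝ) ^ 3)⁻¹ := by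
      field_simp
    rw [e1]
    have e2 : ((x : ℝ) ^ 3)⁻¹ ≤ ((x : ℝ) ^ 2)⁻¹ := inv_anti₀ (by positivity) (pow_le_pow_right₀ hx0 (by norm_num))
    linarith
  filter_upwards [bc_real (μ := μ) hsum hb] with ω hω
  filter_upwards [hω] with x hx q a hq hqx ha haq
  constructor
  · by_contra hcon
    apply hx
    simp only [hBad, Set.mem_iUnion]
    exact ⟨q, Finset.mem_Icc.2 ⟨hq, hqx⟩, a, Finset.mem_Icc.2 ⟨ha, by omega⟩, Or.inl (not_lt.1 hcon)⟩
  · by_contra hcon
    apply hx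
    simp only [hBad, Set.mem_iUnion]
    exact ⟨q, Finset.mem_Icc.2 ⟨hq, hqx⟩, a, Finset.mem_Icc.2 ⟨ha, by omega⟩, Or.inr (not_lt.1 hcon)⟩

/-- the difference in one class -/
noncomputable def dif (μ : Measure Ω) (ℱ : Filtration ℕ m0) (A : ℕ → Set Ω) (ω : Ω) (n : ℕ) : ℝ := In A n ω - dens μ ℱ A (n - 1) ω

/-- sum of the conditional probabilities in a class -/
lemma dens_sum {ω : Ω} (h01 : ∀ n, 0 ≤ dens μ ℱ A n ω ∧ dens μ ℱ A n ω ≤ 1) {B : ℝ} (hB : 1 ≤ B)
    (hd : ∀ n : ℕ, 2 ≤ n → dens μ ℱ A n ω * Real.log n ≤ B) {x q a : ℕ} (hq : 1 ≤ q) (hqx : q ≤ x) (ha : 1 ≤ a) (haq : a ≤ q)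
    (hx : 16 ≤ x) (hlog : 1 ≤ Real.log x) :
    ∑ k ∈ Finset.range (Jn x q a), dens μ ℱ A (a + k * q - 1) ω ≤ 12 * B * ((x : ℝ) / q / Real.log x + 1) := by
  have hxr : (16 : ℝ) ≤ x := by exact_mod_cast hx
  have hxp : (0 : ℝ) < x := by linarith
  have hqr : (1 : ℝ) ≤ q := by exact_mod_cast hq
  have hqp : (0 : ℝ) < q := by linarith
  set L := Real.log (x : ℝ) with hL
  set s := √(x : ℝ) with hs
  have hs4 : 4 ≤ s := by
    rw [hs, show (4 : ℝ) = √16 by rw [show (16 : ℝ) = 4 ^ 2 by norm_num]; exact (Real.sqrt_sq (by norm_num)).symm]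
    exact Real.sqrt_le_sqrt hxr
  have hss : s * s = x := Real.mul_self_sqrt hxp.le
  have hLs : Real.log s = L / 2 := Real.log_sqrt hxp.le
  have hLle : L ≤ 2 * s := by
    have := Real.log_le_sub_one_of_pos (show 0 < s by linarith)
    rw [hLs] at this
    linarith
  -- pointwise
  have h1 : ∀ k ∈ Finset.range (Jn x q a), dens μ ℱ A (a + k * q - 1) ω ≤ (if k < ⌊s / q⌋₊ + 1 then 1 else 0) + 4 * B / L := by
    intro k hk
    split_ifs with hks
    · have := (h01 (a + k * q - 1)).2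
      have : 0 ≤ 4 * B / L := by positivity
      linarith
    · rw [zero_add]
      push Not at hks
      have e1 : s / q < ⌊s / q⌋₊ + 1 := Nat.lt_floor_add_one _
      have e2 : s / q < k := lt_of_lt_of_le e1 (by exact_mod_cast hks)
      have e3 : s < k * q := by rwa [div_lt_iff₀ hqp] at e2
      have e4 : s < ((a + k * q - 1 : ℕ) : ℝ) + 1 := by
        have : ((a + k * q - 1 : ℕ) : ℝ) + 1 = a + k * q := by
          rw [Nat.cast_sub (by omega)]
          push_cast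
          ring
        rw [this]
        have : (0 : ℝ) ≤ a := Nat.cast_nonneg a
        linarith
      have e5 : 2 ≤ a + k * q - 1 := by
        have : (3 : ℝ) < ((a + k * q - 1 : ℕ) : ℝ) := by linarith
        have : 3 < a + k * q - 1 := by exact_mod_cast this
        omega
      have e6 := hd _ e5
      set v := a + k * q - 1 with hv
      have hv3 : (3 : ℝ) < v := by linarith
      have e7 : L / 4 ≤ Real.log v := by
        have g1 : s ≤ (v : ℝ) ^ 2 := by nlinarith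
        have g2 := Real.log_le_log (by linarith) g1
        rw [Real.log_pow, hLs] at g2
        push_cast at g2
        linarith
      rw [le_div_iff₀ (by linarith)]
      have g0 := (h01 v).1
      have g3 : dens μ ℱ A v ω * (L / 4) ≤ dens μ ℱ A v ω * Real.log v := mul_le_mul_of_nonneg_left e7 g0
      linarith
  refine (Finset.sum_le_sum h1).trans ?_
  rw [Finset.sum_add_distrib, Finset.sum_boole, Finset.sum_const, Finset.card_range, nsmul_eq_mul]
  have h2 : (((Finset.range (Jn x q a)).filter (fun k => k < ⌊s / q⌋₊ + 1)).card : ℝ) ≤ s / q + 1 := by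
    have f1 : (Finset.range (Jn x q a)).filter (fun k => k < ⌊s / q⌋₊ + 1) ⊆ Finset.range (⌊s / q⌋₊ + 1) := fun k hk =>
      Finset.mem_range.2 (Finset.mem_filter.1 hk).2
    have f2 := Finset.card_le_card f1
    rw [Finset.card_range] at f2
    have f3 : (⌊s / q⌋₊ : ℝ) ≤ s / q := Nat.floor_le (by positivity)
    have f4 : (((Finset.range (Jn x q a)).filter (fun k => k < ⌊s / q⌋₊ + 1)).card : ℝ) ≤ ((⌊s / q⌋₊ + 1 : ℕ) : ℝ) := by exact_mod_cast f2
    push_cast at f4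
    linarith
  obtain ⟨_, j2⟩ := Jn_bounds (x := x) hq haq
  have hxq : 1 ≤ (x : ℝ) / q := by
    rw [le_div_iff₀ hqp, one_mul]
    exact_mod_cast hqx
  have h3 : s / q ≤ 2 * ((x : ℝ) / q / L) := by
    rw [div_div, mul_div_assoc', div_le_div_iff₀ hqp (by positivity)]
    have : s * L ≤ 2 * x := by nlinarith
    nlinarith
  have h4 : (Jn x q a : ℝ) * (4 * B / L) ≤ 8 * B * ((x : ℝ) / q / L) := by
    have e1 : (Jn x q a : ℝ) ≤ 2 * (x / q) := by linarith
    have e2 : (Jn x q a : ℝ) * (4 * B / L) ≤ 2 * (x / q) * (4 * B / L) := mul_le_mul_of_nonneg_right e1 (by positivity)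
    calc _ ≤ _ := e2
      _ = _ := by ring
  have h5 : 0 ≤ (x : ℝ) / q / L := by positivity
  nlinarith

/-- **the bound for one class** -/
lemma mont {ω : Ω} (h01 : ∀ n, 0 ≤ dens μ ℱ A n ω ∧ dens μ ℱ A n ω ≤ 1)
    (hd : ∃ B : ℝ, ∀ n : ℕ, 2 ≤ n → dens μ ℱ A n ω * Real.log n ≤ B)
    (he : ∀ᶠ x : ℕ in atTop, ∀ q a : ℕ, 1 ≤ q → q ≤ x → 1 ≤ a → a ≤ q →
      GA μ ℱ A (tq x q) q (Jn x q a) a ω < 5 * Real.log x ∧ GA μ ℱ A (-tq x q) q (Jn x q a) a ω < 5 * Real.log x) :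
    ∃ C : ℝ, 1 ≤ C ∧ ∀ x q a : ℕ, 2 ≤ x → 1 ≤ q → q ≤ x → 1 ≤ a → a ≤ q →
      |SA (dif μ ℱ A ω) x q a| ≤ C * (√((x : ℝ) / q) + Real.log x) := by
  obtain ⟨B', hB'⟩ := hd
  set B := max B' 1 with hBdef
  have hB : 1 ≤ B := le_max_right _ _
  have hd : ∀ n : ℕ, 2 ≤ n → dens μ ℱ A n ω * Real.log n ≤ B := fun n hn => (hB' n hn).trans (le_max_left _ _)
  obtain ⟨x0, hx0⟩ := eventually_atTop.1 (he.and ((tendsto_log.eventually_ge_atTop (1 : ℝ)).and (eventually_ge_atTop 16)))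
  refine ⟨24 * B + 5 + 2 * x0, by linarith [Nat.cast_nonneg (α := ℝ) x0], fun x q a hx hq hqx ha haq => ?_⟩
  have hqr : (1 : ℝ) ≤ q := by exact_mod_cast hq
  have hqp : (0 : ℝ) < q := by linarith
  have hxr : (2 : ℝ) ≤ x := by exact_mod_cast hx
  have hxp : (0 : ℝ) < x := by linarith
  have hxq : 1 ≤ (x : ℝ) / q := by
    rw [le_div_iff₀ hqp, one_mul]
    exact_mod_cast hqx
  have hsq : 1 ≤ √((x : ℝ) / q) := Real.one_le_sqrt.2 hxq
  have hlog0 : 0 ≤ Real.log (x : ℝ) := Real.log_natCast_nonneg x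
  rw [SA_eq _ hq ha haq]
  have hx0r : (0 : ℝ) ≤ x0 := Nat.cast_nonneg x0
  by_cases hxx : x0 ≤ x
  · obtain ⟨h1, h2, h3⟩ := hx0 x hxx
    obtain ⟨g1, g2⟩ := h1 q a hq hqx ha haq
    set L := Real.log (x : ℝ) with hL
    set θ := tq x q with hθ
    have hr : 0 < √((q : ℝ) / x) := Real.sqrt_pos.2 (by positivity)
    have hθ0 : 0 < θ := lt_min one_pos (by positivity)
    have hθ1 : θ ≤ 1 := min_le_left _ _
    unfold GA at g1 g2
    obtain ⟨k1, k2⟩ := Gx_two hθ0 hθ1 (fun n => (h01 n).1) (fun n => zero_le_one) g1 g2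
    simp only [one_mul] at k1 k2
    set D := ∑ k ∈ Finset.range (Jn x q a), dens μ ℱ A (a + k * q - 1) ω with hD
    have hDle := dens_sum (μ := μ) (ℱ := ℱ) (A := A) h01 hB hd hq hqx ha haq h3 h2
    rw [← hD] at hDle
    have hD0 : 0 ≤ D := Finset.sum_nonneg fun k _ => (h01 _).1
    have e1 : ∑ k ∈ Finset.range (Jn x q a), dif μ ℱ A ω (a + k * q) = ∑ k ∈ Finset.range (Jn x q a), In A (a + k * q) ω - D := by
      rw [hD, ← Finset.sum_sub_distrib]
      rfl
    rw [e1]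
    have e2 : |∑ k ∈ Finset.range (Jn x q a), In A (a + k * q) ω - D| ≤ θ * D + 5 * L / θ := by
      rw [abs_le]
      constructor <;> linarith
    refine e2.trans ?_
    have hsr : √((x : ℝ) / q) * √((q : ℝ) / x) = 1 := by
      rw [← Real.sqrt_mul (by positivity)]
      have : (x : ℝ) / q * (q / x) = 1 := by field_simp
      rw [this, Real.sqrt_one]
    set S := √((x : ℝ) / q) with hS
    set R := √((q : ℝ) / x) with hR
    have hSS : S * S = x / q := Real.mul_self_sqrt (by positivity)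
    rcases le_or_gt 1 (L * R) with hc | hc
    · have hθe : θ = 1 := min_eq_left hc
      rw [hθe, one_mul, div_one]
      have f1 : S ≤ L := by
        have : S * 1 ≤ S * (L * R) := mul_le_mul_of_nonneg_left hc (by linarith)
        calc S = S * 1 := (mul_one _).symm
          _ ≤ _ := this
          _ = L * (S * R) := by ring
          _ = L := by rw [hsr, mul_one]
      have f2 : (x : ℝ) / q / L ≤ L := by
        rw [div_le_iff₀ (by linarith), ← hSS]
        exact mul_le_mul f1 f1 (by linarith) (by linarith)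
      have f3 : D ≤ 12 * B * (L + 1) := hDle.trans (mul_le_mul_of_nonneg_left (by linarith) (by linarith))
      nlinarith
    · have hθe : θ = L * R := min_eq_right hc.le
      have f1 : θ * D ≤ θ * (12 * B * ((x : ℝ) / q / L + 1)) := mul_le_mul_of_nonneg_left hDle hθ0.le
      have f2 : θ * (12 * B * ((x : ℝ) / q / L + 1)) = 12 * B * (S * (S * R) + θ) := by
        rw [← hSS, hθe]
        field_simp
      have f3 : 5 * L / θ = 5 * S := by
        rw [hθe, div_eq_iff (by positivity)]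
        calc 5 * L = 5 * L * (S * R) := by rw [hsr, mul_one]
          _ = _ := by ring
      rw [f2, hsr, mul_one] at f1
      rw [f3]
      nlinarith
  · push Not at hxx
    have hterm : ∀ k ∈ Finset.range (Jn x q a), |dif μ ℱ A ω (a + k * q)| ≤ 1 := by
      intro k _
      unfold dif
      have g1 := h01 (a + k * q - 1)
      have g2 := In_nonneg (A := A) (a + k * q) ω
      have g3 := In_le (A := A) (a + k * q) ω
      rw [abs_le]
      constructor <;> linarith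
    have e1 := (Finset.abs_sum_le_sum_abs _ _).trans (Finset.sum_le_sum hterm)
    rw [Finset.sum_const, Finset.card_range, nsmul_eq_mul, mul_one] at e1
    obtain ⟨_, j2⟩ := Jn_bounds (x := x) hq haq
    have e2 : (x : ℝ) / q ≤ x := div_le_self hxp.le hqr
    have e3 : (x : ℝ) + 1 ≤ x0 := by exact_mod_cast hxx
    nlinarith

/-- the logarithmically weighted form -/
lemma mont_log {e : ℕ → ℝ} {C M0 : ℝ} (hC : 0 ≤ C) (hM0 : 0 ≤ M0) {q : ℕ} (hq : 1 ≤ q) {x : ℕ} (hx : 2 ≤ x) (hqx : q ≤ x)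
    (hsmall : ∀ n, 1 ≤ n → n < q → |∑ k ∈ Finset.Icc 1 n, e k| ≤ M0) (hone : |∑ k ∈ Finset.Icc 1 1, e k| ≤ M0)
    (hbig : ∀ n, 2 ≤ n → q ≤ n → |∑ k ∈ Finset.Icc 1 n, e k| ≤ C * (√((n : ℝ) / q) + Real.log n)) :
    |∑ k ∈ Finset.Icc 1 x, Real.log k * e k| ≤ 2 * ((C + M0) * (√((x : ℝ) / q) + Real.log x)) * Real.log x := by
  have hqr : (1 : ℝ) ≤ q := by exact_mod_cast hq
  have hqp : (0 : ℝ) < q := by linarith
  have hxr : (2 : ℝ) ≤ x := by exact_mod_cast hx
  have hxq : 1 ≤ (x : ℝ) / q := by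
    rw [le_div_iff₀ hqp, one_mul]
    exact_mod_cast hqx
  have hsq : 1 ≤ √((x : ℝ) / q) := Real.one_le_sqrt.2 hxq
  have hlog0 : 0 ≤ Real.log (x : ℝ) := Real.log_natCast_nonneg x
  refine abel_log (by positivity) (by omega) fun n hn1 hnx => ?_
  have hM : M0 ≤ (C + M0) * (√((x : ℝ) / q) + Real.log x) := by nlinarith
  by_cases hn2 : n = 1
  · rw [hn2]
    exact hone.trans hM
  by_cases hnq : n < q
  · exact (hsmall n hn1 hnq).trans hM
  · refine (hbig n (by omega) (by omega)).trans ?_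
    have hnr : (0 : ℝ) < n := by exact_mod_cast hn1
    have hnx' : (n : ℝ) ≤ x := by exact_mod_cast hnx
    have e1 : √((n : ℝ) / q) ≤ √((x : ℝ) / q) := Real.sqrt_le_sqrt (div_le_div_of_nonneg_right hnx' hqp.le)
    have e2 : Real.log (n : ℝ) ≤ Real.log x := Real.log_le_log hnr hnx'
    have e3 : C * (√((n : ℝ) / q) + Real.log n) ≤ C * (√((x : ℝ) / q) + Real.log x) := mul_le_mul_of_nonneg_left (by linarith) hC
    have e4 : 0 ≤ M0 * (√((x : ℝ) / q) + Real.log x) := by positivity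
    linarith

end Pool.Agent.N893.SM
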