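import Mathlib
import Pool.Agent.N893.SM.M2

set_option autoImplicit false
set_option linter.unusedSectionVars false
set_option linter.unusedVariables false

/-! # The variance in progressions: the diagonal and the cross term -/

open MeasureTheory Filter Set
open scoped ENNReal Topology

namespace Pool.Agent.N893.SM

open Pool.Agent.R528.RM

/-- the sum of the squares over the classes -/
noncomputable def VV (y : ℕ → ℝ) (x q : ℕ) : ℝ := ∑ a ∈ Finset.Icc 1 q, SA y x q a ^ 2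

lemma rep_ex {q : ℕ} (hq : 1 ≤ q) (a : ℕ) : ∃ a' : ℕ, 1 ≤ a' ∧ a' ≤ q ∧ a' ≡ a [MOD q] := by
  by_cases h0 : a % q = 0
  · have h : q ≡ a [MOD q] := by
      unfold Nat.ModEq
      rw [h0, Nat.mod_self]
    exact ⟨q, hq, le_rfl, h⟩
  · exact ⟨a % q, by omega, (Nat.mod_lt a hq).le, Nat.mod_modEq a q⟩

lemma rep_unique {q a b : ℕ} (ha : 1 ≤ a) (haq : a ≤ q) (hb : 1 ≤ b) (hbq : b ≤ q) (h : a ≡ b [MOD q]) : a = b := by
  unfold Nat.ModEq at h
  rcases Nat.lt_or_ge a q with h1 | h1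
  · rcases Nat.lt_or_ge b q with h2 | h2
    · rwa [Nat.mod_eq_of_lt h1, Nat.mod_eq_of_lt h2] at h
    · have : b = q := by omega
      rw [this, Nat.mod_self, Nat.mod_eq_of_lt h1] at h
      omega
  · have e : a = q := by omega
    rw [e, Nat.mod_self] at h
    rcases Nat.lt_or_ge b q with h2 | h2
    · rw [Nat.mod_eq_of_lt h2] at h
      omega
    · omega

lemma SA_congr (f : ℕ → ℝ) {x q a a' : ℕ} (h : a' ≡ a [MOD q]) : SA f x q a' = SA f x q a := by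
  unfold SA
  refine Finset.sum_congr (Finset.filter_congr fun n _ => ?_) fun _ _ => rfl
  exact ⟨fun h1 => h1.trans h, fun h1 => h1.trans h.symm⟩

lemma SA_sum (f : ℕ → ℝ) (x q a : ℕ) : SA f x q a = ∑ n ∈ Finset.range x, (if n + 1 ≡ a [MOD q] then f (n + 1) else 0) := by
  unfold SA
  rw [Finset.sum_filter, Finset.range_eq_Ico, Finset.sum_Ico_add' (fun n => if n ≡ a [MOD q] then f n else 0) 0 x 1]
  rfl

lemma SA_succ (f : ℕ → ℝ) (x q a : ℕ) : SA f (x + 1) q a = SA f x q a + (if x + 1 ≡ a [MOD q] then f (x + 1) else 0) := by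
  rw [SA_sum, SA_sum, Finset.sum_range_succ]

lemma VV_eq (y : ℕ → ℝ) {q : ℕ} (hq : 1 ≤ q) (x : ℕ) :
    VV y x q = ∑ n ∈ Finset.range x, y (n + 1) ^ 2 + 2 * ∑ n ∈ Finset.range x, y (n + 1) * SA y n q (n + 1) := by
  induction x with
  | zero => simp [VV, SA]
  | succ x ih =>
    rw [Finset.sum_range_succ, Finset.sum_range_succ]
    have h1 : VV y (x + 1) q = VV y x q + ∑ a ∈ Finset.Icc 1 q, (if x + 1 ≡ a [MOD q] then 2 * (y (x + 1) * SA y x q a) + y (x + 1) ^ 2 else 0) := by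
      unfold VV
      rw [← Finset.sum_add_distrib]
      refine Finset.sum_congr rfl fun a _ => ?_
      rw [SA_succ]
      split_ifs <;> ring
    obtain ⟨a0, g1, g2, g3⟩ := rep_ex hq (x + 1)
    have h2 : ∑ a ∈ Finset.Icc 1 q, (if x + 1 ≡ a [MOD q] then 2 * (y (x + 1) * SA y x q a) + y (x + 1) ^ 2 else 0) =
        2 * (y (x + 1) * SA y x q (x + 1)) + y (x + 1) ^ 2 := by
      rw [Finset.sum_eq_single a0]
      · rw [if_pos g3.symm, SA_congr y g3]
      · intro b hb hne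
        rw [Finset.mem_Icc] at hb
        rw [if_neg]
        intro hcon
        exact hne (rep_unique hb.1 hb.2 g1 g2 (g3.trans hcon).symm)
      · intro h
        exact absurd (Finset.mem_Icc.2 ⟨g1, g2⟩) h
    rw [h1, h2, ih]
    ring

/-- no earlier member -/
lemma SA_zero (f : ℕ → ℝ) {k q : ℕ} (h : k < q) : SA f k q (k + 1) = 0 := by
  unfold SA
  rw [Finset.filter_false_of_mem, Finset.sum_empty]
  intro n hn hcon
  rw [Finset.mem_Icc] at hn
  have := rep_unique (q := q) hn.1 (by omega) (by omega : 1 ≤ k + 1) (by omega) hcon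
  omega

variable {Ω : Type} {m0 : MeasurableSpace Ω} {μ : Measure Ω} [IsProbabilityMeasure μ]
  {ℱ : Filtration ℕ m0} {A : ℕ → Set Ω}

/-- the weighted difference -/
noncomputable def yy (μ : Measure Ω) (ℱ : Filtration ℕ m0) (A : ℕ → Set Ω) (ω : Ω) (n : ℕ) : ℝ :=
  Real.log n * dif μ ℱ A ω n

/-- the size of the inner sums -/
noncomputable def Kj (j x q : ℕ) : ℝ := j * (√((x : ℝ) / q) + Real.log x) * Real.log x

/-- the predictable weights -/
noncomputable def wv (μ : Measure Ω) (ℱ : Filtration ℕ m0) (A : ℕ → Set Ω) (σ : ℝ) (j x q k : ℕ) (ω : Ω) : ℝ :=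
  max 0 (min 1 (σ / (Real.log x * Kj j x q) * (Real.log (k + 1 : ℕ) * SA (yy μ ℱ A ω) k q (k + 1))))

lemma dif_meas (hA : ∀ n, MeasurableSet[ℱ n] (A n)) {n k : ℕ} (h : n ≤ k) : StronglyMeasurable[ℱ k] (fun ω => dif μ ℱ A ω n) := by
  have h3 : StronglyMeasurable[ℱ k] (In A n) := In_meas hA h
  have h4 : StronglyMeasurable[ℱ k] (dens μ ℱ A (n - 1)) := (dens_meas _).mono (ℱ.mono (by omega))
  exact @StronglyMeasurable.sub _ _ _ _ (ℱ k) _ _ _ h3 h4

lemma SA_meas (hA : ∀ n, MeasurableSet[ℱ n] (A n)) (k q a : ℕ) : StronglyMeasurable[ℱ k] (fun ω => SA (yy μ ℱ A ω) k q a) := by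
  have h1 : (fun ω => SA (yy μ ℱ A ω) k q a) = ∑ n ∈ (Finset.Icc 1 k).filter (fun n => n ≡ a [MOD q]), (fun ω => Real.log n * dif μ ℱ A ω n) := by
    funext ω
    simp [SA, yy]
  rw [h1]
  refine Finset.stronglyMeasurable_sum _ fun n hn => ?_
  exact (dif_meas hA (Finset.mem_Icc.1 (Finset.mem_filter.1 hn).1).2).const_mul _

lemma wv_meas (hA : ∀ n, MeasurableSet[ℱ n] (A n)) (σ : ℝ) (j x q k : ℕ) : StronglyMeasurable[ℱ k] (wv μ ℱ A σ j x q k) := by
  have h1 : StronglyMeasurable[ℱ k] (fun ω => σ / (Real.log x * Kj j x q) * (Real.log (k + 1 : ℕ) * SA (yy μ ℱ A ω) k q (k + 1))) :=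
    ((SA_meas (μ := μ) hA k q (k + 1)).const_mul _).const_mul _
  have hc : Continuous (fun z : ℝ => max 0 (min 1 z)) := by fun_prop
  exact hc.comp_stronglyMeasurable h1

lemma wv01 (σ : ℝ) (j x q k : ℕ) (ω : Ω) : 0 ≤ wv μ ℱ A σ j x q k ω ∧ wv μ ℱ A σ j x q k ω ≤ 1 :=
  ⟨le_max_left _ _, max_le zero_le_one (min_le_left _ _)⟩

/-- the events -/
theorem errVar (hA : ∀ n, MeasurableSet[ℱ n] (A n)) (σ : ℝ) :
    ∀ᵐ ω ∂μ, ∀ j : ℕ, ∀ᶠ x : ℕ in atTop, ∀ q : ℕ, 1 ≤ q → q ≤ x →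
      Gx μ ℱ A (tq x 1) (fun k => k + 1) (wv μ ℱ A σ j x q) x ω < 5 * Real.log x ∧
      Gx μ ℱ A (-tq x 1) (fun k => k + 1) (wv μ ℱ A σ j x q) x ω < 5 * Real.log x := by
  rw [ae_all_iff]
  intro j
  set Bad : ℕ → Set Ω := fun x => ⋃ q ∈ Finset.Icc 1 x,
    ({ω | 5 * Real.log x ≤ Gx μ ℱ A (tq x 1) (fun k => k + 1) (wv μ ℱ A σ j x q) x ω} ∪
      {ω | 5 * Real.log x ≤ Gx μ ℱ A (-tq x 1) (fun k => k + 1) (wv μ ℱ A σ j x q) x ω}) with hBad
  have hsum : Summable (fun n : ℕ => 2 * ((n : ℝ) ^ 2)⁻¹) := (Real.summable_nat_pow_inv.2 (by norm_num)).mul_left 2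
  have hv : StrictMono (fun k : ℕ => k + 1) := fun a b h => by simp only; omega
  have hb : ∀ᶠ n in atTop, μ.real (Bad n) ≤ 2 * ((n : ℝ) ^ 2)⁻¹ := by
    filter_upwards [eventually_ge_atTop 1] with x hx
    have hx0 : (1 : ℝ) ≤ x := by exact_mod_cast hx
    have hxp : (0 : ℝ) < x := by linarith
    have hexp : Real.exp (-(5 * Real.log x)) = ((x : ℝ) ^ 5)⁻¹ := by
      rw [exp_log_rpow hx]
      congr 1
      exact_mod_cast Real.rpow_natCast (x : ℝ) 5
    have h1 : ∀ q ∈ Finset.Icc 1 x, μ.real ({ω | 5 * Real.log x ≤ Gx μ ℱ A (tq x 1) (fun k => k + 1) (wv μ ℱ A σ j x q) x ω} ∪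
      {ω | 5 * Real.log x ≤ Gx μ ℱ A (-tq x 1) (fun k => k + 1) (wv μ ℱ A σ j x q) x ω}) ≤ 2 * ((x : ℝ) ^ 5)⁻¹ := by
      intro q hq
      refine (measureReal_union_le _ _).trans ?_
      have a1 := Gx_tail (μ := μ) hA (tq x 1) hv (fun n => by omega) (w := wv μ ℱ A σ j x q) (fun k => wv_meas hA σ j x q k)
        (fun k ω => wv01 σ j x q k ω) x (5 * Real.log x)
      have a2 := Gx_tail (μ := μ) hA (-tq x 1) hv (fun n => by omega) (w := wv μ ℱ A σ j x q) (fun k => wv_meas hA σ j x q k)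
        (fun k ω => wv01 σ j x q k ω) x (5 * Real.log x)
      rw [hexp] at a1 a2
      linarith
    have h2 : μ.real (Bad x) ≤ ∑ q ∈ Finset.Icc 1 x, 2 * ((x : ℝ) ^ 5)⁻¹ :=
      (measureReal_biUnion_finset_le _ _).trans (Finset.sum_le_sum fun q hq => h1 q hq)
    refine h2.trans ?_
    rw [Finset.sum_const, Nat.card_Icc, Nat.add_sub_cancel, nsmul_eq_mul]
    have e1 : (x : ℝ) * (2 * ((x : ℝ) ^ 5)⁻¹) = 2 * ((x : ℝ) ^ 4)⁻¹ := by
      field_simp
    rw [e1]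
    have e2 : ((x : ℝ) ^ 4)⁻¹ ≤ ((x : ℝ) ^ 2)⁻¹ := inv_anti₀ (by positivity) (pow_le_pow_right₀ hx0 (by norm_num))
    linarith
  filter_upwards [bc_real (μ := μ) hsum hb] with ω hω
  filter_upwards [hω] with x hx q hq hqx
  constructor
  · by_contra hcon
    apply hx
    simp only [hBad, Set.mem_iUnion]
    exact ⟨q, Finset.mem_Icc.2 ⟨hq, hqx⟩, Or.inl (not_lt.1 hcon)⟩
  · by_contra hcon
    apply hx
    simp only [hBad, Set.mem_iUnion]
    exact ⟨q, Finset.mem_Icc.2 ⟨hq, hqx⟩, Or.inr (not_lt.1 hcon)⟩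

/-- bound for the weighted class sums -/
lemma yy_mont {ω : Ω} (h01 : ∀ n, 0 ≤ dens μ ℱ A n ω ∧ dens μ ℱ A n ω ≤ 1) {C : ℝ} (hC : 1 ≤ C)
    (hM : ∀ x q a : ℕ, 2 ≤ x → 1 ≤ q → q ≤ x → 1 ≤ a → a ≤ q → |SA (dif μ ℱ A ω) x q a| ≤ C * (√((x : ℝ) / q) + Real.log x))
    {x q : ℕ} (a : ℕ) (hx : 2 ≤ x) (hq : 1 ≤ q) (hqx : q ≤ x) :
    |SA (yy μ ℱ A ω) x q a| ≤ 2 * (C + 2) * (√((x : ℝ) / q) + Real.log x) * Real.log x := by
  obtain ⟨a', g1, g2, g3⟩ := rep_ex hq a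
  have hqr : (1 : ℝ) ≤ q := by exact_mod_cast hq
  set e : ℕ → ℝ := fun n => if n ≡ a' [MOD q] then dif μ ℱ A ω n else 0 with he'
  have hsum : ∀ n, ∑ k ∈ Finset.Icc 1 n, e k = SA (dif μ ℱ A ω) n q a' := fun n => by
    unfold SA
    rw [Finset.sum_filter]
  have hdev : SA (yy μ ℱ A ω) x q a = ∑ k ∈ Finset.Icc 1 x, Real.log k * e k := by
    rw [← SA_congr _ g3]
    unfold SA
    rw [Finset.sum_filter]
    refine Finset.sum_congr rfl fun n _ => ?_
    simp only [he', yy]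
    split_ifs with h1
    · rfl
    · rw [mul_zero]
  have hdif1 : ∀ n, |dif μ ℱ A ω n| ≤ 1 := by
    intro n
    unfold dif
    have k1 := h01 (n - 1)
    have k2 := In_nonneg (A := A) n ω
    have k3 := In_le (A := A) n ω
    rw [abs_le]
    constructor <;> linarith
  have hJ : ∀ n, |SA (dif μ ℱ A ω) n q a'| ≤ (n : ℝ) / q + 1 := by
    intro n
    rw [SA_eq _ hq g1 g2]
    refine ((Finset.abs_sum_le_sum_abs _ _).trans (Finset.sum_le_sum fun k _ => hdif1 _)).trans ?_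
    rw [Finset.sum_const, Finset.card_range, nsmul_eq_mul, mul_one]
    exact (Jn_bounds hq g2).2
  have hfin := mont_log (e := e) (C := C) (M0 := 2) (by linarith) (by norm_num) hq hx hqx (fun n hn1 hnq => by
    rw [hsum]
    refine (hJ n).trans ?_
    have : (n : ℝ) / q ≤ 1 := by
      rw [div_le_one (by linarith)]
      exact_mod_cast hnq.le
    linarith) (by
    rw [hsum]
    refine (hJ 1).trans ?_
    have : ((1 : ℕ) : ℝ) / q ≤ 1 := by
      rw [div_le_one (by linarith)]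
      push_cast
      exact hqr
    linarith) (fun n hn2 hnq => by
    rw [hsum]
    exact hM n q a' hn2 hq hnq g1 g2)
  rw [hdev]
  refine hfin.trans (le_of_eq ?_)
  ring

lemma clamp_sub {z : ℝ} (h : |z| ≤ 1) : max 0 (min 1 z) - max 0 (min 1 (-z)) = z := by
  have h1 := abs_le.1 h
  rw [min_eq_right h1.2, min_eq_right (by linarith)]
  rcases le_total 0 z with h2 | h2
  · rw [max_eq_right h2, max_eq_left (by linarith)]
    ring
  · rw [max_eq_left h2, max_eq_right (by linarith)]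
    ring

lemma ev_logs5 : ∀ᶠ x : ℕ in atTop, 16 ≤ x ∧ 1 ≤ Real.log x ∧ Real.log x ^ 5 ≤ √(x : ℝ) := by
  have h1 : Tendsto (fun x : ℝ => Real.log x ^ 5 / x ^ (1 / 2 : ℝ)) atTop (𝓝 0) := by
    have := isLittleO_log_rpow_rpow_atTop (s := 1 / 2) (5 : ℝ) (by norm_num)
    have h2 := this.tendsto_div_nhds_zero
    refine h2.congr fun x => ?_
    rw [← Real.rpow_natCast]
    norm_num
  have h2 := (h1.comp tendsto_natCast_atTop_atTop).eventually_le_const (show (0 : ℝ) < 1 by norm_num)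
  filter_upwards [h2, eventually_ge_atTop 16, tendsto_log.eventually_ge_atTop (1 : ℝ)] with x hx h16 hl
  refine ⟨h16, hl, ?_⟩
  have hxp : (0 : ℝ) < x := by
    have : (16 : ℝ) ≤ x := by exact_mod_cast h16
    linarith
  simp only [Function.comp] at hx
  rw [div_le_one (by positivity), ← Real.sqrt_eq_rpow] at hx
  exact hx

lemma ev_logs : ∀ᶠ x : ℕ in atTop, 16 ≤ x ∧ 1 ≤ Real.log x ∧ Real.log x ^ 3 ≤ √(x : ℝ) := by
  filter_upwards [ev_logs5] with x ⟨h1, h2, h3⟩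
  exact ⟨h1, h2, (pow_le_pow_right₀ h2 (by norm_num)).trans h3⟩

/-- **the cross term** -/
lemma cross {ω : Ω} (h01 : ∀ n, 0 ≤ dens μ ℱ A n ω ∧ dens μ ℱ A n ω ≤ 1)
    (hd : ∃ B : ℝ, ∀ n : ℕ, 2 ≤ n → dens μ ℱ A n ω * Real.log n ≤ B) {C1 : ℝ}
    (hy : ∀ x q a : ℕ, 2 ≤ x → 1 ≤ q → q ≤ x → |SA (yy μ ℱ A ω) x q a| ≤ C1 * (√((x : ℝ) / q) + Real.log x) * Real.log x)
    (hp : ∀ j : ℕ, ∀ᶠ x : ℕ in atTop, ∀ q : ℕ, 1 ≤ q → q ≤ x →
      Gx μ ℱ A (tq x 1) (fun k => k + 1) (wv μ ℱ A 1 j x q) x ω < 5 * Real.log x ∧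
      Gx μ ℱ A (-tq x 1) (fun k => k + 1) (wv μ ℱ A 1 j x q) x ω < 5 * Real.log x)
    (hm : ∀ j : ℕ, ∀ᶠ x : ℕ in atTop, ∀ q : ℕ, 1 ≤ q → q ≤ x →
      Gx μ ℱ A (tq x 1) (fun k => k + 1) (wv μ ℱ A (-1) j x q) x ω < 5 * Real.log x ∧
      Gx μ ℱ A (-tq x 1) (fun k => k + 1) (wv μ ℱ A (-1) j x q) x ω < 5 * Real.log x) :
    ∃ C : ℝ, 0 ≤ C ∧ ∀ᶠ x : ℕ in atTop, ∀ q : ℕ, 1 ≤ q → q ≤ x →
      |∑ n ∈ Finset.range x, yy μ ℱ A ω (n + 1) * SA (yy μ ℱ A ω) n q (n + 1)| ≤ C * (x / Real.log x + x * Real.log x ^ 2 / √(q : ℝ)) := by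
  obtain ⟨B', hB'⟩ := hd
  set B := max B' 1 with hBdef
  have hB : 1 ≤ B := le_max_right _ _
  have hd : ∀ n : ℕ, 2 ≤ n → dens μ ℱ A n ω * Real.log n ≤ B := fun n hn => (hB' n hn).trans (le_max_left _ _)
  set j := ⌈|C1|⌉₊ + 1 with hj
  have hjC : C1 ≤ j := by
    have := Nat.le_ceil |C1|
    have h2 := le_abs_self C1
    rw [hj]
    push_cast
    linarith
  have hj1 : (1 : ℝ) ≤ j := by
    rw [hj]
    push_cast
    linarith [Nat.cast_nonneg (α := ℝ) ⌈|C1|⌉₊]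
  refine ⟨2 * (24 * B + 5) * j, by positivity, ?_⟩
  filter_upwards [hp j, hm j, ev_logs, ev_logs5] with x hxpp hxmm ⟨h16, hl1, hl3⟩ ⟨_, _, hl5⟩ q hq hqx
  obtain ⟨p1, p2⟩ := hxpp q hq hqx
  obtain ⟨m1, m2⟩ := hxmm q hq hqx
  clear hxpp hxmm
  have hqr : (1 : ℝ) ≤ q := by exact_mod_cast hq
  have hqp : (0 : ℝ) < q := by linarith
  have hxr : (16 : ℝ) ≤ x := by exact_mod_cast h16
  have hxp : (0 : ℝ) < x := by linarith
  have hsx : 0 < √(x : ℝ) := Real.sqrt_pos.2 hxp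
  have hss : √(x : ℝ) * √(x : ℝ) = x := Real.mul_self_sqrt hxp.le
  set L := Real.log (x : ℝ) with hL
  have hLs : L ≤ √(x : ℝ) := by nlinarith [sq_nonneg (L - 1), sq_nonneg L]
  set θ := tq x 1 with hθ
  have hθe : θ = L / √(x : ℝ) := by
    rw [hθ]
    unfold tq
    have : L * √(((1 : ℕ) : ℝ) / x) = L / √(x : ℝ) := by
      rw [Nat.cast_one, Real.sqrt_div zero_le_one, Real.sqrt_one]
      ring
    rw [this]
    exact min_eq_right ((div_le_one hsx).2 hLs)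
  have hθ0 : 0 < θ := by rw [hθe]; positivity
  have hθ1 : θ ≤ 1 := min_le_left _ _
  -- the sum of the densities
  have hds := dens_sum (μ := μ) (ℱ := ℱ) (A := A) h01 hB hd le_rfl (by omega : 1 ≤ x) le_rfl le_rfl h16 hl1
  have hJ1 : Jn x 1 1 = x := by
    unfold Jn
    simp
  rw [hJ1, Nat.cast_one, div_one] at hds
  have hds' : ∑ k ∈ Finset.range x, dens μ ℱ A k ω ≤ 12 * B * ((x : ℝ) / L + 1) := by
    refine le_trans (le_of_eq ?_) hds
    refine Finset.sum_congr rfl fun k _ => ?_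
    rw [show 1 + k * 1 - 1 = k by omega]
  have hW : ∀ σ : ℝ, Gx μ ℱ A θ (fun k => k + 1) (wv μ ℱ A σ j x q) x ω < 5 * L →
      Gx μ ℱ A (-θ) (fun k => k + 1) (wv μ ℱ A σ j x q) x ω < 5 * L →
      |∑ k ∈ Finset.range x, wv μ ℱ A σ j x q k ω * dif μ ℱ A ω (k + 1)| ≤ (24 * B + 5) * √(x : ℝ) := by
    intro σ s1 s2
    obtain ⟨k1, k2⟩ := Gx_two hθ0 hθ1 (fun n => (h01 n).1) (fun k => (wv01 σ j x q k ω).1) s1 s2
    simp only [Nat.add_sub_cancel] at k1 k2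
    set D := ∑ k ∈ Finset.range x, wv μ ℱ A σ j x q k ω * dens μ ℱ A k ω with hD
    have hD1 : D ≤ 12 * B * ((x : ℝ) / L + 1) := by
      refine le_trans (Finset.sum_le_sum fun k _ => ?_) hds'
      exact mul_le_of_le_one_left (h01 k).1 (wv01 σ j x q k ω).2
    have e1 : ∑ k ∈ Finset.range x, wv μ ℱ A σ j x q k ω * dif μ ℱ A ω (k + 1) = ∑ k ∈ Finset.range x, wv μ ℱ A σ j x q k ω * In A (k + 1) ω - D := by
      rw [hD, ← Finset.sum_sub_distrib]
      refine Finset.sum_congr rfl fun k _ => ?_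
      unfold dif
      rw [Nat.add_sub_cancel]
      ring
    rw [e1]
    have e2 : |∑ k ∈ Finset.range x, wv μ ℱ A σ j x q k ω * In A (k + 1) ω - D| ≤ θ * D + 5 * L / θ := by
      rw [abs_le]
      constructor <;> linarith
    refine e2.trans ?_
    have f1 : θ * D ≤ θ * (12 * B * ((x : ℝ) / L + 1)) := mul_le_mul_of_nonneg_left hD1 hθ0.le
    have f2 : θ * (12 * B * ((x : ℝ) / L + 1)) = 12 * B * (√(x : ℝ) + θ) := by
      have g1 : θ * ((x : ℝ) / L) = √(x : ℝ) := by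
        rw [hθe, div_mul_div_comm, div_eq_iff (by positivity)]
        calc L * (x : ℝ) = L * (√(x : ℝ) * √(x : ℝ)) := by rw [hss]
          _ = √(x : ℝ) * (√(x : ℝ) * L) := by ring
      calc θ * (12 * B * ((x : ℝ) / L + 1)) = 12 * B * (θ * ((x : ℝ) / L) + θ) := by ring
        _ = _ := by rw [g1]
    have f3 : 5 * L / θ = 5 * √(x : ℝ) := by
      rw [hθe]
      field_simp
    rw [f2] at f1
    rw [f3]
    have hs1 : 1 ≤ √(x : ℝ) := Real.one_le_sqrt.2 (by linarith)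
    nlinarith
  -- the inner sums
  set K := Kj j x q with hK
  have hxq : 1 ≤ (x : ℝ) / q := by
    rw [le_div_iff₀ hqp, one_mul]
    exact_mod_cast hqx
  have hsq : 1 ≤ √((x : ℝ) / q) := Real.one_le_sqrt.2 hxq
  have hKpos : 0 < K := by
    rw [hK]
    unfold Kj
    rw [← hL]
    have : 0 < √((x : ℝ) / q) + L := by linarith
    have : 0 < L := by linarith
    positivity
  have hS : ∀ k, k < x → |SA (yy μ ℱ A ω) k q (k + 1)| ≤ K := by
    intro k hk
    by_cases hkq : k < q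
    · rw [SA_zero _ hkq, abs_zero]
      exact hKpos.le
    push Not at hkq
    by_cases hk2 : 2 ≤ k
    · refine (hy k q (k + 1) hk2 hq hkq).trans ?_
      have hkr : (0 : ℝ) < k := by
        have : (2 : ℝ) ≤ k := by exact_mod_cast hk2
        linarith
      have hkx : (k : ℝ) ≤ x := by exact_mod_cast hk.le
      have e1 : √((k : ℝ) / q) ≤ √((x : ℝ) / q) := Real.sqrt_le_sqrt (div_le_div_of_nonneg_right hkx hqp.le)
      have e2 : Real.log (k : ℝ) ≤ L := Real.log_le_log hkr hkx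
      have e3 : 0 ≤ Real.log (k : ℝ) := Real.log_natCast_nonneg k
      have e4 : 0 ≤ √((k : ℝ) / q) := Real.sqrt_nonneg _
      rw [hK]
      unfold Kj
      rw [← hL]
      refine mul_le_mul (mul_le_mul hjC (by linarith) (by linarith) (by linarith)) e2 e3 ?_
      positivity
    · have hk1 : k = 1 := by omega
      have hz : SA (yy μ ℱ A ω) k q (k + 1) = 0 := by
        rw [hk1]
        unfold SA
        refine Finset.sum_eq_zero fun n hn => ?_
        have : n = 1 := by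
          have := Finset.mem_Icc.1 (Finset.mem_filter.1 hn).1
          omega
        rw [this]
        unfold yy
        rw [Nat.cast_one, Real.log_one, zero_mul]
      rw [hz, abs_zero]
      exact hKpos.le
  have hLK : 0 < L * K := by
    have : 0 < L := by linarith
    positivity
  have hT : ∑ n ∈ Finset.range x, yy μ ℱ A ω (n + 1) * SA (yy μ ℱ A ω) n q (n + 1) =
      L * K * (∑ k ∈ Finset.range x, wv μ ℱ A 1 j x q k ω * dif μ ℱ A ω (k + 1) - ∑ k ∈ Finset.range x, wv μ ℱ A (-1) j x q k ω * dif μ ℱ A ω (k + 1)) := by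
    rw [← Finset.sum_sub_distrib, Finset.mul_sum]
    refine Finset.sum_congr rfl fun k hk => ?_
    have hkx : k < x := Finset.mem_range.1 hk
    have h1 := hS k hkx
    have h2 : Real.log ((k + 1 : ℕ) : ℝ) ≤ L := Real.log_le_log (by positivity) (by exact_mod_cast hkx)
    have h3 : 0 ≤ Real.log ((k + 1 : ℕ) : ℝ) := Real.log_natCast_nonneg _
    set z := 1 / (L * K) * (Real.log (k + 1 : ℕ) * SA (yy μ ℱ A ω) k q (k + 1)) with hz
    have hz1 : |z| ≤ 1 := by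
      rw [hz, abs_mul, abs_of_pos (by positivity), abs_mul, abs_of_nonneg h3]
      have h4 : Real.log ((k + 1 : ℕ) : ℝ) * |SA (yy μ ℱ A ω) k q (k + 1)| ≤ L * K := mul_le_mul h2 h1 (abs_nonneg _) (by linarith)
      rw [one_div, inv_mul_le_iff₀ hLK, mul_one]
      exact h4
    have w1 : wv μ ℱ A 1 j x q k ω = max 0 (min 1 z) := rfl
    have w2 : wv μ ℱ A (-1) j x q k ω = max 0 (min 1 (-z)) := by
      unfold wv
      rw [hz, ← hL, ← hK, neg_div, neg_mul]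
    have h5 := clamp_sub hz1
    calc yy μ ℱ A ω (k + 1) * SA (yy μ ℱ A ω) k q (k + 1) = L * K * (z * dif μ ℱ A ω (k + 1)) := by
          rw [hz]
          unfold yy
          field_simp
      _ = L * K * ((max 0 (min 1 z) - max 0 (min 1 (-z))) * dif μ ℱ A ω (k + 1)) := by rw [h5]
      _ = _ := by
        rw [w1, w2]
        ring
  rw [hT, abs_mul, abs_of_pos hLK]
  have h1 := hW 1 p1 p2
  have h2 := hW (-1) m1 m2
  have h3 : |∑ k ∈ Finset.range x, wv μ ℱ A 1 j x q k ω * dif μ ℱ A ω (k + 1) - ∑ k ∈ Finset.range x, wv μ ℱ A (-1) j x q k ω * dif μ ℱ A ω (k + 1)| ≤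
      2 * (24 * B + 5) * √(x : ℝ) := (abs_sub _ _).trans (by linarith)
  refine (mul_le_mul_of_nonneg_left h3 hLK.le).trans ?_
  have e1 : √((x : ℝ) / q) * √(x : ℝ) = x / √(q : ℝ) := by
    rw [Real.sqrt_div hxp.le, div_mul_eq_mul_div, hss]
  have e2 : L * K * (2 * (24 * B + 5) * √(x : ℝ)) = 2 * (24 * B + 5) * j * (L ^ 2 * (√((x : ℝ) / q) * √(x : ℝ)) + L ^ 3 * √(x : ℝ)) := by
    rw [hK]
    unfold Kj
    rw [← hL]
    ring
  rw [e2, e1]
  refine mul_le_mul_of_nonneg_left ?_ (by positivity)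
  have e3 : L ^ 3 * √(x : ℝ) ≤ x / L := by
    rw [le_div_iff₀ (by linarith)]
    have h4 : L ^ 4 ≤ √(x : ℝ) := (pow_le_pow_right₀ hl1 (by norm_num)).trans hl5
    calc L ^ 3 * √(x : ℝ) * L = L ^ 4 * √(x : ℝ) := by ring
      _ ≤ √(x : ℝ) * √(x : ℝ) := mul_le_mul_of_nonneg_right h4 hsx.le
      _ = x := hss
  have e4 : L ^ 2 * ((x : ℝ) / √(q : ℝ)) = x * L ^ 2 / √(q : ℝ) := by ring
  rw [e4]
  linarith

end Pool.Agent.N893.SM
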