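import Mathlib
import Pool.Agent.N893.SM.M3

set_option autoImplicit false
set_option linter.unusedSectionVars false
set_option linter.unusedVariables false

/-! # The variance in progressions: main term and predictable part -/

open MeasureTheory Filter Set
open scoped ENNReal Topology

namespace Pool.Agent.N893.SM

open Pool.Agent.R528.RM

lemma all_of_ev {F G : ℕ → ℕ → ℝ} {x1 : ℕ} (hG : ∀ x q, x1 ≤ x → 1 ≤ q → q ≤ x → 1 ≤ G x q) {C : ℝ} (hC : 0 ≤ C)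
    (h : ∀ᶠ x : ℕ in atTop, ∀ q, 1 ≤ q → q ≤ x → |F x q| ≤ C * G x q) :
    ∃ C', 0 ≤ C' ∧ ∀ x q, x1 ≤ x → 1 ≤ q → q ≤ x → |F x q| ≤ C' * G x q := by
  obtain ⟨x0, hx0⟩ := eventually_atTop.1 h
  have hS : 0 ≤ ∑ x ∈ Finset.range x0, ∑ q ∈ Finset.range x0, |F x q| :=
    Finset.sum_nonneg fun _ _ => Finset.sum_nonneg fun _ _ => abs_nonneg _
  refine ⟨C + ∑ x ∈ Finset.range x0, ∑ q ∈ Finset.range x0, |F x q|, by positivity, fun x q hx hq hqx => ?_⟩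
  have hg := hG x q hx hq hqx
  rcases Nat.lt_or_ge x x0 with h1 | h1
  · have e1 : |F x q| ≤ ∑ q ∈ Finset.range x0, |F x q| :=
      Finset.single_le_sum (f := fun q => |F x q|) (fun _ _ => abs_nonneg _) (Finset.mem_range.2 (by omega))
    have e2 : ∑ q ∈ Finset.range x0, |F x q| ≤ ∑ x ∈ Finset.range x0, ∑ q ∈ Finset.range x0, |F x q| :=
      Finset.single_le_sum (f := fun x => ∑ q ∈ Finset.range x0, |F x q|) (fun _ _ => Finset.sum_nonneg fun _ _ => abs_nonneg _) (Finset.mem_range.2 h1)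
    nlinarith
  · have e1 := hx0 x h1 q hq hqx
    nlinarith

variable {Ω : Type} {m0 : MeasurableSpace Ω} {μ : Measure Ω} [IsProbabilityMeasure μ]
  {ℱ : Filtration ℕ m0} {A : ℕ → Set Ω}

/-- the weighted number of the chosen integers -/
noncomputable def Ps (A : ℕ → Set Ω) (ω : Ω) (x : ℕ) : ℝ := ∑ n ∈ Finset.range x, Real.log ((n + 1 : ℕ) : ℝ) * In A (n + 1) ω

/-- the sum of the squares of the weights -/
noncomputable def S2 (A : ℕ → Set Ω) (ω : Ω) (x : ℕ) : ℝ := ∑ n ∈ Finset.range x, Real.log ((n + 1 : ℕ) : ℝ) ^ 2 * In A (n + 1) ω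

lemma Ps_nonneg (ω : Ω) (x : ℕ) : 0 ≤ Ps A ω x := Finset.sum_nonneg fun n _ => mul_nonneg (Real.log_natCast_nonneg _) (In_nonneg _ _)

lemma S2_le (ω : Ω) (x : ℕ) : S2 A ω x ≤ Real.log x * Ps A ω x := by
  unfold S2 Ps
  rw [Finset.mul_sum]
  refine Finset.sum_le_sum fun n hn => ?_
  have h1 : Real.log ((n + 1 : ℕ) : ℝ) ≤ Real.log x := Real.log_le_log (by positivity) (by exact_mod_cast Finset.mem_range.1 hn)
  have h2 : 0 ≤ Real.log ((n + 1 : ℕ) : ℝ) * In A (n + 1) ω := mul_nonneg (Real.log_natCast_nonneg _) (In_nonneg _ _)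
  calc _ = Real.log ((n + 1 : ℕ) : ℝ) * (Real.log ((n + 1 : ℕ) : ℝ) * In A (n + 1) ω) := by ring
    _ ≤ _ := mul_le_mul_of_nonneg_right h1 h2

lemma log_dens_bd {ω : Ω} (h01 : ∀ n, 0 ≤ dens μ ℱ A n ω ∧ dens μ ℱ A n ω ≤ 1) {B : ℝ} (hB : 1 ≤ B)
    (hd : ∀ n : ℕ, 2 ≤ n → dens μ ℱ A n ω * Real.log n ≤ B) (n : ℕ) :
    Real.log ((n + 1 : ℕ) : ℝ) * dens μ ℱ A n ω ≤ 2 * B + 1 := by
  by_cases h2 : 2 ≤ n
  · have h3 : Real.log ((n + 1 : ℕ) : ℝ) ≤ 2 * Real.log n := by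
      have hn : (0 : ℝ) < n := by exact_mod_cast (by omega : 0 < n)
      have : Real.log ((n + 1 : ℕ) : ℝ) ≤ Real.log ((n : ℝ) ^ 2) := by
        refine Real.log_le_log (by positivity) ?_
        have : n + 1 ≤ n ^ 2 := by nlinarith
        exact_mod_cast this
      rw [Real.log_pow] at this
      push_cast at this ⊢
      linarith
    have h4 := mul_le_mul_of_nonneg_right h3 (h01 n).1
    have h5 := hd n h2
    nlinarith
  · have h3 : Real.log ((n + 1 : ℕ) : ℝ) ≤ 1 := by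
      have h4 : Real.log ((n + 1 : ℕ) : ℝ) ≤ Real.log 2 := by
        refine Real.log_le_log (by positivity) ?_
        have : n + 1 ≤ 2 := by omega
        exact_mod_cast this
      have := Real.log_two_lt_d9
      linarith
    have h4 : Real.log ((n + 1 : ℕ) : ℝ) * dens μ ℱ A n ω ≤ 1 * 1 := mul_le_mul h3 (h01 n).2 (h01 n).1 zero_le_one
    linarith

lemma Ps_split (ω : Ω) (x : ℕ) : Ps A ω x = SA (yy μ ℱ A ω) x 1 1 + ∑ n ∈ Finset.range x, Real.log ((n + 1 : ℕ) : ℝ) * dens μ ℱ A n ω := by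
  rw [SA_sum, ← Finset.sum_add_distrib]
  unfold Ps
  refine Finset.sum_congr rfl fun n _ => ?_
  rw [if_pos Nat.modEq_one]
  unfold yy dif
  rw [Nat.add_sub_cancel]
  ring

lemma SA1 {ω : Ω} {C1 : ℝ} (hC1 : 0 ≤ C1)
    (hy : ∀ x q a : ℕ, 2 ≤ x → 1 ≤ q → q ≤ x → |SA (yy μ ℱ A ω) x q a| ≤ C1 * (√((x : ℝ) / q) + Real.log x) * Real.log x) :
    ∀ᶠ x : ℕ in atTop, |SA (yy μ ℱ A ω) x 1 1| ≤ 2 * C1 * (√(x : ℝ) * Real.log x) := by
  filter_upwards [ev_logs] with x ⟨h16, hl1, hl3⟩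
  have h1 := hy x 1 1 (by omega) le_rfl (by omega)
  rw [Nat.cast_one, div_one] at h1
  refine h1.trans ?_
  set L := Real.log (x : ℝ) with hL
  have hLs : L ≤ √(x : ℝ) := by nlinarith [sq_nonneg (L - 1), sq_nonneg L]
  have h2 : (√(x : ℝ) + L) * L ≤ 2 * (√(x : ℝ) * L) := by nlinarith
  calc C1 * (√(x : ℝ) + L) * L = C1 * ((√(x : ℝ) + L) * L) := by ring
    _ ≤ C1 * (2 * (√(x : ℝ) * L)) := mul_le_mul_of_nonneg_left h2 hC1
    _ = _ := by ring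

lemma Ps_le {ω : Ω} (h01 : ∀ n, 0 ≤ dens μ ℱ A n ω ∧ dens μ ℱ A n ω ≤ 1) {B : ℝ} (hB : 1 ≤ B)
    (hd : ∀ n : ℕ, 2 ≤ n → dens μ ℱ A n ω * Real.log n ≤ B) {C1 : ℝ} (hC1 : 0 ≤ C1)
    (hy : ∀ x q a : ℕ, 2 ≤ x → 1 ≤ q → q ≤ x → |SA (yy μ ℱ A ω) x q a| ≤ C1 * (√((x : ℝ) / q) + Real.log x) * Real.log x) :
    ∀ᶠ x : ℕ in atTop, Ps A ω x ≤ (2 * C1 + 2 * B + 1) * x := by
  filter_upwards [ev_logs, SA1 hC1 hy] with x ⟨h16, hl1, hl3⟩ h1
  rw [Ps_split (μ := μ) (ℱ := ℱ)]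
  have hxr : (16 : ℝ) ≤ x := by exact_mod_cast h16
  have hss : √(x : ℝ) * √(x : ℝ) = x := Real.mul_self_sqrt (by linarith)
  have hLs : Real.log (x : ℝ) ≤ √(x : ℝ) := by nlinarith [sq_nonneg (Real.log (x : ℝ) - 1), sq_nonneg (Real.log (x : ℝ))]
  have h2 : √(x : ℝ) * Real.log x ≤ x := by
    have := mul_le_mul_of_nonneg_left hLs (Real.sqrt_nonneg (x : ℝ))
    rwa [hss] at this
  have h3 : ∑ n ∈ Finset.range x, Real.log ((n + 1 : ℕ) : ℝ) * dens μ ℱ A n ω ≤ (2 * B + 1) * x := by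
    refine (Finset.sum_le_sum fun n _ => log_dens_bd h01 hB hd n).trans ?_
    rw [Finset.sum_const, Finset.card_range, nsmul_eq_mul, mul_comm]
  have h4 := (le_abs_self _).trans h1
  have h5 : 2 * C1 * (√(x : ℝ) * Real.log x) ≤ 2 * C1 * x := mul_le_mul_of_nonneg_left h2 (by linarith)
  linarith

/-- **the diagonal** -/
lemma diag {ω : Ω} (h01 : ∀ n, 0 ≤ dens μ ℱ A n ω ∧ dens μ ℱ A n ω ≤ 1) {B : ℝ} (hB : 1 ≤ B)
    (hd : ∀ n : ℕ, 2 ≤ n → dens μ ℱ A n ω * Real.log n ≤ B) (x : ℕ) :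
    |∑ n ∈ Finset.range x, yy μ ℱ A ω (n + 1) ^ 2 - S2 A ω x| ≤ 2 * (2 * B + 1) * Ps A ω x + (2 * B + 1) ^ 2 * x := by
  unfold S2 Ps
  rw [← Finset.sum_sub_distrib, Finset.mul_sum]
  have e0 : (2 * B + 1) ^ 2 * (x : ℝ) = ∑ n ∈ Finset.range x, (2 * B + 1) ^ 2 := by
    rw [Finset.sum_const, Finset.card_range, nsmul_eq_mul, mul_comm]
  rw [e0, ← Finset.sum_add_distrib]
  refine (Finset.abs_sum_le_sum_abs _ _).trans (Finset.sum_le_sum fun n _ => ?_)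
  have h1 := log_dens_bd h01 hB hd n
  have hI : In A (n + 1) ω ^ 2 = In A (n + 1) ω := by
    unfold In
    by_cases h : ω ∈ A (n + 1)
    · rw [indicator_of_mem h]
      norm_num
    · rw [indicator_of_notMem h]
      norm_num
  have hI0 := In_nonneg (A := A) (n + 1) ω
  unfold yy dif
  rw [Nat.add_sub_cancel]
  set l := Real.log ((n + 1 : ℕ) : ℝ) with hl
  have hl0 : 0 ≤ l := Real.log_natCast_nonneg _
  set D := dens μ ℱ A n ω with hD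
  have hD0 : 0 ≤ D := (h01 n).1
  set I := In A (n + 1) ω with hIdef
  have e : (l * (I - D)) ^ 2 - l ^ 2 * I = (l * D) ^ 2 - 2 * (l * D) * (l * I) := by
    have : (l * (I - D)) ^ 2 = l ^ 2 * I ^ 2 - 2 * (l * D) * (l * I) + (l * D) ^ 2 := by ring
    rw [this, hI]
    ring
  rw [e]
  have g0 : 0 ≤ l * D := mul_nonneg hl0 hD0
  have g1 : (l * D) ^ 2 ≤ (2 * B + 1) ^ 2 := pow_le_pow_left₀ g0 h1 2
  have g2 : 0 ≤ l * I := mul_nonneg hl0 hI0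
  have g3 : (l * D) * (l * I) ≤ (2 * B + 1) * (l * I) := mul_le_mul_of_nonneg_right h1 g2
  have g4 : 0 ≤ (l * D) * (l * I) := mul_nonneg g0 g2
  have g5 : 0 ≤ (l * D) ^ 2 := sq_nonneg _
  rw [abs_le]
  constructor
  · nlinarith
  · nlinarith

/-- **the variance of the martingale parts** -/
theorem var_bdd {ω : Ω} (h01 : ∀ n, 0 ≤ dens μ ℱ A n ω ∧ dens μ ℱ A n ω ≤ 1) {B : ℝ} (hB : 1 ≤ B)
    (hd : ∀ n : ℕ, 2 ≤ n → dens μ ℱ A n ω * Real.log n ≤ B) {C1 : ℝ} (hC1 : 0 ≤ C1)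
    (hy : ∀ x q a : ℕ, 2 ≤ x → 1 ≤ q → q ≤ x → |SA (yy μ ℱ A ω) x q a| ≤ C1 * (√((x : ℝ) / q) + Real.log x) * Real.log x)
    {C2 : ℝ} (hC2 : 0 ≤ C2) (hT : ∀ᶠ x : ℕ in atTop, ∀ q : ℕ, 1 ≤ q → q ≤ x →
      |∑ n ∈ Finset.range x, yy μ ℱ A ω (n + 1) * SA (yy μ ℱ A ω) n q (n + 1)| ≤ C2 * (x / Real.log x + x * Real.log x ^ 2 / √(q : ℝ))) :
    ∃ C, 0 ≤ C ∧ ∀ᶠ x : ℕ in atTop, ∀ q : ℕ, 1 ≤ q → q ≤ x →
      |VV (yy μ ℱ A ω) x q - S2 A ω x| ≤ C * (x + x * Real.log x ^ 2 / √(q : ℝ)) := by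
  refine ⟨2 * C2 + (2 * (2 * B + 1) * (2 * C1 + 2 * B + 1) + (2 * B + 1) ^ 2), by positivity, ?_⟩
  filter_upwards [hT, Ps_le h01 hB hd hC1 hy, ev_logs] with x h1 h2 ⟨_, hl1, _⟩ q hq hqx
  have h3' := h1 q hq hqx
  have h3 : |∑ n ∈ Finset.range x, yy μ ℱ A ω (n + 1) * SA (yy μ ℱ A ω) n q (n + 1)| ≤ C2 * (x + x * Real.log x ^ 2 / √(q : ℝ)) := by
    refine h3'.trans (mul_le_mul_of_nonneg_left ?_ hC2)
    have : (x : ℝ) / Real.log x ≤ x := div_le_self (Nat.cast_nonneg x) hl1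
    linarith
  have h4 := diag (μ := μ) h01 hB hd x
  rw [VV_eq _ hq]
  have h5 : 2 * (2 * B + 1) * Ps A ω x ≤ 2 * (2 * B + 1) * ((2 * C1 + 2 * B + 1) * x) := mul_le_mul_of_nonneg_left h2 (by positivity)
  have h6 : 0 ≤ (x : ℝ) * Real.log x ^ 2 / √(q : ℝ) := by positivity
  have h7 : (2 * (2 * B + 1) * (2 * C1 + 2 * B + 1) + (2 * B + 1) ^ 2) * x ≤
      (2 * (2 * B + 1) * (2 * C1 + 2 * B + 1) + (2 * B + 1) ^ 2) * (x + x * Real.log x ^ 2 / √(q : ℝ)) :=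
    mul_le_mul_of_nonneg_left (by linarith) (by positivity)
  have h8 := abs_le.1 h3
  have h9 := abs_le.1 h4
  rw [abs_le]
  constructor
  · nlinarith [h8.1, h9.1]
  · nlinarith [h8.2, h9.2]

end Pool.Agent.N893.SM
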