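import Mathlib
import Pool.Agent.N893.SM.M4

set_option autoImplicit false
set_option linter.unusedSectionVars false
set_option linter.unusedVariables false

/-! # The variance in progressions: the predictable parts -/

open MeasureTheory Filter Set
open scoped ENNReal Topology

namespace Pool.Agent.N893.SM

open Pool.Agent.R528.RM

/-- Abel's inequality with the variation -/
lemma abel_var {u h : ℕ → ℝ} {C : ℝ} (hC : 0 ≤ C) (N : ℕ) (hh : ∀ n ≤ N, |∑ k ∈ Finset.range n, h k| ≤ C) :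
    |∑ k ∈ Finset.range N, u k * h k| ≤ C * (|u N| + ∑ k ∈ Finset.range N, |u (k + 1) - u k|) := by
  have e : ∀ n, ∑ k ∈ Finset.range n, u k * h k = u n * (∑ k ∈ Finset.range n, h k) -
      ∑ k ∈ Finset.range n, (u (k + 1) - u k) * ∑ i ∈ Finset.range (k + 1), h i := by
    intro n
    induction n with
    | zero => simp
    | succ n ih =>
      rw [Finset.sum_range_succ, ih, Finset.sum_range_succ (fun k => (u (k + 1) - u k) * _), Finset.sum_range_succ h]
      ring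
  rw [e N]
  have h1 : |u N * ∑ k ∈ Finset.range N, h k| ≤ C * |u N| := by
    rw [abs_mul, mul_comm]
    exact mul_le_mul_of_nonneg_right (hh N le_rfl) (abs_nonneg _)
  have h2 : |∑ k ∈ Finset.range N, (u (k + 1) - u k) * ∑ i ∈ Finset.range (k + 1), h i| ≤ C * ∑ k ∈ Finset.range N, |u (k + 1) - u k| := by
    rw [Finset.mul_sum]
    refine (Finset.abs_sum_le_sum_abs _ _).trans (Finset.sum_le_sum fun k hk => ?_)
    rw [Finset.mem_range] at hk
    rw [abs_mul, mul_comm]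
    exact mul_le_mul_of_nonneg_right (hh _ (by omega)) (abs_nonneg _)
  calc _ ≤ _ := abs_sub _ _
    _ ≤ C * |u N| + C * ∑ k ∈ Finset.range N, |u (k + 1) - u k| := add_le_add h1 h2
    _ = _ := by ring

lemma log_log_step {s t B lam : ℝ} (hs : 0 < s) (hst : s ≤ t) (ht : t ≤ 2 * s) (hl : 0 ≤ lam) (hB : lam * s ≤ B) :
    lam * (t - s) ≤ 2 * B * (Real.log t - Real.log s) := by
  have htp : 0 < t := by linarith
  have h1 : 1 - s / t ≤ Real.log t - Real.log s := by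
    have h2 := Real.log_le_sub_one_of_pos (show 0 < s / t by positivity)
    rw [Real.log_div hs.ne' htp.ne'] at h2
    linarith
  have h3 : (t - s) / (2 * s) ≤ 1 - s / t := by
    have e : 1 - s / t = (t - s) / t := by field_simp
    rw [e]
    exact div_le_div_of_nonneg_left (by linarith) htp ht
  have h4 : (t - s) / (2 * s) ≤ Real.log t - Real.log s := h3.trans h1
  have hts : 0 ≤ (t - s) / (2 * s) := div_nonneg (by linarith) (by linarith)
  have hB0 : 0 ≤ B := le_trans (by positivity) hB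
  calc lam * (t - s) = 2 * (lam * s) * ((t - s) / (2 * s)) := by field_simp
    _ ≤ 2 * B * ((t - s) / (2 * s)) := mul_le_mul_of_nonneg_right (by linarith) hts
    _ ≤ _ := mul_le_mul_of_nonneg_left h4 (by linarith)

/-- the variation of `λ(k + 2) log (k + 3)` -/
lemma var_lam {lam : ℕ → ℝ} {B : ℝ} (hB : ∀ n, 2 ≤ n → lam n * Real.log n ≤ B) (h0 : ∀ n, 2 ≤ n → 0 ≤ lam n)
    (hanti : ∀ n, 2 ≤ n → lam (n + 1) ≤ lam n) (N : ℕ) :
    |Real.log ((N + 3 : ℕ) : ℝ) * lam (N + 2)| + ∑ k ∈ Finset.range N, |Real.log ((k + 1 + 3 : ℕ) : ℝ) * lam (k + 1 + 2) - Real.log ((k + 3 : ℕ) : ℝ) * lam (k + 2)| ≤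
      4 * B * Real.log (Real.log ((N + 3 : ℕ) : ℝ)) + 2 * lam 2 := by
  have hlog : ∀ k : ℕ, 1 < Real.log ((k + 3 : ℕ) : ℝ) := by
    intro k
    rw [Real.lt_log_iff_exp_lt (by positivity)]
    have h1 := Real.exp_one_lt_d9
    have h2 : (3 : ℝ) ≤ ((k + 3 : ℕ) : ℝ) := by exact_mod_cast (by omega : 3 ≤ k + 3)
    linarith
  have hmono : ∀ k : ℕ, Real.log ((k + 3 : ℕ) : ℝ) ≤ Real.log ((k + 1 + 3 : ℕ) : ℝ) := fun k =>
    Real.log_le_log (by positivity) (by exact_mod_cast (by omega : k + 3 ≤ k + 1 + 3))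
  have hdbl : ∀ k : ℕ, Real.log ((k + 1 + 3 : ℕ) : ℝ) ≤ 2 * Real.log ((k + 3 : ℕ) : ℝ) := by
    intro k
    have : Real.log ((k + 1 + 3 : ℕ) : ℝ) ≤ Real.log (((k + 3 : ℕ) : ℝ) ^ 2) := by
      refine Real.log_le_log (by positivity) ?_
      have : k + 1 + 3 ≤ (k + 3) ^ 2 := by nlinarith
      exact_mod_cast this
    rw [Real.log_pow] at this
    push_cast at this ⊢
    linarith
  -- the sum of the positive parts
  set p : ℕ → ℝ := fun k => lam (k + 3) * (Real.log ((k + 1 + 3 : ℕ) : ℝ) - Real.log ((k + 3 : ℕ) : ℝ)) with hp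
  have hp0 : ∀ k, 0 ≤ p k := fun k => mul_nonneg (h0 _ (by omega)) (by linarith [hmono k])
  have hp1 : ∀ k, p k ≤ 2 * B * (Real.log (Real.log ((k + 1 + 3 : ℕ) : ℝ)) - Real.log (Real.log ((k + 3 : ℕ) : ℝ))) := by
    intro k
    have h1 := hB (k + 3) (by omega)
    exact log_log_step (by linarith [hlog k]) (hmono k) (hdbl k) (h0 _ (by omega)) h1
  have hps : ∑ k ∈ Finset.range N, p k ≤ 2 * B * Real.log (Real.log ((N + 3 : ℕ) : ℝ)) := by
    refine (Finset.sum_le_sum fun k _ => hp1 k).trans ?_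
    rw [← Finset.mul_sum, Finset.sum_range_sub (fun k : ℕ => Real.log (Real.log ((k + 3 : ℕ) : ℝ)))]
    have h1 : 0 ≤ Real.log (Real.log ((0 + 3 : ℕ) : ℝ)) := Real.log_nonneg (hlog 0).le
    have h2 := hB 3 (by omega)
    have h3 := h0 3 (by omega)
    have hB0 : 0 ≤ B := le_trans (mul_nonneg h3 (Real.log_natCast_nonneg _)) h2
    nlinarith
  have hd : ∀ k, Real.log ((k + 1 + 3 : ℕ) : ℝ) * lam (k + 1 + 2) - Real.log ((k + 3 : ℕ) : ℝ) * lam (k + 2) =
      p k - Real.log ((k + 3 : ℕ) : ℝ) * (lam (k + 2) - lam (k + 3)) := by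
    intro k
    simp only [hp]
    rw [show k + 1 + 2 = k + 3 by ring]
    ring
  have hn0 : ∀ k, 0 ≤ Real.log ((k + 3 : ℕ) : ℝ) * (lam (k + 2) - lam (k + 3)) := fun k =>
    mul_nonneg (by linarith [hlog k]) (by linarith [hanti (k + 2) (by omega)])
  have habs : ∀ k, |Real.log ((k + 1 + 3 : ℕ) : ℝ) * lam (k + 1 + 2) - Real.log ((k + 3 : ℕ) : ℝ) * lam (k + 2)| ≤
      2 * p k - (Real.log ((k + 1 + 3 : ℕ) : ℝ) * lam (k + 1 + 2) - Real.log ((k + 3 : ℕ) : ℝ) * lam (k + 2)) := by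
    intro k
    rw [hd k]
    have h1 := hp0 k
    have h2 := hn0 k
    rw [abs_le]
    constructor <;> linarith
  have hsum := Finset.sum_le_sum fun k (_ : k ∈ Finset.range N) => habs k
  rw [Finset.sum_sub_distrib, ← Finset.mul_sum, Finset.sum_range_sub (fun k : ℕ => Real.log ((k + 3 : ℕ) : ℝ) * lam (k + 2))] at hsum
  have hN : 0 ≤ Real.log ((N + 3 : ℕ) : ℝ) * lam (N + 2) := mul_nonneg (by linarith [hlog N]) (h0 _ (by omega))
  rw [abs_of_nonneg hN]
  have hl3 : Real.log ((0 + 3 : ℕ) : ℝ) ≤ 2 := by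
    have h1 : Real.log ((0 + 3 : ℕ) : ℝ) ≤ ((0 + 3 : ℕ) : ℝ) - 1 := Real.log_le_sub_one_of_pos (by positivity)
    push_cast at h1 ⊢
    linarith
  have h2 : Real.log ((0 + 3 : ℕ) : ℝ) * lam (0 + 2) ≤ 2 * lam 2 := mul_le_mul_of_nonneg_right hl3 (h0 2 le_rfl)
  linarith

lemma lam_log {lam D : ℕ → ℝ} {W : ℕ} (hW : 0 < W) {B : ℝ} (hB : 1 ≤ B) (hd : ∀ n : ℕ, 2 ≤ n → D n * Real.log n ≤ B)
    (hD : ∀ n, 2 ≤ n → (n + 1).Coprime W → D n = lam n) (h0 : ∀ n, 2 ≤ n → 0 ≤ lam n)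
    (hanti : ∀ n, 2 ≤ n → lam (n + 1) ≤ lam n) : ∃ B2 : ℝ, 1 ≤ B2 ∧ ∀ n : ℕ, 2 ≤ n → lam n * Real.log n ≤ B2 := by
  have hmono : ∀ a b : ℕ, 2 ≤ a → a ≤ b → lam b ≤ lam a := by
    intro a b ha hab
    induction b, hab using Nat.le_induction with
    | base => exact le_rfl
    | succ b hb ih => exact (hanti b (by omega)).trans ih
  have hWr : (1 : ℝ) ≤ W := by exact_mod_cast hW
  have hl2 := h0 2 le_rfl
  have hlog0 : 0 ≤ Real.log ((2 * W + 4 : ℕ) : ℝ) := Real.log_natCast_nonneg _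
  refine ⟨2 * B + lam 2 * Real.log ((2 * W + 4 : ℕ) : ℝ), by nlinarith [mul_nonneg hl2 hlog0], fun n hn => ?_⟩
  rcases Nat.lt_or_ge n (2 * W + 4) with h1 | h1
  · have h2 : lam n ≤ lam 2 := hmono 2 n le_rfl hn
    have h3 : Real.log (n : ℝ) ≤ Real.log ((2 * W + 4 : ℕ) : ℝ) := Real.log_le_log (by exact_mod_cast (by omega : 0 < n)) (by exact_mod_cast h1.le)
    have h4 := mul_le_mul h2 h3 (Real.log_natCast_nonneg _) hl2
    linarith
  · set m := W * (n / W) with hm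
    have hmn : m ≤ n := Nat.mul_div_le n W
    have hnm : n < m + W := by
      have := Nat.lt_mul_div_succ n hW
      rw [hm]
      linarith [this, mul_add W (n / W) 1]
    have hm2 : n ≤ 2 * m := by omega
    have hm4 : 4 ≤ m := by omega
    have hcop : (m + 1).Coprime W := by
      rw [hm, mul_comm, Nat.coprime_mul_right_add_left]
      exact Nat.coprime_one_left W
    have h2 : lam n ≤ lam m := hmono m n (by omega) hmn
    have h3 := hd m (by omega)
    rw [hD m (by omega) hcop] at h3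
    have h4 : Real.log (n : ℝ) ≤ 2 * Real.log m := by
      have hmr : (4 : ℝ) ≤ m := by exact_mod_cast hm4
      have : Real.log (n : ℝ) ≤ Real.log ((m : ℝ) ^ 2) := by
        refine Real.log_le_log (by exact_mod_cast (by omega : 0 < n)) ?_
        have : n ≤ m ^ 2 := by nlinarith
        exact_mod_cast this
      rwa [Real.log_pow] at this
    have h5 : lam n * Real.log n ≤ lam m * (2 * Real.log m) := mul_le_mul h2 h4 (Real.log_natCast_nonneg _) (h0 m (by omega))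
    have h6 : 0 ≤ lam 2 * Real.log ((2 * W + 4 : ℕ) : ℝ) := mul_nonneg hl2 hlog0
    linarith

lemma ite_split (F : ℕ → ℝ) (n q a : ℕ) (f : ℝ) : ∑ k ∈ Finset.Icc 1 n, F k * ((if k ≡ a [MOD q] then 1 else 0) - 1 / f) =
    SA F n q a - SA F n 1 1 / f := by
  unfold SA
  rw [Finset.sum_filter, Finset.sum_filter, Finset.sum_div, ← Finset.sum_sub_distrib]
  refine Finset.sum_congr rfl fun k _ => ?_
  rw [if_pos (Nat.modEq_one : k ≡ 1 [MOD 1])]
  split_ifs <;> ring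

lemma Icc_shift (F : ℕ → ℝ) (N : ℕ) : ∑ k ∈ Finset.Icc 1 (N + 2), F k = F 1 + F 2 + ∑ k ∈ Finset.range N, F (k + 3) := by
  induction N with
  | zero => simp [Finset.sum_Icc_succ_top]
  | succ N ih =>
    rw [show N + 1 + 2 = (N + 2) + 1 by ring, Finset.sum_Icc_succ_top (by omega), ih, Finset.sum_range_succ]
    ring

/-- **the predictable parts of the classes are close to each other** -/
theorem pred_equi (Q : Finset ℕ) (hQ : ∀ p ∈ Q, p.Prime) {D lam : ℕ → ℝ} (h01 : ∀ n, 0 ≤ D n ∧ D n ≤ 1) {B : ℝ} (hB : 1 ≤ B)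
    (hd : ∀ n : ℕ, 2 ≤ n → D n * Real.log n ≤ B)
    (hlam : ∀ n, 2 ≤ n → 0 ≤ lam n ∧ lam (n + 1) ≤ lam n ∧ ((∀ p ∈ Q, ¬ p ∣ n + 1) → D n = lam n))
    (hzero : ∀ n, (∃ p ∈ Q, p ∣ n + 1) → D n = 0) :
    ∃ C : ℝ, 0 ≤ C ∧ ∀ x q a : ℕ, 3 ≤ x → 1 ≤ q → 1 ≤ a → a ≤ q → Ad Q q a →
      |SA (fun n => Real.log n * D (n - 1)) x q a - SA (fun n => Real.log n * D (n - 1)) x 1 1 / phiQ Q q| ≤
        C * (1 + Real.log (Real.log x)) := by
  set W := ∏ p ∈ Q, p with hWdef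
  have hW : 0 < W := Finset.prod_pos fun q hq => (hQ q hq).pos
  have hWr : (1 : ℝ) ≤ W := by exact_mod_cast hW
  have hcopW : ∀ n : ℕ, n.Coprime W ↔ ∀ p ∈ Q, ¬ p ∣ n := fun n => coprime_prod_iff Q hQ n
  obtain ⟨B2, hB2, hlB⟩ := lam_log hW hB hd (fun n hn hc => (hlam n hn).2.2 ((hcopW _).1 hc)) (fun n hn => (hlam n hn).1) (fun n hn => (hlam n hn).2.1)
  have hl2 := (hlam 2 le_rfl).1
  set CH : ℝ := 2 * (W : ℝ) ^ 2 + 2 + 2 * (1 + W) with hCH
  have hCH0 : 0 ≤ CH := by positivity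
  refine ⟨CH * (4 * B2 + 2 * lam 2) + (1 + W), by positivity, fun x q a hx hq ha haq had => ?_⟩
  obtain ⟨N, rfl⟩ : ∃ N, x = N + 2 := ⟨x - 2, by omega⟩
  have hqr : (1 : ℝ) ≤ q := by exact_mod_cast hq
  have hqp : (0 : ℝ) < q := by linarith
  obtain ⟨p1, p2⟩ := phiQ_bounds Q hQ q
  have hphi : 0 < phiQ Q q := lt_of_lt_of_le (by positivity) p1
  have hphi1 : 1 / phiQ Q q ≤ W / q := by
    rw [div_le_div_iff₀ hphi hqp, one_mul]
    rw [div_le_iff₀ (by positivity)] at p1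
    linarith
  have hWq : (W : ℝ) / q ≤ W := div_le_self (by positivity) hqr
  set f := phiQ Q q with hf
  set g : ℕ → ℝ := fun k => (if k ≡ a [MOD q] then 1 else 0) - 1 / f with hg
  have hgb : ∀ k, |g k| ≤ 1 + W := by
    intro k
    have h1 : 0 ≤ 1 / f := by positivity
    have h2 : 1 / f ≤ W := hphi1.trans hWq
    simp only [hg]
    rw [abs_le]
    split_ifs
    · constructor <;> linarith
    · constructor <;> linarith
  rw [← ite_split]
  have hg' : ∀ k : ℕ, ((if k ≡ a [MOD q] then (1 : ℝ) else 0) - 1 / f) = g k := fun k => rfl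
  simp only [hg']
  rw [Icc_shift]
  set h : ℕ → ℝ := fun k => (if k.Coprime W then 1 else 0) * g k with hh
  have e1 : ∑ k ∈ Finset.range N, Real.log ((k + 3 : ℕ) : ℝ) * D (k + 3 - 1) * g (k + 3) =
      ∑ k ∈ Finset.range N, (Real.log ((k + 3 : ℕ) : ℝ) * lam (k + 2)) * h (k + 3) := by
    refine Finset.sum_congr rfl fun k _ => ?_
    rw [show k + 3 - 1 = k + 2 by omega]
    simp only [hh]
    by_cases hc : (k + 3).Coprime W
    · rw [if_pos hc, one_mul]
      have := (hlam (k + 2) (by omega)).2.2 ((hcopW (k + 3)).1 hc)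
      rw [this]
    · rw [if_neg hc, zero_mul, mul_zero]
      have hex : ∃ p ∈ Q, p ∣ k + 2 + 1 := by
        by_contra hcon
        push Not at hcon
        exact hc ((hcopW (k + 3)).2 hcon)
      rw [hzero (k + 2) hex, mul_zero, zero_mul]
  rw [e1]
  have hhb : ∀ k, |h k| ≤ 1 + W := by
    intro k
    simp only [hh]
    rw [abs_mul]
    have : |(if k.Coprime W then (1 : ℝ) else 0)| ≤ 1 := by split_ifs <;> simp
    calc |(if k.Coprime W then (1 : ℝ) else 0)| * |g k| ≤ 1 * (1 + W) := mul_le_mul this (hgb k) (abs_nonneg _) zero_le_one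
      _ = _ := one_mul _
  have habel := abel_var (u := fun k => Real.log ((k + 3 : ℕ) : ℝ) * lam (k + 2)) (h := fun k => h (k + 3)) (C := CH) hCH0 N (fun n' hn' => by
    have h1 := cop_equi Q hQ hq ha haq had (n' + 2)
    rw [← hf, ← hWdef, ← ite_split] at h1
    simp only [hg'] at h1
    rw [Icc_shift] at h1
    have h2 := abs_le.1 h1
    have h3 := abs_le.1 (hhb 1)
    have h4 := abs_le.1 (hhb 2)
    rw [abs_le]
    simp only [hh] at h2 h3 h4 ⊢
    constructor <;> linarith)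
  have hvar := var_lam hlB (fun n hn => (hlam n hn).1) (fun n hn => (hlam n hn).2.1) N
  have h1 : |∑ k ∈ Finset.range N, (Real.log ((k + 3 : ℕ) : ℝ) * lam (k + 2)) * h (k + 3)| ≤
      CH * (4 * B2 * Real.log (Real.log ((N + 3 : ℕ) : ℝ)) + 2 * lam 2) :=
    habel.trans (mul_le_mul_of_nonneg_left hvar hCH0)
  -- the logarithms
  have hxr : (3 : ℝ) ≤ ((N + 2 : ℕ) : ℝ) := by exact_mod_cast hx
  have hlogx : 1 ≤ Real.log ((N + 2 : ℕ) : ℝ) := by
    rw [Real.le_log_iff_exp_le (by linarith)]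
    have h1 := Real.exp_one_lt_d9
    linarith
  have hll : Real.log (Real.log ((N + 3 : ℕ) : ℝ)) ≤ 1 + Real.log (Real.log ((N + 2 : ℕ) : ℝ)) := by
    have h2 : Real.log ((N + 3 : ℕ) : ℝ) ≤ 2 * Real.log ((N + 2 : ℕ) : ℝ) := by
      have : Real.log ((N + 3 : ℕ) : ℝ) ≤ Real.log (((N + 2 : ℕ) : ℝ) ^ 2) := by
        refine Real.log_le_log (by positivity) ?_
        have : N + 3 ≤ (N + 2) ^ 2 := by nlinarith
        exact_mod_cast this
      rw [Real.log_pow] at this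
      push_cast at this ⊢
      linarith
    have h3 : 0 < Real.log ((N + 3 : ℕ) : ℝ) := by
      refine Real.log_pos ?_
      exact_mod_cast (by omega : 1 < N + 3)
    have h4 := Real.log_le_log h3 h2
    rw [Real.log_mul (by norm_num) (by linarith)] at h4
    have h5 := Real.log_two_lt_d9
    linarith
  have hll0 : 0 ≤ Real.log (Real.log ((N + 2 : ℕ) : ℝ)) := Real.log_nonneg hlogx
  have t1 : |Real.log ((1 : ℕ) : ℝ) * D (1 - 1) * g 1| ≤ 0 := by
    rw [Nat.cast_one, Real.log_one, zero_mul, zero_mul, abs_zero]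
  have t2 : |Real.log ((2 : ℕ) : ℝ) * D (2 - 1) * g 2| ≤ 1 + W := by
    rw [abs_mul, abs_mul, abs_of_nonneg (Real.log_natCast_nonneg 2), abs_of_nonneg (h01 _).1]
    have h1 : Real.log ((2 : ℕ) : ℝ) ≤ 1 := by
      have := Real.log_two_lt_d9
      push_cast
      linarith
    calc Real.log ((2 : ℕ) : ℝ) * D (2 - 1) * |g 2| ≤ 1 * (1 + W) :=
          mul_le_mul (mul_le_one₀ h1 (h01 _).1 (h01 _).2) (hgb 2) (abs_nonneg _) zero_le_one
      _ = _ := one_mul _
  have hsum := (abs_add_le (Real.log ((1 : ℕ) : ℝ) * D (1 - 1) * g 1 + Real.log ((2 : ℕ) : ℝ) * D (2 - 1) * g 2)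
    (∑ k ∈ Finset.range N, (Real.log ((k + 3 : ℕ) : ℝ) * lam (k + 2)) * h (k + 3)))
  have hsum2 := abs_add_le (Real.log ((1 : ℕ) : ℝ) * D (1 - 1) * g 1) (Real.log ((2 : ℕ) : ℝ) * D (2 - 1) * g 2)
  refine hsum.trans ?_
  have h6 : 4 * B2 * Real.log (Real.log ((N + 3 : ℕ) : ℝ)) + 2 * lam 2 ≤ (4 * B2 + 2 * lam 2) * (1 + Real.log (Real.log ((N + 2 : ℕ) : ℝ))) := by
    have : 4 * B2 * Real.log (Real.log ((N + 3 : ℕ) : ℝ)) ≤ 4 * B2 * (1 + Real.log (Real.log ((N + 2 : ℕ) : ℝ))) :=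
      mul_le_mul_of_nonneg_left hll (by linarith)
    nlinarith
  have h7 : CH * (4 * B2 * Real.log (Real.log ((N + 3 : ℕ) : ℝ)) + 2 * lam 2) ≤ CH * ((4 * B2 + 2 * lam 2) * (1 + Real.log (Real.log ((N + 2 : ℕ) : ℝ)))) :=
    mul_le_mul_of_nonneg_left h6 hCH0
  have h8 : 0 ≤ (1 + (W : ℝ)) * Real.log (Real.log ((N + 2 : ℕ) : ℝ)) := by positivity
  nlinarith [h1, h7, h8, t1, t2, hsum2]

end Pool.Agent.N893.SM
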