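import Mathlib
import Pool.Agent.N893.SM.M5

set_option autoImplicit false
set_option linter.unusedSectionVars false
set_option linter.unusedVariables false

/-! # The variance in progressions: assembly -/

open MeasureTheory Filter Set
open scoped ENNReal Topology

namespace Pool.Agent.N893.SM

open Pool.Agent.R528.RM

lemma sq_pert {T : Finset ℕ} {q : ℕ} (hT : T.card ≤ q) {M v : ℕ → ℝ} {m f V Λ : ℝ} (hV : ∑ a ∈ T, M a ^ 2 = V)
    (hm : ∑ a ∈ T, M a = m) (hf : 0 < f) (hΛ : 0 ≤ Λ) (hv : ∀ a ∈ T, |v a| ≤ Λ) :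
    |∑ a ∈ T, (M a - m / f + v a) ^ 2 - V| ≤ 2 * (m ^ 2 / f) + 2 * (Λ * √(q * V)) + 2 * (q * (m ^ 2 / f ^ 2 + Λ ^ 2)) := by
  have hTr : (T.card : ℝ) ≤ q := by exact_mod_cast hT
  have hV0 : 0 ≤ V := by rw [← hV]; exact Finset.sum_nonneg fun _ _ => sq_nonneg _
  have e1 : ∑ a ∈ T, (M a - m / f + v a) ^ 2 - V = -2 * (m ^ 2 / f) + 2 * ∑ a ∈ T, M a * v a + ∑ a ∈ T, (-(m / f) + v a) ^ 2 := by
    have : ∀ a ∈ T, (M a - m / f + v a) ^ 2 = M a ^ 2 + (-2 * (m / f)) * M a + 2 * (M a * v a) + (-(m / f) + v a) ^ 2 := fun a _ => by ring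
    rw [Finset.sum_congr rfl this, Finset.sum_add_distrib, Finset.sum_add_distrib, Finset.sum_add_distrib, ← Finset.mul_sum, ← Finset.mul_sum, hV, hm]
    field_simp
    ring
  rw [e1]
  have hvs : ∑ a ∈ T, v a ^ 2 ≤ q * Λ ^ 2 := by
    refine (Finset.sum_le_sum (g := fun _ => Λ ^ 2) fun a ha => ?_).trans ?_
    · have := hv a ha
      rw [← sq_abs]
      exact pow_le_pow_left₀ (abs_nonneg _) this 2
    · rw [Finset.sum_const, nsmul_eq_mul]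
      exact mul_le_mul_of_nonneg_right hTr (sq_nonneg _)
  have hcs : |∑ a ∈ T, M a * v a| ≤ Λ * √(q * V) := by
    have h1 := Finset.sum_mul_sq_le_sq_mul_sq T M v
    rw [hV] at h1
    have h2 : (∑ a ∈ T, M a * v a) ^ 2 ≤ Λ ^ 2 * (q * V) := by
      refine h1.trans ?_
      calc V * ∑ a ∈ T, v a ^ 2 ≤ V * (q * Λ ^ 2) := mul_le_mul_of_nonneg_left hvs hV0
        _ = _ := by ring
    have h3 := Real.abs_le_sqrt h2
    rwa [Real.sqrt_mul (sq_nonneg _), Real.sqrt_sq hΛ] at h3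
  have hw : ∑ a ∈ T, (-(m / f) + v a) ^ 2 ≤ 2 * (q * (m ^ 2 / f ^ 2 + Λ ^ 2)) := by
    have h1 : ∀ a ∈ T, (-(m / f) + v a) ^ 2 ≤ 2 * (m ^ 2 / f ^ 2 + Λ ^ 2) := by
      intro a ha
      have h2 : v a ^ 2 ≤ Λ ^ 2 := by
        rw [← sq_abs]
        exact pow_le_pow_left₀ (abs_nonneg _) (hv a ha) 2
      have h3 : (-(m / f) + v a) ^ 2 ≤ 2 * ((m / f) ^ 2 + v a ^ 2) := by nlinarith [sq_nonneg (-(m / f) - v a)]
      rw [div_pow] at h3
      linarith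
    refine (Finset.sum_le_sum h1).trans ?_
    rw [Finset.sum_const, nsmul_eq_mul]
    have h2 : 0 ≤ 2 * (m ^ 2 / f ^ 2 + Λ ^ 2) := by positivity
    calc (T.card : ℝ) * (2 * (m ^ 2 / f ^ 2 + Λ ^ 2)) ≤ q * (2 * (m ^ 2 / f ^ 2 + Λ ^ 2)) := mul_le_mul_of_nonneg_right hTr h2
      _ = _ := by ring
  have hw0 : 0 ≤ ∑ a ∈ T, (-(m / f) + v a) ^ 2 := Finset.sum_nonneg fun _ _ => sq_nonneg _
  have h0 : 0 ≤ m ^ 2 / f := by positivity
  have hc := abs_le.1 hcs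
  rw [abs_le]
  constructor
  · nlinarith [hc.1]
  · nlinarith [hc.2]

lemma sqrt_add_le' {a b : ℝ} (ha : 0 ≤ a) (hb : 0 ≤ b) : √(a + b) ≤ √a + √b := by
  refine Real.sqrt_le_iff.2 ⟨by positivity, ?_⟩
  have h1 := Real.sq_sqrt ha
  have h2 := Real.sq_sqrt hb
  have h3 : 0 ≤ √a * √b := by positivity
  calc a + b = √a ^ 2 + √b ^ 2 := by rw [h1, h2]
    _ ≤ (√a + √b) ^ 2 := by linarith [show (√a + √b) ^ 2 = √a ^ 2 + √b ^ 2 + 2 * (√a * √b) by ring]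

lemma ev_ll {η : ℝ} (hη : 0 < η) : ∀ᶠ x : ℕ in atTop, 0 ≤ Real.log (Real.log x) ∧ (1 + Real.log (Real.log x)) ^ 2 ≤ η * Real.log x := by
  have h1 : Tendsto (fun x : ℝ => Real.log x ^ 2 / x ^ (1 : ℝ)) atTop (𝓝 0) := by
    have := isLittleO_log_rpow_rpow_atTop (s := 1) (2 : ℝ) (by norm_num)
    have h2 := this.tendsto_div_nhds_zero
    refine h2.congr fun x => ?_
    rw [← Real.rpow_natCast]
    norm_num
  have h2 : ∀ᶠ y : ℝ in atTop, 0 ≤ Real.log y ∧ (1 + Real.log y) ^ 2 ≤ η * y := by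
    filter_upwards [h1.eventually_le_const (show (0 : ℝ) < η / 4 by positivity), eventually_ge_atTop (Real.exp 1)] with y hy hy1
    have hyp : 0 < y := lt_of_lt_of_le (Real.exp_pos 1) hy1
    have hl : 1 ≤ Real.log y := by
      rw [Real.le_log_iff_exp_le hyp]
      exact hy1
    rw [Real.rpow_one, div_le_iff₀ hyp] at hy
    refine ⟨by linarith, ?_⟩
    nlinarith
  exact tendsto_log.eventually h2

variable {Ω : Type} {m0 : MeasurableSpace Ω} {μ : Measure Ω} [IsProbabilityMeasure μ]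
  {ℱ : Filtration ℕ m0} {A : ℕ → Set Ω}

open Classical in
/-- the variance over the admissible classes -/
noncomputable def GQ (Q : Finset ℕ) (A : ℕ → Set Ω) (ω : Ω) (x q : ℕ) : ℝ :=
  ∑ a ∈ (Finset.Icc 1 q).filter (fun a => Ad Q q a),
    (SA (fun n => Real.log n * In A n ω) x q a - SA (fun n => Real.log n * In A n ω) x 1 1 / phiQ Q q) ^ 2

/-- **the variance in monotone models** -/
theorem var_mono (Q : Finset ℕ) (hQ : ∀ p ∈ Q, p.Prime) {ω : Ω} (h01 : ∀ n, 0 ≤ dens μ ℱ A n ω ∧ dens μ ℱ A n ω ≤ 1)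
    {B : ℝ} (hB : 1 ≤ B) (hd : ∀ n : ℕ, 2 ≤ n → dens μ ℱ A n ω * Real.log n ≤ B) {C1 : ℝ} (hC1 : 0 ≤ C1)
    (hy : ∀ x q a : ℕ, 2 ≤ x → 1 ≤ q → q ≤ x → |SA (yy μ ℱ A ω) x q a| ≤ C1 * (√((x : ℝ) / q) + Real.log x) * Real.log x)
    {C2 : ℝ} (hC2 : 0 ≤ C2) (hT : ∀ᶠ x : ℕ in atTop, ∀ q : ℕ, 1 ≤ q → q ≤ x →
      |∑ n ∈ Finset.range x, yy μ ℱ A ω (n + 1) * SA (yy μ ℱ A ω) n q (n + 1)| ≤ C2 * (x / Real.log x + x * Real.log x ^ 2 / √(q : ℝ)))
    {C3 : ℝ} (hC3 : 0 ≤ C3) (hpred : ∀ x q a : ℕ, 3 ≤ x → 1 ≤ q → 1 ≤ a → a ≤ q → Ad Q q a →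
      |SA (fun n => Real.log n * dens μ ℱ A (n - 1) ω) x q a - SA (fun n => Real.log n * dens μ ℱ A (n - 1) ω) x 1 1 / phiQ Q q| ≤
        C3 * (1 + Real.log (Real.log x)))
    (hzero : ∀ n, (∃ p ∈ Q, p ∣ n + 1) → dens μ ℱ A n ω = 0) (hIn : ∀ n, (∃ p ∈ Q, p ∣ n) → In A n ω = 0) :
    ∃ C, 0 ≤ C ∧ ∀ᶠ x : ℕ in atTop, ∀ q : ℕ, 1 ≤ q → q ≤ x →
      |GQ Q A ω x q - ∑ n ∈ Finset.range x, yy μ ℱ A ω (n + 1) ^ 2| ≤
        C * (x / Real.log x + x * Real.log x ^ 2 / √(q : ℝ) + √((q : ℝ) * x * Real.log x) * (1 + Real.log (Real.log x))) := by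
  classical
  obtain ⟨CV, hCV, hvar⟩ := var_bdd (μ := μ) h01 hB hd hC1 hy hC2 hT
  set W := ∏ p ∈ Q, p with hWdef
  have hW : 0 < W := Finset.prod_pos fun q hq => (hQ q hq).pos
  have hWr : (1 : ℝ) ≤ W := by exact_mod_cast hW
  set K : ℝ := 2 * C1 + 2 * B + 1 + CV with hK
  have hK0 : 0 ≤ K := by positivity
  refine ⟨2 * C2 + (8 * C1 ^ 2 * W + 8 * C1 ^ 2 * W ^ 2) + 2 * C3 * √K + 2 * C3 ^ 2, by positivity, ?_⟩
  filter_upwards [hT, hvar, Ps_le h01 hB hd hC1 hy, SA1 hC1 hy, ev_logs5, ev_ll (η := 1) one_pos] with x hTx hvx hPx hS1 ⟨h16, hl1, hl5⟩ ⟨hll0, hll⟩ q hq hqx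
  have hTq := hTx q hq hqx
  have hvq := hvx q hq hqx
  have hqr : (1 : ℝ) ≤ q := by exact_mod_cast hq
  have hqp : (0 : ℝ) < q := by linarith
  have hxr : (16 : ℝ) ≤ x := by exact_mod_cast h16
  have hxp : (0 : ℝ) < x := by linarith
  have hqxr : (q : ℝ) ≤ x := by exact_mod_cast hqx
  have hss : √(x : ℝ) * √(x : ℝ) = x := Real.mul_self_sqrt hxp.le
  have hsx : 0 < √(x : ℝ) := Real.sqrt_pos.2 hxp
  have hsq1 : 1 ≤ √(q : ℝ) := Real.one_le_sqrt.2 hqr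
  have hsqq : √(q : ℝ) * √(q : ℝ) = q := Real.mul_self_sqrt hqp.le
  have hsqx : √(q : ℝ) ≤ √(x : ℝ) := Real.sqrt_le_sqrt hqxr
  set L := Real.log (x : ℝ) with hL
  have hLp : 0 < L := by linarith
  set LL := Real.log L with hLL
  rw [one_mul] at hll
  obtain ⟨p1, p2⟩ := phiQ_bounds Q hQ q
  have hphi : 0 < phiQ Q q := lt_of_lt_of_le (by positivity) p1
  have hphi1 : 1 / phiQ Q q ≤ W / q := by
    rw [div_le_div_iff₀ hphi hqp, one_mul]
    rw [div_le_iff₀ (by positivity)] at p1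
    linarith
  set f := phiQ Q q with hf
  set T := (Finset.Icc 1 q).filter (fun a => Ad Q q a) with hTdef
  have hTc : T.card ≤ q := by
    refine (Finset.card_filter_le _ _).trans ?_
    rw [Nat.card_Icc, Nat.add_sub_cancel]
  -- sums over the non-admissible classes vanish
  have hyz : ∀ n, (∃ p ∈ Q, p ∣ n) → 1 ≤ n → yy μ ℱ A ω n = 0 := by
    intro n hn hn1
    unfold yy dif
    rw [hIn n hn, hzero (n - 1) (by rw [Nat.sub_add_cancel hn1]; exact hn), sub_zero, mul_zero]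
  have hna : ∀ a ∈ Finset.Icc 1 q, a ∉ T → SA (yy μ ℱ A ω) x q a = 0 := by
    intro a ha haT
    have hnot : ¬ Ad Q q a := fun h => haT (Finset.mem_filter.2 ⟨ha, h⟩)
    unfold Ad at hnot
    push Not at hnot
    obtain ⟨p, hp, hpa, hpq⟩ := hnot
    unfold SA
    refine Finset.sum_eq_zero fun n hn => ?_
    obtain ⟨h1, h2⟩ := Finset.mem_filter.1 hn
    exact hyz n ⟨p, hp, (Nat.ModEq.dvd_iff h2 hpq).2 hpa⟩ (Finset.mem_Icc.1 h1).1
  have hVT : ∑ a ∈ T, SA (yy μ ℱ A ω) x q a ^ 2 = VV (yy μ ℱ A ω) x q := by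
    unfold VV
    refine Finset.sum_subset (Finset.filter_subset _ _) fun a ha haT => ?_
    rw [hna a ha haT]
    norm_num
  have hmT : ∑ a ∈ T, SA (yy μ ℱ A ω) x q a = SA (yy μ ℱ A ω) x 1 1 := by
    have h1 : ∑ a ∈ T, SA (yy μ ℱ A ω) x q a = ∑ a ∈ Finset.Icc 1 q, SA (yy μ ℱ A ω) x q a :=
      Finset.sum_subset (Finset.filter_subset _ _) fun a ha haT => hna a ha haT
    rw [h1]
    simp only [SA_sum]
    rw [Finset.sum_comm]
    refine Finset.sum_congr rfl fun n _ => ?_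
    rw [if_pos Nat.modEq_one]
    obtain ⟨a0, g1, g2, g3⟩ := rep_ex hq (n + 1)
    rw [Finset.sum_eq_single a0]
    · rw [if_pos g3.symm]
    · intro b hb hne
      rw [Finset.mem_Icc] at hb
      rw [if_neg]
      intro hcon
      exact hne (rep_unique hb.1 hb.2 g1 g2 (g3.trans hcon).symm)
    · intro h
      exact absurd (Finset.mem_Icc.2 ⟨g1, g2⟩) h
  -- the decomposition
  have hdec : ∀ q' a', SA (fun n => Real.log n * In A n ω) x q' a' = SA (yy μ ℱ A ω) x q' a' + SA (fun n => Real.log n * dens μ ℱ A (n - 1) ω) x q' a' := by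
    intro q' a'
    unfold SA
    rw [← Finset.sum_add_distrib]
    refine Finset.sum_congr rfl fun k _ => ?_
    unfold yy dif
    ring
  set m := SA (yy μ ℱ A ω) x 1 1 with hm
  set P : ℕ → ℝ := fun a => SA (fun n => Real.log n * dens μ ℱ A (n - 1) ω) x q a - SA (fun n => Real.log n * dens μ ℱ A (n - 1) ω) x 1 1 / f with hP
  have hG : GQ Q A ω x q = ∑ a ∈ T, (SA (yy μ ℱ A ω) x q a - m / f + P a) ^ 2 := by
    unfold GQ
    refine Finset.sum_congr rfl fun a _ => ?_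
    rw [hdec, hdec, ← hf, ← hm]
    simp only [hP]
    congr 1
    rw [add_div]
    ring
  set Λ := C3 * (1 + LL) with hΛ
  have hΛ0 : 0 ≤ Λ := mul_nonneg hC3 (by linarith)
  have hpert := sq_pert hTc hVT hmT hphi hΛ0 (v := P) (fun a ha => by
    obtain ⟨h1, h2⟩ := Finset.mem_filter.1 ha
    obtain ⟨h3, h4⟩ := Finset.mem_Icc.1 h1
    exact hpred x q a (by omega) hq h3 h4 h2)
  rw [← hG] at hpert
  -- the estimates
  set V := VV (yy μ ℱ A ω) x q with hV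
  have hV0 : 0 ≤ V := by rw [← hVT]; exact Finset.sum_nonneg fun _ _ => sq_nonneg _
  set Y := x * L ^ 2 / √(q : ℝ) with hY
  have hY0 : 0 ≤ Y := by positivity
  have hm2 : m ^ 2 ≤ 4 * C1 ^ 2 * (x * L ^ 2) := by
    have h1 := pow_le_pow_left₀ (abs_nonneg _) hS1 2
    rw [sq_abs] at h1
    refine h1.trans (le_of_eq ?_)
    calc (2 * C1 * (√(x : ℝ) * L)) ^ 2 = 4 * C1 ^ 2 * ((√(x : ℝ) * √(x : ℝ)) * L ^ 2) := by ring
      _ = _ := by rw [hss]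
  have hxq : x * L ^ 2 / q ≤ Y := by
    rw [hY]
    refine div_le_div_of_nonneg_left (by positivity) (by linarith) ?_
    calc √(q : ℝ) = √(q : ℝ) * 1 := (mul_one _).symm
      _ ≤ √(q : ℝ) * √(q : ℝ) := mul_le_mul_of_nonneg_left hsq1 (by linarith)
      _ = q := hsqq
  have b1 : m ^ 2 / f ≤ 4 * C1 ^ 2 * W * Y := by
    calc m ^ 2 / f = m ^ 2 * (1 / f) := by ring
      _ ≤ (4 * C1 ^ 2 * (x * L ^ 2)) * (W / q) := mul_le_mul hm2 hphi1 (by positivity) (by positivity)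
      _ = 4 * C1 ^ 2 * W * (x * L ^ 2 / q) := by ring
      _ ≤ _ := mul_le_mul_of_nonneg_left hxq (by positivity)
  have b2 : q * (m ^ 2 / f ^ 2) ≤ 4 * C1 ^ 2 * W ^ 2 * Y := by
    have h1 : (1 / f) ^ 2 ≤ (W / q) ^ 2 := pow_le_pow_left₀ (by positivity) hphi1 2
    calc q * (m ^ 2 / f ^ 2) = q * (m ^ 2 * (1 / f) ^ 2) := by ring
      _ ≤ q * ((4 * C1 ^ 2 * (x * L ^ 2)) * (W / q) ^ 2) :=
        mul_le_mul_of_nonneg_left (mul_le_mul hm2 h1 (by positivity) (by positivity)) hqp.le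
      _ = 4 * C1 ^ 2 * W ^ 2 * (x * L ^ 2 / q) := by field_simp
      _ ≤ _ := mul_le_mul_of_nonneg_left hxq (by positivity)
  set R := √((q : ℝ) * x * L) with hR
  have hR0 : 0 ≤ R := Real.sqrt_nonneg _
  have hRe : R = √(q : ℝ) * √(x : ℝ) * √L := by
    rw [hR, Real.sqrt_mul (by positivity), Real.sqrt_mul (by positivity)]
  have hlls : 1 + LL ≤ √L := Real.le_sqrt_of_sq_le hll
  have b3 : q * (1 + LL) ^ 2 ≤ R * (1 + LL) := by
    calc q * (1 + LL) ^ 2 = (√(q : ℝ) * √(q : ℝ) * (1 + LL)) * (1 + LL) := by rw [hsqq]; ring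
      _ ≤ (√(q : ℝ) * √(x : ℝ) * √L) * (1 + LL) := by
        refine mul_le_mul_of_nonneg_right ?_ (by linarith)
        exact mul_le_mul (mul_le_mul_of_nonneg_left hsqx (by linarith)) hlls (by linarith) (by positivity)
      _ = R * (1 + LL) := by rw [hRe]
  -- the size of V
  have hVle : V ≤ K * (x * L) + K * Y := by
    have h1 := (abs_le.1 hvq).2
    have h2 : S2 A ω x ≤ L * Ps A ω x := S2_le ω x
    have h3 : L * Ps A ω x ≤ L * ((2 * C1 + 2 * B + 1) * x) := mul_le_mul_of_nonneg_left hPx hLp.le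
    have h4 : (x : ℝ) ≤ x * L := by nlinarith
    have h5 : CV * x ≤ CV * (x * L) := mul_le_mul_of_nonneg_left h4 hCV
    have h6 : 0 ≤ (2 * C1 + 2 * B + 1) * Y := by positivity
    rw [hK]
    nlinarith
  have b4 : √(q * V) ≤ √K * (R + √(√(q : ℝ) * x * L ^ 2)) := by
    have h1 : (q : ℝ) * V ≤ K * (q * x * L) + K * (√(q : ℝ) * x * L ^ 2) := by
      have h2 := mul_le_mul_of_nonneg_left hVle hqp.le
      have h3 : (q : ℝ) * (K * Y) = K * (√(q : ℝ) * x * L ^ 2) := by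
        rw [hY]
        have : (q : ℝ) / √(q : ℝ) = √(q : ℝ) := by
          rw [div_eq_iff (by linarith), hsqq]
        calc (q : ℝ) * (K * (x * L ^ 2 / √(q : ℝ))) = K * ((q / √(q : ℝ)) * x * L ^ 2) := by ring
          _ = _ := by rw [this]
      nlinarith
    refine (Real.sqrt_le_sqrt h1).trans ?_
    rw [← mul_add, Real.sqrt_mul hK0]
    refine mul_le_mul_of_nonneg_left ?_ (Real.sqrt_nonneg _)
    exact sqrt_add_le' (by positivity) (by positivity)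
  have b5 : (1 + LL) * √(√(q : ℝ) * x * L ^ 2) ≤ x / L := by
    have h0 : 0 ≤ x / L := by positivity
    rw [← Real.sqrt_sq h0]
    have h1 : (1 + LL) * √(√(q : ℝ) * x * L ^ 2) = √((1 + LL) ^ 2 * (√(q : ℝ) * x * L ^ 2)) := by
      rw [Real.sqrt_mul (sq_nonneg _), Real.sqrt_sq (by linarith)]
    rw [h1]
    refine Real.sqrt_le_sqrt ?_
    rw [div_pow, le_div_iff₀ (by positivity)]
    calc (1 + LL) ^ 2 * (√(q : ℝ) * x * L ^ 2) * L ^ 2 ≤ L * (√(x : ℝ) * x * L ^ 2) * L ^ 2 := by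
          refine mul_le_mul_of_nonneg_right ?_ (by positivity)
          refine mul_le_mul hll ?_ (by positivity) hLp.le
          refine mul_le_mul_of_nonneg_right ?_ (by positivity)
          exact mul_le_mul_of_nonneg_right hsqx hxp.le
      _ = √(x : ℝ) * x * L ^ 5 := by ring
      _ ≤ √(x : ℝ) * x * √(x : ℝ) := mul_le_mul_of_nonneg_left hl5 (by positivity)
      _ = (√(x : ℝ) * √(x : ℝ)) * x := by ring
      _ = (x : ℝ) ^ 2 := by rw [hss]; ring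
  have b6 : Λ * √(q * V) ≤ C3 * √K * (R * (1 + LL) + x / L) := by
    calc Λ * √(q * V) ≤ Λ * (√K * (R + √(√(q : ℝ) * x * L ^ 2))) := mul_le_mul_of_nonneg_left b4 hΛ0
      _ = C3 * √K * (R * (1 + LL) + (1 + LL) * √(√(q : ℝ) * x * L ^ 2)) := by rw [hΛ]; ring
      _ ≤ _ := mul_le_mul_of_nonneg_left (by linarith) (by positivity)
  have b7 : q * Λ ^ 2 ≤ C3 ^ 2 * (R * (1 + LL)) := by
    calc q * Λ ^ 2 = C3 ^ 2 * (q * (1 + LL) ^ 2) := by rw [hΛ]; ring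
      _ ≤ _ := mul_le_mul_of_nonneg_left b3 (sq_nonneg _)
  -- the identity
  have hVeq : V = ∑ n ∈ Finset.range x, yy μ ℱ A ω (n + 1) ^ 2 + 2 * ∑ n ∈ Finset.range x, yy μ ℱ A ω (n + 1) * SA (yy μ ℱ A ω) n q (n + 1) := by
    rw [hV, VV_eq _ hq]
  have t1 : |V - ∑ n ∈ Finset.range x, yy μ ℱ A ω (n + 1) ^ 2| ≤ 2 * (C2 * (x / L + Y)) := by
    rw [hVeq, add_sub_cancel_left, abs_mul, abs_two]
    exact mul_le_mul_of_nonneg_left hTq (by norm_num)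
  have t2 : |GQ Q A ω x q - ∑ n ∈ Finset.range x, yy μ ℱ A ω (n + 1) ^ 2| ≤ |GQ Q A ω x q - V| + |V - ∑ n ∈ Finset.range x, yy μ ℱ A ω (n + 1) ^ 2| :=
    abs_sub_le _ _ _
  refine t2.trans ((add_le_add hpert t1).trans ?_)
  have hE1 : 0 ≤ x / L := by positivity
  have hE3 : 0 ≤ R * (1 + LL) := mul_nonneg hR0 (by linarith)
  set E1 := x / L with hE1def
  set E3 := R * (1 + LL) with hE3def
  have hexp : 2 * (q * (m ^ 2 / f ^ 2 + Λ ^ 2)) = 2 * (q * (m ^ 2 / f ^ 2)) + 2 * (q * Λ ^ 2) := by ring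
  rw [hexp]
  have hsK : 0 ≤ √K := Real.sqrt_nonneg _
  have c1 : 0 ≤ C3 * √K := by positivity
  have c2 : 0 ≤ C1 ^ 2 * W := by positivity
  have c3 : 0 ≤ C1 ^ 2 * W ^ 2 := by positivity
  have c4 : 0 ≤ C3 ^ 2 := sq_nonneg _
  have goal1 : 2 * (4 * C1 ^ 2 * W * Y) + 2 * (C3 * √K * (E3 + E1)) + (2 * (4 * C1 ^ 2 * W ^ 2 * Y) + 2 * (C3 ^ 2 * E3)) + 2 * (C2 * (E1 + Y)) ≤
      (2 * C2 + (8 * C1 ^ 2 * W + 8 * C1 ^ 2 * W ^ 2) + 2 * C3 * √K + 2 * C3 ^ 2) * (E1 + Y + E3) := by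
    have g1 : 0 ≤ C2 * E3 := by positivity
    have g2 : 0 ≤ C1 ^ 2 * W * (E1 + E3) := by positivity
    have g3 : 0 ≤ C1 ^ 2 * W ^ 2 * (E1 + E3) := by positivity
    have g4 : 0 ≤ C3 * √K * Y := by positivity
    have g5 : 0 ≤ C3 ^ 2 * (E1 + Y) := by positivity
    have g6 : (2 * C2 + (8 * C1 ^ 2 * W + 8 * C1 ^ 2 * W ^ 2) + 2 * C3 * √K + 2 * C3 ^ 2) * (E1 + Y + E3) -
      (2 * (4 * C1 ^ 2 * W * Y) + 2 * (C3 * √K * (E3 + E1)) + (2 * (4 * C1 ^ 2 * W ^ 2 * Y) + 2 * (C3 ^ 2 * E3)) + 2 * (C2 * (E1 + Y))) =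
      2 * (C2 * E3) + 8 * (C1 ^ 2 * W * (E1 + E3)) + 8 * (C1 ^ 2 * W ^ 2 * (E1 + E3)) + 2 * (C3 * √K * Y) + 2 * (C3 ^ 2 * (E1 + Y)) := by ring
    linarith
  refine le_trans ?_ goal1
  linarith

end Pool.Agent.N893.SM
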