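import Mathlib
import Pool.Agent.N893.SM.M6

set_option autoImplicit false
set_option linter.unusedSectionVars false
set_option linter.unusedVariables false

/-! # The variance in progressions: limit models -/

open MeasureTheory Filter Set
open scoped ENNReal Topology

namespace Pool.Agent.N893.SM

open Pool.Agent.R528.RM

/-- sums with vanishing factors -/
lemma ces {a δ : ℕ → ℝ} (ha : ∀ n, 0 ≤ a n) {C : ℝ} (hC : ∀ᶠ x : ℕ in atTop, ∑ n ∈ Finset.range x, a n ≤ C * x)
    (hδ : Tendsto δ atTop (𝓝 0)) : Tendsto (fun x : ℕ => (∑ n ∈ Finset.range x, δ n * a n) / x) atTop (𝓝 0) := by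
  rw [Metric.tendsto_atTop]
  intro ε hε
  set η := ε / (4 * (|C| + 1)) with hη
  have hη0 : 0 < η := by positivity
  obtain ⟨n0, hn0⟩ := Metric.tendsto_atTop.1 hδ η hη0
  set S := ∑ n ∈ Finset.range n0, |δ n * a n| with hS
  have hS0 : 0 ≤ S := Finset.sum_nonneg fun _ _ => abs_nonneg _
  obtain ⟨x0, hx0⟩ := eventually_atTop.1 (hC.and ((tendsto_natCast_atTop_atTop (R := ℝ)).eventually_ge_atTop (4 * S / ε + 1)))
  refine ⟨x0, fun x hx => ?_⟩
  obtain ⟨h1, h2⟩ := hx0 x hx
  have hxp : (0 : ℝ) < x := by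
    have : 0 ≤ 4 * S / ε := by positivity
    linarith
  rw [dist_zero_right, Real.norm_eq_abs, abs_div, abs_of_pos hxp, div_lt_iff₀ hxp]
  have h3 : ∀ n ∈ Finset.range x, |δ n * a n| ≤ (if n < n0 then |δ n * a n| else 0) + η * a n := by
    intro n _
    split_ifs with h
    · have := mul_nonneg hη0.le (ha n)
      linarith
    · have h4 := hn0 n (not_lt.1 h)
      rw [dist_zero_right, Real.norm_eq_abs] at h4
      rw [zero_add, abs_mul, abs_of_nonneg (ha n)]
      exact mul_le_mul_of_nonneg_right h4.le (ha n)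
  have h5 := (Finset.abs_sum_le_sum_abs (fun n => δ n * a n) (Finset.range x)).trans (Finset.sum_le_sum h3)
  rw [Finset.sum_add_distrib, ← Finset.mul_sum] at h5
  have h6 : ∑ n ∈ Finset.range x, (if n < n0 then |δ n * a n| else 0) ≤ S := by
    rw [← Finset.sum_filter, hS]
    refine Finset.sum_le_sum_of_subset_of_nonneg (fun n hn => ?_) fun _ _ _ => abs_nonneg _
    exact Finset.mem_range.2 (Finset.mem_filter.1 hn).2
  have h7 : η * ∑ n ∈ Finset.range x, a n ≤ η * (C * x) := mul_le_mul_of_nonneg_left h1 hη0.le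
  have h8 : η * (C * x) ≤ ε / 4 * x := by
    have : η * C ≤ ε / 4 := by
      rw [hη, div_mul_eq_mul_div, div_le_div_iff₀ (by positivity) (by norm_num)]
      have := le_abs_self C
      nlinarith
    nlinarith
  have h9 : S ≤ ε / 4 * x := by
    have : 4 * S / ε ≤ x := by linarith
    rw [div_le_iff₀ hε] at this
    linarith
  have h10 : 0 < ε * x := by positivity
  linarith

variable {Ω : Type} {m0 : MeasurableSpace Ω} {μ : Measure Ω} [IsProbabilityMeasure μ]
  {ℱ : Filtration ℕ m0} {A : ℕ → Set Ω}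

/-- density of the integers prime to `W` -/
lemma cop_dens {W : ℕ} (hW : 0 < W) :
    Tendsto (fun x : ℕ => (∑ n ∈ Finset.range x, (if (n + 1).Coprime W then (1 : ℝ) else 0)) / x) atTop (𝓝 ((Nat.totient W : ℝ) / W)) := by
  have hper : Function.Periodic (fun n : ℕ => (n + 1).Coprime W) W := by
    intro n
    simp only [eq_iff_iff]
    rw [show n + W + 1 = n + 1 + W by ring, Nat.coprime_add_self_left]
  have hcount : Nat.count (fun n : ℕ => (n + 1).Coprime W) W = Nat.totient W := by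
    rw [Nat.count_eq_card_filter_range, ← Nat.filter_coprime_Ico_eq_totient W 1, Finset.range_eq_Ico]
    refine Finset.card_bij (fun n _ => n + 1) ?_ ?_ ?_
    · intro n hn
      rw [Finset.mem_filter, Finset.mem_Ico] at hn ⊢
      exact ⟨⟨by omega, by omega⟩, hn.2.symm⟩
    · intro a _ b _ h
      omega
    · intro b hb
      rw [Finset.mem_filter, Finset.mem_Ico] at hb
      refine ⟨b - 1, ?_, by omega⟩
      rw [Finset.mem_filter, Finset.mem_Ico]
      refine ⟨⟨by omega, by omega⟩, ?_⟩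
      rw [Nat.sub_add_cancel hb.1.1]
      exact hb.2.symm
  have hc := count_per (fun n : ℕ => (n + 1).Coprime W) W hW hper
  rw [hcount] at hc
  have h1 : Tendsto (fun x : ℕ => (W : ℝ) / x) atTop (𝓝 0) := tendsto_const_div_atTop_nhds_zero_nat (W : ℝ)
  rw [tendsto_iff_norm_sub_tendsto_zero]
  refine squeeze_zero' (Eventually.of_forall fun _ => norm_nonneg _) ?_ h1
  filter_upwards [eventually_ge_atTop 1] with x hx
  have hxp : (0 : ℝ) < x := by exact_mod_cast hx
  rw [Finset.sum_boole, ← Nat.count_eq_card_filter_range, Real.norm_eq_abs]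
  have e : (Nat.count (fun n : ℕ => (n + 1).Coprime W) x : ℝ) / x - (Nat.totient W : ℝ) / W =
      (Nat.count (fun n : ℕ => (n + 1).Coprime W) x - x * ((Nat.totient W : ℝ) / W)) / x := by
    field_simp
  rw [e, abs_div, abs_of_pos hxp]
  exact div_le_div_of_nonneg_right (hc x) hxp.le

/-- the limit of `log (n + 1) D n` -/
lemma pp_lim {D : ℕ → ℝ} (h01 : ∀ n, 0 ≤ D n ∧ D n ≤ 1) {W : ℕ} {c : ℝ}
    (hlim : Tendsto (fun n : ℕ => D n * Real.log n - (if (n + 1).Coprime W then c else 0)) atTop (𝓝 0)) :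
    Tendsto (fun n : ℕ => Real.log ((n + 1 : ℕ) : ℝ) * D n - (if (n + 1).Coprime W then c else 0)) atTop (𝓝 0) := by
  have h1 : Tendsto (fun n : ℕ => (Real.log ((n + 1 : ℕ) : ℝ) - Real.log n) * D n) atTop (𝓝 0) := by
    have h2 : Tendsto (fun n : ℕ => 1 / (n : ℝ)) atTop (𝓝 0) := tendsto_one_div_atTop_nhds_zero_nat
    refine squeeze_zero' ?_ ?_ h2
    · filter_upwards [eventually_ge_atTop 1] with n hn
      have hnp : (0 : ℝ) < n := by exact_mod_cast hn
      refine mul_nonneg ?_ (h01 n).1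
      rw [sub_nonneg]
      exact Real.log_le_log hnp (by exact_mod_cast Nat.le_succ n)
    · filter_upwards [eventually_ge_atTop 1] with n hn
      have hnp : (0 : ℝ) < n := by exact_mod_cast hn
      have h3 : Real.log ((n + 1 : ℕ) : ℝ) - Real.log n ≤ 1 / n := by
        rw [← Real.log_div (by positivity) hnp.ne']
        have h4 := Real.log_le_sub_one_of_pos (show (0 : ℝ) < ((n + 1 : ℕ) : ℝ) / n by positivity)
        refine h4.trans (le_of_eq ?_)
        push_cast
        field_simp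
        ring
      have h5 : 0 ≤ 1 / (n : ℝ) := by positivity
      calc (Real.log ((n + 1 : ℕ) : ℝ) - Real.log n) * D n ≤ 1 / n * D n := mul_le_mul_of_nonneg_right h3 (h01 n).1
        _ ≤ 1 / n * 1 := mul_le_mul_of_nonneg_left (h01 n).2 h5
        _ = _ := mul_one _
  have h2 := hlim.add h1
  rw [add_zero] at h2
  refine h2.congr fun n => ?_
  ring

lemma tendsto_log_inv : Tendsto (fun x : ℕ => 1 / Real.log (x : ℝ)) atTop (𝓝 0) := by
  refine (tendsto_log.inv_tendsto_atTop).congr fun x => ?_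
  rw [Pi.inv_apply, one_div]

/-- **the weighted number of chosen integers** -/
lemma Ps_lim {ω : Ω} (h01 : ∀ n, 0 ≤ dens μ ℱ A n ω ∧ dens μ ℱ A n ω ≤ 1) {C1 : ℝ} (hC1 : 0 ≤ C1)
    (hy : ∀ x q a : ℕ, 2 ≤ x → 1 ≤ q → q ≤ x → |SA (yy μ ℱ A ω) x q a| ≤ C1 * (√((x : ℝ) / q) + Real.log x) * Real.log x)
    {W : ℕ} (hW : 0 < W) {c : ℝ} (hc : c = (W : ℝ) / Nat.totient W)
    (hlim : Tendsto (fun n : ℕ => dens μ ℱ A n ω * Real.log n - (if (n + 1).Coprime W then c else 0)) atTop (𝓝 0)) :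
    Tendsto (fun x : ℕ => Ps A ω x / x) atTop (𝓝 1) := by
  have htot : (0 : ℝ) < Nat.totient W := by exact_mod_cast Nat.totient_pos.2 hW
  have hWr : (0 : ℝ) < W := by exact_mod_cast hW
  set e : ℕ → ℝ := fun n => Real.log ((n + 1 : ℕ) : ℝ) * dens μ ℱ A n ω - (if (n + 1).Coprime W then c else 0) with he
  have he0 : Tendsto e atTop (𝓝 0) := pp_lim h01 hlim
  have h1 : Tendsto (fun x : ℕ => (∑ n ∈ Finset.range x, e n * 1) / x) atTop (𝓝 0) :=
    ces (a := fun _ => 1) (C := 1) (fun _ => zero_le_one) (Eventually.of_forall fun x => by simp) he0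
  have h2 := (cop_dens hW).const_mul c
  have hcc : c * ((Nat.totient W : ℝ) / W) = 1 := by
    rw [hc]
    field_simp
  rw [hcc] at h2
  have h3 : Tendsto (fun x : ℕ => SA (yy μ ℱ A ω) x 1 1 / x) atTop (𝓝 0) := by
    have h4 : Tendsto (fun x : ℕ => 2 * C1 * (1 / Real.log (x : ℝ))) atTop (𝓝 0) := by
      have := tendsto_log_inv.const_mul (2 * C1)
      rwa [mul_zero] at this
    rw [tendsto_zero_iff_norm_tendsto_zero]
    refine squeeze_zero' (Eventually.of_forall fun _ => norm_nonneg _) ?_ h4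
    filter_upwards [SA1 hC1 hy, ev_logs5] with x hx ⟨h16, hl1, hl5⟩
    have hxr : (16 : ℝ) ≤ x := by exact_mod_cast h16
    have hxp : (0 : ℝ) < x := by linarith
    have hss : √(x : ℝ) * √(x : ℝ) = x := Real.mul_self_sqrt hxp.le
    rw [norm_div, Real.norm_eq_abs, Real.norm_eq_abs, abs_of_pos hxp, div_le_iff₀ hxp]
    refine hx.trans ?_
    rw [mul_assoc (2 * C1)]
    refine mul_le_mul_of_nonneg_left ?_ (by positivity)
    rw [one_div, inv_mul_eq_div, le_div_iff₀ (by linarith)]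
    have h5 : Real.log (x : ℝ) ^ 2 ≤ √(x : ℝ) := (pow_le_pow_right₀ hl1 (by norm_num)).trans hl5
    calc √(x : ℝ) * Real.log x * Real.log x = √(x : ℝ) * Real.log x ^ 2 := by ring
      _ ≤ √(x : ℝ) * √(x : ℝ) := mul_le_mul_of_nonneg_left h5 (Real.sqrt_nonneg _)
      _ = x := hss
  have h4 := (h3.add h1).add h2
  rw [zero_add, zero_add] at h4
  refine h4.congr fun x => ?_
  rw [Ps_split (μ := μ) (ℱ := ℱ), add_div, add_assoc]
  congr 1
  rw [← mul_div_assoc, ← add_div, Finset.mul_sum, ← Finset.sum_add_distrib]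
  congr 1
  refine Finset.sum_congr rfl fun n _ => ?_
  simp only [he]
  split_ifs <;> ring

/-- **the diagonal in limit models** -/
lemma diag_lim {ω : Ω} (h01 : ∀ n, 0 ≤ dens μ ℱ A n ω ∧ dens μ ℱ A n ω ≤ 1)
    {W : ℕ} (hW : 0 < W) {c : ℝ} (hc : c = (W : ℝ) / Nat.totient W)
    (hlim : Tendsto (fun n : ℕ => dens μ ℱ A n ω * Real.log n - (if (n + 1).Coprime W then c else 0)) atTop (𝓝 0))
    (hIn : ∀ n, ¬ n.Coprime W → In A n ω = 0) (hPs : Tendsto (fun x : ℕ => Ps A ω x / x) atTop (𝓝 1)) :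
    Tendsto (fun x : ℕ => (∑ n ∈ Finset.range x, yy μ ℱ A ω (n + 1) ^ 2 - S2 A ω x) / x) atTop (𝓝 (-c)) := by
  have htot : (0 : ℝ) < Nat.totient W := by exact_mod_cast Nat.totient_pos.2 hW
  have hWr : (0 : ℝ) < W := by exact_mod_cast hW
  set e : ℕ → ℝ := fun n => Real.log ((n + 1 : ℕ) : ℝ) * dens μ ℱ A n ω - (if (n + 1).Coprime W then c else 0) with he
  have he0 : Tendsto e atTop (𝓝 0) := pp_lim h01 hlim
  have hPsle : ∀ᶠ x : ℕ in atTop, Ps A ω x ≤ 2 * x := by
    filter_upwards [hPs.eventually_le_const (show (1 : ℝ) < 2 by norm_num), eventually_ge_atTop 1] with x hx hx1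
    have hxp : (0 : ℝ) < x := by exact_mod_cast hx1
    rwa [div_le_iff₀ hxp] at hx
  have h1 : Tendsto (fun x : ℕ => (∑ n ∈ Finset.range x, e n * (Real.log ((n + 1 : ℕ) : ℝ) * In A (n + 1) ω)) / x) atTop (𝓝 0) :=
    ces (fun n => mul_nonneg (Real.log_natCast_nonneg _) (In_nonneg _ _)) (C := 2) hPsle he0
  have he1 : Tendsto (fun n => 2 * (if (n + 1).Coprime W then c else 0) * e n + e n ^ 2) atTop (𝓝 0) := by
    have g1 : Tendsto (fun n => |e n|) atTop (𝓝 0) := by
      have := he0.abs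
      rwa [abs_zero] at this
    have g2 : Tendsto (fun n => 2 * |c| * |e n| + |e n| ^ 2) atTop (𝓝 0) := by
      have := (g1.const_mul (2 * |c|)).add (g1.pow 2)
      simpa using this
    rw [tendsto_zero_iff_norm_tendsto_zero]
    refine squeeze_zero (fun _ => norm_nonneg _) (fun n => ?_) g2
    rw [Real.norm_eq_abs]
    refine (abs_add_le _ _).trans (add_le_add ?_ (by rw [abs_pow]))
    rw [abs_mul, abs_mul, abs_two]
    refine mul_le_mul_of_nonneg_right (mul_le_mul_of_nonneg_left ?_ (by norm_num)) (abs_nonneg _)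
    split_ifs
    · exact le_rfl
    · rw [abs_zero]
      exact abs_nonneg _
  have h2 : Tendsto (fun x : ℕ => (∑ n ∈ Finset.range x, (2 * (if (n + 1).Coprime W then c else 0) * e n + e n ^ 2) * (1 : ℝ)) / (x : ℝ)) atTop (𝓝 0) :=
    ces (a := fun _ => 1) (C := 1) (fun _ => zero_le_one) (Eventually.of_forall fun x => by simp) he1
  have h3 := (cop_dens hW).const_mul (c ^ 2)
  have hcc : c ^ 2 * ((Nat.totient W : ℝ) / W) = c := by
    rw [hc]
    field_simp
  rw [hcc] at h3
  have h4 := (((h2.add h3).sub (h1.const_mul 2)).sub (hPs.const_mul (2 * c)))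
  have hlim' : (0 : ℝ) + c - 2 * 0 - 2 * c * 1 = -c := by ring
  rw [hlim'] at h4
  refine h4.congr fun x => ?_
  have hsum : ∑ n ∈ Finset.range x, yy μ ℱ A ω (n + 1) ^ 2 - S2 A ω x =
      ∑ n ∈ Finset.range x, (2 * (if (n + 1).Coprime W then c else 0) * e n + e n ^ 2) * 1 +
      c ^ 2 * ∑ n ∈ Finset.range x, (if (n + 1).Coprime W then (1 : ℝ) else 0) -
      2 * ∑ n ∈ Finset.range x, e n * (Real.log ((n + 1 : ℕ) : ℝ) * In A (n + 1) ω) - 2 * c * Ps A ω x := by
    unfold S2 Ps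
    rw [← Finset.sum_sub_distrib, Finset.mul_sum, Finset.mul_sum, Finset.mul_sum, ← Finset.sum_add_distrib, ← Finset.sum_sub_distrib, ← Finset.sum_sub_distrib]
    refine Finset.sum_congr rfl fun n _ => ?_
    have hI : In A (n + 1) ω ^ 2 = In A (n + 1) ω := by
      unfold In
      by_cases h : ω ∈ A (n + 1)
      · rw [indicator_of_mem h]
        norm_num
      · rw [indicator_of_notMem h]
        norm_num
    have hI2 : ¬ (n + 1).Coprime W → In A (n + 1) ω = 0 := hIn (n + 1)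
    unfold yy dif
    rw [Nat.add_sub_cancel]
    simp only [he]
    set l := Real.log ((n + 1 : ℕ) : ℝ) with hl
    set D := dens μ ℱ A n ω with hD
    set I := In A (n + 1) ω with hIdef
    have e0 : (l * (I - D)) ^ 2 - l ^ 2 * I = (l * D) ^ 2 - 2 * (l * D) * (l * I) := by
      have : (l * (I - D)) ^ 2 = l ^ 2 * I ^ 2 - 2 * (l * D) * (l * I) + (l * D) ^ 2 := by ring
      rw [this, hI]
      ring
    rw [e0]
    split_ifs with hcp
    · ring
    · rw [hI2 hcp]
      ring
  rw [hsum]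
  ring

/-- the sum of the squares of the weights -/
lemma S2_low (ω : Ω) : ∀ᶠ x : ℕ in atTop, (Real.log x - 3 * Real.log (Real.log x)) * Ps A ω x - x / Real.log x ≤ S2 A ω x := by
  filter_upwards [ev_logs5, ev_ll (η := 1) one_pos] with x ⟨h16, hl1, hl5⟩ ⟨hll0, hll⟩
  have hxr : (16 : ℝ) ≤ x := by exact_mod_cast h16
  have hxp : (0 : ℝ) < x := by linarith
  set L := Real.log (x : ℝ) with hL
  have hLp : 0 < L := by linarith
  set y := (x : ℝ) / L ^ 3 with hy
  have hyp : 0 < y := by positivity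
  have h1 : ∀ n ∈ Finset.range x, (L - 3 * Real.log L) * (Real.log ((n + 1 : ℕ) : ℝ) * In A (n + 1) ω) - L ^ 2 * (if n < ⌊y⌋₊ then 1 else 0) ≤
      Real.log ((n + 1 : ℕ) : ℝ) ^ 2 * In A (n + 1) ω := by
    intro n hn
    have hnx : ((n + 1 : ℕ) : ℝ) ≤ x := by exact_mod_cast Finset.mem_range.1 hn
    have hl : Real.log ((n + 1 : ℕ) : ℝ) ≤ L := Real.log_le_log (by positivity) hnx
    have hl0 : 0 ≤ Real.log ((n + 1 : ℕ) : ℝ) := Real.log_natCast_nonneg _
    have hI0 := In_nonneg (A := A) (n + 1) ω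
    have hI1 := In_le (A := A) (n + 1) ω
    have hlI : 0 ≤ Real.log ((n + 1 : ℕ) : ℝ) * In A (n + 1) ω := mul_nonneg hl0 hI0
    have hlI1 : Real.log ((n + 1 : ℕ) : ℝ) * In A (n + 1) ω ≤ L := by nlinarith
    have hsq : Real.log ((n + 1 : ℕ) : ℝ) ^ 2 * In A (n + 1) ω = Real.log ((n + 1 : ℕ) : ℝ) * (Real.log ((n + 1 : ℕ) : ℝ) * In A (n + 1) ω) := by ring
    rw [hsq]
    split_ifs with h
    · have h2 : (L - 3 * Real.log L) * (Real.log ((n + 1 : ℕ) : ℝ) * In A (n + 1) ω) ≤ L * L := by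
        calc (L - 3 * Real.log L) * (Real.log ((n + 1 : ℕ) : ℝ) * In A (n + 1) ω) ≤ L * (Real.log ((n + 1 : ℕ) : ℝ) * In A (n + 1) ω) :=
              mul_le_mul_of_nonneg_right (by linarith) hlI
          _ ≤ L * L := mul_le_mul_of_nonneg_left hlI1 hLp.le
      have h3 : 0 ≤ Real.log ((n + 1 : ℕ) : ℝ) * (Real.log ((n + 1 : ℕ) : ℝ) * In A (n + 1) ω) := mul_nonneg hl0 hlI
      nlinarith
    · have h2 : y < ((n + 1 : ℕ) : ℝ) := by
        have := Nat.lt_floor_add_one y
        have h3 : ((⌊y⌋₊ : ℕ) : ℝ) ≤ n := by exact_mod_cast not_lt.1 h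
        push_cast
        linarith
      have h3 : L - 3 * Real.log L ≤ Real.log ((n + 1 : ℕ) : ℝ) := by
        have h4 := Real.log_le_log hyp h2.le
        rw [hy, Real.log_div hxp.ne' (by positivity), Real.log_pow] at h4
        push_cast at h4 ⊢
        linarith
      have := mul_le_mul_of_nonneg_right h3 hlI
      linarith
  have h2 := Finset.sum_le_sum h1
  rw [Finset.sum_sub_distrib, ← Finset.mul_sum, ← Finset.mul_sum, Finset.sum_boole] at h2
  have h3 : (((Finset.range x).filter (fun n => n < ⌊y⌋₊)).card : ℝ) ≤ y := by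
    have f1 : (Finset.range x).filter (fun n => n < ⌊y⌋₊) ⊆ Finset.range ⌊y⌋₊ := fun k hk =>
      Finset.mem_range.2 (Finset.mem_filter.1 hk).2
    have f2 := Finset.card_le_card f1
    rw [Finset.card_range] at f2
    have f3 : (⌊y⌋₊ : ℝ) ≤ y := Nat.floor_le hyp.le
    have f4 : (((Finset.range x).filter (fun n => n < ⌊y⌋₊)).card : ℝ) ≤ (⌊y⌋₊ : ℝ) := by exact_mod_cast f2
    linarith
  have h4 : L ^ 2 * (((Finset.range x).filter (fun n => n < ⌊y⌋₊)).card : ℝ) ≤ x / L := by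
    refine (mul_le_mul_of_nonneg_left h3 (sq_nonneg L)).trans (le_of_eq ?_)
    rw [hy]
    field_simp
  unfold S2 Ps
  linarith

/-- **its asymptotics** -/
lemma S2_lim {ω : Ω} (hPs : Tendsto (fun x : ℕ => Ps A ω x / x) atTop (𝓝 1)) {ε : ℝ} (hε : 0 < ε) :
    ∀ᶠ x : ℕ in atTop, |S2 A ω x - x * Real.log x| ≤ ε * (x * Real.log x) := by
  set η := min (ε / 4) 1 with hη
  have hη0 : 0 < η := lt_min (by linarith) one_pos
  have hη1 : η ≤ 1 := min_le_right _ _
  have hη2 : 4 * η ≤ ε := by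
    have := min_le_left (ε / 4) 1
    linarith
  have hPs1 := Metric.tendsto_atTop.1 hPs η hη0
  obtain ⟨x0, hx0⟩ := hPs1
  filter_upwards [eventually_ge_atTop x0, S2_low (A := A) ω, ev_logs5, ev_ll (η := η ^ 2 / 9) (by positivity), tendsto_log.eventually_ge_atTop (1 / η)] with
    x hx hlow ⟨h16, hl1, hl5⟩ ⟨hll0, hll⟩ hlη
  have hxr : (16 : ℝ) ≤ x := by exact_mod_cast h16
  have hxp : (0 : ℝ) < x := by linarith
  have h1 := hx0 x hx
  rw [Real.dist_eq] at h1
  have h1' := abs_lt.1 h1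
  set L := Real.log (x : ℝ) with hL
  have hLp : 0 < L := by linarith
  have hP1 : Ps A ω x ≤ (1 + η) * x := by
    have : Ps A ω x / x ≤ 1 + η := by linarith [h1'.2]
    rwa [div_le_iff₀ hxp] at this
  have hP2 : (1 - η) * x ≤ Ps A ω x := by
    have : 1 - η ≤ Ps A ω x / x := by linarith [h1'.1]
    rwa [le_div_iff₀ hxp] at this
  have hP0 : 0 ≤ Ps A ω x := Ps_nonneg ω x
  -- log log
  have hll2 : 3 * Real.log L ≤ η * L := by
    have h2 : 1 + Real.log L ≤ √(η ^ 2 / 9 * L) := Real.le_sqrt_of_sq_le hll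
    rw [Real.sqrt_mul (by positivity), show η ^ 2 / 9 = (η / 3) ^ 2 by ring, Real.sqrt_sq (by positivity)] at h2
    have h3 : √L ≤ L := by
      rw [Real.sqrt_le_left (by linarith)]
      nlinarith
    have h4 : η / 3 * √L ≤ η / 3 * L := mul_le_mul_of_nonneg_left h3 (by positivity)
    linarith
  have hup : S2 A ω x ≤ L * Ps A ω x := S2_le ω x
  have hup2 : L * Ps A ω x ≤ L * ((1 + η) * x) := mul_le_mul_of_nonneg_left hP1 hLp.le
  have hlow2 : (1 - η) * L * ((1 - η) * x) - x / L ≤ S2 A ω x := by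
    refine le_trans ?_ hlow
    have h5 : (1 - η) * L * ((1 - η) * x) ≤ (L - 3 * Real.log L) * Ps A ω x := by
      have h6 : 0 ≤ (1 - η) * L := mul_nonneg (by linarith) hLp.le
      have h7 : (1 - η) * L ≤ L - 3 * Real.log L := by linarith
      exact mul_le_mul h7 hP2 (mul_nonneg (by linarith) hxp.le) (h6.trans h7)
    linarith
  have hxL : (x : ℝ) / L ≤ η * (x * L) := by
    rw [div_le_iff₀ hLp]
    have h8 : 1 ≤ η * L := by
      rw [div_le_iff₀ hη0] at hlη
      linarith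
    have h9 : 1 ≤ η * L * L := by nlinarith
    nlinarith
  have hxLp : 0 ≤ (x : ℝ) * L := by positivity
  rw [abs_le]
  constructor
  · have e1 : (1 - η) * L * ((1 - η) * x) = (x * L) - 2 * η * (x * L) + η ^ 2 * (x * L) := by ring
    rw [e1] at hlow2
    have e2 : 0 ≤ η ^ 2 * (x * L) := by positivity
    have e3 : 4 * η * (x * L) ≤ ε * (x * L) := mul_le_mul_of_nonneg_right hη2 hxLp
    have e4 : 0 ≤ η * (x * L) := by positivity
    linarith
  · have e3 : 4 * η * (x * L) ≤ ε * (x * L) := mul_le_mul_of_nonneg_right hη2 hxLp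
    have e4 : 0 ≤ η * (x * L) := by positivity
    have e5 : L * ((1 + η) * x) = x * L + η * (x * L) := by ring
    linarith

end Pool.Agent.N893.SM
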