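import Mathlib
import Pool.Agent.N893.SM.Small2

set_option autoImplicit false
set_option linter.unusedSectionVars false
set_option linter.unusedVariables false

/-! # Sums of two chosen integers, one of them small: the theorem -/

open MeasureTheory Filter Set
open scoped ENNReal Topology

namespace Pool.Agent.N893.SM

open Pool.Agent.R528.RM

variable {Ω : Type} {m0 : MeasurableSpace Ω} {μ : Measure Ω} [IsProbabilityMeasure μ]
  {ℱ : Filtration ℕ m0} {A : ℕ → Set Ω}

/-- the bound for the small summand -/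
noncomputable def yq (Q : Finset ℕ) (κ : ℝ) (n : ℕ) : ℕ :=
  ⌊(2 + κ) * (Real.log n ^ 2 * Real.log (Real.log n) / singQ Q n)⌋₊

theorem smallSummand (hA : ∀ n, MeasurableSet[ℱ n] (A n)) (Q : Finset ℕ) (hQ : ∀ p ∈ Q, p.Prime)
    (hv : ∀ n, (∃ p ∈ Q, p ∣ n) → A n = ∅)
    (hd : ∀ᵐ ω ∂μ, ∀ ε : ℝ, 0 < ε → ∀ᶠ n : ℕ in atTop,
      |dens μ ℱ A n ω - rhoW (∏ p ∈ Q, p) (n + 1)| ≤ ε * rhoW (∏ p ∈ Q, p) (n + 1)) :
    ∀ᵐ ω ∂μ,
      (∀ ε : ℝ, 0 < ε → ∃ K : ℝ, 0 < K ∧ ∀ᶠ n : ℕ in atTop, ∀ y : ℕ, K * Real.log n ^ 2 ≤ y / Real.log y → 2 * y + 1 ≤ n →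
        |RS A n y ω - singQ Q n * (y / (Real.log n * Real.log y))| ≤ ε * (singQ Q n * (y / (Real.log n * Real.log y)))) ∧
      (∀ δ : ℝ, 0 < δ → ∀ᶠ n : ℕ in atTop, singQ Q n ≠ 0 → ∃ i : ℕ, 2 * (i + 1) + 1 ≤ n ∧
        (i : ℝ) + 1 ≤ (2 + δ) * (Real.log n ^ 2 * Real.log (Real.log n) / singQ Q n) ∧ ω ∈ A (i + 1) ∧ ω ∈ A (n - 1 - i)) := by
  classical
  set W := ∏ p ∈ Q, p with hWdef
  have hW : 0 < W := Finset.prod_pos fun q hq => (hQ q hq).pos
  have hWr : (1 : ℝ) ≤ W := by exact_mod_cast hW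
  set c := (W : ℝ) / Nat.totient W with hc
  have hc1 : 1 ≤ c := c_one hW
  have hρ : ∀ n, 0 ≤ rhoW W n ∧ rhoW W n ≤ 1 := fun n => ⟨rhoW_nonneg W n, (rhoW_le_bb W n).trans (min_le_left _ _)⟩
  obtain ⟨hr0, hr1⟩ := rr_spec hW
  have h01 : ∀ᵐ ω ∂μ, ∀ n, 0 ≤ dens μ ℱ A n ω ∧ dens μ ℱ A n ω ≤ 1 := ae_all_iff.2 fun n => dens01 hA n
  have hEa : ∀ᵐ ω ∂μ, ∀ m : ℕ, ∀ᶠ n : ℕ in atTop, ∀ y : ℕ, 2 * y + 1 ≤ n →
      Gx μ ℱ A (1 / ((m : ℝ) + 1)) (fun i => i + 1) (z1 (rhoW W) (rr c n) n y) y ω < 3 * Real.log n ∧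
      Gx μ ℱ A (1 / ((m : ℝ) + 1)) (s2 n y) (z2 A y) y ω < 3 * Real.log n :=
    ae_all_iff.2 fun m => errS hA (rhoW W) (fun n => (hρ n).1) hr0 hr1 _
  have hEb : ∀ᵐ ω ∂μ, ∀ m : ℕ, ∀ᶠ n : ℕ in atTop, ∀ y : ℕ, 2 * y + 1 ≤ n →
      Gx μ ℱ A (-(1 / ((m : ℝ) + 1))) (fun i => i + 1) (z1 (rhoW W) (rr c n) n y) y ω < 3 * Real.log n ∧
      Gx μ ℱ A (-(1 / ((m : ℝ) + 1))) (s2 n y) (z2 A y) y ω < 3 * Real.log n :=
    ae_all_iff.2 fun m => errS hA (rhoW W) (fun n => (hρ n).1) hr0 hr1 _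
  have hEz : ∀ᵐ ω ∂μ, ∀ m q : ℕ, ∀ᶠ n : ℕ in atTop, 2 * yq Q (1 / ((q : ℝ) + 1)) n + 1 ≤ n →
      Gx μ ℱ A (-Real.log (m + 1)) (s2 n (yq Q (1 / ((q : ℝ) + 1)) n)) (z2 A (yq Q (1 / ((q : ℝ) + 1)) n))
        (yq Q (1 / ((q : ℝ) + 1)) n) ω < (1 + 1 / ((m : ℝ) + 1)) * Real.log n :=
    ae_all_iff.2 fun m => ae_all_iff.2 fun q => errZS hA _ (by
      have : 0 < 1 / ((m : ℝ) + 1) := by positivity
      linarith) _
  filter_upwards [h01, hEa, hEb, hEz, hd] with ω h01 hEa hEb hEz hd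
  have hIn : ∀ v, ω ∉ A v → In A v ω = 0 := fun v h => indicator_of_notMem h _
  have hlog2 : ∀ᶠ n : ℕ in atTop, Real.log n ≤ 2 * Real.log ((n : ℝ) / 2) := by
    filter_upwards [tendsto_log.eventually_ge_atTop (2 * Real.log 2), eventually_ge_atTop 1] with n hn h1
    have h1' : (1 : ℝ) ≤ n := by exact_mod_cast h1
    rw [Real.log_div (by linarith) (by norm_num)]
    linarith
  -- the basic estimate
  have basic : ∀ η : ℝ, 0 < η → η ≤ 1 / 8 → ∃ C : ℝ, 0 < C ∧ ∃ Y0 : ℕ, 3 ≤ Y0 ∧ ∀ᶠ n : ℕ in atTop, ∀ y : ℕ, Y0 ≤ y → 2 * y + 1 ≤ n →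
      singQ Q n ≠ 0 →
      ((1 - η) ^ 2 * (singQ Q n * (y / (Real.log n * Real.log y))) - C ≤ TS A (rhoW W) n y ω) ∧
      ((1 - η) ^ 3 * (singQ Q n * (y / (Real.log n * Real.log y))) - C * Real.log n ≤ RS A n y ω ∧
       RS A n y ω ≤ (1 + η) ^ 3 * (singQ Q n * (y / (Real.log n * Real.log y))) + C * Real.log n) ∧
      |(∑ j ∈ Finset.range y, z2 A y j ω * dens μ ℱ A (s2 n y j - 1) ω) - TS A (rhoW W) n y ω| ≤ η / 3 * TS A (rhoW W) n y ω := by
    intro η hη0 hη1
    obtain ⟨m, hm⟩ := exists_nat_one_div_lt (show (0 : ℝ) < η / 3 by positivity)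
    have hm0 : (0 : ℝ) ≤ m := Nat.cast_nonneg m
    set θ : ℝ := 1 / ((m : ℝ) + 1) with hθ
    have hθ0 : 0 < θ := by positivity
    have hθ1 : θ ≤ 1 := by linarith
    obtain ⟨Y0, hY3, hK⟩ := ES_asymp Q hQ (show 0 < η / W by positivity)
    obtain ⟨N, hN⟩ := eventually_atTop.1 (hd (η / 3) (by positivity))
    refine ⟨18 * c / θ, by positivity, Y0, hY3, ?_⟩
    filter_upwards [hEa m, hEb m, hK, eventually_ge_atTop (2 * N + 4), hlog2, tendsto_log.eventually_ge_atTop (1 : ℝ),
      tendsto_log.eventually_ge_atTop (2 * c), tendsto_log.eventually_ge_atTop (2 * (N : ℝ))] with n h1 h2 h3 h4 h5 h6 h7 h8' y hyY hy hs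
    have hL : 0 < Real.log (n : ℝ) := by linarith
    have hyr : (3 : ℝ) ≤ y := by exact_mod_cast hY3.trans hyY
    have hy0 : (0 : ℝ) < y := by linarith
    have hLy : 0 < Real.log (y : ℝ) := Real.log_pos (by linarith)
    have hl2 : 0 < Real.log ((n : ℝ) / 2) := by linarith
    have hrr : rr c n = c / Real.log ((n : ℝ) / 2) := by
      unfold rr
      rw [if_neg (by omega)]
    have hrL : rr c n * (3 * Real.log n / θ + 2 * N) ≤ 8 * c / θ := by
      have e1 : rr c n * Real.log n ≤ 2 * c := by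
        rw [hrr, div_mul_eq_mul_div, div_le_iff₀ hl2]
        nlinarith
      have e2 : rr c n * (3 * Real.log n / θ) ≤ 6 * c / θ := by
        calc rr c n * (3 * Real.log n / θ) = (rr c n * Real.log n) * 3 / θ := by ring
          _ ≤ (2 * c) * 3 / θ := div_le_div_of_nonneg_right (by linarith) hθ0.le
          _ = _ := by ring
      have e3 : rr c n * (2 * N) ≤ rr c n * Real.log n := mul_le_mul_of_nonneg_left h8' (hr0 n).le
      have e4 : 2 * c ≤ 2 * c / θ := by
        rw [le_div_iff₀ hθ0]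
        nlinarith
      have e5 : 6 * c / θ + 2 * c / θ = 8 * c / θ := by ring
      rw [mul_add]
      linarith
    have hsW : 1 / (W : ℝ) ≤ singQ Q n := singQ_cases Q hQ n hs
    obtain ⟨⟨g1, g2⟩, ⟨g3, g4⟩, g5⟩ := two_stepsS (μ := μ) hρ h01 (ε := η / 3) (θ := θ) (δ := η) (t := 3 * Real.log n)
      (r := rr c n) (N := N) (by positivity) (by linarith) hθ0 hθ1 (by nlinarith) (by nlinarith) (hr0 n) (hr1 n) hy
      hN (by omega) (h1 y hy).1 (h2 y hy).1 (h1 y hy).2 (h2 y hy).2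
    have h8 := abs_le.1 (h3 y hyY hy)
    set X := singQ Q n * (y / (Real.log n * Real.log y)) with hX
    have hE : (1 - η) * X ≤ ES (rhoW W) n y ∧ ES (rhoW W) n y ≤ (1 + η) * X := by
      have e1 : ES (rhoW W) n y = ES (rhoW W) n y * Real.log n * Real.log y / y * (y / (Real.log n * Real.log y)) := by field_simp
      have e2 : η / W ≤ η * singQ Q n := by
        calc η / W = η * (1 / W) := by ring
          _ ≤ _ := mul_le_mul_of_nonneg_left hsW hη0.le
      have e3 : 0 ≤ (y : ℝ) / (Real.log n * Real.log y) := by positivity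
      rw [e1, hX]
      constructor
      · calc (1 - η) * (singQ Q n * (y / (Real.log n * Real.log y))) = ((1 - η) * singQ Q n) * (y / (Real.log n * Real.log y)) := by ring
          _ ≤ _ := mul_le_mul_of_nonneg_right (by linarith [h8.1]) e3
      · calc ES (rhoW W) n y * Real.log n * Real.log y / y * (y / (Real.log n * Real.log y)) ≤ ((1 + η) * singQ Q n) * (y / (Real.log n * Real.log y)) :=
            mul_le_mul_of_nonneg_right (by linarith [h8.2]) e3
          _ = _ := by ring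
    have hX0 : 0 ≤ X := mul_nonneg (singQ_bounds Q hQ n).1 (by positivity)
    have hct : 0 ≤ c / θ := by positivity
    have hctL : c / θ ≤ c / θ * Real.log n := le_mul_of_one_le_right hct h6
    have ht : 3 * Real.log n / θ ≤ 3 * (c / θ * Real.log n) := by
      have e1 : 3 * (c / θ * Real.log n) = 3 * c * Real.log n / θ := by ring
      rw [e1]
      refine div_le_div_of_nonneg_right ?_ hθ0.le
      nlinarith
    have q1 : 8 * c / θ = 8 * (c / θ) := by ring
    have q2 : 18 * c / θ = 18 * (c / θ) := by ring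
    have q4 : 18 * (c / θ) * Real.log n = 18 * (c / θ * Real.log n) := by ring
    rw [q1] at hrL
    rw [q2, q4]
    have k1 : (1 - η) ^ 2 * X ≤ (1 - η) * ES (rhoW W) n y := by
      have := mul_le_mul_of_nonneg_left hE.1 (show 0 ≤ 1 - η by linarith)
      nlinarith
    have k2 : (1 + η) * ES (rhoW W) n y ≤ (1 + η) ^ 2 * X := by
      have := mul_le_mul_of_nonneg_left hE.2 (show 0 ≤ 1 + η by linarith)
      nlinarith
    have k3 : (1 - η) ^ 2 * X - 8 * (c / θ) ≤ TS A (rhoW W) n y ω := by linarith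
    have k4 : TS A (rhoW W) n y ω ≤ (1 + η) ^ 2 * X + 8 * (c / θ) := by linarith
    refine ⟨by linarith, ⟨?_, ?_⟩, g5⟩
    · have := mul_le_mul_of_nonneg_left k3 (show 0 ≤ 1 - η by linarith)
      have e1 : (1 - η) * ((1 - η) ^ 2 * X - 8 * (c / θ)) = (1 - η) ^ 3 * X - (1 - η) * (8 * (c / θ)) := by ring
      have e2 : (1 - η) * (8 * (c / θ)) ≤ 1 * (8 * (c / θ)) := mul_le_mul_of_nonneg_right (by linarith) (by linarith)
      linarith
    · have := mul_le_mul_of_nonneg_left k4 (show 0 ≤ 1 + η by linarith)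
      have e1 : (1 + η) * ((1 + η) ^ 2 * X + 8 * (c / θ)) = (1 + η) ^ 3 * X + (1 + η) * (8 * (c / θ)) := by ring
      have e2 : (1 + η) * (8 * (c / θ)) ≤ (9 / 8) * (8 * (c / θ)) := mul_le_mul_of_nonneg_right (by linarith) (by linarith)
      linarith
  have hLL : Tendsto (fun x : ℕ => Real.log (Real.log x)) atTop atTop := Real.tendsto_log_atTop.comp tendsto_log
  refine ⟨?_, ?_⟩
  · -- the asymptotic formula
    intro ε' hε'
    set ε := min ε' 1 with hεdef
    have hε0 : 0 < ε := lt_min hε' one_pos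
    have hε1 : ε ≤ 1 := min_le_right _ _
    obtain ⟨C, hC, Y0, hY3, hb⟩ := basic (ε / 8) (by positivity) (by linarith)
    refine ⟨8 * C * W / ε, by positivity, ?_⟩
    have hlarge : ∀ᶠ n : ℕ in atTop, 2 * (Y0 : ℝ) + 4 ≤ 8 * C * W / ε * Real.log n ^ 2 := by
      have h1 : (0 : ℝ) < 8 * C * W / ε := by positivity
      filter_upwards [tendsto_log.eventually_ge_atTop (1 : ℝ), tendsto_log.eventually_ge_atTop ((2 * (Y0 : ℝ) + 4) / (8 * C * W / ε))] with n h2 h3
      rw [div_le_iff₀ h1] at h3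
      have h4 : Real.log (n : ℝ) ≤ Real.log n ^ 2 := by nlinarith
      calc 2 * (Y0 : ℝ) + 4 ≤ Real.log n * (8 * C * W / ε) := h3
        _ ≤ Real.log n ^ 2 * (8 * C * W / ε) := mul_le_mul_of_nonneg_right h4 h1.le
        _ = _ := mul_comm _ _
    filter_upwards [hb, hlarge, tendsto_log.eventually_ge_atTop (1 : ℝ), eventually_ge_atTop 4] with n h1 h2 h3 h4 y hKy hy
    have hyY : Y0 ≤ y ∧ 2 ≤ y := by
      have hy2 : 2 ≤ y := by
        by_contra hcon
        have : y = 0 ∨ y = 1 := by omega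
        rcases this with h | h
        · rw [h] at hKy
          simp at hKy
          have : (0 : ℝ) ≤ Y0 := Nat.cast_nonneg _
          linarith
        · rw [h] at hKy
          simp at hKy
          have : (0 : ℝ) ≤ Y0 := Nat.cast_nonneg _
          linarith
      refine ⟨?_, hy2⟩
      have hy2r : (2 : ℝ) ≤ y := by exact_mod_cast hy2
      have hl : (1 : ℝ) / 2 ≤ Real.log y := by
        have e1 : Real.log 2 ≤ Real.log y := Real.log_le_log (by norm_num) hy2r
        have e2 := Real.log_two_gt_d9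
        norm_num at e2
        linarith
      have e1 : (y : ℝ) / Real.log y ≤ 2 * y := by
        rw [div_le_iff₀ (by linarith)]
        nlinarith
      have e2 : (Y0 : ℝ) ≤ y := by linarith
      exact_mod_cast e2
    by_cases hs : singQ Q n = 0
    · obtain ⟨z1', z2'⟩ := singQ_zero hQ hs
      have hz : RS A n y ω = 0 := by
        unfold RS
        refine Finset.sum_eq_zero fun i hi => ?_
        rw [Finset.mem_range] at hi
        by_cases he : 2 ∣ i + 1
        · rw [hIn _ (by rw [hv _ ⟨2, z1', he⟩]; exact notMem_empty ω), zero_mul]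
        · have he2 : 2 ∣ n - 1 - i := by omega
          rw [hIn (n - 1 - i) (by rw [hv _ ⟨2, z1', he2⟩]; exact notMem_empty ω), mul_zero]
      rw [hz, hs]
      simp
    · obtain ⟨_, ⟨g1, g2⟩, _⟩ := h1 y hyY.1 hy hs
      have hsW : 1 / (W : ℝ) ≤ singQ Q n := singQ_cases Q hQ n hs
      have hy2r : (2 : ℝ) ≤ y := by exact_mod_cast hyY.2
      have hLy : 0 < Real.log (y : ℝ) := Real.log_pos (by linarith)
      set X := singQ Q n * (y / (Real.log n * Real.log y)) with hX
      have hL : 0 < Real.log (n : ℝ) := by linarith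
      have hX0 : 0 ≤ X := mul_nonneg (singQ_bounds Q hQ n).1 (by positivity)
      have hCX : C * Real.log n ≤ ε / 8 * X := by
        have e1 : 8 * C * W / ε * Real.log n ≤ y / (Real.log n * Real.log y) := by
          have : (y : ℝ) / (Real.log n * Real.log y) = y / Real.log y / Real.log n := by field_simp
          rw [this, le_div_iff₀ hL]
          calc 8 * C * W / ε * Real.log n * Real.log n = 8 * C * W / ε * Real.log n ^ 2 := by ring
            _ ≤ _ := hKy
        have e2 : 1 / (W : ℝ) * (8 * C * W / ε * Real.log n) ≤ X :=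
          mul_le_mul hsW e1 (by positivity) (singQ_bounds Q hQ n).1
        have e3 : 1 / (W : ℝ) * (8 * C * W / ε * Real.log n) = 8 * C / ε * Real.log n := by field_simp
        rw [e3] at e2
        calc C * Real.log n = ε / 8 * (8 * C / ε * Real.log n) := by field_simp
          _ ≤ _ := mul_le_mul_of_nonneg_left e2 (by positivity)
      have hεε : ε * X ≤ ε' * X := mul_le_mul_of_nonneg_right (min_le_left _ _) hX0
      refine le_trans ?_ hεε
      rw [abs_le]
      have p1 : 1 - 3 * (ε / 8) ≤ (1 - ε / 8) ^ 3 := by nlinarith [sq_nonneg ε]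
      have p2 : (1 + ε / 8) ^ 3 ≤ 1 + 7 * (ε / 8) := by nlinarith [sq_nonneg ε, mul_nonneg hε0.le hε0.le, mul_nonneg (mul_nonneg hε0.le hε0.le) hε0.le]
      have p3 := mul_le_mul_of_nonneg_right p1 hX0
      have p4 := mul_le_mul_of_nonneg_right p2 hX0
      constructor
      · nlinarith
      · nlinarith
  · -- the least summand
    intro δ' hδ'
    obtain ⟨q, hq⟩ := exists_nat_one_div_lt hδ'
    have hq0 : (0 : ℝ) ≤ q := Nat.cast_nonneg q
    set κ : ℝ := 1 / ((q : ℝ) + 1) with hκ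
    have hκ0 : 0 < κ := by positivity
    have hκ1 : κ ≤ 1 := by
      rw [hκ, div_le_one (by positivity)]
      linarith
    obtain ⟨m, hm⟩ := exists_nat_one_div_lt (show (0 : ℝ) < κ / 64 by positivity)
    have hm0 : (0 : ℝ) ≤ m := Nat.cast_nonneg m
    set θ : ℝ := 1 / ((m : ℝ) + 1) with hθ
    have hθ0 : 0 < θ := by positivity
    obtain ⟨C, hC, Y0, hY3, hb⟩ := basic (κ / 64) (by positivity) (by linarith)
    have hlogs : ∀ᶠ n : ℕ in atTop, Real.log (3 * W) + Real.log (Real.log (Real.log n)) ≤ κ / 4 * Real.log (Real.log n) := by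
      have e1 := (Real.isLittleO_log_id_atTop).bound (show 0 < κ / 8 by positivity)
      filter_upwards [hLL.eventually e1, hLL.eventually_ge_atTop (1 : ℝ), hLL.eventually_ge_atTop (Real.log (3 * W) / (κ / 8))] with n h1 h2 h3
      rw [Real.norm_eq_abs, Real.norm_eq_abs, abs_of_nonneg (Real.log_nonneg h2)] at h1
      simp only [id] at h1
      rw [abs_of_nonneg (by linarith)] at h1
      rw [div_le_iff₀ (by positivity)] at h3
      linarith
    filter_upwards [hb, hEz m q, eventually_ge_atTop 4, logpow_small (2 * (3 * W + 1)),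
      tendsto_log.eventually_ge_atTop (1 : ℝ), tendsto_log.eventually_ge_atTop (c ^ 2 * (Y0 + 1)),
      hLL.eventually_ge_atTop (1 : ℝ), tendsto_log.eventually_ge_atTop (16 * C / κ), hlogs, tendsto_log.eventually_ge_atTop (12 / κ)]
      with n h1 h2 h3 h4 h5 h6 h7 h8 h9 h10 hs
    have hsW : 1 / (W : ℝ) ≤ singQ Q n := singQ_cases Q hQ n hs
    have hsc : singQ Q n ≤ c ^ 2 := (singQ_bounds Q hQ n).2
    have hs0 : 0 < singQ Q n := lt_of_lt_of_le (by positivity) hsW
    set L := Real.log (n : ℝ) with hLdef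
    set LL := Real.log L with hLLdef
    have hL : 0 < L := by linarith
    have hLLpos : 0 < LL := by linarith
    have hLLL : LL ≤ L := by
      have := Real.log_le_sub_one_of_pos hL
      linarith
    set Z := L ^ 2 * LL / singQ Q n with hZ
    have hL2 : L ≤ L ^ 2 := by nlinarith
    have hZ1 : (Y0 : ℝ) + 1 ≤ Z := by
      rw [hZ, le_div_iff₀ hs0]
      calc ((Y0 : ℝ) + 1) * singQ Q n ≤ ((Y0 : ℝ) + 1) * c ^ 2 := mul_le_mul_of_nonneg_left hsc (by positivity)
        _ ≤ L := by linarith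
        _ ≤ L ^ 2 := hL2
        _ ≤ L ^ 2 * LL := le_mul_of_one_le_right (by positivity) h7
    have hZ0 : 0 < Z := by
      have : (0 : ℝ) ≤ Y0 := Nat.cast_nonneg _
      linarith
    have hWs : 1 ≤ W * singQ Q n := by
      rw [div_le_iff₀ (by positivity)] at hsW
      linarith
    have hZ2 : Z ≤ W * (L ^ 2 * LL) := by
      rw [hZ, div_le_iff₀ hs0]
      calc L ^ 2 * LL = L ^ 2 * LL * 1 := (mul_one _).symm
        _ ≤ L ^ 2 * LL * (W * singQ Q n) := mul_le_mul_of_nonneg_left hWs (by positivity)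
        _ = _ := by ring
    set y := yq Q κ n with hydef
    have hyle : (y : ℝ) ≤ (2 + κ) * Z := Nat.floor_le (by positivity)
    have hyge : (2 + κ) * Z < y + 1 := Nat.lt_floor_add_one _
    have hyY : Y0 ≤ y := by
      have : (Y0 : ℝ) < y + 1 := by nlinarith
      have : Y0 < y + 1 := by exact_mod_cast this
      omega
    have hyr : (3 : ℝ) ≤ y := by exact_mod_cast hY3.trans hyY
    have hy3W : (y : ℝ) ≤ 3 * W * (L ^ 2 * LL) := by
      have e1 : (2 + κ) * Z ≤ 3 * (W * (L ^ 2 * LL)) := mul_le_mul (by linarith) hZ2 hZ0.le (by norm_num)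
      linarith
    have hyn : 2 * y + 1 ≤ n := by
      have e1 : L ^ 2 * LL ≤ L ^ 3 := by
        calc L ^ 2 * LL ≤ L ^ 2 * L := mul_le_mul_of_nonneg_left hLLL (by positivity)
          _ = L ^ 3 := by ring
      have e2 : 1 ≤ L ^ 3 := one_le_pow₀ h5
      have e3 : 3 * W * (L ^ 2 * LL) ≤ 3 * W * L ^ 3 := mul_le_mul_of_nonneg_left e1 (by positivity)
      have e4 : ((2 * y + 1 : ℕ) : ℝ) ≤ n := by
        push_cast
        nlinarith
      exact_mod_cast e4
    have hlogy : Real.log y ≤ (2 + κ / 4) * LL := by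
      have e1 : Real.log y ≤ Real.log (3 * W * (L ^ 2 * LL)) := Real.log_le_log (by linarith) hy3W
      have e2 : Real.log (3 * W * (L ^ 2 * LL)) = Real.log (3 * W) + (2 * LL + Real.log LL) := by
        rw [Real.log_mul (show (3 * (W : ℝ)) ≠ 0 by positivity) (show L ^ 2 * LL ≠ 0 by positivity),
          Real.log_mul (show L ^ 2 ≠ 0 by positivity) (show LL ≠ 0 by positivity), Real.log_pow]
        push_cast
        ring
      rw [e2] at e1
      linarith
    have hlogy0 : 0 < Real.log (y : ℝ) := Real.log_pos (by linarith)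
    obtain ⟨g1, _, g3⟩ := h1 y hyY hyn hs
    set X := singQ Q n * (y / (L * Real.log y)) with hX
    have hXlow : (1 + κ / 4) * L ≤ X := by
      have e1 : singQ Q n * (((2 + κ) * Z - 1) / (L * ((2 + κ / 4) * LL))) ≤ X := by
        rw [hX]
        refine mul_le_mul_of_nonneg_left ?_ hs0.le
        refine div_le_div₀ (by linarith) (by linarith) (by positivity) ?_
        exact mul_le_mul_of_nonneg_left hlogy hL.le
      have e2 : singQ Q n * (((2 + κ) * Z - 1) / (L * ((2 + κ / 4) * LL))) = ((2 + κ) * (L ^ 2 * LL) - singQ Q n) / (L * ((2 + κ / 4) * LL)) := by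
        rw [hZ]
        field_simp
      rw [e2] at e1
      refine le_trans ?_ e1
      rw [le_div_iff₀ (by positivity)]
      have e3 : singQ Q n ≤ L := by
        have : c ^ 2 * 1 ≤ c ^ 2 * ((Y0 : ℝ) + 1) := mul_le_mul_of_nonneg_left (by
          have : (0 : ℝ) ≤ Y0 := Nat.cast_nonneg _
          linarith) (by positivity)
        linarith
      have e4 : (1 + κ / 4) * L * (L * ((2 + κ / 4) * LL)) = ((1 + κ / 4) * (2 + κ / 4)) * (L ^ 2 * LL) := by ring
      have e5 : (1 + κ / 4) * (2 + κ / 4) ≤ 2 + κ - κ / 6 := by nlinarith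
      have e6 := mul_le_mul_of_nonneg_right e5 (show 0 ≤ L ^ 2 * LL by positivity)
      have e7 : L ≤ κ / 6 * (L ^ 2 * LL) := by
        have f1 : 12 / κ ≤ L := h10
        rw [div_le_iff₀ hκ0] at f1
        have f2 : L ≤ L * LL := le_mul_of_one_le_right hL.le h7
        have f3 : L * 1 ≤ L * (κ / 6 * L) := mul_le_mul_of_nonneg_left (by linarith) hL.le
        have f4 : L * (κ / 6 * L) ≤ L * (κ / 6 * (L * LL)) :=
          mul_le_mul_of_nonneg_left (mul_le_mul_of_nonneg_left f2 (by positivity)) hL.le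
        calc L = L * 1 := (mul_one _).symm
          _ ≤ _ := f3.trans f4
          _ = _ := by ring
      rw [e4]
      nlinarith
    by_contra hcon
    push Not at hcon
    have hR0 : RS A n y ω = 0 := by
      unfold RS
      refine Finset.sum_eq_zero fun i hi => ?_
      rw [Finset.mem_range] at hi
      have hi1 : (i : ℝ) + 1 ≤ y := by exact_mod_cast hi
      have hi2 : (i : ℝ) + 1 ≤ (2 + δ') * Z := by
        have e2 : κ * Z ≤ δ' * Z := mul_le_mul_of_nonneg_right hq.le hZ0.le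
        nlinarith
      by_cases ha : ω ∈ A (i + 1)
      · have := hcon i (by omega) hi2 ha
        rw [hIn (n - 1 - i) this, mul_zero]
      · rw [hIn _ ha, zero_mul]
    have hz := no_pairS (μ := μ) (ρ := rhoW W) (ε := κ / 64 / 3) (m := m) hyn g3 (h2 hyn) hR0
    have hη : 0 ≤ 1 - κ / 64 := by linarith
    set T := TS A (rhoW W) n y ω
    have e1 : (1 - κ / 64) ^ 2 * ((1 + κ / 4) * L) - C ≤ T := by
      have := mul_le_mul_of_nonneg_left hXlow (sq_nonneg (1 - κ / 64))
      linarith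
    have e2 : (1 - κ / 64) * ((1 - κ / 64) * ((1 - κ / 64) ^ 2 * ((1 + κ / 4) * L) - C)) < (1 + κ / 64) * L := by
      by_cases hT : 0 ≤ T
      · have f1 : (1 - κ / 64 / 3) * T ≥ (1 - κ / 64) * T :=
          mul_le_mul_of_nonneg_right (by linarith) hT
        have f1' : (1 - κ / 64) * T ≥ (1 - κ / 64) * ((1 - κ / 64) ^ 2 * ((1 + κ / 4) * L) - C) :=
          mul_le_mul_of_nonneg_left e1 hη
        have f2 : (1 - κ / 64) * ((1 - κ / 64 / 3) * T) ≤ (1 - θ) * ((1 - κ / 64 / 3) * T) :=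
          mul_le_mul_of_nonneg_right (by linarith) (mul_nonneg (by linarith) hT)
        have f3 := mul_le_mul_of_nonneg_left (f1'.le.trans f1.le) hη
        have f4 : (1 + θ) * L ≤ (1 + κ / 64) * L := mul_le_mul_of_nonneg_right (by linarith) hL.le
        linarith
      · have f1 : (1 - κ / 64) ^ 2 * ((1 + κ / 4) * L) - C < 0 := by linarith [not_le.1 hT]
        have f2 : (1 - κ / 64) * ((1 - κ / 64) * ((1 - κ / 64) ^ 2 * ((1 + κ / 4) * L) - C)) ≤ 0 :=
          mul_nonpos_of_nonneg_of_nonpos hη (mul_nonpos_of_nonneg_of_nonpos hη f1.le)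
        have f3 : 0 < (1 + κ / 64) * L := by positivity
        linarith
    have e3 : (1 - κ / 64) ^ 4 * (1 + κ / 4) * L - C < (1 + κ / 64) * L := by
      have f1 : (1 - κ / 64) * ((1 - κ / 64) * ((1 - κ / 64) ^ 2 * ((1 + κ / 4) * L) - C)) =
        (1 - κ / 64) ^ 4 * (1 + κ / 4) * L - (1 - κ / 64) ^ 2 * C := by ring
      have f2 : (1 - κ / 64) ^ 2 * C ≤ 1 * C := mul_le_mul_of_nonneg_right (pow_le_one₀ hη (by linarith)) hC.le
      rw [f1] at e2
      linarith
    have e4 : 1 + κ / 8 ≤ (1 - κ / 64) ^ 4 * (1 + κ / 4) := by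
      have f1 : 1 - 4 * (κ / 64) ≤ (1 - κ / 64) ^ 4 := by
        have := one_add_mul_le_pow (show (-2 : ℝ) ≤ -(κ / 64) by linarith) 4
        norm_num at this
        have g : (1 + -(κ / 64)) ^ 4 = (1 - κ / 64) ^ 4 := by ring
        linarith
      have f2 := mul_le_mul_of_nonneg_right f1 (show 0 ≤ 1 + κ / 4 by linarith)
      nlinarith
    have e5 := mul_le_mul_of_nonneg_right e4 hL.le
    have e6 : 16 * C / κ ≤ L := h8
    rw [div_le_iff₀ hκ0] at e6
    nlinarith

end Pool.Agent.N893.SM
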