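import Mathlib
import Pool.Agent.N893.SM.W3

set_option autoImplicit false
set_option linter.unusedSectionVars false
set_option linter.unusedVariables false

/-! # The least chosen integer in progressions: the lower bound theorem -/

open MeasureTheory Filter Set
open scoped ENNReal Topology

namespace Pool.Agent.N893.SM

open Pool.Agent.R528.RM

variable {Ω : Type} {m0 : MeasurableSpace Ω} {μ : Measure Ω} [IsProbabilityMeasure μ]
  {ℱ : Filtration ℕ m0} {A : ℕ → Set Ω}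

/-- the radius -/
noncomputable def XX (Q : Finset ℕ) (q d : ℕ) : ℕ := ⌊(1 - 1 / ((q : ℝ) + 2)) * phiQ Q d * Real.log d ^ 2⌋₊

/-- the special classes -/
lemma special (Q : Finset ℕ) (hQ : ∀ p ∈ Q, p.Prime) {d : ℕ} (hd : 8 * (∏ p ∈ Q, p) ≤ d) :
    ∀ j < d / (4 * ∏ p ∈ Q, p), 1 + (j + d / (2 * ∏ p ∈ Q, p)) * (∏ p ∈ Q, p) < d ∧
      d ≤ 4 * (1 + (j + d / (2 * ∏ p ∈ Q, p)) * (∏ p ∈ Q, p)) ∧ Ad Q d (1 + (j + d / (2 * ∏ p ∈ Q, p)) * (∏ p ∈ Q, p)) := by
  intro j hj
  have hW : 0 < ∏ p ∈ Q, p := Finset.prod_pos fun q hq => (hQ q hq).pos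
  set W := ∏ p ∈ Q, p with hWdef
  have h1 : d / (4 * W) * (4 * W) ≤ d := Nat.div_mul_le_self _ _
  have h2 : d / (2 * W) * (2 * W) ≤ d := Nat.div_mul_le_self _ _
  have h3 : d < (d / (2 * W) + 1) * (2 * W) := Nat.lt_mul_of_div_lt (Nat.lt_succ_self _) (by positivity)
  set u := d / (2 * W)
  set v := d / (4 * W)
  have h4 : (j + 1) * W ≤ v * W := Nat.mul_le_mul_right W hj
  refine ⟨?_, ?_, ?_⟩
  · have e1 : v * (4 * W) = 4 * (v * W) := by ring
    have e2 : u * (2 * W) = 2 * (u * W) := by ring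
    have e3 : (j + u) * W = j * W + u * W := by ring
    have e4 : (j + 1) * W = j * W + W := by ring
    omega
  · have e2 : (u + 1) * (2 * W) = 2 * (u * W) + 2 * W := by ring
    have e3 : (j + u) * W = j * W + u * W := by ring
    omega
  · intro p hp h
    have hpW : p ∣ W := Finset.dvd_prod_of_mem _ hp
    have := (Nat.dvd_add_left (hpW.mul_left (j + u))).1 h.1
    exact (hQ p hp).one_lt.ne' (Nat.dvd_one.1 this)

/-- **some class is missed** -/
theorem lowerW (hA : ∀ n, MeasurableSet[ℱ n] (A n)) (Q : Finset ℕ) (hQ : ∀ p ∈ Q, p.Prime)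
    (hd : ∀ᵐ ω ∂μ, ∀ ε : ℝ, 0 < ε → ∀ᶠ n : ℕ in atTop,
      |dens μ ℱ A n ω - rhoW (∏ p ∈ Q, p) (n + 1)| ≤ ε * rhoW (∏ p ∈ Q, p) (n + 1)) :
    ∀ᵐ ω ∂μ, ∀ q : ℕ, ∀ᶠ d : ℕ in atTop, ∃ a < d, Ad Q d a ∧ ∀ n, 1 ≤ n → n ≤ XX Q q d → n % d = a → ω ∉ A n := by
  classical
  set W := ∏ p ∈ Q, p with hWdef
  have hW : 0 < W := Finset.prod_pos fun q hq => (hQ q hq).pos
  have hWr : (1 : ℝ) ≤ W := by exact_mod_cast hW
  set c := (W : ℝ) / Nat.totient W with hc
  have hc1 : 1 ≤ c := c_one hW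
  have h01 : ∀ᵐ ω ∂μ, ∀ n, 0 ≤ dens μ ℱ A n ω ∧ dens μ ℱ A n ω ≤ 1 := ae_all_iff.2 fun n => dens01 hA n
  have hE : ∀ᵐ ω ∂μ, ∀ q m : ℕ, ∀ᶠ d : ℕ in atTop,
      Gx μ ℱ A (1 / ((m : ℝ) + 1) / 3) (fun n => n + 1) (ww A Q (rd W (1 / ((m : ℝ) + 1))) d (XX Q q d)) (XX Q q d) ω < 2 * Real.log d :=
    ae_all_iff.2 fun q => ae_all_iff.2 fun m => errE hA Q (rd01 W (by positivity)) _ _
  filter_upwards [h01, hE, hd] with ω h01 hE hd q
  have hq0 : (0 : ℝ) ≤ q := Nat.cast_nonneg q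
  set κ : ℝ := 1 / ((q : ℝ) + 2) with hκ
  have hκ0 : 0 < κ := by positivity
  have hκ1 : κ ≤ 1 / 2 := by
    rw [hκ]
    exact one_div_le_one_div_of_le (by norm_num) (by linarith)
  obtain ⟨m, hm⟩ := exists_nat_one_div_lt (show (0 : ℝ) < κ / 6 by positivity)
  have hm0 : (0 : ℝ) ≤ m := Nat.cast_nonneg m
  set δ : ℝ := 1 / ((m : ℝ) + 1) with hδ
  have hδ0 : 0 < δ := by positivity
  have hδ1 : δ ≤ 1 / 12 := by linarith
  -- the exponent
  have hexp : (1 + δ) * ((1 + δ) * (1 - κ)) ≤ 1 - κ / 2 := by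
    have a1 : (1 + δ) * (1 + δ) ≤ 1 + κ / 2 := by nlinarith
    have a2 := mul_le_mul_of_nonneg_right a1 (show 0 ≤ 1 - κ by linarith)
    nlinarith [sq_nonneg κ]
  -- closeness
  have hρ0 : ∀ᶠ n : ℕ in atTop, (1 + δ) * rhoW W (n + 1) ≤ 1 := by
    have h1 : Tendsto (fun n : ℕ => Real.log ((n + 1 : ℕ) : ℝ)) atTop atTop := tendsto_log.comp (tendsto_add_atTop_nat 1)
    filter_upwards [h1.eventually_ge_atTop (2 * c), h1.eventually_gt_atTop 0] with n h2 h3
    have e1 : rhoW W (n + 1) ≤ c / Real.log ((n + 1 : ℕ) : ℝ) := (rhoW_le_bb W _).trans (min_le_right _ _)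
    have e2 : c / Real.log ((n + 1 : ℕ) : ℝ) ≤ 1 / 2 := by
      rw [div_le_iff₀ h3]
      linarith
    nlinarith [rhoW_nonneg W (n + 1)]
  obtain ⟨N, hN⟩ := eventually_atTop.1 ((hd (δ / 3) (by positivity)).and hρ0)
  -- growth
  have hgrow : ∀ᶠ d : ℕ in atTop, 8 * W * Real.exp 3 * (2 * N + 2 * Real.log d / (δ / 3) + 1) ≤ (d : ℝ) ^ (κ / 2) := by
    have h1 : Tendsto (fun d : ℕ => (d : ℝ) ^ (κ / 2)) atTop atTop :=
      (tendsto_rpow_atTop (by positivity)).comp tendsto_natCast_atTop_atTop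
    have h2 := (isLittleO_log_rpow_atTop (show 0 < κ / 2 by positivity)).bound
      (show 0 < 1 / (2 * (8 * W * Real.exp 3 * (6 / δ))) by positivity)
    filter_upwards [h1.eventually_ge_atTop (2 * (8 * W * Real.exp 3 * (2 * N + 1))), tendsto_natCast_atTop_atTop.eventually h2,
      eventually_ge_atTop 1] with d h3 h4 h5
    have hd1 : (1 : ℝ) ≤ d := by exact_mod_cast h5
    rw [Real.norm_eq_abs, Real.norm_eq_abs, abs_of_nonneg (Real.log_nonneg hd1), abs_of_nonneg (by positivity)] at h4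
    have e1 : 8 * W * Real.exp 3 * (6 / δ) * Real.log d ≤ (d : ℝ) ^ (κ / 2) / 2 := by
      calc 8 * W * Real.exp 3 * (6 / δ) * Real.log d ≤ 8 * W * Real.exp 3 * (6 / δ) * (1 / (2 * (8 * W * Real.exp 3 * (6 / δ))) * (d : ℝ) ^ (κ / 2)) :=
            mul_le_mul_of_nonneg_left h4 (by positivity)
        _ = (d : ℝ) ^ (κ / 2) / 2 := by field_simp
    have e2 : 8 * W * Real.exp 3 * (2 * N + 2 * Real.log d / (δ / 3) + 1) = 8 * W * Real.exp 3 * (2 * N + 1) + 8 * W * Real.exp 3 * (6 / δ) * Real.log d := by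
      field_simp
      ring
    rw [e2]
    linarith
  filter_upwards [hE q m, hgrow, eventually_ge_atTop (8 * W), eventually_ge_atTop 100,
    tendsto_log.eventually_ge_atTop (4 * c * (1 + δ) * (1 + δ) / δ), tendsto_log.eventually_ge_atTop (1 : ℝ),
    tendsto_log.eventually_ge_atTop (2 * c + W + c * W), tendsto_log.eventually_ge_atTop (2 * Real.log 4)]
    with d hG hgr hd8 hd100 hlog1 hlog2 hlog3 hlog4
  have hdr : (100 : ℝ) ≤ d := by exact_mod_cast hd100
  have hdp : (0 : ℝ) < d := by linarith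
  set L := Real.log (d : ℝ) with hL
  have hLp : 0 < L := by linarith
  obtain ⟨p1, p2⟩ := phiQ_bounds Q hQ d
  have hphi : 0 < phiQ Q d := lt_of_lt_of_le (by positivity) p1
  have hend := Ph_end (μ := μ) (ℱ := ℱ) (A := A) Q h01 (W := W) (δ := δ) (θ := δ / 3) (ε := δ / 3) (t := 2 * L)
    (by positivity) (by linarith) hδ0.le (by nlinarith) (N := N) (fun n hn => (hN n hn).1) (fun n hn => (hN n hn).2)
    (d := d) (X := XX Q q d) (by omega) hG
  -- the initial value
  set X := XX Q q d with hX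
  have hXle : (X : ℝ) ≤ (1 - κ) * phiQ Q d * L ^ 2 := Nat.floor_le (by
    have : 0 ≤ 1 - κ := by linarith
    positivity)
  have hinit : (d : ℝ) / (8 * W) * Real.exp (-((1 - κ / 2) * L + 3)) ≤ Ph A Q (rd W δ) d X 0 ω := by
    unfold Ph
    have hinj : Function.Injective (fun j : ℕ => 1 + (j + d / (2 * W)) * W) := by
      intro x y hxy
      simp only at hxy
      have h1 : (x + d / (2 * W)) * W = (y + d / (2 * W)) * W := by omega
      have h2 := Nat.eq_of_mul_eq_mul_right hW h1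
      omega
    have hsub : (Finset.range (d / (4 * W))).map ⟨_, hinj⟩ ⊆ (Finset.range d).filter (Ad Q d) := by
      intro a ha
      obtain ⟨j, hj, rfl⟩ := Finset.mem_map.1 ha
      obtain ⟨s1, s2, s3⟩ := special Q hQ hd8 j (Finset.mem_range.1 hj)
      exact Finset.mem_filter.2 ⟨Finset.mem_range.2 s1, s3⟩
    refine le_trans ?_ (Finset.sum_le_sum_of_subset_of_nonneg hsub fun a _ _ => mul_nonneg (Em01 _ _ _ _).1 (Fm01 (rd01 W hδ0.le) _ _ _ _).1)
    rw [Finset.sum_map]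
    have hterm : ∀ j ∈ Finset.range (d / (4 * W)), Real.exp (-((1 - κ / 2) * L + 3)) ≤
        Em A d 0 ((⟨_, hinj⟩ : ℕ ↪ ℕ) j) ω * Fm (rd W δ) d X 0 ((⟨_, hinj⟩ : ℕ ↪ ℕ) j) := by
      intro j hj
      obtain ⟨s1, s2, s3⟩ := special Q hQ hd8 j (Finset.mem_range.1 hj)
      have hEm : Em A d 0 ((⟨_, hinj⟩ : ℕ ↪ ℕ) j) ω = 1 := by
        unfold Em
        simp
      rw [hEm, one_mul]
      show Real.exp (-((1 - κ / 2) * L + 3)) ≤ Fm (rd W δ) d X 0 (1 + (j + d / (2 * W)) * W)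
      set a := 1 + (j + d / (2 * W)) * W with ha
      have ha4 : (d : ℝ) / 4 ≤ a := by
        have : (d : ℝ) ≤ 4 * a := by exact_mod_cast s2
        linarith
      have hloga : L / 2 ≤ Real.log a := by
        have e1 : Real.log ((d : ℝ) / 4) ≤ Real.log a := Real.log_le_log (by linarith) ha4
        rw [Real.log_div hdp.ne' (by norm_num)] at e1
        linarith
      have hsm : (1 + δ) * ((1 + δ) * (c / (L / 2))) ≤ δ := by
        rw [div_le_iff₀ hδ0] at hlog1
        have e1 : (1 + δ) * ((1 + δ) * (c / (L / 2))) = (2 * c * (1 + δ) * (1 + δ)) / L := by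
          field_simp
        rw [e1, div_le_iff₀ hLp]
        have : 0 ≤ 2 * c * (1 + δ) * (1 + δ) := by positivity
        linarith
      refine le_trans (Real.exp_le_exp.2 (neg_le_neg ?_)) (Fm_low Q hQ hδ0.le (by omega) s1 (by omega) s3 (by positivity) hloga hsm)
      have e1 : ((X : ℝ) / d + 1) * (d / phiQ Q d) ≤ (1 - κ) * L ^ 2 + W := by
        have f1 : (X : ℝ) / d * (d / phiQ Q d) = X / phiQ Q d := by field_simp
        have f2 : (X : ℝ) / phiQ Q d ≤ (1 - κ) * L ^ 2 := by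
          rw [div_le_iff₀ hphi]
          linarith
        have f3 : d / phiQ Q d ≤ W := by
          rw [div_le_iff₀ hphi]
          rw [div_le_iff₀ (by positivity)] at p1
          linarith
        rw [add_mul, one_mul, f1]
        linarith
      have e2 : c / (L / 2) + (((X : ℝ) / d + 1) * (d / phiQ Q d) + c * W) / L ≤ (1 - κ) * L + 1 := by
        have f1 : c / (L / 2) + (((X : ℝ) / d + 1) * (d / phiQ Q d) + c * W) / L = (2 * c + ((X : ℝ) / d + 1) * (d / phiQ Q d) + c * W) / L := by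
          field_simp
          ring
        rw [f1, div_le_iff₀ hLp]
        nlinarith
      have e3 : (1 + δ) * ((1 + δ) * (c / (L / 2) + (((X : ℝ) / d + 1) * (d / phiQ Q d) + c * W) / L)) ≤ (1 + δ) * ((1 + δ) * ((1 - κ) * L + 1)) :=
        mul_le_mul_of_nonneg_left (mul_le_mul_of_nonneg_left e2 (by linarith)) (by linarith)
      have e4 : (1 + δ) * ((1 + δ) * ((1 - κ) * L + 1)) = (1 + δ) * ((1 + δ) * (1 - κ)) * L + (1 + δ) * (1 + δ) := by ring
      have e5 := mul_le_mul_of_nonneg_right hexp hLp.le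
      nlinarith
    have hcard := Finset.sum_le_sum hterm
    rw [Finset.sum_const, Finset.card_range, nsmul_eq_mul] at hcard
    refine le_trans (mul_le_mul_of_nonneg_right ?_ (Real.exp_pos _).le) hcard
    -- d / (8 W) ≤ ⌊d / (4 W)⌋
    have e1 : d < (d / (4 * W) + 1) * (4 * W) := Nat.lt_mul_of_div_lt (Nat.lt_succ_self _) (by positivity)
    have e2 : (d : ℝ) < (((d / (4 * W) : ℕ) : ℝ) + 1) * (4 * W) := by exact_mod_cast e1
    have e3 : (8 : ℝ) * W ≤ d := by exact_mod_cast hd8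
    rw [div_le_iff₀ (by positivity)]
    nlinarith
  -- conclusion
  have hpos : 0 < Ph A Q (rd W δ) d X X ω := by
    refine lt_of_lt_of_le ?_ hend
    have e1 : (d : ℝ) / (8 * W) * Real.exp (-((1 - κ / 2) * L + 3)) = (d : ℝ) ^ (κ / 2) / (8 * W * Real.exp 3) := by
      have f1 : Real.exp (-((1 - κ / 2) * L + 3)) = (d : ℝ) ^ (κ / 2) / d / Real.exp 3 := by
        have g1 : Real.exp L = d := Real.exp_log hdp
        calc Real.exp (-((1 - κ / 2) * L + 3)) = Real.exp (L * (κ / 2) - L - 3) := by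
              congr 1
              ring
          _ = Real.exp (L * (κ / 2)) / Real.exp L / Real.exp 3 := by rw [Real.exp_sub, Real.exp_sub]
          _ = (d : ℝ) ^ (κ / 2) / d / Real.exp 3 := by rw [Real.rpow_def_of_pos hdp, g1]
      rw [f1]
      field_simp
    rw [e1] at hinit
    have e2 : 2 * N + 2 * L / (δ / 3) + 1 ≤ (d : ℝ) ^ (κ / 2) / (8 * W * Real.exp 3) := by
      rw [le_div_iff₀ (by positivity)]
      linarith
    linarith
  -- extract the class
  unfold Ph at hpos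
  obtain ⟨a, ha, hne⟩ := Finset.exists_ne_zero_of_sum_ne_zero hpos.ne'
  rw [Finset.mem_filter, Finset.mem_range] at ha
  refine ⟨a, ha.1, ha.2, fun n hn1 hnX hna hmem => ?_⟩
  apply hne
  have : Em A d X a ω = 0 := by
    unfold Em
    refine Finset.prod_eq_zero (Finset.mem_range.2 (show n - 1 < X by omega)) ?_
    rw [Nat.sub_add_cancel hn1, if_pos hna]
    have : In A n ω = 1 := indicator_of_mem hmem _
    rw [this, sub_self]
  rw [this, zero_mul]

end Pool.Agent.N893.SM
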